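import Pool.Agent.Lib.GCH.ApU

/-!
# Module GCH.ApM: the rounds of the machine (MP_f1c4ef_lc)

PROOFS. `rnd_mid`: induction on `s ≤ ℓ = lc X q.c q.d`: at time `t + s` the positions are `hd q s` and the state is
`some (decide (s = 0), decide (∀ s' < s, X (a + s') = X (b + s')), decide (∀ s' < s, X (a + s') = X (b - 1 + s')))`.
Step `s → s + 1 ≤ ℓ`: the letters under the heads `9`, `10` are `X (c + s)`, `X (d + s)`, equal since `s < ℓ` (`lc_eq`), so
`sr = id`, the heads `6, ..., 10` move. (Heads: `funext j; fin_cases j <;> simp`.)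
`rnd_end`: at time `t + ℓ` the letters under `9`, `10` differ (`lc_spec`). The first flag with the present letters is
`∀ s ≤ ℓ, X (a + s) = X (b + s)`, i.e. `ℓ < lc X a b` (if `lc X a b ≤ ℓ` use `lc_spec` for `a < b`; conversely `lc_eq`). The second
one is `∀ s ≤ ℓ, X (a + s) = X (b - 1 + s)`: true if `a + 1 = b` (`a = b - 1`); if `a < b - 1` it is false: `b - 1 < b`, so
`lc X a (b - 1) ≤ ℓ` by the invariant and `lc_spec`. In the three cases the new positions are `hd (qs X q) 0` (`fin_cases`;
`b + 1 - 1 = b`).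
`fr_time`: at time `1` the configuration is `(some (true, true, true), hd ⟨0, 1, 0, 1⟩ 0)`; induction on `r` with `q_inv`, `rnd_end`.
`fr_no`: `Tm X r < t < Tm X (r + 1)`: `t = Tm X r + s`, `0 < s ≤ ℓ`: `rnd_mid`.
-/

set_option autoImplicit false

namespace Pool.Agent.Lib.GCH

variable {m : ℕ} {X : ℕ → Fin m}

namespace ApMAux

theorem step_mid {q : Qd} {s : ℕ} (hcd : X (q.c + s) = X (q.d + s)) (f e e' : Bool) :
    (MM m).stp X (some (f, e, e'), hd q s) =
      (some (false, e && decide (X (q.a + s) = X (q.b + s)),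
        e' && decide (X (q.a + s) = X (q.b - 1 + s))), hd q (s + 1)) := by
  have h9 : (rd X ((some (f, e, e') : Qt), hd q s)).2 9 = (rd X ((some (f, e, e') : Qt), hd q s)).2 10 := by
    simpa [rd, hd] using hcd
  have h1 : (MM m).nx (rd X ((some (f, e, e') : Qt), hd q s)) =
      some (false, e && decide (X (q.a + s) = X (q.b + s)),
        e' && decide (X (q.a + s) = X (q.b - 1 + s))) := by
    show (if (rd X ((some (f, e, e') : Qt), hd q s)).2 9 =
        (rd X ((some (f, e, e') : Qt), hd q s)).2 10 then _ else _) = _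
    rw [if_pos h9]
    rfl
  have h2 : (MM m).sr (rd X ((some (f, e, e') : Qt), hd q s)) = id := by
    show (if (rd X ((some (f, e, e') : Qt), hd q s)).2 9 =
        (rd X ((some (f, e, e') : Qt), hd q s)).2 10 then _ else _) = _
    rw [if_pos h9]
  have h3 : (MM m).mv (rd X ((some (f, e, e') : Qt), hd q s)) =
      ![false, false, false, false, false, false, true, true, true, true, true] := by
    show (if (rd X ((some (f, e, e') : Qt), hd q s)).2 9 =
        (rd X ((some (f, e, e') : Qt), hd q s)).2 10 then _ else _) = _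
    rw [if_pos h9]
  unfold MH.stp
  rw [h1, h2, h3]
  refine Prod.ext rfl ?_
  funext j
  fin_cases j <;> simp [hd, add_assoc]

theorem step_end {q : Qd} {s : ℕ} (hcd : X (q.c + s) ≠ X (q.d + s)) (f e e' : Bool) :
    (MM m).stp X (some (f, e, e'), hd q s) =
      (some (true, true, true), hd (if (e && decide (X (q.a + s) = X (q.b + s))) = true then
        ⟨0, q.b + 1, q.a, q.b⟩
        else if (e' && decide (X (q.a + s) = X (q.b - 1 + s))) = true then ⟨0, q.b + 1, q.c, q.d⟩
        else ⟨q.a + 1, q.b, q.c, q.d⟩) 0) := by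
  have h9 : ¬ (rd X ((some (f, e, e') : Qt), hd q s)).2 9 =
      (rd X ((some (f, e, e') : Qt), hd q s)).2 10 := by
    simpa [rd, hd] using hcd
  have h1 : (MM m).nx (rd X ((some (f, e, e') : Qt), hd q s)) = some (true, true, true) := by
    show (if (rd X ((some (f, e, e') : Qt), hd q s)).2 9 =
        (rd X ((some (f, e, e') : Qt), hd q s)).2 10 then _ else _) = _
    rw [if_neg h9]
  have h2 : (MM m).sr (rd X ((some (f, e, e') : Qt), hd q s)) =
      (if (e && decide (X (q.a + s) = X (q.b + s))) = true then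
        ![0, 0, 2, 2, 1, 2, 0, 2, 2, 1, 2]
      else if (e' && decide (X (q.a + s) = X (q.b - 1 + s))) = true then
        ![0, 0, 2, 2, 4, 5, 0, 2, 2, 4, 5]
      else ![0, 1, 2, 3, 4, 5, 1, 2, 3, 4, 5]) := by
    show (if (rd X ((some (f, e, e') : Qt), hd q s)).2 9 =
        (rd X ((some (f, e, e') : Qt), hd q s)).2 10 then _ else _) = _
    rw [if_neg h9]
    rfl
  have h3 : (MM m).mv (rd X ((some (f, e, e') : Qt), hd q s)) =
      (if (e && decide (X (q.a + s) = X (q.b + s))) = true then
        ![false, false, true, false, false, false, false, true, false, false, false]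
      else if (e' && decide (X (q.a + s) = X (q.b - 1 + s))) = true then
        ![false, false, true, false, false, false, false, true, false, false, false]
      else ![false, true, false, false, false, false, true, false, false, false, false]) := by
    show (if (rd X ((some (f, e, e') : Qt), hd q s)).2 9 =
        (rd X ((some (f, e, e') : Qt), hd q s)).2 10 then _ else _) = _
    rw [if_neg h9]
    rfl
  unfold MH.stp
  rw [h1, h2, h3]
  refine Prod.ext rfl ?_
  by_cases hc1 : (e && decide (X (q.a + s) = X (q.b + s))) = true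
  · simp only [if_pos hc1]
    funext j
    fin_cases j <;> simp [hd]
  · by_cases hc2 : (e' && decide (X (q.a + s) = X (q.b - 1 + s))) = true
    · simp only [if_neg hc1, if_pos hc2]
      funext j
      fin_cases j <;> simp [hd]
    · simp only [if_neg hc1, if_neg hc2]
      funext j
      fin_cases j <;> simp [hd]

end ApMAux

open Classical in
theorem rnd_mid (h : NP X) {q : Qd} (hq : Inv X q) {t : ℕ}
    (ht : (MM m).cf X t = (some (true, true, true), hd q 0)) {s : ℕ} (hs : s ≤ lc X q.c q.d) :
    (MM m).cf X (t + s) = (some (decide (s = 0), decide (∀ s' < s, X (q.a + s') = X (q.b + s')),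
      decide (∀ s' < s, X (q.a + s') = X (q.b - 1 + s'))), hd q s) := by
  induction s with
  | zero => simpa using ht
  | succ s ih =>
    have ih' := ih (by omega)
    have hcd : X (q.c + s) = X (q.d + s) := lc_eq (by omega)
    have e1 : (MM m).cf X (t + (s + 1)) = (MM m).stp X ((MM m).cf X (t + s)) := rfl
    rw [e1, ih', ApMAux.step_mid hcd]
    have key : ∀ (P : ℕ → Prop), (decide (∀ s' < s, P s') && decide (P s)) =
        decide (∀ s' < s + 1, P s') := by
      intro P
      rw [Bool.eq_iff_iff]
      simp only [Bool.and_eq_true, decide_eq_true_eq]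
      constructor
      · rintro ⟨h1, h2⟩ s' hs'
        rcases Nat.lt_succ_iff_lt_or_eq.mp hs' with h3 | h3
        · exact h1 s' h3
        · rw [h3]; exact h2
      · intro h1
        exact ⟨fun s' hs' => h1 s' (by omega), h1 s (by omega)⟩
    have k1 := key (fun s' => X (q.a + s') = X (q.b + s'))
    have k2 := key (fun s' => X (q.a + s') = X (q.b - 1 + s'))
    refine Prod.ext ?_ rfl
    show some (false, _, _) = some (decide (s + 1 = 0), _, _)
    congr 1
    refine Prod.ext (by simp) (Prod.ext ?_ ?_)
    · show (decide (∀ s' < s, X (q.a + s') = X (q.b + s')) && decide (X (q.a + s) = X (q.b + s))) =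
        decide (∀ s' < s + 1, X (q.a + s') = X (q.b + s'))
      rw [Bool.eq_iff_iff] at k1 ⊢
      simpa only [Bool.and_eq_true, decide_eq_true_eq] using k1
    · show (decide (∀ s' < s, X (q.a + s') = X (q.b - 1 + s')) &&
        decide (X (q.a + s) = X (q.b - 1 + s))) =
        decide (∀ s' < s + 1, X (q.a + s') = X (q.b - 1 + s'))
      rw [Bool.eq_iff_iff] at k2 ⊢
      simpa only [Bool.and_eq_true, decide_eq_true_eq] using k2

theorem rnd_end (h : NP X) {q : Qd} (hq : Inv X q) {t : ℕ}
    (ht : (MM m).cf X t = (some (true, true, true), hd q 0)) :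
    (MM m).cf X (t + lc X q.c q.d + 1) = (some (true, true, true), hd (qs X q) 0) := by
  classical
  have e1 : (MM m).cf X (t + lc X q.c q.d + 1) =
      (MM m).stp X ((MM m).cf X (t + lc X q.c q.d)) := rfl
  have hcd : X (q.c + lc X q.c q.d) ≠ X (q.d + lc X q.c q.d) := lc_spec h hq.1
  rw [e1, rnd_mid h hq ht le_rfl, ApMAux.step_end hcd]
  obtain ⟨hcd', hab, hinv, hinv2⟩ := hq
  set l := lc X q.c q.d with hl
  have c1 : (decide (∀ s' < l, X (q.a + s') = X (q.b + s')) &&
      decide (X (q.a + l) = X (q.b + l))) = true ↔ l < lc X q.a q.b := by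
    simp only [Bool.and_eq_true, decide_eq_true_eq]
    constructor
    · rintro ⟨h1, h2⟩
      by_contra hcon
      push Not at hcon
      rcases Nat.lt_or_eq_of_le hcon with h3 | h3
      · exact lc_spec h hab (h1 _ h3)
      · rw [← h3] at h2
        exact lc_spec h hab h2
    · intro h1
      exact ⟨fun s' hs' => lc_eq (by omega), lc_eq h1⟩
  have c2 : (decide (∀ s' < l, X (q.a + s') = X (q.b - 1 + s')) &&
      decide (X (q.a + l) = X (q.b - 1 + l))) = true ↔ q.a + 1 = q.b := by
    simp only [Bool.and_eq_true, decide_eq_true_eq]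
    constructor
    · rintro ⟨h1, h2⟩
      by_contra hcon
      have h3 : q.a < q.b - 1 := by omega
      have h4 : lc X q.a (q.b - 1) ≤ l := hinv _ _ h3 (by omega)
      rcases Nat.lt_or_eq_of_le h4 with h5 | h5
      · exact lc_spec h h3 (h1 _ h5)
      · rw [← h5] at h2
        exact lc_spec h h3 h2
    · intro h1
      have h2 : q.b - 1 = q.a := by omega
      rw [h2]
      exact ⟨fun _ _ => rfl, rfl⟩
  have hqs : qs X q = if l < lc X q.a q.b then ⟨0, q.b + 1, q.a, q.b⟩
      else if q.a + 1 = q.b then ⟨0, q.b + 1, q.c, q.d⟩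
      else ⟨q.a + 1, q.b, q.c, q.d⟩ := by
    unfold qs
    rw [← hl]
  rw [hqs]
  by_cases hc1 : l < lc X q.a q.b
  · rw [if_pos (c1.mpr hc1), if_pos hc1]
  · rw [if_neg (fun h' => hc1 (c1.mp h')), if_neg hc1]
    by_cases hc2 : q.a + 1 = q.b
    · rw [if_pos (c2.mpr hc2), if_pos hc2]
    · rw [if_neg (fun h' => hc2 (c2.mp h')), if_neg hc2]

theorem fr_time (h : NP X) (r : ℕ) :
    (MM m).cf X (Tm X r) = (some (true, true, true), hd (Qn X r) 0) := by
  induction r with
  | zero =>
    show (MM m).stp X ((MM m).q0, fun _ => 0) = _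
    unfold MH.stp
    refine Prod.ext rfl ?_
    funext j
    fin_cases j <;> rfl
  | succ r ih =>
    exact rnd_end h (q_inv h r) ih

theorem fr_no (h : NP X) {r t : ℕ} (h1 : Tm X r < t) (h2 : t < Tm X (r + 1)) :
    ∃ e e' : Bool, ((MM m).cf X t).1 = some (false, e, e') := by
  classical
  have h3 : Tm X (r + 1) = Tm X r + el X r + 1 := rfl
  obtain ⟨s, rfl⟩ : ∃ s, t = Tm X r + s := ⟨t - Tm X r, by omega⟩
  have hs : s ≤ lc X (Qn X r).c (Qn X r).d := by
    have : el X r = lc X (Qn X r).c (Qn X r).d := rfl
    omega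
  have hs0 : decide (s = 0) = false := by
    simp only [decide_eq_false_iff_not]
    omega
  have h4 := congrArg Prod.fst (rnd_mid h (q_inv h r) (fr_time h r) hs)
  simp only [hs0] at h4
  exact ⟨_, _, h4⟩

end Pool.Agent.Lib.GCH
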