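import Pool.Agent.Lib.GCH.MhS

/-!
# Module GCH.MhC: a wrong trace fails a test (MP_f1c4ef_lc)

PROOF. (a) `lin_tr`: for every `t` and head `i` there are `u`, `f` with `LocR (MA M X) (MB M) u (M.tr X t, Md.lin i f)`,
`u.map Prod.fst = (List.range t).map (M.tr X)` and output `(u ++ [(M.tr X t, Md.lin i f)]).flatMap (Mf a0) =
pre (vx X) ((M.cf X t).2 i + 1)`: induction on `t` (`t = 0`: `u = []`, `f = true`; step: apply the induction hypothesis to the
head `M.sr (M.tr X t) i`, `f = M.mv (M.tr X t) i`).
(b) `wait_tr`: the same with mark `Md.wait`, output `[]`.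
(c) `off_ext`: if `LocR (MA M X) (MB M) u a`, `a.2 ≠ Md.wait`, `r` a list of letters, then
`u ++ [a] ++ r.map (fun s => (s, Md.off))` is `u' ++ [a']` with `LocR (MA M X) (MB M) u' a'` (induction on `r`).
(d) the shortest wrong prefix: if `s ≠ (List.range n).map (M.tr X)` for all `n`, then `s = (List.range t).map (M.tr X) ++ [c] ++ r`
with `c ≠ M.tr X t` (take the first position where `s` differs; `s.length` has no difference iff `s` is a prefix).
If `t = 0`: `c ≠ (M.q0, fun _ => X 0)`: `u = []`, mark `err`, output `a0`. If `t = t' + 1` and `¬ M.loc (M.tr X t') c`: marks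
`wait` on the first `t`, then `err` on `c`, output `a0`. Otherwise `c.1 = M.nx (M.tr X t') = (M.tr X t).1` so
`c.2 j ≠ (M.tr X t).2 j = X ((M.cf X t).2 j)` for some `j`; if `M.mv (M.tr X t') j = false` then both are
`(M.tr X t').2 (M.sr _ j)`, contradiction; so `M.mv _ j = true`: take (a) for `t'` and the head `M.sr (M.tr X t') j`, then
`(c, Md.lin j true)`: output `pre (vx X) p ++ [c.2 j]` with `p = (M.cf X t).2 j`, not a prefix of `vx X` (compare the
last letters; `pre x (p + 1) = pre x p ++ [x p]`). Then (c) for the rest `r`, the output does not change.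
-/

set_option autoImplicit false

namespace Pool.Agent.Lib.GCH

variable {m k : ℕ} {Q : Type}

namespace MhCAux

theorem fm_snoc {T : Type} (f : T → List ℕ) (u : List T) (a : T) :
    (u ++ [a]).flatMap f = u.flatMap f ++ f a := by
  simp [List.flatMap_append]

/-- (a) -/
theorem lin_tr (M : MH m k Q) (X : ℕ → Fin m) (a0 : List ℕ) (t : ℕ) : ∀ i : Fin k,
    ∃ (u : List ((Q × (Fin k → Fin m)) × Md k)) (f : Bool),
      LocR (MA M X) (MB M) u (M.tr X t, Md.lin i f) ∧
      u.map Prod.fst = (List.range t).map (M.tr X) ∧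
      (u ++ [(M.tr X t, Md.lin i f)]).flatMap (Mf a0) = pre (vx X) ((M.cf X t).2 i + 1) := by
  induction t with
  | zero =>
    intro i
    refine ⟨[], true, LocR.one rfl, rfl, ?_⟩
    simp [Mf, pre, MH.tr, MH.cf, rd, vx]
  | succ t ih =>
    intro i
    obtain ⟨u, f, h, hm, ho⟩ := ih (M.sr (M.tr X t) i)
    refine ⟨u ++ [(M.tr X t, Md.lin (M.sr (M.tr X t) i) f)], M.mv (M.tr X t) i,
      LocR.snoc h ⟨rfl, rfl⟩, ?_, ?_⟩
    · rw [List.map_append, hm, List.range_succ, List.map_append]
      rfl
    · rw [fm_snoc, ho]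
      have hc : (M.cf X (t + 1)).2 i =
          (M.cf X t).2 (M.sr (M.tr X t) i) + if M.mv (M.tr X t) i then 1 else 0 := rfl
      have hl : ((M.tr X (t + 1)).2 i : ℕ) = vx X ((M.cf X (t + 1)).2 i) := rfl
      cases hmv : M.mv (M.tr X t) i with
      | false =>
        rw [hmv] at hc
        simp only [Bool.false_eq_true, if_false, add_zero] at hc
        rw [hc]
        simp [Mf]
      | true =>
        rw [hmv] at hc
        simp only [if_true] at hc
        rw [pre_snoc (vx X) ((M.cf X (t + 1)).2 i), ← hl, hc]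
        simp [Mf]

/-- (b) -/
theorem wait_tr (M : MH m k Q) (X : ℕ → Fin m) (a0 : List ℕ) (t : ℕ) :
    ∃ (u : List ((Q × (Fin k → Fin m)) × Md k)),
      LocR (MA M X) (MB M) u (M.tr X t, Md.wait) ∧
      u.map Prod.fst = (List.range t).map (M.tr X) ∧
      (u ++ [(M.tr X t, Md.wait)]).flatMap (Mf a0) = [] := by
  induction t with
  | zero => exact ⟨[], LocR.one trivial, rfl, rfl⟩
  | succ t ih =>
    obtain ⟨u, h, hm, ho⟩ := ih
    refine ⟨u ++ [(M.tr X t, Md.wait)], LocR.snoc h trivial, ?_, ?_⟩
    · rw [List.map_append, hm, List.range_succ, List.map_append]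
      rfl
    · rw [fm_snoc, ho]
      rfl

/-- (c) -/
theorem off_ext (M : MH m k Q) (X : ℕ → Fin m) (a0 : List ℕ) (r : List (Q × (Fin k → Fin m))) :
    ∀ (u : List ((Q × (Fin k → Fin m)) × Md k)) (a : (Q × (Fin k → Fin m)) × Md k),
      LocR (MA M X) (MB M) u a → a.2 ≠ Md.wait →
      ∃ (u' : List ((Q × (Fin k → Fin m)) × Md k)) (a' : (Q × (Fin k → Fin m)) × Md k),
        LocR (MA M X) (MB M) u' a' ∧ (u' ++ [a']).map Prod.fst = (u ++ [a]).map Prod.fst ++ r ∧
        (u' ++ [a']).flatMap (Mf a0) = (u ++ [a]).flatMap (Mf a0) := by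
  induction r with
  | nil =>
    intro u a h _
    exact ⟨u, a, h, by simp, rfl⟩
  | cons c r ih =>
    intro u a h hw
    have hB : MB M a (c, Md.off) := by
      obtain ⟨s, d⟩ := a
      cases d with
      | lin i f => trivial
      | off => trivial
      | wait => exact absurd rfl hw
      | err => trivial
    obtain ⟨u', a', h', hm', ho'⟩ := ih (u ++ [a]) (c, Md.off) (LocR.snoc h hB) (by simp)
    refine ⟨u', a', h', ?_, ?_⟩
    · rw [hm']
      simp
    · rw [ho', fm_snoc]
      simp [Mf]

/-- (d): the first difference -/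
theorem first_diff {T : Type} (x : ℕ → T) (s : List T) : ∀ t : ℕ,
    (∀ n : ℕ, s ≠ (List.range n).map (fun i => x (t + i))) →
    ∃ (n : ℕ) (c : T) (r : List T), c ≠ x (t + n) ∧
      s = (List.range n).map (fun i => x (t + i)) ++ [c] ++ r := by
  induction s with
  | nil =>
    intro t h
    exact absurd rfl (h 0)
  | cons a s ih =>
    intro t h
    by_cases ha : a = x t
    · have h' : ∀ n : ℕ, s ≠ (List.range n).map (fun i => x (t + 1 + i)) := by
        intro n hn
        apply h (n + 1)
        rw [List.range_succ_eq_map, List.map_cons, List.map_map, hn, ha]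
        simp only [add_zero, List.cons.injEq, true_and]
        apply List.map_congr_left
        intro i _
        simp only [Function.comp]
        congr 1
        omega
      obtain ⟨n, c, r, hc, hs⟩ := ih (t + 1) h'
      refine ⟨n + 1, c, r, ?_, ?_⟩
      · rw [show t + (n + 1) = t + 1 + n by omega]
        exact hc
      · rw [List.range_succ_eq_map, List.map_cons, List.map_map, hs, ha]
        simp only [add_zero, List.cons_append, List.cons.injEq, true_and]
        congr 2
        apply List.map_congr_left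
        intro i _
        simp only [Function.comp]
        congr 1
        omega
    · exact ⟨0, a, s, by simpa using ha, by simp⟩

theorem not_pre (X : ℕ → Fin m) (p : ℕ) (c : ℕ) (hc : c ≠ vx X p) :
    pre (vx X) p ++ [c] ∉ Pf (vx X) := by
  rintro ⟨n, hn⟩
  have hl := congrArg List.length hn
  simp [pre] at hl
  subst hl
  rw [pre_snoc] at hn
  have := List.append_cancel_left hn
  simp at this
  exact hc this

end MhCAux

open MhCAux in
theorem mh_compl (M : MH m k Q) (X : ℕ → Fin m) (a0 : List ℕ) (s : List (Q × (Fin k → Fin m)))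
    (hs : ∀ n : ℕ, s ≠ (List.range n).map (M.tr X)) :
    ∃ (u : List ((Q × (Fin k → Fin m)) × Md k)) (a : (Q × (Fin k → Fin m)) × Md k),
      LocR (MA M X) (MB M) u a ∧ (u ++ [a]).map Prod.fst = s ∧
      ((u ++ [a]).flatMap (Mf a0) = a0 ∨ (u ++ [a]).flatMap (Mf a0) ∉ Pf (vx X)) := by
  obtain ⟨t, c, r, hc, hsr⟩ := first_diff (M.tr X) s 0 (by simpa using hs)
  simp only [Nat.zero_add] at hc hsr
  suffices h : ∃ (u : List ((Q × (Fin k → Fin m)) × Md k)) (d : Md k),
      LocR (MA M X) (MB M) u (c, d) ∧ d ≠ Md.wait ∧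
      u.map Prod.fst = (List.range t).map (M.tr X) ∧
      ((u ++ [(c, d)]).flatMap (Mf a0) = a0 ∨ (u ++ [(c, d)]).flatMap (Mf a0) ∉ Pf (vx X)) by
    obtain ⟨u, d, h, hd, hm, ho⟩ := h
    obtain ⟨u', a', h', hm', ho'⟩ := off_ext M X a0 r u (c, d) h hd
    refine ⟨u', a', h', ?_, ?_⟩
    · rw [hm', hsr, List.map_append, hm]
      rfl
    · rw [ho']
      exact ho
  cases t with
  | zero =>
    refine ⟨[], Md.err, LocR.one hc, by simp, rfl, Or.inl ?_⟩
    simp [Mf]
  | succ t =>
    by_cases hl : M.loc (M.tr X t) c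
    · obtain ⟨hl1, hl2⟩ := hl
      have hj : ∃ j, c.2 j ≠ (M.tr X (t + 1)).2 j := by
        by_contra hj
        push Not at hj
        exact hc (Prod.ext hl1 (funext hj))
      obtain ⟨j, hj⟩ := hj
      have hlt := mh_loc M X t
      have hmv : M.mv (M.tr X t) j = true := by
        by_contra hmv
        rw [Bool.not_eq_true] at hmv
        exact hj ((hl2 j hmv).trans (hlt.2 j hmv).symm)
      obtain ⟨u, f, h, hm, ho⟩ := lin_tr M X a0 t (M.sr (M.tr X t) j)
      refine ⟨u ++ [(M.tr X t, Md.lin (M.sr (M.tr X t) j) f)], Md.lin j true,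
        LocR.snoc h ⟨rfl, hmv.symm⟩, by simp, ?_, Or.inr ?_⟩
      · rw [List.map_append, hm, List.range_succ, List.map_append]
        rfl
      · have hcf : (M.cf X (t + 1)).2 j = (M.cf X t).2 (M.sr (M.tr X t) j) + 1 := by
          have : (M.cf X (t + 1)).2 j =
            (M.cf X t).2 (M.sr (M.tr X t) j) + if M.mv (M.tr X t) j then 1 else 0 := rfl
          rw [this, hmv]
          rfl
        rw [fm_snoc, ho, ← hcf]
        have : Mf a0 (c, Md.lin j true) = [(c.2 j : ℕ)] := by simp [Mf]
        rw [this]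
        apply not_pre
        intro h'
        exact hj (Fin.ext h')
    · obtain ⟨u, h, hm, ho⟩ := wait_tr M X a0 t
      refine ⟨u ++ [(M.tr X t, Md.wait)], Md.err, LocR.snoc h hl, by simp, ?_, Or.inl ?_⟩
      · rw [List.map_append, hm, List.range_succ, List.map_append]
        rfl
      · rw [fm_snoc, ho]
        rfl

end Pool.Agent.Lib.GCH
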