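import Pool.Agent.Lib.GCH.LocReg
import Pool.Agent.Lib.GCH.MhC

/-!
# Module GCH.MhM: the complement of the prefixes of a trace is in the cone (MP_f1c4ef_lc)

PROOF. `A = co m (Pf (vx X))`, `T = (Q × (Fin k → Fin m)) × Md k`, `K = Loc (MA M X) (MB M) (fun _ => True)` (`loc_reg`),
`φ = Mf a0`, `ψ t = [(Fintype.equivFin _ t.1 : ℕ)]`: by `nivT` the language `{w | ∃ t ∈ K, t.flatMap φ ∈ A ∧ w = t.flatMap ψ}` is in
`F`; it is `co N (Pf (vx (M.trc X)))`, `N = Fintype.card (Q × (Fin k → Fin m))` (`Language.ext`):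
`⊆`: the letters of `w` are `< N`; if `w = pre (vx (M.trc X)) n` then (`Fintype.equivFin` is injective) `t.map Prod.fst =
(List.range n).map (M.tr X)`, so `t.flatMap φ ∈ Pf (vx X)` by `mh_sound`, contradiction with `A`.
`⊇`: decode `w = s.map (fun c => (Fintype.equivFin _ c : ℕ))`, `s ≠ (List.range n).map (M.tr X)` for all `n`, `mh_compl`; the
output has letters `< m` (letters `(l i : ℕ)` with `l i : Fin m`, and the letters of `a0`).
-/

set_option autoImplicit false

namespace Pool.Agent.Lib.GCH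

open Pool.Agent.Lib.F1c4

namespace MhMAux

private theorem flatMap_single {α : Type} (t : List α) (f : α → ℕ) :
    t.flatMap (fun c => [f c]) = t.map f := by
  induction t with
  | nil => rfl
  | cons c t ih => rw [List.flatMap_cons, ih, List.map_cons, List.singleton_append]

private theorem out_lt {m k : ℕ} {Q : Type} {a0 : List ℕ} (ha0 : ∀ a ∈ a0, a < m)
    (t : List ((Q × (Fin k → Fin m)) × Md k)) : ∀ a ∈ t.flatMap (Mf a0), a < m := by
  intro a ha
  rw [List.mem_flatMap] at ha
  obtain ⟨b, -, hb⟩ := ha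
  obtain ⟨c, e⟩ := b
  cases e with
  | lin i f =>
    cases f with
    | true =>
      have h1 : a ∈ [(c.2 i : ℕ)] := hb
      rw [List.mem_singleton] at h1
      rw [h1]
      exact (c.2 i).2
    | false =>
      have h1 : a ∈ ([] : List ℕ) := hb
      exact absurd h1 List.not_mem_nil
  | off =>
    have h1 : a ∈ ([] : List ℕ) := hb
    exact absurd h1 List.not_mem_nil
  | wait =>
    have h1 : a ∈ ([] : List ℕ) := hb
    exact absurd h1 List.not_mem_nil
  | err => exact ha0 a hb

private theorem decode {T : Type} [Fintype T] (w : List ℕ) (hw : ∀ a ∈ w, a < Fintype.card T) :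
    ∃ s : List T, w = s.map (fun c => (Fintype.equivFin T c : ℕ)) := by
  induction w with
  | nil => exact ⟨[], rfl⟩
  | cons a w ih =>
    obtain ⟨s, hs⟩ := ih (fun b hb => hw b (List.mem_cons_of_mem a hb))
    have ha : a < Fintype.card T := hw a List.mem_cons_self
    refine ⟨(Fintype.equivFin T).symm ⟨a, ha⟩ :: s, ?_⟩
    rw [List.map_cons, Equiv.apply_symm_apply, ← hs]

end MhMAux

open MhMAux in
theorem mh_mem {F : Set (Language ℕ)} (hF : IsCone F) {m k : ℕ} {Q : Type} [Fintype Q]
    (M : MH m k Q) (X : ℕ → Fin m) {a0 : List ℕ} (ha0 : a0 ∈ co m (Pf (vx X)))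
    (hA : co m (Pf (vx X)) ∈ F) :
    co (Fintype.card (Q × (Fin k → Fin m))) (Pf (vx (M.trc X))) ∈ F := by
  have hco : ∀ w : List ℕ, w ∈ co m (Pf (vx X)) ↔ (∀ a ∈ w, a < m) ∧ w ∉ Pf (vx X) :=
    fun w => Iff.rfl
  have : Finite ((Q × (Fin k → Fin m)) × Md k) := inferInstance
  have hinj : Function.Injective
      (fun c : Q × (Fin k → Fin m) => (Fintype.equivFin (Q × (Fin k → Fin m)) c : ℕ)) :=
    fun c d h => (Fintype.equivFin _).injective (Fin.ext h)
  have hpre : ∀ n : ℕ, pre (vx (M.trc X)) n = ((List.range n).map (M.tr X)).map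
      (fun c : Q × (Fin k → Fin m) => (Fintype.equivFin (Q × (Fin k → Fin m)) c : ℕ)) := by
    intro n
    rw [List.map_map]
    rfl
  have hniv := nivT hF hA (loc_reg (MA M X) (MB M) (fun _ => True)) (Mf a0)
    (fun t : (Q × (Fin k → Fin m)) × Md k =>
      [(Fintype.equivFin (Q × (Fin k → Fin m)) t.1 : ℕ)])
  have hmap : ∀ t : List ((Q × (Fin k → Fin m)) × Md k),
      t.flatMap (fun t : (Q × (Fin k → Fin m)) × Md k =>
        [(Fintype.equivFin (Q × (Fin k → Fin m)) t.1 : ℕ)]) = (t.map Prod.fst).map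
      (fun c : Q × (Fin k → Fin m) => (Fintype.equivFin (Q × (Fin k → Fin m)) c : ℕ)) := by
    intro t
    rw [flatMap_single, List.map_map]
    rfl
  have heq : co (Fintype.card (Q × (Fin k → Fin m))) (Pf (vx (M.trc X))) =
      ({w : List ℕ | ∃ t ∈ Loc (MA M X) (MB M) (fun _ => True), t.flatMap (Mf a0) ∈
        co m (Pf (vx X)) ∧ w = t.flatMap (fun t : (Q × (Fin k → Fin m)) × Md k =>
          [(Fintype.equivFin (Q × (Fin k → Fin m)) t.1 : ℕ)])} : Language ℕ) := by
    apply Language.ext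
    intro w
    constructor
    · rintro ⟨hw1, hw2⟩
      obtain ⟨s, hs⟩ := decode w hw1
      have hs2 : ∀ n : ℕ, s ≠ (List.range n).map (M.tr X) := by
        intro n hn
        apply hw2
        refine ⟨n, ?_⟩
        rw [hpre, ← hn]
        exact hs
      obtain ⟨u, a, hu, hfst, hout⟩ := mh_compl M X a0 s hs2
      refine ⟨u ++ [a], ⟨u, a, hu, trivial, rfl⟩, ?_, ?_⟩
      · rcases hout with h1 | h1
        · rw [h1]; exact ha0
        · exact (hco _).2 ⟨out_lt ((hco _).1 ha0).1 _, h1⟩
      · rw [hmap, hfst]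
        exact hs
    · rintro ⟨t, ⟨u, a, hu, -, ht⟩, hA2, hw⟩
      rw [hmap] at hw
      refine ⟨?_, ?_⟩
      · intro b hb
        rw [hw, List.mem_map] at hb
        obtain ⟨c, -, hc⟩ := hb
        rw [← hc]
        exact (Fintype.equivFin (Q × (Fin k → Fin m)) c).2
      · rintro ⟨n, hn⟩
        rw [hpre, hw] at hn
        have h1 : t.map Prod.fst = (List.range n).map (M.tr X) :=
          List.map_injective_iff.2 hinj hn
        rw [ht] at h1
        have h2 := mh_sound M X hu a0 n h1
        rw [ht] at hA2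
        exact ((hco _).1 hA2).2 h2
  rw [heq]
  exact hniv

end Pool.Agent.Lib.GCH
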