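import Pool.Agent.Lib.GCH.Top
import Pool.Agent.Lib.GCH.MhM
import Pool.Agent.Lib.GCH.ApM

/-!
# Module GCH.ApF: the case of the language of all nonprefixes (MP_f1c4ef_lc)

PROOF. Suppose not; then `NP X` (for `i < j` with `X (i + s) = X (j + s)` for all `s` take `N = i`, `p = j - i`). There is a letter
`c : Fin m`, `c ≠ X 0` (`NP` for `0 < 1`), so `a0 = [c] ∈ co m (Pf (vx X))` (a prefix of length `1` is `[X 0]`; `pre` has length
`n`). Put `M = MM m`, `N = Fintype.card (Qt × (Fin 11 → Fin m))`, `Y = M.trc X : ℕ → Fin N`. By `mh_mem`, `co N (Pf (vx Y)) ∈ F`.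
Let `E : Finset ℕ` be the set of the numbers `(Fintype.equivFin _ s : ℕ)` with `s.1 = some (true, true, true)`
(`Finset.image` of a filtered `Finset.univ`), `R = {v | ∀ a ∈ v, a < N} * {v | ∃ c ∈ E, v = [c]}`, regular by `rat_mul`,
`rat_all`, `rat_fin`. For `n ≥ 1`: `pre (vx Y) n ∈ R ↔ (M.cf X (n - 1)).1 = some (true, true, true)` (last letter); `[] ∉ R`.
Apply `top hF (Finset.range N) (vx Y) _ R _ (co N (Pf (vx Y))) _ _ _`: the prefixes with `n = Tm X r + 1` are in `R`
(`fr_time`), infinitely many since `Tm X` is strictly increasing (`r ≤ Tm X r`). So there is `g` with a prefix in `R` with length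
in `[N', N' + g)` for every `N'`. Take `r` with `g ≤ el X r` (`q_unb`) and `N' = Tm X r + 2`: there is `n` with
`Tm X r + 1 ≤ n - 1 < Tm X r + 1 + g ≤ Tm X (r + 1)` and state `some (true, true, true)` at time `n - 1`: contradiction to `fr_no`.
-/

set_option autoImplicit false

namespace Pool.Agent.Lib.GCH

open Pool.Agent.Lib.F1c4

namespace ApFAux

theorem pre_snoc' (x : ℕ → ℕ) (n : ℕ) : pre x (n + 1) = pre x n ++ [x n] := by
  unfold pre
  rw [List.range_succ, List.map_append]
  rfl

theorem pre_len' (x : ℕ → ℕ) (n : ℕ) : (pre x n).length = n := by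
  simp [pre]

/-- the codes of the letters with first state of a round -/
noncomputable def EF (m : ℕ) : Finset ℕ := by
  classical
  exact (Finset.univ.filter (fun s : Qt × (Fin 11 → Fin m) => s.1 = some (true, true, true))).image
    (fun s => ((Fintype.equivFin (Qt × (Fin 11 → Fin m)) s : Fin _) : ℕ))

theorem mem_EF {m : ℕ} (s : Qt × (Fin 11 → Fin m)) :
    ((Fintype.equivFin (Qt × (Fin 11 → Fin m)) s : Fin _) : ℕ) ∈ EF m ↔
      s.1 = some (true, true, true) := by
  classical
  unfold EF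
  rw [Finset.mem_image]
  constructor
  · rintro ⟨t, ht, h⟩
    have h1 : t = s := (Fintype.equivFin _).injective (Fin.ext h)
    rw [← h1]
    exact (Finset.mem_filter.1 ht).2
  · intro h
    exact ⟨s, Finset.mem_filter.2 ⟨Finset.mem_univ _, h⟩, rfl⟩

/-- the words over `k` letters -/
def RA (k : ℕ) : Language ℕ := {v : List ℕ | ∀ a ∈ v, a < k}

/-- the words with one letter -/
def RB1' (s : Finset ℕ) : Language ℕ := {v : List ℕ | ∃ c ∈ s, v = [c]}

/-- the words ending with such a letter -/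
noncomputable def RF (m : ℕ) : Language ℕ :=
  RA (Fintype.card (Qt × (Fin 11 → Fin m))) * RB1' (EF m)

theorem rf_reg (m : ℕ) : (RF m).IsRegular := by
  have h1 : Rat (RA (Fintype.card (Qt × (Fin 11 → Fin m)))) := rat_all _
  have h2 : Rat (RB1' (EF m)) := rat_fin _
  exact (rat_mul h1 h2).1

theorem mem_RF {m : ℕ} (X : ℕ → Fin m) (k : ℕ) :
    pre (vx ((MM m).trc X)) (k + 1) ∈ RF m ↔ ((MM m).cf X k).1 = some (true, true, true) := by
  rw [pre_snoc']
  constructor
  · intro h
    obtain ⟨a, ha, b, ⟨c, hc, hb⟩, hab⟩ := Language.mem_mul.1 h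
    rw [hb] at hab
    obtain ⟨h1, h2⟩ := List.append_inj' hab rfl
    have h3 := List.singleton_inj.1 h2
    rw [h3] at hc
    exact (mem_EF ((MM m).tr X k)).1 hc
  · intro h
    refine Language.mem_mul.2 ⟨pre (vx ((MM m).trc X)) k, ?_, [vx ((MM m).trc X) k],
      ⟨_, (mem_EF ((MM m).tr X k)).2 h, rfl⟩, rfl⟩
    intro a ha
    obtain ⟨i, _, hi⟩ := List.mem_map.1 ha
    rw [← hi]
    exact ((MM m).trc X i).2

theorem tm_mono {m : ℕ} (X : ℕ → Fin m) : StrictMono (Tm X) := by
  refine strictMono_nat_of_lt_succ fun r => ?_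
  have h : Tm X (r + 1) = Tm X r + el X r + 1 := rfl
  omega

end ApFAux

open ApFAux

theorem ap {F : Set (Language ℕ)} (hF : IsMinimal F) {m : ℕ} (X : ℕ → Fin m)
    (hA : co m (Pf (vx X)) ∈ F) : ∃ N p : ℕ, 0 < p ∧ ∀ n, N ≤ n → X (n + p) = X n := by
  classical
  by_contra hcon
  have hNP : NP X := by
    intro i j hij
    by_contra h
    push Not at h
    refine hcon ⟨i, j - i, by omega, ?_⟩
    intro n hn
    have h1 := h (n - i)
    have e1 : i + (n - i) = n := by omega
    have e2 : j + (n - i) = n + (j - i) := by omega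
    rw [e1, e2] at h1
    exact h1.symm
  obtain ⟨c, hc⟩ : ∃ c : Fin m, c ≠ X 0 := by
    obtain ⟨s, hs⟩ := hNP 0 1 (by omega)
    by_cases h : X (0 + s) = X 0
    · refine ⟨X (1 + s), fun h1 => hs ?_⟩
      rw [h, h1]
    · exact ⟨_, h⟩
  have ha0 : [(c : ℕ)] ∈ co m (Pf (vx X)) := by
    refine ⟨?_, ?_⟩
    · intro a ha
      rw [List.mem_singleton.1 ha]
      exact c.2
    · rintro ⟨n, hn⟩
      have h1 : n = 1 := by
        have := congrArg List.length hn
        rw [pre_len'] at this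
        exact this.symm
      rw [h1] at hn
      have h2 : (c : ℕ) = (X 0 : ℕ) := by
        have h3 : pre (vx X) 1 = [vx X 0] := rfl
        rw [h3] at hn
        exact List.singleton_inj.1 hn
      exact hc (Fin.ext h2)
  have hL := mh_mem hF.1 (MM m) X ha0 hA
  have hR : (RF m).IsRegular := rf_reg m
  have hinf : {n : ℕ | pre (vx ((MM m).trc X)) n ∈ RF m}.Infinite := by
    refine Set.infinite_of_injective_forall_mem (f := fun r => Tm X r + 1) ?_ ?_
    · intro r s hrs
      exact (tm_mono X).injective (by simpa using hrs)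
    · intro r
      refine (mem_RF X (Tm X r)).2 ?_
      rw [fr_time hNP r]
  obtain ⟨g, hg⟩ := top hF (Finset.range (Fintype.card (Qt × (Fin 11 → Fin m))))
    (vx ((MM m).trc X)) (fun i => Finset.mem_range.2 ((MM m).trc X i).2) (RF m) hR _ hL
    (fun v hv _ => by
      constructor
      · rintro ⟨_, h⟩ n hn
        exact h ⟨n, hn⟩
      · intro h
        exact ⟨fun a ha => Finset.mem_range.1 (hv a ha), fun ⟨n, hn⟩ => h n hn⟩) hinf
  obtain ⟨r, hr⟩ := q_unb hNP g
  obtain ⟨n, hn1, hn2, hn3⟩ := hg (Tm X r + 2)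
  obtain ⟨k, rfl⟩ : ∃ k, n = k + 1 := ⟨n - 1, by omega⟩
  have h1 := (mem_RF X k).1 hn3
  have hT : Tm X (r + 1) = Tm X r + el X r + 1 := rfl
  obtain ⟨e, e', he⟩ := fr_no hNP (r := r) (t := k) (by omega) (by omega)
  rw [h1] at he
  simp at he

end Pool.Agent.Lib.GCH
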