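import Pool.Agent.Lib.GCH.Defs3

/-!
# Module GCH.ApU: the records are unbounded (MP_f1c4ef_lc)

PROOFS. `lc_spec`: `Nat.sInf_mem` (the set is not empty by `NP`); `lc_eq`: `Nat.notMem_of_lt_sInf`.
`inv_qs`: `ℓ = lc X q.c q.d`. Case success, `ℓ < ℓ' = lc X q.a q.b`: the new quadruple is `⟨0, b + 1, a, b⟩`. `a < b`; pairs
`i < j < b`: `≤ ℓ < ℓ'`. Pairs `(i, b)`: `i < a`: `≤ ℓ`; `i = a`: `ℓ'`; `a < i < b`: suppose `ℓ' < lc X i b`. Then
`X (i + ℓ) = X (b + ℓ)` and in fact the words at `a`, `b` agree up to offset `ℓ' - 1 ≥ ℓ`, and so do the words at `i` and `b`, so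
`X (a + s) = X (i + s)` for all `s < ℓ'`, hence `lc X a i ≥ ℓ' > ℓ`, contradiction with `i < b`, `a < i`.
Case `a + 1 = b`, no success: `⟨0, b + 1, c, d⟩`: pairs `(i, b)`, `i < b`: `i < a` or `i = a`. Third case: `⟨a + 1, b, c, d⟩`,
`a + 1 < b`, pairs `(i, b)` with `i < a + 1`.
`q_inv`: induction. `q_mono`: `Qn X r`.b increases by at most... not needed. `el_mono`: `el X r ≤ el X (r + 1)`.
`q_unb`: suppose `el X r < g` for all `r`. Then `el` takes its maximum `ℓ` at some `r0` and `el X r = ℓ` for `r ≥ r0` (monotone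
and bounded: e.g. take `r0` maximizing). So for `r ≥ r0` no success (a success increases `el` strictly: the new record is
`lc X a b > ℓ`), so `(a, b)` runs through `(a + 1, b)` or `(0, b + 1)`; so `b` is unbounded (for `r ≥ r0`, if `(Qn X r).b = b`,
then after `b - (Qn X r).a` rounds the second entry is `b + 1`: induction on `b - a`). Take `r ≥ r0` with
`(Qn X r).b > m ^ (ℓ + 1)`: the words `fun s : Fin (ℓ + 1) => X (i + s)`, `i < b`, are elements of `Fin (ℓ + 1) → Fin m`, a type
with `m ^ (ℓ + 1)` elements, so two of them (`i < j < b`) are equal (`Fintype.exists_ne_map_eq_of_card_lt`), so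
`lc X i j > ℓ`, contradiction with the invariant.
-/

set_option autoImplicit false

namespace Pool.Agent.Lib.GCH

variable {m : ℕ} {X : ℕ → Fin m}

theorem lc_spec (h : NP X) {i j : ℕ} (hij : i < j) : X (i + lc X i j) ≠ X (j + lc X i j) := by
  have hne : {s : ℕ | X (i + s) ≠ X (j + s)}.Nonempty := h i j hij
  exact Nat.sInf_mem hne

theorem lc_eq {i j s : ℕ} (hs : s < lc X i j) : X (i + s) = X (j + s) := by
  have h1 : s ∉ {s : ℕ | X (i + s) ≠ X (j + s)} := Nat.notMem_of_lt_sInf hs
  by_contra h2
  exact h1 h2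

private theorem lc_ge (h : NP X) {i j t : ℕ} (hij : i < j) (ht : ∀ s, s < t → X (i + s) = X (j + s)) :
    t ≤ lc X i j := by
  by_contra hlt
  exact lc_spec h hij (ht _ (not_le.mp hlt))

theorem inv_qs (h : NP X) {q : Qd} (hq : Inv X q) : Inv X (qs X q) := by
  obtain ⟨hcd, hab, hp, hi⟩ := hq
  unfold qs
  by_cases h1 : lc X q.c q.d < lc X q.a q.b
  · rw [if_pos h1]
    refine ⟨hab, Nat.succ_pos _, ?_, ?_⟩
    · intro i j hij hj
      show lc X i j ≤ lc X q.a q.b
      have hj' : j < q.b ∨ j = q.b := by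
        have : j < q.b + 1 := hj
        omega
      rcases hj' with hj' | hj'
      · exact le_of_lt (lt_of_le_of_lt (hp i j hij hj') h1)
      · subst hj'
        rcases lt_trichotomy i q.a with h2 | h2 | h2
        · exact le_of_lt (lt_of_le_of_lt (hi i h2) h1)
        · subst h2
          exact le_refl _
        · by_contra h3
          have h3' : lc X q.a q.b < lc X i q.b := not_le.mp h3
          have h4 : lc X q.a q.b ≤ lc X q.a i := by
            apply lc_ge h h2
            intro s hs
            rw [lc_eq hs, lc_eq (lt_trans hs h3')]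
          have h5 := hp q.a i h2 hij
          exact absurd (lt_of_lt_of_le h1 h4) (not_lt.mpr h5)
    · intro i hi'
      exact absurd hi' (Nat.not_lt_zero i)
  · rw [if_neg h1]
    by_cases h2 : q.a + 1 = q.b
    · rw [if_pos h2]
      refine ⟨hcd, Nat.succ_pos _, ?_, ?_⟩
      · intro i j hij hj
        show lc X i j ≤ lc X q.c q.d
        have hj' : j < q.b ∨ j = q.b := by
          have : j < q.b + 1 := hj
          omega
        rcases hj' with hj' | hj'
        · exact hp i j hij hj'
        · subst hj'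
          have h3 : i < q.a ∨ i = q.a := by omega
          rcases h3 with h3 | h3
          · exact hi i h3
          · subst h3
            exact not_lt.mp h1
      · intro i hi'
        exact absurd hi' (Nat.not_lt_zero i)
    · rw [if_neg h2]
      refine ⟨hcd, ?_, hp, ?_⟩
      · show q.a + 1 < q.b
        omega
      · intro i hi'
        show lc X i q.b ≤ lc X q.c q.d
        have h3 : i < q.a ∨ i = q.a := by
          have : i < q.a + 1 := hi'
          omega
        rcases h3 with h3 | h3
        · exact hi i h3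
        · subst h3
          exact not_lt.mp h1

theorem q_inv (h : NP X) (r : ℕ) : Inv X (Qn X r) := by
  induction r with
  | zero =>
    refine ⟨Nat.zero_lt_one, Nat.zero_lt_one, ?_, ?_⟩
    · intro i j hij hj
      have : j < 1 := hj
      omega
    · intro i hi
      exact absurd hi (Nat.not_lt_zero i)
  | succ r ih => exact inv_qs h ih

private theorem el_step (r : ℕ) : el X r ≤ el X (r + 1) := by
  show lc X (Qn X r).c (Qn X r).d ≤ lc X (qs X (Qn X r)).c (qs X (Qn X r)).d
  unfold qs
  by_cases h1 : lc X (Qn X r).c (Qn X r).d < lc X (Qn X r).a (Qn X r).b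
  · rw [if_pos h1]
    exact le_of_lt h1
  · rw [if_neg h1]
    by_cases h2 : (Qn X r).a + 1 = (Qn X r).b
    · rw [if_pos h2]
    · rw [if_neg h2]

private theorem el_mono' {r r' : ℕ} (h : r ≤ r') : el X r ≤ el X r' :=
  monotone_nat_of_le_succ (fun r => el_step r) h

private theorem q_grow (h : NP X) (r : ℕ) : ∃ r', r ≤ r' ∧ el X r < el X r' := by
  by_contra hcon
  have hle : ∀ r', r ≤ r' → el X r' ≤ el X r := by
    intro r' hr'
    by_contra h1
    exact hcon ⟨r', hr', not_le.mp h1⟩
  have hno : ∀ r', r ≤ r' → ¬ (lc X (Qn X r').c (Qn X r').d < lc X (Qn X r').a (Qn X r').b) := by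
    intro r' hr' hlt
    have h1 : el X (r' + 1) = lc X (Qn X r').a (Qn X r').b := by
      show lc X (qs X (Qn X r')).c (qs X (Qn X r')).d = _
      unfold qs
      rw [if_pos hlt]
    have h2 := hle (r' + 1) (le_trans hr' (Nat.le_succ r'))
    rw [h1] at h2
    have h3 : el X r ≤ el X r' := el_mono' hr'
    exact absurd (lt_of_lt_of_le hlt (le_trans h2 h3)) (lt_irrefl _)
  have hstep : ∀ k : ℕ, ∀ r', r ≤ r' → (Qn X r').b - (Qn X r').a = k →
      ∃ r'', r' ≤ r'' ∧ (Qn X r').b < (Qn X r'').b := by
    intro k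
    induction k with
    | zero =>
      intro r' hr' hk
      have := (q_inv h r').2.1
      omega
    | succ k ih =>
      intro r' hr' hk
      by_cases h2 : (Qn X r').a + 1 = (Qn X r').b
      · refine ⟨r' + 1, Nat.le_succ _, ?_⟩
        show (Qn X r').b < (qs X (Qn X r')).b
        unfold qs
        rw [if_neg (hno r' hr'), if_pos h2]
        exact Nat.lt_succ_self _
      · have h3 : Qn X (r' + 1) = ⟨(Qn X r').a + 1, (Qn X r').b, (Qn X r').c, (Qn X r').d⟩ := by
          show qs X (Qn X r') = _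
          unfold qs
          rw [if_neg (hno r' hr'), if_neg h2]
        obtain ⟨r'', h4, h5⟩ := ih (r' + 1) (le_trans hr' (Nat.le_succ _)) (by
          rw [h3]
          show (Qn X r').b - ((Qn X r').a + 1) = k
          omega)
        refine ⟨r'', le_trans (Nat.le_succ _) h4, ?_⟩
        rw [h3] at h5
        exact h5
  have hbig : ∀ B : ℕ, ∃ r', r ≤ r' ∧ B ≤ (Qn X r').b := by
    intro B
    induction B with
    | zero => exact ⟨r, le_refl _, Nat.zero_le _⟩
    | succ B ih =>
      obtain ⟨r', hr', hB⟩ := ih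
      obtain ⟨r'', h1, h2⟩ := hstep _ r' hr' rfl
      exact ⟨r'', le_trans hr' h1, lt_of_le_of_lt hB h2⟩
  obtain ⟨r', hr', hB⟩ := hbig (m ^ (el X r + 1) + 1)
  have hcard : Fintype.card (Fin (el X r + 1) → Fin m) < Fintype.card (Fin (Qn X r').b) := by
    rw [Fintype.card_fun, Fintype.card_fin, Fintype.card_fin, Fintype.card_fin]
    exact hB
  obtain ⟨i, j, hij, he⟩ := Fintype.exists_ne_map_eq_of_card_lt
    (fun i : Fin (Qn X r').b => fun s : Fin (el X r + 1) => X ((i : ℕ) + (s : ℕ))) hcard
  have key : ∀ i j : ℕ, i < j → j < (Qn X r').b →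
      (∀ s, s < el X r + 1 → X (i + s) = X (j + s)) → False := by
    intro i j hij hj hs
    have h1 := lc_ge h hij hs
    have h2 := (q_inv h r').2.2.1 i j hij hj
    have h3 : lc X (Qn X r').c (Qn X r').d ≤ el X r := hle r' hr'
    omega
  have he' : ∀ s, s < el X r + 1 → X ((i : ℕ) + s) = X ((j : ℕ) + s) := by
    intro s hs
    exact congrFun he ⟨s, hs⟩
  rcases lt_trichotomy (i : ℕ) (j : ℕ) with h1 | h1 | h1
  · exact key i j h1 j.2 he'
  · exact hij (Fin.ext h1)
  · exact key j i h1 i.2 (fun s hs => (he' s hs).symm)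

theorem q_unb (h : NP X) (g : ℕ) : ∃ r : ℕ, g ≤ el X r := by
  induction g with
  | zero => exact ⟨0, Nat.zero_le _⟩
  | succ g ih =>
    obtain ⟨r, hr⟩ := ih
    obtain ⟨r', _, h2⟩ := q_grow h r
    exact ⟨r', lt_of_le_of_lt hr h2⟩

end Pool.Agent.Lib.GCH
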