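import Pool.Agent.Lib.GCH.RatA

/-!
# Module GCH.RatB: the words with a local defect form a rational language (MP_f1c4ef_lc)

PROOFS. `d = 2 * m`, `All = {v | ∀ a ∈ v, a < 2 * m + 1}` (`rat_all`). `rat_EE`: `F1c4.last_reg`, `rat_sub`.
`rat_EG`: the language is `{v | v ∈ All k ∧ v = []} + All k * {[c] | m ≤ c < k}` (`rat_fin` for
`(Finset.range k).filter (m ≤ ·)`; `rat_mul`, `rat_add`, `rat_word []`).
`bad0_rat`: the language is the sum of: `{v ∈ All | v ∉ {[]} + {g 0 ++ [d]} * AllWords}` (`g 0 = G w b m 0`), `{v ∈ All | ¬ EE d v}`,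
`{v ∈ All | b ∈ v}` = `{v ∈ All | v ∉ star over range (2 * m + 1) without b}`, and `{v ∈ All | v ∈ W * {[x] | x < m or x = d} * {[d]} * W}`
with `W = {v | True}` (regular: complement of `0`) (or `W = All`; then the factors of a word in `All` are in `All`). Use
`rat_word`, `rat_fin`, `rat_mul`, `rat_add`, `rat_sub`, `rat_diff` and `Language.mem_mul`.
-/

set_option autoImplicit false

namespace Pool.Agent.Lib.GCH

open Pool.Agent.Lib.F1c4

namespace RatBAux

/-- words in the letters `a < k` -/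
def A0 (k : ℕ) : Language ℕ := {v : List ℕ | ∀ a ∈ v, a < k}

/-- the word `u` -/
def W1 (u : List ℕ) : Language ℕ := {v : List ℕ | v = u}

/-- the letters of `s` -/
def Fi (s : Finset ℕ) : Language ℕ := {v : List ℕ | ∃ c ∈ s, v = [c]}

/-- one letter -/
def S1 (c : ℕ) : Language ℕ := {t : List ℕ | t = [c]}

/-- all words -/
def Uni : Language ℕ := {_v : List ℕ | True}

/-- empty or with last letter `c` -/
def Lst (c : ℕ) : Language ℕ := {w : List ℕ | w = [] ∨ ∃ w', w = w' ++ [c]}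

/-- words over `S` -/
def Ovl (S : Finset ℕ) : Language ℕ := {w : List ℕ | Ov S w}

theorem r_A0 (k : ℕ) : Rat (A0 k) := rat_all k

theorem r_W1 (u : List ℕ) : Rat (W1 u) := rat_word u

theorem r_Fi (s : Finset ℕ) : Rat (Fi s) := rat_fin s

theorem r_S1 (c : ℕ) : Rat (S1 c) := rat_sing c

theorem mem_add' {L M : Language ℕ} {v : List ℕ} :
    v ∈ (L + M : Language ℕ) ↔ v ∈ L ∨ v ∈ M := Iff.rfl

theorem mem_mul' {L M : Language ℕ} {v : List ℕ} :
    v ∈ (L * M : Language ℕ) ↔ ∃ x ∈ L, ∃ y ∈ M, x ++ y = v := Language.mem_mul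

theorem univ_reg : Language.IsRegular Uni := by
  have h := rat_zero.1.compl
  have e : Uni = (0 : Language ℕ)ᶜ := by
    apply Set.ext
    intro v
    refine ⟨fun _ h => ?_, fun _ => trivial⟩
    exact Language.notMem_zero _ h
  rw [e]
  exact h

end RatBAux

open RatBAux

theorem rat_EE (k d : ℕ) : Rat ({v : List ℕ | (∀ a ∈ v, a < k) ∧ EE d v} : Language ℕ) :=
  rat_sub (rat_all k) (last_reg d)

theorem rat_EG (k m : ℕ) : Rat ({v : List ℕ | (∀ a ∈ v, a < k) ∧ EG m v} : Language ℕ) := by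
  have e : ({v : List ℕ | (∀ a ∈ v, a < k) ∧ EG m v} : Language ℕ) =
      W1 [] + A0 k * Fi ((Finset.range k).filter (m ≤ ·)) := by
    apply Set.ext
    intro v
    show _ ↔ v ∈ (_ + _ : Language ℕ)
    rw [mem_add', mem_mul']
    constructor
    · rintro ⟨hv, h | ⟨q, a, ha, rfl⟩⟩
      · exact Or.inl h
      · refine Or.inr ⟨q, fun x hx => hv x (List.mem_append_left _ hx), [a], ⟨a, ?_, rfl⟩, rfl⟩
        rw [Finset.mem_filter, Finset.mem_range]
        exact ⟨hv a (List.mem_append_right _ List.mem_cons_self), ha⟩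
    · rintro (h | ⟨q, hq, r, ⟨a, ha, rfl⟩, rfl⟩)
      · rw [h]
        exact ⟨fun a ha => absurd ha List.not_mem_nil, Or.inl rfl⟩
      · rw [Finset.mem_filter, Finset.mem_range] at ha
        refine ⟨fun x hx => ?_, Or.inr ⟨q, a, ha.2, rfl⟩⟩
        rcases List.mem_append.1 hx with h | h
        · exact hq x h
        · rw [List.mem_singleton.1 h]
          exact ha.1
  rw [e]
  exact rat_add (r_W1 []) (rat_mul (r_A0 k) (r_Fi _))

theorem bad0_rat (m b : ℕ) (w : ℕ → List ℕ) :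
    Rat ({v : List ℕ | (∀ a ∈ v, a < 2 * m + 1) ∧ Bad0 m b w v} : Language ℕ) := by
  have h1 : Rat ({v : List ℕ | v ∈ A0 (2 * m + 1) ∧
      v ∉ (W1 [] + W1 (G w b m 0 ++ [2 * m]) * Uni)} : Language ℕ) :=
    rat_diff (r_A0 _) (Language.IsRegular.add (r_W1 []).1
      (Pool.Agent.Lib.BCC.CatRegAux.mul_reg (r_W1 _).1 univ_reg))
  have h2 : Rat ({v : List ℕ | v ∈ A0 (2 * m + 1) ∧ v ∉ Lst (2 * m)} : Language ℕ) :=
    rat_diff (r_A0 _) (last_reg (2 * m))
  have h3 : Rat ({v : List ℕ | v ∈ A0 (2 * m + 1) ∧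
      v ∉ Ovl ((Finset.range (2 * m + 1)).erase b)} : Language ℕ) :=
    rat_diff (r_A0 _) (star_reg _)
  have h4 : Rat (A0 (2 * m + 1) * (Fi (insert (2 * m) (Finset.range m)) *
      (S1 (2 * m) * A0 (2 * m + 1)))) :=
    rat_mul (r_A0 _) (rat_mul (r_Fi _) (rat_mul (r_S1 _) (r_A0 _)))
  have h := rat_add h1 (rat_add h2 (rat_add h3 h4))
  refine Eq.mp (congrArg Rat ?_) h
  apply Set.ext
  intro v
  show v ∈ (_ + _ : Language ℕ) ↔ _
  rw [mem_add', mem_add', mem_add']
  constructor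
  · rintro (⟨hv, hn⟩ | ⟨hv, hn⟩ | ⟨hv, hn⟩ | hv)
    · refine ⟨hv, Or.inl ⟨fun h0 => hn (mem_add'.2 (Or.inl h0)), ?_⟩⟩
      rintro ⟨s, hs⟩
      exact hn (mem_add'.2 (Or.inr (mem_mul'.2 ⟨_, rfl, s, trivial, hs.symm⟩)))
    · exact ⟨hv, Or.inr (Or.inl hn)⟩
    · refine ⟨hv, Or.inr (Or.inr (Or.inl ?_))⟩
      by_contra hb
      apply hn
      intro a ha
      rw [Finset.mem_erase, Finset.mem_range]
      exact ⟨fun h0 => hb (h0 ▸ ha), hv a ha⟩
    · obtain ⟨p, hp, v1, hv1, rfl⟩ := mem_mul'.1 hv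
      obtain ⟨v2, ⟨x, hx, rfl⟩, v3, hv3, rfl⟩ := mem_mul'.1 hv1
      obtain ⟨v4, h0, s, hs, rfl⟩ := mem_mul'.1 hv3
      have h0' : v4 = [2 * m] := h0
      subst h0'
      rw [Finset.mem_insert, Finset.mem_range] at hx
      refine ⟨?_, Or.inr (Or.inr (Or.inr ⟨p, s, x, ?_, hx.symm⟩))⟩
      · intro a ha
        rcases List.mem_append.1 ha with ha | ha
        · exact hp a ha
        · rcases List.mem_append.1 ha with ha | ha
          · rw [List.mem_singleton.1 ha]
            omega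
          · rcases List.mem_append.1 ha with ha | ha
            · rw [List.mem_singleton.1 ha]
              omega
            · exact hs a ha
      · simp only [List.append_assoc]
  · rintro ⟨hv, ⟨h0, hn⟩ | hn | hb | ⟨p, s, x, rfl, hx⟩⟩
    · refine Or.inl ⟨hv, fun h1 => ?_⟩
      rcases mem_add'.1 h1 with h1 | h1
      · exact h0 h1
      · obtain ⟨x, hx, s, -, hs⟩ := mem_mul'.1 h1
        have hx' : x = G w b m 0 ++ [2 * m] := hx
        exact hn ⟨s, by rw [← hs, hx']⟩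
    · exact Or.inr (Or.inl ⟨hv, hn⟩)
    · refine Or.inr (Or.inr (Or.inl ⟨hv, fun h1 => ?_⟩))
      have h2 := h1 b hb
      rw [Finset.mem_erase] at h2
      exact h2.1 rfl
    · refine Or.inr (Or.inr (Or.inr (mem_mul'.2 ⟨p, ?_, [x] ++ ([2 * m] ++ s),
        mem_mul'.2 ⟨[x], ⟨x, ?_, rfl⟩, [2 * m] ++ s, mem_mul'.2 ⟨[2 * m], rfl, s, ?_, rfl⟩, rfl⟩, ?_⟩)))
      · intro a ha
        exact hv a (by simp [ha])
      · rw [Finset.mem_insert, Finset.mem_range]
        exact hx.symm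
      · intro a ha
        exact hv a (by simp [ha])
      · simp only [List.append_assoc]

end Pool.Agent.Lib.GCH
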