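import Pool.Agent.Lib.GCH.RatA

/-!
# Module GCH.Tests: tests with outputs in a language of the cone (MP_f1c4ef_lc)

PROOF of `tests_mem`: `nivat hF hA` with `K = {[3]} * Enc 2 R + (sum over P ∈ Ps of (product over (i, L) ∈ P of Enc i L))`
(define it by recursion on the lists: `prodL [] = 1`, `prodL ((i, L) :: P) = Enc i L * prodL P`; `sumL [] = 0`,
`sumL (P :: Ps) = prodL P + sumL Ps`), `φ y = if y % 4 = 3 then a0 else f (y % 4) (y / 4)`,
`h y = if y % 4 = 3 then [] else [y / 4]`; here `f 2 = fun _ => []` by hypothesis. For `u` and `i < 3`: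
`(u.map (4 * · + i)).flatMap h = u`, `(u.map (4 * · + i)).flatMap φ = u.flatMap (f i)`. By induction on `P` with all
roles `< 3`: (a) `t ∈ prodL P → Fac f P (t.flatMap h) (t.flatMap φ)`;
(b) `Fac f P v o → ∃ t ∈ prodL P, t.flatMap h = v ∧ t.flatMap φ = o`. For `t = [3] ++ u.map (4 * · + 2)`, `u ∈ R`:
`t.flatMap φ = a0 ∈ A`, `t.flatMap h = u`. `fac_cons`, `fac_nil`: `cases`.
-/

set_option autoImplicit false

namespace Pool.Agent.Lib.GCH

open Pool.Agent.Lib.F1c4

theorem fac_nil {f : ℕ → ℕ → List ℕ} {v o : List ℕ} : Fac f [] v o ↔ v = [] ∧ o = [] := by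
  constructor
  · intro h
    cases h
    exact ⟨rfl, rfl⟩
  · rintro ⟨rfl, rfl⟩
    exact Fac.nil

theorem fac_cons {f : ℕ → ℕ → List ℕ} {i : ℕ} {L : Language ℕ} {P : List (ℕ × Language ℕ)}
    {v o : List ℕ} : Fac f ((i, L) :: P) v o ↔
      ∃ u v' o' : List ℕ, u ∈ L ∧ Fac f P v' o' ∧ v = u ++ v' ∧ o = u.flatMap (f i) ++ o' := by
  constructor
  · intro h
    cases h with
    | cons hu hv => exact ⟨_, _, _, hu, hv, rfl, rfl⟩
  · rintro ⟨u, v', o', hu, hv, rfl, rfl⟩
    exact Fac.cons hu hv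

namespace TestsAux

/-- product of the coded languages -/
def prodL : List (ℕ × Language ℕ) → Language ℕ
  | [] => 1
  | x :: P => Enc x.1 x.2 * prodL P

/-- sum of the products -/
def sumL : List (List (ℕ × Language ℕ)) → Language ℕ
  | [] => 0
  | P :: Ps => prodL P + sumL Ps

theorem prodL_rat : ∀ P : List (ℕ × Language ℕ), (∀ x ∈ P, x.1 < 3 ∧ Rat x.2) → Rat (prodL P)
  | [], _ => rat_one
  | x :: P, h => rat_mul (enc_rat x.1 (h x List.mem_cons_self).2)
      (prodL_rat P (fun y hy => h y (List.mem_cons_of_mem _ hy)))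

theorem sumL_rat : ∀ Ps : List (List (ℕ × Language ℕ)),
    (∀ P ∈ Ps, ∀ x ∈ P, x.1 < 3 ∧ Rat x.2) → Rat (sumL Ps)
  | [], _ => rat_zero
  | P :: Ps, h => rat_add (prodL_rat P (h P List.mem_cons_self))
      (sumL_rat Ps (fun Q hQ => h Q (List.mem_cons_of_mem _ hQ)))

theorem mem_sumL {t : List ℕ} : ∀ Ps : List (List (ℕ × Language ℕ)),
    t ∈ sumL Ps ↔ ∃ P ∈ Ps, t ∈ prodL P
  | [] => by
    constructor
    · intro h
      exact absurd h (Language.notMem_zero t)
    · rintro ⟨P, hP, -⟩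
      exact absurd hP List.not_mem_nil
  | P :: Ps => by
    have e : t ∈ sumL (P :: Ps) ↔ t ∈ prodL P ∨ t ∈ sumL Ps := Iff.rfl
    rw [e, mem_sumL Ps]
    constructor
    · rintro (h | ⟨Q, hQ, h⟩)
      · exact ⟨P, List.mem_cons_self, h⟩
      · exact ⟨Q, List.mem_cons_of_mem _ hQ, h⟩
    · rintro ⟨Q, hQ, h⟩
      rcases List.mem_cons.1 hQ with rfl | hQ
      · exact Or.inl h
      · exact Or.inr ⟨Q, hQ, h⟩

/-- the words `[3]` -/
def T3 : Language ℕ := {t : List ℕ | t = [3]}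

/-- the output map -/
def ph (a0 : List ℕ) (f : ℕ → ℕ → List ℕ) (y : ℕ) : List ℕ :=
  if y % 4 = 3 then a0 else f (y % 4) (y / 4)

/-- the input map -/
def hh (y : ℕ) : List ℕ := if y % 4 = 3 then [] else [y / 4]

theorem map_hh {i : ℕ} (hi : i < 3) (u : List ℕ) :
    (u.map (fun a => 4 * a + i)).flatMap hh = u := by
  induction u with
  | nil => rfl
  | cons a u ih =>
    rw [List.map_cons, List.flatMap_cons, ih]
    have h1 : (4 * a + i) % 4 = i := by omega
    have h2 : (4 * a + i) / 4 = a := by omega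
    have h3 : hh (4 * a + i) = [a] := by
      unfold hh
      rw [h1, h2, if_neg (by omega)]
    rw [h3]
    rfl

theorem map_ph {i : ℕ} (hi : i < 3) (a0 : List ℕ) (f : ℕ → ℕ → List ℕ) (u : List ℕ) :
    (u.map (fun a => 4 * a + i)).flatMap (ph a0 f) = u.flatMap (f i) := by
  induction u with
  | nil => rfl
  | cons a u ih =>
    rw [List.map_cons, List.flatMap_cons, List.flatMap_cons, ih]
    have h1 : (4 * a + i) % 4 = i := by omega
    have h2 : (4 * a + i) / 4 = a := by omega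
    have h3 : ph a0 f (4 * a + i) = f i a := by
      unfold ph
      rw [h1, h2, if_neg (by omega)]
    rw [h3]

theorem fac_of {a0 : List ℕ} {f : ℕ → ℕ → List ℕ} : ∀ (P : List (ℕ × Language ℕ))
    (_ : ∀ x ∈ P, x.1 < 3 ∧ Rat x.2) (t : List ℕ) (_ : t ∈ prodL P),
    Fac f P (t.flatMap hh) (t.flatMap (ph a0 f))
  | [], _, t, ht => by
    have h1 : t = [] := (Language.mem_one t).1 ht
    rw [h1]
    exact Fac.nil
  | (i, L) :: P, h, t, ht => by
    obtain ⟨t1, ht1, t2, ht2, rfl⟩ := Language.mem_mul.1 (show t ∈ Enc i L * prodL P from ht)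
    obtain ⟨u, hu, rfl⟩ := ht1
    have hi : i < 3 := (h (i, L) List.mem_cons_self).1
    rw [List.flatMap_append, List.flatMap_append, map_hh hi, map_ph hi]
    exact Fac.cons hu (fac_of P (fun y hy => h y (List.mem_cons_of_mem _ hy)) t2 ht2)

theorem of_fac {a0 : List ℕ} {f : ℕ → ℕ → List ℕ} {P : List (ℕ × Language ℕ)}
    {v o : List ℕ} (hf : Fac f P v o) (hP : ∀ x ∈ P, x.1 < 3 ∧ Rat x.2) :
    ∃ t ∈ prodL P, t.flatMap hh = v ∧ t.flatMap (ph a0 f) = o := by
  induction hf with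
  | nil => exact ⟨[], (Language.mem_one _).2 rfl, rfl, rfl⟩
  | @cons i L P u v o hu hv ih =>
    obtain ⟨t, ht, h1, h2⟩ := ih (fun y hy => hP y (List.mem_cons_of_mem _ hy))
    have hi : i < 3 := (hP (i, L) List.mem_cons_self).1
    refine ⟨u.map (fun a => 4 * a + i) ++ t, ?_, ?_, ?_⟩
    · exact Language.mem_mul.2 ⟨_, ⟨u, hu, rfl⟩, t, ht, rfl⟩
    · rw [List.flatMap_append, map_hh hi, h1]
    · rw [List.flatMap_append, map_ph hi, h2]

end TestsAux

open TestsAux in
theorem tests_mem {F : Set (Language ℕ)} (hF : IsCone F) {A : Language ℕ} (hA : A ∈ F)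
    {a0 : List ℕ} (ha0 : a0 ∈ A) (f : ℕ → ℕ → List ℕ) (hf : f 2 = fun _ => []) {R : Language ℕ}
    (hR : Rat R) (Ps : List (List (ℕ × Language ℕ)))
    (hPs : ∀ P ∈ Ps, ∀ x ∈ P, x.1 < 3 ∧ Rat x.2) :
    ({v : List ℕ | v ∈ R ∨ ∃ P ∈ Ps, ∃ o : List ℕ, Fac f P v o ∧ o ∈ A} : Language ℕ) ∈ F := by
  have hK : Rat (T3 * Enc 2 R + sumL Ps) :=
    rat_add (rat_mul (rat_sing 3) (enc_rat 2 hR)) (sumL_rat Ps hPs)
  have h := nivat hF hA hK (ph a0 f) hh
  have e3 : hh 3 = [] := rfl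
  have e4 : ph a0 f 3 = a0 := rfl
  have e : ({v : List ℕ | v ∈ R ∨ ∃ P ∈ Ps, ∃ o : List ℕ, Fac f P v o ∧ o ∈ A} : Language ℕ) =
      ({w : List ℕ | ∃ t ∈ (T3 * Enc 2 R + sumL Ps : Language ℕ),
        t.flatMap (ph a0 f) ∈ A ∧ w = t.flatMap hh} : Language ℕ) := by
    ext v
    constructor
    · rintro (hv | ⟨P, hP, o, hfo, ho⟩)
      · refine ⟨[3] ++ v.map (fun a => 4 * a + 2), Or.inl (Language.mem_mul.2
          ⟨[3], rfl, _, ⟨v, hv, rfl⟩, rfl⟩), ?_, ?_⟩
        · rw [List.flatMap_append, map_ph (by norm_num), hf, MemAux.flat_nil, List.append_nil,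
            List.flatMap_cons, List.flatMap_nil, List.append_nil, e4]
          exact ha0
        · rw [List.flatMap_append, map_hh (by norm_num), List.flatMap_cons, List.flatMap_nil,
            List.append_nil, e3, List.nil_append]
      · obtain ⟨t, ht, h1, h2⟩ := of_fac (a0 := a0) hfo (hPs P hP)
        refine ⟨t, Or.inr ((mem_sumL Ps).2 ⟨P, hP, ht⟩), ?_, h1.symm⟩
        rw [h2]
        exact ho
    · rintro ⟨t, ht, h1, rfl⟩
      rcases ht with ht | ht
      · obtain ⟨t1, ht1, t2, ht2, rfl⟩ := Language.mem_mul.1 ht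
        obtain ⟨u, hu, rfl⟩ := ht2
        have h3 : t1 = [3] := ht1
        subst h3
        refine Or.inl ?_
        rw [List.flatMap_append, map_hh (by norm_num), List.flatMap_cons, List.flatMap_nil,
          List.append_nil, e3, List.nil_append]
        exact hu
      · obtain ⟨P, hP, ht⟩ := (mem_sumL Ps).1 ht
        exact Or.inr ⟨P, hP, _, fac_of P (hPs P hP) t ht, h1⟩
  rw [e]
  exact h

end Pool.Agent.Lib.GCH
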