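import Pool.Agent.Lib.GCH.ChainA

/-!
# Module GCH.Weave: blocks with marked delimiters (MP_f1c4ef_lc)
-/

set_option autoImplicit false

namespace Pool.Agent.Lib.GCH

namespace WeaveAux

theorem mn_of_lt {m b x : ℕ} (h : x < m) : mn m b x = [x] := by
  simp [mn, h]

theorem mn_mid {m b a : ℕ} (h : a < m) : mn m b (m + a) = [b] := by
  have h1 : ¬ m + a < m := by omega
  have h2 : m + a < 2 * m := by omega
  simp [mn, h2]

theorem mn_ge {m b x : ℕ} (h : m ≤ x) (h2 : x < 2 * m) : mn m b x = [b] := by
  have h1 : ¬ x < m := by omega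
  simp [mn, h1, h2]

theorem cr_of_lt {m x : ℕ} (h : x < m) : cr m x = [] := by
  simp [cr, h]

theorem cr_mid {m a : ℕ} (h : a < m) : cr m (m + a) = [a] := by
  have h1 : ¬ m + a < m := by omega
  have h2 : m + a < 2 * m := by omega
  simp [cr, h2]

theorem cr_ge {m x : ℕ} (h : m ≤ x) (h2 : x < 2 * m) : cr m x = [x - m] := by
  have h1 : ¬ x < m := by omega
  simp [cr, h1, h2]

theorem fm_mn {m b : ℕ} : ∀ l : List ℕ, (∀ a ∈ l, a < m) → l.flatMap (mn m b) = l := by
  intro l
  induction l with
  | nil => intro _; rfl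
  | cons x l ih =>
    intro h
    rw [List.flatMap_cons, ih (fun a ha => h a (List.mem_cons_of_mem _ ha)),
      mn_of_lt (h x (List.mem_cons_self ..))]
    rfl

theorem fm_cr {m : ℕ} : ∀ l : List ℕ, (∀ a ∈ l, a < m) → l.flatMap (cr m) = [] := by
  intro l
  induction l with
  | nil => intro _; rfl
  | cons x l ih =>
    intro h
    rw [List.flatMap_cons, ih (fun a ha => h a (List.mem_cons_of_mem _ ha)),
      cr_of_lt (h x (List.mem_cons_self ..))]
    rfl

end WeaveAux

open WeaveAux

theorem mn_lt {m b : ℕ} (hb : b < m) (Y : List ℕ) : ∀ a ∈ Y.flatMap (mn m b), a < m := by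
  intro a ha
  rw [List.mem_flatMap] at ha
  obtain ⟨x, _, hx⟩ := ha
  unfold mn at hx
  split_ifs at hx with h1 h2
  · rw [List.mem_singleton] at hx; omega
  · rw [List.mem_singleton] at hx; omega
  · simp at hx

theorem cr_lt (m : ℕ) (Y : List ℕ) : ∀ a ∈ Y.flatMap (cr m), a < m := by
  intro a ha
  rw [List.mem_flatMap] at ha
  obtain ⟨x, _, hx⟩ := ha
  unfold cr at hx
  split_ifs at hx with h1 h2
  · simp at hx
  · rw [List.mem_singleton] at hx; omega
  · simp at hx

theorem wv_mn {m b : ℕ} {w : ℕ → List ℕ} (h : Ch m b w) (n : ℕ) (cs : List ℕ)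
    (hcs : ∀ a ∈ cs, a < m) : (wv w m n cs).flatMap (mn m b) = seg w b n cs.length := by
  induction cs generalizing n with
  | nil => rfl
  | cons a cs ih =>
    rw [List.length_cons, seg_succ, wv, List.flatMap_append, List.flatMap_cons,
      ih (n + 1) (fun x hx => hcs x (List.mem_cons_of_mem _ hx)), fm_mn _ (h.lt n),
      mn_mid (hcs a (List.mem_cons_self ..))]
    simp

theorem wv_cr {m b : ℕ} {w : ℕ → List ℕ} (h : Ch m b w) (n : ℕ) (cs : List ℕ)
    (hcs : ∀ a ∈ cs, a < m) : (wv w m n cs).flatMap (cr m) = cs := by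
  induction cs generalizing n with
  | nil => rfl
  | cons a cs ih =>
    rw [wv, List.flatMap_append, List.flatMap_cons,
      ih (n + 1) (fun x hx => hcs x (List.mem_cons_of_mem _ hx)), fm_cr _ (h.lt n),
      cr_mid (hcs a (List.mem_cons_self ..))]
    simp

theorem wv_let {m b : ℕ} {w : ℕ → List ℕ} (h : Ch m b w) (n : ℕ) (cs : List ℕ)
    (hcs : ∀ a ∈ cs, a < m) : ∀ a ∈ wv w m n cs, a < 2 * m ∧ a ≠ b := by
  induction cs generalizing n with
  | nil => intro a ha; simp [wv] at ha
  | cons c cs ih =>
    intro a ha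
    rw [wv, List.mem_append, List.mem_cons] at ha
    have hc := hcs c (List.mem_cons_self ..)
    have hb := h.bm
    rcases ha with ha | ha | ha
    · have h1 := h.lt n a ha
      refine ⟨by omega, ?_⟩
      rintro rfl
      exact h.nb n ha
    · omega
    · exact ih (n + 1) (fun x hx => hcs x (List.mem_cons_of_mem _ hx)) a ha

theorem wv_len {m b : ℕ} {w : ℕ → List ℕ} (n : ℕ) (cs : List ℕ) :
    (wv w m n cs).length = (seg w b n cs.length).length := by
  induction cs generalizing n with
  | nil => rfl
  | cons a cs ih =>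
    rw [List.length_cons, seg_succ, wv, List.length_append, List.length_cons, ih (n + 1)]
    simp only [List.length_append, List.length_cons]

theorem wv_last (w : ℕ → List ℕ) (m n : ℕ) (cs : List ℕ) (a : ℕ) :
    wv w m n (cs ++ [a]) = wv w m n cs ++ w (n + cs.length) ++ [m + a] := by
  induction cs generalizing n with
  | nil => simp [wv]
  | cons c cs ih =>
    rw [List.cons_append, wv, wv, ih (n + 1), List.length_cons]
    have e : n + 1 + cs.length = n + (cs.length + 1) := by omega
    rw [e]
    simp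

theorem weave_uniq {m b : ℕ} {Y Z : List ℕ} (hY : ∀ a ∈ Y, a < 2 * m ∧ a ≠ b)
    (hZ : ∀ a ∈ Z, a < 2 * m ∧ a ≠ b) (h1 : Y.flatMap (mn m b) = Z.flatMap (mn m b))
    (h2 : Y.flatMap (cr m) = Z.flatMap (cr m)) : Y = Z := by
  induction Y generalizing Z with
  | nil =>
    cases Z with
    | nil => rfl
    | cons z Z =>
      exfalso
      have hz := hZ z (List.mem_cons_self ..)
      rcases Nat.lt_or_ge z m with hl | hl
      · rw [List.flatMap_cons, mn_of_lt hl] at h1; simp at h1
      · rw [List.flatMap_cons, mn_ge hl hz.1] at h1; simp at h1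
  | cons y Y ih =>
    have hy := hY y (List.mem_cons_self ..)
    cases Z with
    | nil =>
      exfalso
      rcases Nat.lt_or_ge y m with hl | hl
      · rw [List.flatMap_cons, mn_of_lt hl] at h1; simp at h1
      · rw [List.flatMap_cons, mn_ge hl hy.1] at h1; simp at h1
    | cons z Z =>
      have hz := hZ z (List.mem_cons_self ..)
      have hY' : ∀ a ∈ Y, a < 2 * m ∧ a ≠ b := fun a ha => hY a (List.mem_cons_of_mem _ ha)
      have hZ' : ∀ a ∈ Z, a < 2 * m ∧ a ≠ b := fun a ha => hZ a (List.mem_cons_of_mem _ ha)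
      rw [List.flatMap_cons, List.flatMap_cons] at h1 h2
      rcases Nat.lt_or_ge y m with hl | hl <;> rcases Nat.lt_or_ge z m with hk | hk
      · rw [mn_of_lt hl, mn_of_lt hk] at h1
        rw [cr_of_lt hl, cr_of_lt hk] at h2
        simp only [List.cons_append, List.nil_append, List.cons.injEq] at h1 h2
        rw [h1.1, ih hY' hZ' h1.2 h2]
      · exfalso
        rw [mn_of_lt hl, mn_ge hk hz.1] at h1
        simp only [List.cons_append, List.nil_append, List.cons.injEq] at h1
        exact hy.2 h1.1
      · exfalso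
        rw [mn_ge hl hy.1, mn_of_lt hk] at h1
        simp only [List.cons_append, List.nil_append, List.cons.injEq] at h1
        exact hz.2 h1.1.symm
      · rw [mn_ge hl hy.1, mn_ge hk hz.1] at h1
        rw [cr_ge hl hy.1, cr_ge hk hz.1] at h2
        simp only [List.cons_append, List.nil_append, List.cons.injEq] at h1 h2
        have e : y = z := by omega
        rw [e, ih hY' hZ' h1.2 h2.2]

theorem count_mn {m b : ℕ} {Y : List ℕ} (hY : ∀ a ∈ Y, a < 2 * m ∧ a ≠ b) :
    (Y.flatMap (mn m b)).count b = (Y.flatMap (cr m)).length := by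
  induction Y with
  | nil => rfl
  | cons y Y ih =>
    have hy := hY y (List.mem_cons_self ..)
    have ih' := ih (fun a ha => hY a (List.mem_cons_of_mem _ ha))
    rw [List.flatMap_cons, List.flatMap_cons, List.count_append, List.length_append, ih']
    rcases Nat.lt_or_ge y m with hl | hl
    · rw [mn_of_lt hl, cr_of_lt hl]
      have : List.count b [y] = 0 := by
        rw [List.count_eq_zero]
        simp only [List.mem_singleton]
        exact fun h => hy.2 h.symm
      rw [this]; rfl
    · rw [mn_ge hl hy.1, cr_ge hl hy.1]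
      simp

end Pool.Agent.Lib.GCH
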