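import Pool.Agent.Lib.GCH.ChainA
import Pool.Agent.Lib.GCH.Weave
import Pool.Agent.Lib.GCH.Tests
import Pool.Agent.Lib.GCH.RatB

/-!
# Module GCH.BadMem: the bad words form a language of the cone (MP_f1c4ef_lc)

The bad words are the words which pass one of three tests (lists of rational languages with roles, the
output is compared with the language `CC w b`) or lie in a rational language.
-/

set_option autoImplicit false

namespace Pool.Agent.Lib.GCH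

open Pool.Agent.Lib.F1c4

namespace BadMemAux

theorem fl_nil (v : List ℕ) : v.flatMap (fun _ => ([] : List ℕ)) = [] := by
  induction v with
  | nil => rfl
  | cons a v ih =>
    rw [List.flatMap_cons, ih]
    rfl

/-- words in the letters below `k` -/
def All (k : ℕ) : Language ℕ := {v : List ℕ | ∀ a ∈ v, a < k}

/-- words in the letters below `k`, empty or ending with `d` -/
def AE (k d : ℕ) : Language ℕ := {v : List ℕ | (∀ a ∈ v, a < k) ∧ EE d v}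

/-- words in the letters below `k`, empty or ending with a letter at least `m` -/
def AG (k m : ℕ) : Language ℕ := {v : List ℕ | (∀ a ∈ v, a < k) ∧ EG m v}

/-- the one letter words with letter in `s` -/
def Le (s : Finset ℕ) : Language ℕ := {v : List ℕ | ∃ c ∈ s, v = [c]}

/-- the word `[c]` -/
def One (c : ℕ) : Language ℕ := {t : List ℕ | t = [c]}

/-- the words over a finite alphabet -/
def Sta (s : Finset ℕ) : Language ℕ := {t : List ℕ | ∀ a ∈ t, a ∈ s}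

theorem sta_rat (s : Finset ℕ) : Rat (Sta s) := ⟨star_reg s, s, fun _ hw => hw⟩

theorem mem_all {k : ℕ} {v : List ℕ} : v ∈ All k ↔ ∀ a ∈ v, a < k := Iff.rfl
theorem mem_ae {k d : ℕ} {v : List ℕ} : v ∈ AE k d ↔ (∀ a ∈ v, a < k) ∧ EE d v := Iff.rfl
theorem mem_ag {k d : ℕ} {v : List ℕ} : v ∈ AG k d ↔ (∀ a ∈ v, a < k) ∧ EG d v := Iff.rfl
theorem mem_le {s : Finset ℕ} {v : List ℕ} : v ∈ Le s ↔ ∃ c ∈ s, v = [c] := Iff.rfl
theorem mem_one {c : ℕ} {v : List ℕ} : v ∈ One c ↔ v = [c] := Iff.rfl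
theorem mem_sta {s : Finset ℕ} {v : List ℕ} : v ∈ Sta s ↔ ∀ a ∈ v, a ∈ s := Iff.rfl

/-- the outputs of the three roles -/
def ff (m b : ℕ) : ℕ → ℕ → List ℕ
  | 0 => mn m b
  | 1 => cr m
  | _ => fun _ => []

/-- first test -/
def P1 (m : ℕ) : List (ℕ × Language ℕ) := [(0, AE (2 * m + 1) (2 * m)), (2, All (2 * m + 1))]

/-- second test -/
def P2 (m : ℕ) : List (ℕ × Language ℕ) :=
  [(0, AE (2 * m + 1) (2 * m)), (2, All (2 * m)), (2, One (2 * m)), (1, All (2 * m)),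
    (2, One (2 * m)), (2, All (2 * m + 1))]

/-- third test -/
def P3 (m b : ℕ) : List (ℕ × Language ℕ) :=
  [(0, AG (2 * m + 1) m), (2, All m), (2, Le ((Finset.range (2 * m)).filter (fun x => m ≤ x))),
    (2, One (2 * m)), (2, AE (2 * m) (m + b)), (1, Sta ((Finset.range (2 * m)).erase (m + b))),
    (1, One (m + b)), (2, One (2 * m)), (2, All (2 * m + 1))]

theorem fac1 {m b : ℕ} {v o : List ℕ} (h : Fac (ff m b) (P1 m) v o) :
    ∃ p s : List ℕ, p ∈ AE (2 * m + 1) (2 * m) ∧ s ∈ All (2 * m + 1) ∧ v = p ++ s ∧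
      o = p.flatMap (mn m b) := by
  obtain ⟨p, v1, o1, hp, h1, rfl, rfl⟩ := fac_cons.1 h
  obtain ⟨s, v2, o2, hs, h2, rfl, rfl⟩ := fac_cons.1 h1
  obtain ⟨rfl, rfl⟩ := fac_nil.1 h2
  refine ⟨p, s, hp, hs, by simp, ?_⟩
  simp [ff, fl_nil]

theorem fac1' {m b : ℕ} {p s : List ℕ} (hp : p ∈ AE (2 * m + 1) (2 * m))
    (hs : s ∈ All (2 * m + 1)) : Fac (ff m b) (P1 m) (p ++ s) (p.flatMap (mn m b)) := by
  have h1 := Fac.cons (f := ff m b) (i := 0) hp (Fac.cons (i := 2) hs (Fac.nil))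
  simpa [ff, P1, fl_nil] using h1

theorem fac2 {m b : ℕ} {v o : List ℕ} (h : Fac (ff m b) (P2 m) v o) :
    ∃ p Z Y s : List ℕ, p ∈ AE (2 * m + 1) (2 * m) ∧ Z ∈ All (2 * m) ∧ Y ∈ All (2 * m) ∧
      s ∈ All (2 * m + 1) ∧ v = p ++ Z ++ [2 * m] ++ Y ++ [2 * m] ++ s ∧
      o = p.flatMap (mn m b) ++ Y.flatMap (cr m) := by
  obtain ⟨p, v1, o1, hp, h1, rfl, rfl⟩ := fac_cons.1 h
  obtain ⟨Z, v2, o2, hZ, h2, rfl, rfl⟩ := fac_cons.1 h1
  obtain ⟨c1, v3, o3, hc1, h3, rfl, rfl⟩ := fac_cons.1 h2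
  obtain ⟨Y, v4, o4, hY, h4, rfl, rfl⟩ := fac_cons.1 h3
  obtain ⟨c2, v5, o5, hc2, h5, rfl, rfl⟩ := fac_cons.1 h4
  obtain ⟨s, v6, o6, hs, h6, rfl, rfl⟩ := fac_cons.1 h5
  obtain ⟨rfl, rfl⟩ := fac_nil.1 h6
  rw [mem_one] at hc1 hc2
  subst hc1 hc2
  refine ⟨p, Z, Y, s, hp, hZ, hY, hs, by simp, ?_⟩
  simp [ff, fl_nil]

theorem fac2' {m b : ℕ} {p Z Y s : List ℕ} (hp : p ∈ AE (2 * m + 1) (2 * m))
    (hZ : Z ∈ All (2 * m)) (hY : Y ∈ All (2 * m)) (hs : s ∈ All (2 * m + 1)) :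
    Fac (ff m b) (P2 m) (p ++ Z ++ [2 * m] ++ Y ++ [2 * m] ++ s)
      (p.flatMap (mn m b) ++ Y.flatMap (cr m)) := by
  have h1 := Fac.cons (f := ff m b) (i := 0) hp (Fac.cons (i := 2) hZ (Fac.cons (i := 2)
    (mem_one.2 (rfl : ([2 * m] : List ℕ) = [2 * m])) (Fac.cons (i := 1) hY (Fac.cons (i := 2)
    (mem_one.2 (rfl : ([2 * m] : List ℕ) = [2 * m])) (Fac.cons (i := 2) hs (Fac.nil))))))
  simpa [ff, P2, fl_nil] using h1

theorem fac3 {m b : ℕ} (hb : b < m) {v o : List ℕ} (h : Fac (ff m b) (P3 m b) v o) :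
    ∃ (p x : List ℕ) (c : ℕ) (Ya Yb s : List ℕ), p ∈ AG (2 * m + 1) m ∧ x ∈ All m ∧
      (m ≤ c ∧ c < 2 * m) ∧ Ya ∈ AE (2 * m) (m + b) ∧
      Yb ∈ Sta ((Finset.range (2 * m)).erase (m + b)) ∧ s ∈ All (2 * m + 1) ∧
      v = p ++ x ++ [c] ++ [2 * m] ++ Ya ++ Yb ++ [m + b] ++ [2 * m] ++ s ∧
      o = p.flatMap (mn m b) ++ Yb.flatMap (cr m) ++ [b] := by
  obtain ⟨p, v1, o1, hp, h1, rfl, rfl⟩ := fac_cons.1 h
  obtain ⟨x, v2, o2, hx, h2, rfl, rfl⟩ := fac_cons.1 h1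
  obtain ⟨c1, v3, o3, hc1, h3, rfl, rfl⟩ := fac_cons.1 h2
  obtain ⟨c2, v4, o4, hc2, h4, rfl, rfl⟩ := fac_cons.1 h3
  obtain ⟨Ya, v5, o5, hYa, h5, rfl, rfl⟩ := fac_cons.1 h4
  obtain ⟨Yb, v6, o6, hYb, h6, rfl, rfl⟩ := fac_cons.1 h5
  obtain ⟨c3, v7, o7, hc3, h7, rfl, rfl⟩ := fac_cons.1 h6
  obtain ⟨c4, v8, o8, hc4, h8, rfl, rfl⟩ := fac_cons.1 h7
  obtain ⟨s, v9, o9, hs, h9, rfl, rfl⟩ := fac_cons.1 h8
  obtain ⟨rfl, rfl⟩ := fac_nil.1 h9
  rw [mem_one] at hc2 hc3 hc4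
  subst hc2 hc3 hc4
  obtain ⟨c, hc, rfl⟩ := mem_le.1 hc1
  rw [Finset.mem_filter, Finset.mem_range] at hc
  refine ⟨p, x, c, Ya, Yb, s, hp, hx, ⟨hc.2, hc.1⟩, hYa, hYb, hs, by simp, ?_⟩
  have h10 : cr m (m + b) = [b] := by
    unfold cr
    rw [if_neg (by omega), if_pos (by omega)]
    simp
  simp [ff, h10, fl_nil]

theorem fac3' {m b : ℕ} (hb : b < m) {p x : List ℕ} {c : ℕ} {Ya Yb s : List ℕ}
    (hp : p ∈ AG (2 * m + 1) m) (hx : x ∈ All m) (hc : m ≤ c) (hc' : c < 2 * m)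
    (hYa : Ya ∈ AE (2 * m) (m + b)) (hYb : Yb ∈ Sta ((Finset.range (2 * m)).erase (m + b)))
    (hs : s ∈ All (2 * m + 1)) :
    Fac (ff m b) (P3 m b) (p ++ x ++ [c] ++ [2 * m] ++ Ya ++ Yb ++ [m + b] ++ [2 * m] ++ s)
      (p.flatMap (mn m b) ++ Yb.flatMap (cr m) ++ [b]) := by
  have h10 : cr m (m + b) = [b] := by
    unfold cr
    rw [if_neg (by omega), if_pos (by omega)]
    simp
  have hc1 : ([c] : List ℕ) ∈ Le ((Finset.range (2 * m)).filter (fun x => m ≤ x)) :=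
    mem_le.2 ⟨c, Finset.mem_filter.2 ⟨Finset.mem_range.2 hc', hc⟩, rfl⟩
  have h1 := Fac.cons (f := ff m b) (i := 0) hp (Fac.cons (i := 2) hx (Fac.cons (i := 2) hc1
    (Fac.cons (i := 2) (mem_one.2 (rfl : ([2 * m] : List ℕ) = [2 * m]))
    (Fac.cons (i := 2) hYa (Fac.cons (i := 1) hYb
    (Fac.cons (i := 1) (mem_one.2 (rfl : ([m + b] : List ℕ) = [m + b]))
    (Fac.cons (i := 2) (mem_one.2 (rfl : ([2 * m] : List ℕ) = [2 * m]))
    (Fac.cons (i := 2) hs (Fac.nil)))))))))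
  simpa [ff, P3, h10, fl_nil] using h1

theorem lt_of {m : ℕ} {Z : List ℕ} (h : ∀ a ∈ Z, a < 2 * m + 1) (h' : 2 * m ∉ Z) :
    ∀ a ∈ Z, a < 2 * m := by
  intro a ha
  have h1 := h a ha
  have h2 : a ≠ 2 * m := fun h3 => h' (h3 ▸ ha)
  omega

theorem co_app {m : ℕ} {C : Language ℕ} {o : List ℕ} (ho : ∀ a ∈ o, a < m) :
    o ∈ co m C ↔ o ∉ C := ⟨fun h => h.2, fun h => ⟨ho, h⟩⟩

theorem lt_app {k : ℕ} {u v : List ℕ} (hu : ∀ a ∈ u, a < k) (hv : ∀ a ∈ v, a < k) :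
    ∀ a ∈ u ++ v, a < k := by
  intro a ha
  rcases List.mem_append.1 ha with h | h
  · exact hu a h
  · exact hv a h

theorem one_lt {k c : ℕ} (h : c < k) : ∀ a ∈ ([c] : List ℕ), a < k := by
  intro a ha
  rw [List.mem_singleton] at ha
  omega

theorem lt_le {k l : ℕ} (hkl : k ≤ l) {u : List ℕ} (hu : ∀ a ∈ u, a < k) : ∀ a ∈ u, a < l :=
  fun a ha => lt_of_lt_of_le (hu a ha) hkl

theorem bad_eq {m b : ℕ} {w : ℕ → List ℕ} (hb : b < m) (v : List ℕ) :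
    (v ∈ ({v : List ℕ | (∀ a ∈ v, a < 2 * m + 1) ∧ Bad0 m b w v} : Language ℕ) ∨
      ∃ P ∈ [P1 m, P2 m, P3 m b], ∃ o : List ℕ, Fac (ff m b) P v o ∧ o ∈ co m (CC w b)) ↔
    (∀ a ∈ v, a < 2 * m + 1) ∧ Bad m b w v := by
  constructor
  · rintro (⟨h1, h2⟩ | ⟨P, hP, o, ho, ho1⟩)
    · exact ⟨h1, Or.inl h2⟩
    · simp only [List.mem_cons, List.not_mem_nil, or_false] at hP
      rcases hP with rfl | rfl | rfl
      · obtain ⟨p, s, hp, hs, rfl, rfl⟩ := fac1 ho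
        exact ⟨lt_app hp.1 hs, Or.inr (Or.inl ⟨p, s, rfl, hp.2, ho1.2⟩)⟩
      · obtain ⟨p, Z, Y, s, hp, hZ, hY, hs, rfl, rfl⟩ := fac2 ho
        refine ⟨?_, Or.inr (Or.inr (Or.inl ⟨p, Z, Y, s, rfl, hp.2, ?_, ?_, ho1.2⟩))⟩
        · have h5 : (2 : ℕ) * m < 2 * m + 1 := by omega
          exact lt_app (lt_app (lt_app (lt_app (lt_app hp.1 (lt_le (by omega) hZ)) (one_lt h5))
            (lt_le (by omega) hY)) (one_lt h5)) hs
        · intro h6
          exact absurd (hZ _ h6) (by omega)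
        · intro h6
          exact absurd (hY _ h6) (by omega)
      · obtain ⟨p, x, c, Ya, Yb, s, hp, hx, hc, hYa, hYb, hs, rfl, rfl⟩ := fac3 hb ho
        have hYb' : ∀ a ∈ Yb, a < 2 * m := fun a ha =>
          Finset.mem_range.1 (Finset.mem_of_mem_erase (hYb a ha))
        refine ⟨?_, Or.inr (Or.inr (Or.inr ⟨p, x, c, Ya, Yb, s, rfl, hp.2, hx, hc.1, hc.2, ?_,
          hYa.2, ?_, ?_, ho1.2⟩))⟩
        · have h5 : (2 : ℕ) * m < 2 * m + 1 := by omega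
          exact lt_app (lt_app (lt_app (lt_app (lt_app (lt_app (lt_app (lt_app hp.1
            (lt_le (by omega) hx)) (one_lt (by omega))) (one_lt h5)) (lt_le (by omega) hYa.1))
            (lt_le (by omega) hYb')) (one_lt (by omega))) (one_lt h5)) hs
        · intro h6
          exact absurd (hYa.1 _ h6) (by omega)
        · intro h6
          exact absurd (hYb' _ h6) (by omega)
        · intro h6
          exact absurd (hYb _ h6) (Finset.notMem_erase _ _)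
  · rintro ⟨hv, h0 | h1 | h2 | h3⟩
    · exact Or.inl ⟨hv, h0⟩
    · obtain ⟨p, s, rfl, hp, hC⟩ := h1
      refine Or.inr ⟨P1 m, by simp, _, fac1' (b := b) ⟨fun a ha => hv a (by simp [ha]), hp⟩
        (fun a ha => hv a (by simp [ha])), (co_app (mn_lt hb p)).2 hC⟩
    · obtain ⟨p, Z, Y, s, rfl, hp, hZ, hY, hC⟩ := h2
      refine Or.inr ⟨P2 m, by simp, _, fac2' (b := b) ⟨fun a ha => hv a (by simp [ha]), hp⟩
        (lt_of (fun a ha => hv a (by simp [ha])) hZ) (lt_of (fun a ha => hv a (by simp [ha])) hY)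
        (fun a ha => hv a (by simp [ha])), (co_app (lt_app (mn_lt hb p) (cr_lt m Y))).2 hC⟩
    · obtain ⟨p, x, c, Ya, Yb, s, rfl, hp, hx, hc, hc', hYa, hYa', hYb, hYb', hC⟩ := h3
      refine Or.inr ⟨P3 m b, by simp, _, fac3' hb ⟨fun a ha => hv a (by simp [ha]), hp⟩ hx hc hc'
        ⟨lt_of (fun a ha => hv a (by simp [ha])) hYa, hYa'⟩ ?_
        (fun a ha => hv a (by simp [ha])),
        (co_app (lt_app (lt_app (mn_lt hb p) (cr_lt m Yb)) (one_lt hb))).2 hC⟩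
      intro a ha
      refine Finset.mem_erase.2 ⟨fun h7 => hYb' (h7 ▸ ha), Finset.mem_range.2 ?_⟩
      exact lt_of (fun a ha => hv a (by simp [ha])) hYb a ha

theorem bb_mem {m b : ℕ} {w : ℕ → List ℕ} (h : Ch m b w) : ([b, b] : List ℕ) ∈ co m (CC w b) := by
  refine ⟨?_, ?_⟩
  · intro a ha
    have h1 : a = b := by simpa using ha
    rw [h1]
    exact h.bm
  · rintro ⟨n, hn⟩
    have h1 := U_count h n
    rw [← hn] at h1
    have h2 : n = 2 := by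
      rw [← h1]
      simp
    have h3 := U_len h n
    rw [← hn, h2] at h3
    simp at h3

end BadMemAux

open BadMemAux

theorem bad_mem {F : Set (Language ℕ)} (hF : IsCone F) {m b : ℕ} {w : ℕ → List ℕ} (h : Ch m b w)
    (hA : co m (CC w b) ∈ F) :
    ({v : List ℕ | (∀ a ∈ v, a < 2 * m + 1) ∧ Bad m b w v} : Language ℕ) ∈ F := by
  have h1 := tests_mem hF hA (bb_mem h) (ff m b) rfl (bad0_rat m b w) [P1 m, P2 m, P3 m b] ?_
  · have h2 : ({v : List ℕ | (∀ a ∈ v, a < 2 * m + 1) ∧ Bad m b w v} : Language ℕ) = _ :=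
      Set.ext fun v => (bad_eq (w := w) h.bm v).symm
    rw [h2]
    exact h1
  · intro P hP x hx
    have hall : ∀ k, Rat (All k) := rat_all
    have hae : ∀ k d, Rat (AE k d) := rat_EE
    have hag : ∀ k d, Rat (AG k d) := rat_EG
    have hle : ∀ s, Rat (Le s) := rat_fin
    have hone : ∀ c, Rat (One c) := rat_sing
    simp only [List.mem_cons, List.not_mem_nil, or_false] at hP
    rcases hP with rfl | rfl | rfl
    · simp only [P1, List.mem_cons, List.not_mem_nil, or_false] at hx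
      rcases hx with rfl | rfl
      · exact ⟨by norm_num, hae _ _⟩
      · exact ⟨by norm_num, hall _⟩
    · simp only [P2, List.mem_cons, List.not_mem_nil, or_false] at hx
      rcases hx with rfl | rfl | rfl | rfl | rfl | rfl
      · exact ⟨by norm_num, hae _ _⟩
      · exact ⟨by norm_num, hall _⟩
      · exact ⟨by norm_num, hone _⟩
      · exact ⟨by norm_num, hall _⟩
      · exact ⟨by norm_num, hone _⟩
      · exact ⟨by norm_num, hall _⟩
    · simp only [P3, List.mem_cons, List.not_mem_nil, or_false] at hx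
      rcases hx with rfl | rfl | rfl | rfl | rfl | rfl | rfl | rfl | rfl
      · exact ⟨by norm_num, hag _ _⟩
      · exact ⟨by norm_num, hall _⟩
      · exact ⟨by norm_num, hle _⟩
      · exact ⟨by norm_num, hone _⟩
      · exact ⟨by norm_num, hae _ _⟩
      · exact ⟨by norm_num, sta_rat _⟩
      · exact ⟨by norm_num, hone _⟩
      · exact ⟨by norm_num, hone _⟩
      · exact ⟨by norm_num, hall _⟩

end Pool.Agent.Lib.GCH
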