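import Pool.Agent.Lib.GCH.Defs

/-!
# Module GCH.ChainA: first facts on the words U w b n (MP_f1c4ef_lc)

PROOFS. All by induction on `n` (or `k`).
`Ch.shift`: trivial. `U_count`: each block `w n ++ [b]` contains `b` once. `U_lt`: trivial.
`U_len`: prove by induction on `n`: if some `i < n` has `w i = []`, then `2 * n ≤ length + 1`, otherwise
`2 * n ≤ length`. (If `w n = []` then no `i < n` has `w i = []`, as `w` is injective.)
`U_add`: induction on `k`, `seg w b n (k + 1) = seg w b n k ++ (w (n + k) ++ [b])` by definition.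
`seg_succ`: induction on `k`. `U_EE`: cases on `n`. `U_mono`: `U_add` and `U_len`, or induction.
`U_inj`: `U_count`. `U_eq_flatMap`: induction, `List.range_succ`.
-/

set_option autoImplicit false

namespace Pool.Agent.Lib.GCH

theorem Ch.shift {m b : ℕ} {w : ℕ → List ℕ} (h : Ch m b w) (n : ℕ) :
    Ch m b (fun i => w (n + i)) := by
  refine ⟨h.bm, fun i => h.lt (n + i), fun i => h.nb (n + i), ?_⟩
  intro i j hij
  have h1 : n + i = n + j := h.inj hij
  omega

theorem U_count {m b : ℕ} {w : ℕ → List ℕ} (h : Ch m b w) (n : ℕ) : (U w b n).count b = n := by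
  induction n with
  | zero => simp [U]
  | succ n ih =>
    have h0 : (w n).count b = 0 := List.count_eq_zero.mpr (h.nb n)
    simp only [U, List.count_append, ih, h0]
    simp

theorem U_lt {m b : ℕ} {w : ℕ → List ℕ} (h : Ch m b w) (n : ℕ) : ∀ a ∈ U w b n, a < m := by
  induction n with
  | zero => intro a ha; simp [U] at ha
  | succ n ih =>
    intro a ha
    simp only [U, List.mem_append, List.mem_singleton] at ha
    rcases ha with ha | ha | ha
    · exact ih a ha
    · exact h.lt n a ha
    · rw [ha]; exact h.bm

namespace ChainAAux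

theorem lenAux {m b : ℕ} {w : ℕ → List ℕ} (h : Ch m b w) (n : ℕ) :
    2 * n ≤ (U w b n).length + 1 ∧ ((∀ i < n, w i ≠ []) → 2 * n ≤ (U w b n).length) := by
  induction n with
  | zero => simp
  | succ n ih =>
    have hl : (U w b (n + 1)).length = (U w b n).length + (w n).length + 1 := by
      simp only [U, List.length_append, List.length_singleton]; omega
    by_cases hn : w n = []
    · have hall : ∀ i < n, w i ≠ [] := by
        intro i hi h0
        have : i = n := h.inj (h0.trans hn.symm)
        omega
      have h1 := ih.2 hall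
      refine ⟨by rw [hl]; omega, fun hh => absurd hn (hh n (Nat.lt_succ_self n))⟩
    · have hpos : 1 ≤ (w n).length := by
        rcases Nat.eq_zero_or_pos (w n).length with h0 | h0
        · exact absurd (List.length_eq_zero_iff.mp h0) hn
        · exact h0
      refine ⟨by rw [hl]; have := ih.1; omega, fun hh => ?_⟩
      have h1 := ih.2 (fun i hi => hh i (Nat.lt_succ_of_lt hi))
      rw [hl]; omega

end ChainAAux

theorem U_len {m b : ℕ} {w : ℕ → List ℕ} (h : Ch m b w) (n : ℕ) :
    2 * n ≤ (U w b n).length + 1 := (ChainAAux.lenAux h n).1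

theorem U_add (w : ℕ → List ℕ) (b n k : ℕ) : U w b (n + k) = U w b n ++ seg w b n k := by
  induction k with
  | zero => simp [seg, U]
  | succ k ih =>
    have h1 : U w b (n + (k + 1)) = U w b (n + k) ++ (w (n + k) ++ [b]) := rfl
    have h2 : seg w b n (k + 1) = seg w b n k ++ (w (n + k) ++ [b]) := rfl
    rw [h1, h2, ih, List.append_assoc]

theorem seg_succ (w : ℕ → List ℕ) (b n k : ℕ) :
    seg w b n (k + 1) = w n ++ b :: seg w b (n + 1) k := by
  induction k with
  | zero => simp [seg, U]
  | succ k ih =>
    have h2 : seg w b n (k + 1 + 1) = seg w b n (k + 1) ++ (w (n + (k + 1)) ++ [b]) := rfl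
    have h3 : seg w b (n + 1) (k + 1) = seg w b (n + 1) k ++ (w (n + 1 + k) ++ [b]) := rfl
    rw [h2, ih, h3]
    have h4 : n + (k + 1) = n + 1 + k := by omega
    rw [h4]
    simp only [List.append_assoc, List.cons_append]

theorem U_EE (w : ℕ → List ℕ) (b n : ℕ) : EE b (U w b n) := by
  cases n with
  | zero => left; rfl
  | succ n =>
    right
    exact ⟨U w b n ++ w n, by simp [U, List.append_assoc]⟩

theorem U_mono (w : ℕ → List ℕ) (b : ℕ) {n k : ℕ} (h : n ≤ k) :
    (U w b n).length + (k - n) ≤ (U w b k).length := by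
  obtain ⟨j, rfl⟩ := Nat.exists_eq_add_of_le h
  clear h
  induction j with
  | zero => simp
  | succ j ih =>
    have h1 : U w b (n + (j + 1)) = U w b (n + j) ++ (w (n + j) ++ [b]) := rfl
    rw [h1]
    simp only [List.length_append, List.length_singleton]
    omega

theorem U_inj {m b : ℕ} {w : ℕ → List ℕ} (h : Ch m b w) {n k : ℕ} (hnk : U w b n = U w b k) :
    n = k := by
  rw [← U_count h n, ← U_count h k, hnk]

theorem U_eq_flatMap (w : ℕ → List ℕ) (b n : ℕ) :
    U w b n = (List.range n).flatMap (fun i => w i ++ [b]) := by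
  induction n with
  | zero => simp [U]
  | succ n ih =>
    rw [List.range_succ, List.flatMap_append, ← ih]
    simp [U]

end Pool.Agent.Lib.GCH
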