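import Pool.Agent.Lib.GCH.ChainA
import Pool.Agent.Lib.F1c4.RegA

/-!
# Module GCH.ChainB: the language CC w b has unique last blocks and no pumping (MP_f1c4ef_lc)

PROOFS.
`last_eq`: `p ++ x = q ++ y` (cancel `[b]`). By `List.append_eq_append_iff` one of them is longer, say
`q = p ++ t`, `x = t ++ y` (or symmetric). If `t ≠ []` then `q ≠ []` ends with `b`, so `t` ends with `b`, and
`b ∈ x`, contradiction. So `t = []`.
`mem_last`: `p ++ x ++ [b] = U w b n`; `n ≠ 0`, `n = n' + 1`, `U w b n = U w b n' ++ w n' ++ [b]`; use `last_eq`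
with `U_EE` and `h.nb`.
`U_pre`: induction on `n`. `n = 0`: `p = []`. `n + 1`: if `p = U w b (n + 1)`, `k = n + 1`. Otherwise `s ≠ []` and
(the last letter of `s` is `b`) `s = s' ++ [b]`, `p ++ s' = U w b n ++ w n`. If `p` is a prefix of `U w b n` use the
induction hypothesis. Otherwise `p = U w b n ++ t`, `t ≠ []` a prefix of `w n`; `p` ends with `b`, so `b ∈ t`, `b ∈ w n`,
contradiction. (`p = []` is `k = 0`.)
`no_pump`: let `f k := x ++ y^k ++ z = U w b (n k)`. Case `b ∉ y`: `n 0 = n 1` by `U_count` (count of `b`), so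
`f 0 = f 1`, but the lengths differ. Case `b ∈ y`: `y = y1 ++ [b] ++ y2` with `b ∉ y1`
(`List.eq_append_cons_of_mem`). With `P1 := x ++ y ++ y1 ++ [b]` and `P2 := x ++ y ++ y ++ y1 ++ [b]`, both are prefixes
(ending with `b`) of `f 3`, so by `U_pre` `P1 = U w b i`, `P2 = U w b j`, and `i < j` (lengths). Let `y2' , u` with
`y2 ++ y1 = y2' ++ u`, `y2' ` empty or ending with `b`, `b ∉ u` (every list splits in this way after its last `b`; the
lemma `split_last`). Then `P1 = (x ++ y1 ++ [b] ++ y2') ++ u ++ [b]` and `P2 = (x ++ y ++ y1 ++ [b] ++ y2') ++ u ++ [b]`,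
and the words in parentheses are `EE b`, so by `mem_last` `u = w (i - 1)` and `u = w (j - 1)`: more precisely
`mem_last` gives `i', j'` with `x ++ y1 ++ [b] ++ y2' = U w b i'`, `x ++ y ++ y1 ++ [b] ++ y2' = U w b j'`, `u = w i'`,
`u = w j'`; injectivity gives `i' = j'`, but the lengths differ.
`nonreg`: if `co m (CC w b)` is regular then so is `CC w b` = (words in the letters `< m`) minus it
(`F1c4.star_reg (Finset.range m)`, `Language.IsRegular.compl`, `.inf`). Take a DFA with finite state type; by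
`DFA.evalFrom_split`/`DFA.pumping_lemma` applied to `U w b n` with `n` at least the number of states (the length is
at least `n` by `U_len`) there are `x, y ≠ [], z` with `{x} * y* * {z} ≤ CC w b`, contradiction with `no_pump`
(`(List.replicate k y).flatten ∈ y*`: `Language.mem_kstar`).
-/

set_option autoImplicit false

namespace Pool.Agent.Lib.GCH

/-- every word splits after its last letter `b` -/
theorem split_last (b : ℕ) (u : List ℕ) : ∃ p x : List ℕ, u = p ++ x ∧ EE b p ∧ b ∉ x := by
  induction u using List.reverseRecOn with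
  | nil => exact ⟨[], [], rfl, Or.inl rfl, by simp⟩
  | append_singleton u a ih =>
    by_cases hab : a = b
    · subst hab
      exact ⟨u ++ [a], [], by simp, Or.inr ⟨u, rfl⟩, by simp⟩
    · obtain ⟨p, x, hu, hp, hx⟩ := ih
      refine ⟨p, x ++ [a], by rw [hu, List.append_assoc], hp, ?_⟩
      rw [List.mem_append, List.mem_singleton]
      rintro (h | h)
      · exact hx h
      · exact hab h.symm

namespace ChainBAux

theorem mem_of_EE {b : ℕ} {p t : List ℕ} (h : EE b (p ++ t)) (ht : t ≠ []) : b ∈ t := by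
  rcases h with h | ⟨q, h⟩
  · exact absurd (List.append_eq_nil_iff.1 h).2 ht
  · rcases List.eq_nil_or_concat t with h' | ⟨t', a, h'⟩
    · exact absurd h' ht
    · rw [List.concat_eq_append] at h'
      subst h'
      rw [← List.append_assoc] at h
      have h2 := List.append_inj_right' h rfl
      have h3 : a = b := by simpa using h2
      subst h3
      simp

theorem EE_append {b : ℕ} {q : List ℕ} (p : List ℕ) (h : EE b q) (hp : EE b p) :
    EE b (p ++ q) := by
  rcases h with h | ⟨r, h⟩
  · rw [h, List.append_nil]; exact hp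
  · exact Or.inr ⟨p ++ r, by rw [h, List.append_assoc]⟩

end ChainBAux

theorem last_eq {b : ℕ} {p q x y : List ℕ} (hp : EE b p) (hq : EE b q) (hx : b ∉ x) (hy : b ∉ y)
    (h : p ++ x ++ [b] = q ++ y ++ [b]) : p = q ∧ x = y := by
  have h1 : p ++ x = q ++ y := List.append_cancel_right h
  rcases List.append_eq_append_iff.1 h1 with ⟨t, h2, h3⟩ | ⟨t, h2, h3⟩
  · by_cases ht : t = []
    · subst ht
      exact ⟨by simpa using h2.symm, by simpa using h3⟩
    · exfalso
      rw [h2] at hq
      exact hx (by rw [h3]; exact List.mem_append_left _ (ChainBAux.mem_of_EE hq ht))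
  · by_cases ht : t = []
    · subst ht
      exact ⟨by simpa using h2, by simpa using h3.symm⟩
    · exfalso
      rw [h2] at hp
      exact hy (by rw [h3]; exact List.mem_append_left _ (ChainBAux.mem_of_EE hp ht))

theorem mem_last {m b : ℕ} {w : ℕ → List ℕ} (h : Ch m b w) {p x : List ℕ} (hp : EE b p)
    (hx : b ∉ x) (hm : p ++ x ++ [b] ∈ CC w b) : ∃ n, p = U w b n ∧ x = w n := by
  obtain ⟨n, hn⟩ := hm
  cases n with
  | zero => simp [U] at hn
  | succ n =>
    rw [U, ← List.append_assoc] at hn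
    exact ⟨n, last_eq hp (U_EE w b n) hx (h.nb n) hn⟩

theorem U_pre {m b : ℕ} {w : ℕ → List ℕ} (h : Ch m b w) {n : ℕ} {p s : List ℕ} (hp : EE b p)
    (hU : U w b n = p ++ s) : ∃ k, k ≤ n ∧ p = U w b k := by
  induction n generalizing s with
  | zero =>
    have := (List.append_eq_nil_iff.1 hU.symm).1
    exact ⟨0, le_rfl, this⟩
  | succ n ih =>
    rw [U] at hU
    rcases List.append_eq_append_iff.1 hU with ⟨t, h2, h3⟩ | ⟨t, h2, h3⟩
    · by_cases ht : t = []
      · subst ht
        exact ⟨n, Nat.le_succ n, by simpa using h2⟩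
      · have hb : b ∈ t := by
          rw [h2] at hp
          exact ChainBAux.mem_of_EE hp ht
        rcases List.eq_nil_or_concat s with h' | ⟨s', a, h'⟩
        · subst h'
          refine ⟨n + 1, le_rfl, ?_⟩
          rw [U, h2, h3, List.append_nil]
        · exfalso
          rw [List.concat_eq_append] at h'
          subst h'
          rw [← List.append_assoc] at h3
          have h4 := List.append_inj_left' h3 rfl
          exact h.nb n (by rw [h4]; exact List.mem_append_left _ hb)
    · obtain ⟨k, hk, hk2⟩ := ih h2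
      exact ⟨k, hk.trans (Nat.le_succ n), hk2⟩

theorem no_pump {m b : ℕ} {w : ℕ → List ℕ} (h : Ch m b w) (x y z : List ℕ) (hy : y ≠ []) :
    ¬ ∀ k : ℕ, x ++ (List.replicate k y).flatten ++ z ∈ CC w b := by
  intro H
  by_cases hb : b ∈ y
  · obtain ⟨y1, y2, hy12, -⟩ := List.eq_append_cons_of_mem hb
    obtain ⟨y2', u, hu, hE, hbu⟩ := split_last b (y2 ++ y1)
    obtain ⟨n, hn⟩ := H 3
    have hn' : U w b n = x ++ y ++ y ++ y ++ z := by
      rw [← hn]
      simp [List.replicate_succ]
    have e1 : (x ++ y ++ y1 ++ [b]) ++ (y2 ++ y ++ z) = U w b n := by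
      have : (x ++ y ++ y1 ++ [b]) ++ (y2 ++ y ++ z) = x ++ y ++ (y1 ++ b :: y2) ++ y ++ z := by simp
      rw [this, ← hy12, hn']
    have e2 : (x ++ y ++ y ++ y1 ++ [b]) ++ (y2 ++ z) = U w b n := by
      have : (x ++ y ++ y ++ y1 ++ [b]) ++ (y2 ++ z) = x ++ y ++ y ++ (y1 ++ b :: y2) ++ z := by simp
      rw [this, ← hy12, hn']
    obtain ⟨i, -, hi⟩ := U_pre h (Or.inr ⟨x ++ y ++ y1, rfl⟩) e1.symm
    obtain ⟨j, -, hj⟩ := U_pre h (Or.inr ⟨x ++ y ++ y ++ y1, rfl⟩) e2.symm
    have f1 : (x ++ y1 ++ [b] ++ y2') ++ u ++ [b] = x ++ y ++ y1 ++ [b] := by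
      have : (x ++ y1 ++ [b] ++ y2') ++ u ++ [b] = x ++ y1 ++ [b] ++ (y2' ++ u) ++ [b] := by simp
      rw [this, ← hu]
      have : x ++ y1 ++ [b] ++ (y2 ++ y1) ++ [b] = x ++ (y1 ++ b :: y2) ++ y1 ++ [b] := by simp
      rw [this, ← hy12]
    have f2 : (x ++ y ++ y1 ++ [b] ++ y2') ++ u ++ [b] = x ++ y ++ y ++ y1 ++ [b] := by
      have : (x ++ y ++ y1 ++ [b] ++ y2') ++ u ++ [b] = x ++ y ++ y1 ++ [b] ++ (y2' ++ u) ++ [b] := by
        simp
      rw [this, ← hu]
      have : x ++ y ++ y1 ++ [b] ++ (y2 ++ y1) ++ [b] = x ++ y ++ (y1 ++ b :: y2) ++ y1 ++ [b] := by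
        simp
      rw [this, ← hy12]
    obtain ⟨i', hi1, hi2⟩ := mem_last h (ChainBAux.EE_append (x ++ y1 ++ [b]) hE (Or.inr ⟨_, rfl⟩))
      hbu (by rw [f1]; exact ⟨i, hi⟩)
    obtain ⟨j', hj1, hj2⟩ := mem_last h
      (ChainBAux.EE_append (x ++ y ++ y1 ++ [b]) hE (Or.inr ⟨_, rfl⟩))
      hbu (by rw [f2]; exact ⟨j, hj⟩)
    have hij : i' = j' := h.inj (hi2.symm.trans hj2)
    rw [hij, ← hj1] at hi1
    have h2 := congrArg List.length hi1
    simp only [List.length_append] at h2
    have h3 : y.length = 0 := by omega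
    exact hy (List.length_eq_zero_iff.1 h3)
  · obtain ⟨n0, h0⟩ := H 0
    obtain ⟨n1, h1⟩ := H 1
    have h0' : x ++ z = U w b n0 := by simpa using h0
    have h1' : x ++ (y ++ z) = U w b n1 := by simpa using h1
    have c0 := U_count h n0
    have c1 := U_count h n1
    rw [← h0'] at c0
    rw [← h1'] at c1
    rw [List.count_append] at c0
    rw [List.count_append, List.count_append, List.count_eq_zero_of_not_mem hb] at c1
    have : n0 = n1 := by omega
    subst this
    rw [← h0'] at h1'
    have h2 := congrArg List.length h1'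
    rw [List.length_append, List.length_append, List.length_append] at h2
    have h3 : y.length = 0 := by omega
    exact hy (List.length_eq_zero_iff.1 h3)

theorem nonreg {m b : ℕ} {w : ℕ → List ℕ} (h : Ch m b w) : ¬ (co m (CC w b)).IsRegular := by
  intro hr
  have h1 : (CC w b).IsRegular := by
    have h2 := (F1c4.star_reg (Finset.range m)).inf hr.compl
    have e : (CC w b) = ({w : List ℕ | F1c4.Ov (Finset.range m) w} : Language ℕ) ⊓ (co m (CC w b))ᶜ := by
      ext v
      constructor
      · rintro ⟨n, rfl⟩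
        refine ⟨fun a ha => Finset.mem_range.2 (U_lt h n a ha), fun hc => hc.2 ⟨n, rfl⟩⟩
      · rintro ⟨h3, h4⟩
        by_contra hc
        exact h4 ⟨fun a ha => Finset.mem_range.1 (h3 a ha), hc⟩
    rw [e]
    exact h2
  obtain ⟨σ, hσ, M, hM⟩ := h1
  have hmem : U w b (Fintype.card σ) ∈ M.accepts := by
    rw [hM]; exact ⟨_, rfl⟩
  have hlen : Fintype.card σ ≤ (U w b (Fintype.card σ)).length := by
    have := U_mono w b (Nat.zero_le (Fintype.card σ))
    simp only [U, List.length_nil] at this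
    omega
  obtain ⟨x, y, z, -, -, hy, hle⟩ := M.pumping_lemma hmem hlen
  refine no_pump h x y z hy (fun k => ?_)
  rw [← hM]
  apply hle
  have hk : (List.replicate k y).flatten ∈ KStar.kstar ({y} : Language ℕ) :=
    Language.mem_kstar.2 ⟨List.replicate k y, rfl,
      fun v hv => by rw [List.eq_of_mem_replicate hv]; rfl⟩
  exact Language.mem_mul.2 ⟨x ++ (List.replicate k y).flatten,
    Language.mem_mul.2 ⟨x, rfl, _, hk, rfl⟩, z, rfl, rfl⟩

end Pool.Agent.Lib.GCH
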