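import Pool.Agent.Lib.GCH.Weave

/-!
# Module GCH.StepF: the groups G w b m k (MP_f1c4ef_lc)
-/

set_option autoImplicit false

namespace Pool.Agent.Lib.GCH

theorem cc_lt {m b : ℕ} {w : ℕ → List ℕ} (h : Ch m b w) (k : ℕ) : ∀ a ∈ cc w b k, a < m := by
  cases k with
  | zero =>
    intro a ha
    have hb := h.bm
    simp only [cc, st, List.mem_cons, List.not_mem_nil, or_false] at ha
    omega
  | succ k => exact U_lt (h.shift _) _

theorem NN_zero (w : ℕ → List ℕ) (b : ℕ) : NN w b 0 = 0 := rfl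

theorem NN_succ (w : ℕ → List ℕ) (b k : ℕ) : NN w b (k + 1) = NN w b k + (cc w b k).length := rfl

theorem cc_succ (w : ℕ → List ℕ) (b k : ℕ) :
    cc w b (k + 1) = seg w b (NN w b k) (cc w b k).length := rfl

theorem U_NN (w : ℕ → List ℕ) (b k : ℕ) :
    U w b (NN w b (k + 1)) = U w b (NN w b k) ++ cc w b (k + 1) := by
  rw [NN_succ, U_add, cc_succ]

theorem G_mn {m b : ℕ} {w : ℕ → List ℕ} (h : Ch m b w) (k : ℕ) :
    (G w b m k).flatMap (mn m b) = cc w b (k + 1) := by
  rw [G, wv_mn h _ _ (cc_lt h k), cc_succ]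

theorem G_cr {m b : ℕ} {w : ℕ → List ℕ} (h : Ch m b w) (k : ℕ) :
    (G w b m k).flatMap (cr m) = cc w b k := by
  rw [G, wv_cr h _ _ (cc_lt h k)]

theorem G_let {m b : ℕ} {w : ℕ → List ℕ} (h : Ch m b w) (k : ℕ) :
    ∀ a ∈ G w b m k, a < 2 * m ∧ a ≠ b := wv_let h _ _ (cc_lt h k)

theorem G_len (w : ℕ → List ℕ) (b m k : ℕ) : (G w b m k).length = (cc w b (k + 1)).length := by
  rw [G, wv_len (b := b), cc_succ]

theorem cc_len {m b : ℕ} {w : ℕ → List ℕ} (h : Ch m b w) (k : ℕ) :
    2 * (cc w b k).length ≤ (cc w b (k + 1)).length + 1 := by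
  rw [cc_succ]
  exact U_len (h.shift _) _

theorem cc_two {m b : ℕ} {w : ℕ → List ℕ} (h : Ch m b w) (k : ℕ) :
    2 ^ k + 1 ≤ (cc w b k).length := by
  induction k with
  | zero => exact le_refl 2
  | succ k ih =>
    have h1 := cc_len h k
    rw [pow_succ]
    omega

theorem G_Ch {m b : ℕ} {w : ℕ → List ℕ} (h : Ch m b w) : Ch (2 * m + 1) (2 * m) (G w b m) := by
  refine ⟨by omega, fun i a ha => ?_, fun i hi => ?_, ?_⟩
  · have := (G_let h i a ha).1
    omega
  · have := (G_let h i _ hi).1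
    omega
  · have hm : StrictMono (fun k => (G w b m k).length) := by
      refine strictMono_nat_of_lt_succ (fun k => ?_)
      simp only [G_len]
      have h1 := cc_len h (k + 1)
      have h2 := cc_two h (k + 1)
      have h3 : 1 ≤ 2 ^ (k + 1) := Nat.one_le_two_pow
      omega
    intro i j hij
    exact hm.injective (congrArg List.length hij)

theorem GU_mn {m b : ℕ} {w : ℕ → List ℕ} (h : Ch m b w) (k : ℕ) :
    (U (G w b m) (2 * m) k).flatMap (mn m b) = U w b (NN w b k) := by
  induction k with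
  | zero => rfl
  | succ k ih =>
    have hmn : mn m b (2 * m) = [] := by
      have h1 : ¬ 2 * m < m := by omega
      simp [mn, h1]
    rw [U, List.flatMap_append, List.flatMap_append, ih, G_mn h, U_NN, List.flatMap_cons, hmn]
    simp

theorem GU_len (w : ℕ → List ℕ) (b m k : ℕ) :
    (U (G w b m) (2 * m) k).length = (U w b (NN w b k)).length + k := by
  induction k with
  | zero => rfl
  | succ k ih =>
    rw [U, U_NN, List.length_append, List.length_append, List.length_append, ih, G_len]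
    simp only [List.length_cons, List.length_nil]
    omega

theorem NN_len (w : ℕ → List ℕ) (b m k : ℕ) :
    NN w b (k + 1) + k = (U (G w b m) (2 * m) k).length + 2 := by
  induction k with
  | zero => rfl
  | succ k ih =>
    rw [NN_succ, GU_len, U_NN, List.length_append]
    rw [GU_len] at ih
    omega

theorem NN_gap {m b : ℕ} {w : ℕ → List ℕ} (h : Ch m b w) (k : ℕ) :
    NN w b (k + 1) + 3 ≤ NN w b (k + 2) := by
  have h1 : NN w b (k + 2) = NN w b (k + 1) + (cc w b (k + 1)).length := rfl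
  have h2 := cc_two h (k + 1)
  have h3 : 2 ≤ 2 ^ (k + 1) := by
    have : 1 ≤ 2 ^ k := Nat.one_le_two_pow
    rw [pow_succ]
    omega
  omega

theorem NN_ge {m b : ℕ} {w : ℕ → List ℕ} (h : Ch m b w) (k : ℕ) : k ≤ NN w b k := by
  induction k with
  | zero => exact Nat.zero_le _
  | succ k ih =>
    have h1 := cc_two h k
    have h2 : 1 ≤ 2 ^ k := Nat.one_le_two_pow
    rw [NN_succ]
    omega

theorem G_last {m b : ℕ} {w : ℕ → List ℕ} (h : Ch m b w) (k : ℕ) :
    ∃ (cs : List ℕ) (a : ℕ), cc w b k = cs ++ [a] ∧ a < m ∧ 1 ≤ NN w b (k + 1) ∧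
      G w b m k = wv w m (NN w b k) cs ++ w (NN w b (k + 1) - 1) ++ [m + a] := by
  have h2 := cc_two h k
  have h3 : 1 ≤ 2 ^ k := Nat.one_le_two_pow
  rcases List.eq_nil_or_concat (cc w b k) with h0 | ⟨cs, a, h0⟩
  · rw [h0] at h2
    simp at h2
  · rw [List.concat_eq_append] at h0
    refine ⟨cs, a, h0, cc_lt h k a (by rw [h0]; simp), ?_, ?_⟩
    · rw [NN_succ]
      omega
    · have e : NN w b (k + 1) - 1 = NN w b k + cs.length := by
        rw [NN_succ, h0, List.length_append]
        simp only [List.length_cons, List.length_nil]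
        omega
      rw [G, h0, wv_last, e]

end Pool.Agent.Lib.GCH
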