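import Pool.Agent.Lib.GCH.ChainB
import Pool.Agent.Lib.GCH.StepF

/-!
# Module GCH.CmpA: in a word which is not bad the marks of a group are the previous group (MP_f1c4ef_lc)

Write `g = G w b m`, `d = 2 * m`, `V k = U g d k`, `M u = u.flatMap (mn m b)`, `R u = u.flatMap (cr m)`;
`V (j + 1) = V j ++ g j ++ [d]`. (1) `Y` ends with a letter `m + a`, `a < m`: if `Y = []`, then `v` contains `[d] ++ [d]`
(`V (j + 1)` ends with `d`), excluded by the last clause of Bad0 (`x = d`); so `Y = Y' ++ [y]`; `y < m` is excluded by the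
last clause of Bad0, `y ≠ d`, `y < 2 * m + 1`; so `y = m + a`, `a < m`. (2) Not Bad2 with `p = V j` (`U_EE`), `Z = g j`
(`d ∉ g j` by `G_let`): `U w b (NN w b j) ++ R Y ∈ CC w b` (`GU_mn`), where `R Y = R Y' ++ [a]`; words of `CC w b` are `[]` or
end with `b` (`U_EE`), so `a = b`. (3) `split_last (m + b) Y'`: `Y' = Ya ++ Yb`, `EE (m + b) Ya`, `m + b ∉ Yb`; `b ∉ R Yb`
(letters of `Yb` are `< 2 * m`). Not Bad3 with `p = V j ++ wv w m (NN w b j) cs`, `x = w (NN w b (j + 1) - 1)`, `h = m + a'`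
from `G_last h j` (`g j = wv .. cs ++ w .. ++ [m + a']`). `EG m p`: if `cs = []` and `j = 0` then `p = []`; if `cs = []`,
`j ≥ 1`: `p` ends with `d ≥ m`; if `cs = cs' ++ [c]`: `wv_last`, `p` ends with `m + c ≥ m`. `M p = U w b n0` with
`n0 = NN w b (j + 1) - 1`: apply `M` to `V j ++ g j = p ++ x ++ [h]`:
`M p ++ w n0 ++ [b] = U w b (NN w b (j + 1)) = U w b n0 ++ w n0 ++ [b]` (`GU_mn`, `G_mn`, `U_NN`; letters of `w n0` are `< m`),
cancel. So `U w b n0 ++ R Yb ++ [b] ∈ CC w b`, and `mem_last` gives `R Yb = w n` with `U w b n = U w b n0`, so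
`R Yb = w n0` (`U_inj`).
(4) From (2): `(U w b (NN w b j) ++ R Ya) ++ R Yb ++ [b] ∈ CC w b`; the first word is `EE b` (`Ya = []`, or `Ya` ends with
`m + b` and `R Ya` with `b`); `mem_last`: it is `U w b l` with `w l = R Yb = w n0`, so `l = n0` (`h.inj`), and
`U w b (NN w b j) ++ R Y = U w b (n0 + 1) = U w b (NN w b (j + 1))`; by `U_NN` `R Y = cc w b (j + 1)`.
-/

set_option autoImplicit false

namespace Pool.Agent.Lib.GCH

namespace CmpAAux

theorem mn_small {m b : ℕ} {u : List ℕ} (hu : ∀ a ∈ u, a < m) : u.flatMap (mn m b) = u := by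
  induction u with
  | nil => rfl
  | cons x u ih =>
    have hx : x < m := hu x (by simp)
    rw [List.flatMap_cons, ih (fun a ha => hu a (by simp [ha]))]
    simp [mn, hx]

theorem cr_mem {m b : ℕ} {u : List ℕ} (hb : b ∈ u.flatMap (cr m)) : m + b ∈ u := by
  rw [List.mem_flatMap] at hb
  obtain ⟨y, hy, hby⟩ := hb
  unfold cr at hby
  split_ifs at hby with h1 h2
  · simp at hby
  · simp only [List.mem_singleton] at hby
    have : m + b = y := by omega
    rw [this]; exact hy
  · simp at hby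

theorem cr_mark {m a : ℕ} (ha : a < m) : cr m (m + a) = [a] := by
  unfold cr
  rw [if_neg (by omega), if_pos (by omega)]
  simp

theorem mn_mark {m b a : ℕ} (ha : a < m) : mn m b (m + a) = [b] := by
  unfold mn
  rw [if_neg (by omega), if_pos (by omega)]

end CmpAAux

open CmpAAux in
theorem stepA {m b : ℕ} {w : ℕ → List ℕ} (h : Ch m b w) {v : List ℕ} (hv : ∀ a ∈ v, a < 2 * m + 1)
    (hB : ¬ Bad m b w v) {j : ℕ} {Y s : List ℕ}
    (hvY : v = U (G w b m) (2 * m) (j + 1) ++ Y ++ [2 * m] ++ s) (hY : 2 * m ∉ Y) :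
    Y.flatMap (cr m) = cc w b (j + 1) := by
  have hB0 : ¬ Bad0 m b w v := fun hh => hB (Or.inl hh)
  have hB2 : ¬ Bad2 m b w v := fun hh => hB (Or.inr (Or.inr (Or.inl hh)))
  have hB3 : ¬ Bad3 m b w v := fun hh => hB (Or.inr (Or.inr (Or.inr hh)))
  have hV : U (G w b m) (2 * m) (j + 1) = U (G w b m) (2 * m) j ++ (G w b m j ++ [2 * m]) := rfl
  have hbm := h.bm
  -- (1)
  have hYne : Y ≠ [] := by
    rintro rfl
    apply hB0
    right; right; right
    refine ⟨U (G w b m) (2 * m) j ++ G w b m j, s, 2 * m, ?_, Or.inr rfl⟩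
    rw [hvY, hV]; simp
  obtain ⟨Y', y, hYy⟩ : ∃ Y' y, Y = Y' ++ [y] := by
    rcases List.eq_nil_or_concat Y with h0 | ⟨L, a, h1⟩
    · exact absurd h0 hYne
    · exact ⟨L, a, by rw [h1, List.concat_eq_append]⟩
  have hym : m ≤ y := by
    by_contra hlt
    apply hB0
    right; right; right
    refine ⟨U (G w b m) (2 * m) (j + 1) ++ Y', s, y, ?_, Or.inl (by omega)⟩
    rw [hvY, hYy]; simp
  have hyd : y ≠ 2 * m := by
    rintro rfl
    exact hY (by rw [hYy]; simp)
  have hyv : y < 2 * m + 1 := hv y (by rw [hvY, hYy]; simp)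
  -- (2)
  have hGd : 2 * m ∉ G w b m j := fun hh => by
    have := (G_let h j _ hh).1
    omega
  have h2 : U w b (NN w b j) ++ Y.flatMap (cr m) ∈ CC w b := by
    by_contra hcon
    apply hB2
    refine ⟨U (G w b m) (2 * m) j, G w b m j, Y, s, ?_, U_EE _ _ _, hGd, hY, ?_⟩
    · rw [hvY, hV]; simp
    · rw [GU_mn h]; exact hcon
  have hyb : y = m + b := by
    obtain ⟨n, hn⟩ := h2
    rcases U_EE w b n with h0 | ⟨q, hq⟩
    · exfalso
      rw [h0, hYy, List.flatMap_append] at hn
      have : ([y] : List ℕ).flatMap (cr m) = [y - m] := by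
        have : y = m + (y - m) := by omega
        rw [this, List.flatMap_cons, cr_mark (by omega)]
        simp
      rw [this] at hn
      simp at hn
    · rw [hq, hYy, List.flatMap_append] at hn
      have : ([y] : List ℕ).flatMap (cr m) = [y - m] := by
        have : y = m + (y - m) := by omega
        rw [this, List.flatMap_cons, cr_mark (by omega)]
        simp
      rw [this, ← List.append_assoc] at hn
      have := (List.append_inj' hn rfl).2
      simp only [List.cons.injEq, and_true] at this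
      omega
  subst hyb
  -- (3)
  obtain ⟨Ya, Yb, hYab, hYa, hYb⟩ := split_last (m + b) Y'
  have hbYb : b ∉ Yb.flatMap (cr m) := fun hh => hYb (cr_mem hh)
  obtain ⟨cs, a', hcs, ha', hN1, hG⟩ := G_last h j
  have hN : NN w b (j + 1) - 1 + 1 = NN w b (j + 1) := by omega
  generalize hn0 : NN w b (j + 1) - 1 = n0 at hG hN
  have hdYa : 2 * m ∉ Ya := fun hh => hY (by rw [hYy, hYab]; simp [hh])
  have hdYb : 2 * m ∉ Yb := fun hh => hY (by rw [hYy, hYab]; simp [hh])
  -- M p
  have hMp : (U (G w b m) (2 * m) j ++ wv w m (NN w b j) cs).flatMap (mn m b) = U w b n0 := by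
    have e1 : (U (G w b m) (2 * m) j ++ G w b m j).flatMap (mn m b) = U w b n0 ++ (w n0 ++ [b]) := by
      rw [List.flatMap_append, GU_mn h, G_mn h, ← U_NN, ← hN]
      rfl
    rw [hG, ← List.append_assoc, ← List.append_assoc, List.flatMap_append, List.flatMap_append,
      mn_small (h.lt n0)] at e1
    have e2 : ([m + a'] : List ℕ).flatMap (mn m b) = [b] := by
      rw [List.flatMap_cons, mn_mark ha']; simp
    rw [e2, List.append_assoc] at e1
    exact (List.append_inj' e1 rfl).1
  have hEG : EG m (U (G w b m) (2 * m) j ++ wv w m (NN w b j) cs) := by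
    rcases List.eq_nil_or_concat cs with h0 | ⟨cs', c, h1⟩
    · rw [h0]
      rcases U_EE (G w b m) (2 * m) j with h3 | ⟨q, hq⟩
      · left; rw [h3]; rfl
      · right
        refine ⟨q, 2 * m, by omega, ?_⟩
        rw [hq]; simp [wv]
    · right
      refine ⟨U (G w b m) (2 * m) j ++ (wv w m (NN w b j) cs' ++ w (NN w b j + cs'.length)), m + c,
        by omega, ?_⟩
      rw [h1, List.concat_eq_append, wv_last]
      simp
  have h3 : U w b n0 ++ Yb.flatMap (cr m) ++ [b] ∈ CC w b := by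
    by_contra hcon
    apply hB3
    refine ⟨U (G w b m) (2 * m) j ++ wv w m (NN w b j) cs, w n0, m + a', Ya, Yb, s, ?_, hEG,
      h.lt n0, by omega, by omega, hdYa, hYa, hdYb, hYb, ?_⟩
    · rw [hvY, hV, hG, hYy, hYab]; simp
    · rw [hMp]; exact hcon
  obtain ⟨n, hn1, hn2⟩ := mem_last h (U_EE w b n0) hbYb h3
  have hnn : n0 = n := U_inj h hn1
  subst hnn
  -- (4)
  have hRY : Y.flatMap (cr m) = Ya.flatMap (cr m) ++ Yb.flatMap (cr m) ++ [b] := by
    rw [hYy, hYab, List.flatMap_append, List.flatMap_append, List.flatMap_cons, cr_mark hbm]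
    simp
  have hEE : EE b (U w b (NN w b j) ++ Ya.flatMap (cr m)) := by
    rcases hYa with h0 | ⟨q, hq⟩
    · rw [h0]; simpa using U_EE w b (NN w b j)
    · right
      refine ⟨U w b (NN w b j) ++ q.flatMap (cr m), ?_⟩
      rw [hq, List.flatMap_append, List.flatMap_cons, cr_mark hbm]
      simp
  have h4 : (U w b (NN w b j) ++ Ya.flatMap (cr m)) ++ Yb.flatMap (cr m) ++ [b] ∈ CC w b := by
    rw [hRY] at h2
    simpa [List.append_assoc] using h2
  obtain ⟨l, hl1, hl2⟩ := mem_last h hEE hbYb h4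
  have hln : l = n0 := h.inj (by rw [← hl2, hn2])
  subst hln
  have h5 : U w b (NN w b j) ++ Y.flatMap (cr m) = U w b (NN w b j) ++ cc w b (j + 1) := by
    rw [← U_NN, ← hN]
    change _ = U w b l ++ (w l ++ [b])
    rw [← hl1, ← hl2, hRY]
    simp
  exact List.append_cancel_left h5

end Pool.Agent.Lib.GCH
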