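import Pool.Agent.Lib.GCH.CmpA

/-!
# Module GCH.Compl: a word which is not bad is some U (G w b m) (2 * m) K (MP_f1c4ef_lc)

Write `g = G w b m`, `d = 2 * m`, `V k = U g d k`, `hg := G_Ch h`, `M u = u.flatMap (mn m b)`, `R u = u.flatMap (cr m)`.
`step0`: `v = Y ++ [d] ++ s ≠ []`, so `v = g 0 ++ [d] ++ s'` (first clause of Bad0); `d ∉ Y`, `d ∉ g 0` (`hg.nb 0`) give
`Y = g 0` (`List.append_eq_append_iff`: if `Y ++ t = g 0` with `t ≠ []` then `t` begins with `d`; symmetric).
`stepB` (`k = j + 1`): `R Y = cc w b (j + 1)` by `stepA`. Not Bad1 with `p = V (j + 1) ++ Y ++ [d]`: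
`U w b (NN w b (j + 1)) ++ M Y = U w b l` (`GU_mn`, `mn m b d = []`). The letters of `Y` are `< 2 * m` and `≠ b` (third clause
of Bad0). Counting `b` (`U_count`, `count_mn`): `l = NN w b (j + 1) + (R Y).length = NN w b (j + 2)` (`NN_succ`), so
`M Y = cc w b (j + 2) = M (g (j + 1))` (`U_NN`, `G_mn`) and `R Y = R (g (j + 1))` (`G_cr`); `weave_uniq` (`G_let`).
`compl`: by strong induction on the length of `p`: if `v = p ++ s`, `EE d p`, then `p = V k` for some `k`. `p = []`: `k = 0`.
`p = p' ++ [d]`: `split_last d p'`: `p' = q ++ Y`, `EE d q`, `d ∉ Y`; `q = V k` by induction; `k = 0`: `step0`, `k = j + 1`: `stepB`: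
`Y = g k`, `p = V (k + 1)`. Finally `EE d v` (second clause of Bad0) and `p = v`.
-/

set_option autoImplicit false

namespace Pool.Agent.Lib.GCH

namespace ComplAux

theorem first_eq {d : ℕ} {Y Z s s' : List ℕ} (hY : d ∉ Y) (hZ : d ∉ Z)
    (h : Y ++ [d] ++ s = Z ++ [d] ++ s') : Y = Z := by
  rw [List.append_assoc, List.append_assoc] at h
  rcases List.append_eq_append_iff.1 h with ⟨t, h1, h2⟩ | ⟨t, h1, h2⟩
  · cases t with
    | nil => simpa using h1.symm
    | cons x t =>
      exfalso
      rw [List.cons_append, List.nil_append, List.cons_append, List.cons.injEq] at h2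
      apply hZ
      rw [h1, h2.1]
      simp
  · cases t with
    | nil => simpa using h1
    | cons x t =>
      exfalso
      rw [List.cons_append, List.nil_append, List.cons_append, List.cons.injEq] at h2
      apply hY
      rw [h1, h2.1]
      simp

theorem mn_top {m b : ℕ} : mn m b (2 * m) = [] := by
  unfold mn
  rw [if_neg (by omega), if_neg (by omega)]

end ComplAux

open ComplAux

theorem step0 {m b : ℕ} {w : ℕ → List ℕ} (h : Ch m b w) {v : List ℕ}
    (hB : ¬ Bad m b w v) {Y s : List ℕ} (hvY : v = Y ++ [2 * m] ++ s) (hY : 2 * m ∉ Y) :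
    Y = G w b m 0 := by
  have hB0 : ¬ Bad0 m b w v := fun hh => hB (Or.inl hh)
  have h1 : ∃ s', v = G w b m 0 ++ [2 * m] ++ s' := by
    by_contra hcon
    apply hB0
    left
    refine ⟨?_, hcon⟩
    rw [hvY]
    simp
  obtain ⟨s', hs'⟩ := h1
  refine first_eq (s := s) (s' := s') hY ((G_Ch h).nb 0) ?_
  rw [← hvY, ← hs']

theorem stepB {m b : ℕ} {w : ℕ → List ℕ} (h : Ch m b w) {v : List ℕ} (hv : ∀ a ∈ v, a < 2 * m + 1)
    (hB : ¬ Bad m b w v) {j : ℕ} {Y s : List ℕ}
    (hvY : v = U (G w b m) (2 * m) (j + 1) ++ Y ++ [2 * m] ++ s) (hY : 2 * m ∉ Y) :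
    Y = G w b m (j + 1) := by
  have hB0 : ¬ Bad0 m b w v := fun hh => hB (Or.inl hh)
  have hB1 : ¬ Bad1 m b w v := fun hh => hB (Or.inr (Or.inl hh))
  have hR := stepA h hv hB hvY hY
  have hlet : ∀ a ∈ Y, a < 2 * m ∧ a ≠ b := by
    intro a ha
    have hav : a ∈ v := by
      rw [hvY]
      simp [ha]
    refine ⟨?_, ?_⟩
    · have h1 := hv a hav
      have h2 : a ≠ 2 * m := by
        rintro rfl
        exact hY ha
      omega
    · rintro rfl
      exact hB0 (Or.inr (Or.inr (Or.inl hav)))
  have h1 : U w b (NN w b (j + 1)) ++ Y.flatMap (mn m b) ∈ CC w b := by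
    by_contra hcon
    apply hB1
    refine ⟨U (G w b m) (2 * m) (j + 1) ++ Y ++ [2 * m], s, hvY, Or.inr ⟨_, rfl⟩, ?_⟩
    rw [List.flatMap_append, List.flatMap_append, GU_mn h, List.flatMap_cons, mn_top]
    simpa using hcon
  obtain ⟨l, hl⟩ := h1
  have hcount := congrArg (List.count b) hl
  rw [List.count_append, U_count h, U_count h, count_mn hlet, hR] at hcount
  have hl' : l = NN w b (j + 2) := by
    rw [NN_succ]
    exact hcount.symm
  rw [hl', U_NN w b (j + 1)] at hl
  have hM : Y.flatMap (mn m b) = cc w b (j + 2) := List.append_cancel_left hl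
  refine weave_uniq hlet (G_let h (j + 1)) ?_ ?_
  · rw [hM, G_mn h]
  · rw [hR, G_cr h]

theorem compl {m b : ℕ} {w : ℕ → List ℕ} (h : Ch m b w) {v : List ℕ}
    (hv : ∀ a ∈ v, a < 2 * m + 1) (hB : ¬ Bad m b w v) : v ∈ CC (G w b m) (2 * m) := by
  have hB0 : ¬ Bad0 m b w v := fun hh => hB (Or.inl hh)
  have key : ∀ (n : ℕ) (p s : List ℕ), p.length = n → v = p ++ s → EE (2 * m) p →
      ∃ k, p = U (G w b m) (2 * m) k := by
    intro n
    induction n using Nat.strong_induction_on with
    | _ n ih =>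
      intro p s hn hps hE
      rcases hE with hE | ⟨p', hE⟩
      · exact ⟨0, hE⟩
      · obtain ⟨q, Y, hqY, hq, hY⟩ := split_last (2 * m) p'
        have hlen : q.length < n := by
          rw [← hn, hE, hqY]
          simp only [List.length_append, List.length_cons, List.length_nil]
          omega
        have hv1 : v = q ++ (Y ++ [2 * m] ++ s) := by
          rw [hps, hE, hqY]
          simp
        obtain ⟨k, hk⟩ := ih q.length hlen q _ rfl hv1 hq
        have hv2 : v = U (G w b m) (2 * m) k ++ Y ++ [2 * m] ++ s := by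
          rw [hv1, hk]
          simp
        have hYk : Y = G w b m k := by
          cases k with
          | zero =>
            refine step0 h hB (s := s) ?_ hY
            rw [hv2]
            rfl
          | succ j => exact stepB h hv hB hv2 hY
        refine ⟨k + 1, ?_⟩
        rw [hE, hqY, hk, hYk]
        change _ = U (G w b m) (2 * m) k ++ (G w b m k ++ [2 * m])
        simp
  have hE : EE (2 * m) v := by
    by_contra hcon
    exact hB0 (Or.inr (Or.inl hcon))
  obtain ⟨k, hk⟩ := key v.length v [] rfl (by simp) hE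
  exact ⟨k, hk⟩

end Pool.Agent.Lib.GCH
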