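import Pool.Agent.Lib.F1c4.Defs

/-!
# Goldstine type languages: definitions (MP_f1c4ef_lc)
-/

set_option autoImplicit false

namespace Pool.Agent.Lib.GCH

/-- the word `w 0 b w 1 b ... w (n - 1) b` -/
def U (w : ℕ → List ℕ) (b : ℕ) : ℕ → List ℕ
  | 0 => []
  | n + 1 => U w b n ++ (w n ++ [b])

/-- the language of the words `w 0 b w 1 b ... w (n - 1) b` -/
def CC (w : ℕ → List ℕ) (b : ℕ) : Language ℕ := {v : List ℕ | ∃ n, v = U w b n}

/-- the complement of `C` in the set of the words in the letters `a < m` -/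
def co (m : ℕ) (C : Language ℕ) : Language ℕ := {v : List ℕ | (∀ a ∈ v, a < m) ∧ v ∉ C}

/-- `b < m`, and the `w i` are pairwise distinct words in the letters `a < m`, `a ≠ b` -/
structure Ch (m b : ℕ) (w : ℕ → List ℕ) : Prop where
  bm : b < m
  lt : ∀ i, ∀ a ∈ w i, a < m
  nb : ∀ i, b ∉ w i
  inj : Function.Injective w

/-- the word `w n b w (n + 1) b ... w (n + k - 1) b` -/
def seg (w : ℕ → List ℕ) (b n k : ℕ) : List ℕ := U (fun i => w (n + i)) b k

/-- the word `w n (m + a_0) w (n + 1) (m + a_1) ...` for the word `a_0 a_1 ...` -/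
def wv (w : ℕ → List ℕ) (m : ℕ) : ℕ → List ℕ → List ℕ
  | _, [] => []
  | n, a :: cs => w n ++ (m + a) :: wv w m (n + 1) cs

/-- the number of the first block of group `k`, and the word written on its delimiters -/
def st (w : ℕ → List ℕ) (b : ℕ) : ℕ → ℕ × List ℕ
  | 0 => (0, [b, b])
  | k + 1 => ((st w b k).1 + (st w b k).2.length, seg w b (st w b k).1 (st w b k).2.length)

/-- the number of the first block of group `k` -/
def NN (w : ℕ → List ℕ) (b k : ℕ) : ℕ := (st w b k).1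

/-- the word written on the delimiters of group `k`; it is group `k - 1` without its marks -/
def cc (w : ℕ → List ℕ) (b k : ℕ) : List ℕ := (st w b k).2

/-- group `k`: the blocks `NN w b k, ..., NN w b (k + 1) - 1`, with `cc w b k` on the delimiters -/
def G (w : ℕ → List ℕ) (b m k : ℕ) : List ℕ := wv w m (NN w b k) (cc w b k)

/-- the underlying letter: a letter `a < m`, or the delimiter `b` for `m ≤ a < 2 * m` -/
def mn (m b x : ℕ) : List ℕ := if x < m then [x] else if x < 2 * m then [b] else []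

/-- the letter on a delimiter -/
def cr (m x : ℕ) : List ℕ := if x < m then [] else if x < 2 * m then [x - m] else []

/-- empty or ends with the letter `d` -/
def EE (d : ℕ) (p : List ℕ) : Prop := p = [] ∨ ∃ q, p = q ++ [d]

/-- empty or ends with a letter `≥ m` -/
def EG (m : ℕ) (p : List ℕ) : Prop := p = [] ∨ ∃ q a, m ≤ a ∧ p = q ++ [a]

/-- local conditions on `v` fail -/
def Bad0 (m b : ℕ) (w : ℕ → List ℕ) (v : List ℕ) : Prop :=
  (v ≠ [] ∧ ¬ ∃ s, v = G w b m 0 ++ [2 * m] ++ s) ∨ ¬ EE (2 * m) v ∨ b ∈ v ∨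
    ∃ (p s : List ℕ) (x : ℕ), v = p ++ [x] ++ [2 * m] ++ s ∧ (x < m ∨ x = 2 * m)

/-- the first test fails: some complete groups at the beginning, without marks -/
def Bad1 (m b : ℕ) (w : ℕ → List ℕ) (v : List ℕ) : Prop :=
  ∃ p s : List ℕ, v = p ++ s ∧ EE (2 * m) p ∧ p.flatMap (mn m b) ∉ CC w b

/-- the second test fails: some groups, then (after one group `Z`) the marks of the next group `Y` -/
def Bad2 (m b : ℕ) (w : ℕ → List ℕ) (v : List ℕ) : Prop :=
  ∃ p Z Y s : List ℕ, v = p ++ Z ++ [2 * m] ++ Y ++ [2 * m] ++ s ∧ EE (2 * m) p ∧ 2 * m ∉ Z ∧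
    2 * m ∉ Y ∧ p.flatMap (mn m b) ++ Y.flatMap (cr m) ∉ CC w b

/-- the third test fails: everything up to the end of a group, except the last block, then the last
block of the marks of the next group -/
def Bad3 (m b : ℕ) (w : ℕ → List ℕ) (v : List ℕ) : Prop :=
  ∃ (p x : List ℕ) (h : ℕ) (Ya Yb s : List ℕ),
    v = p ++ x ++ [h] ++ [2 * m] ++ Ya ++ Yb ++ [m + b] ++ [2 * m] ++ s ∧ EG m p ∧
    (∀ a ∈ x, a < m) ∧ m ≤ h ∧ h < 2 * m ∧ 2 * m ∉ Ya ∧ EE (m + b) Ya ∧ 2 * m ∉ Yb ∧ m + b ∉ Yb ∧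
    p.flatMap (mn m b) ++ Yb.flatMap (cr m) ++ [b] ∉ CC w b

/-- `v` fails one of the conditions -/
def Bad (m b : ℕ) (w : ℕ → List ℕ) (v : List ℕ) : Prop :=
  Bad0 m b w v ∨ Bad1 m b w v ∨ Bad2 m b w v ∨ Bad3 m b w v

/-- factorizations `v = v_1 ... v_r`, `v_j ∈ L_j`, with output `o = f_(i_1)(v_1) ... f_(i_r)(v_r)` -/
inductive Fac (f : ℕ → ℕ → List ℕ) : List (ℕ × Language ℕ) → List ℕ → List ℕ → Prop
  | nil : Fac f [] [] []
  | cons {i : ℕ} {L : Language ℕ} {P : List (ℕ × Language ℕ)} {u v o : List ℕ} (hu : u ∈ L)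
      (hv : Fac f P v o) : Fac f ((i, L) :: P) (u ++ v) (u.flatMap (f i) ++ o)

end Pool.Agent.Lib.GCH
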