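import Pool.Agent.Lib.GCH.Defs

/-!
# Record blocks and insertion of delimiters: definitions (MP_f1c4ef_lc)
-/

set_option autoImplicit false

namespace Pool.Agent.Lib.GCH

/-- `b < m`, and the `w i` are words in the letters `a < m`, `a ≠ b` (not necessarily distinct) -/
structure Ch0 (m b : ℕ) (w : ℕ → List ℕ) : Prop where
  bm : b < m
  lt : ∀ i, ∀ a ∈ w i, a < m
  nb : ∀ i, b ∉ w i

/-- the number of the letters which code pairs (a letter `< m` or the blank `m`, twice) -/
def BB (m : ℕ) : ℕ := (m + 1) * (m + 1)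

/-- two words written in parallel, the shorter one filled up with blanks; the pair of `a` and `c` is
coded by `a + (m + 1) * c` -/
def pz (m : ℕ) : List ℕ → List ℕ → List ℕ
  | [], [] => []
  | a :: u, [] => (a + (m + 1) * m) :: pz m u []
  | [], c :: k => (m + (m + 1) * c) :: pz m [] k
  | a :: u, c :: k => (a + (m + 1) * c) :: pz m u k

/-- first coordinate; the delimiters `BB m`, `BB m + 1` give `b` -/
def hh (m b y : ℕ) : List ℕ :=
  if y < BB m then (if y % (m + 1) < m then [y % (m + 1)] else []) else [b]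

/-- second coordinate -/
def kk (m y : ℕ) : List ℕ :=
  if y < BB m then (if y / (m + 1) < m then [y / (m + 1)] else []) else []

/-- the last record before block `z` (block `0` is a record, block `z` is a record if it is longer
than the last record before it) -/
def rh (w : ℕ → List ℕ) : ℕ → ℕ
  | 0 => 0
  | z + 1 => if (w (rh w z)).length < (w z).length then z else rh w z

/-- block `z` is a record -/
def isrec (w : ℕ → List ℕ) (z : ℕ) : Prop := z = 0 ∨ (w (rh w z)).length < (w z).length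

open Classical in
/-- block `z` with the last record block before it written in parallel -/
noncomputable def AA (m : ℕ) (w : ℕ → List ℕ) (z : ℕ) : List ℕ :=
  if z = 0 then pz m (w 0) [] else pz m (w z) (w (rh w z))

open Classical in
/-- the delimiter after block `z` -/
noncomputable def DD (m : ℕ) (w : ℕ → List ℕ) (z : ℕ) : ℕ := if isrec w z then BB m + 1 else BB m

/-- the first `z` blocks -/
noncomputable def QQ (m : ℕ) (w : ℕ → List ℕ) : ℕ → List ℕ
  | 0 => []
  | z + 1 => QQ m w z ++ (AA m w z ++ [DD m w z])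

/-- the words consisting of complete blocks, the last one a record -/
def CR (m : ℕ) (w : ℕ → List ℕ) : Language ℕ :=
  {v : List ℕ | ∃ z, v = QQ m w z ∧ (z = 0 ∨ isrec w (z - 1))}

/-- empty or ends with one of the delimiters `BB m`, `BB m + 1` -/
def ED (m : ℕ) (p : List ℕ) : Prop := p = [] ∨ ∃ q d, (d = BB m ∨ d = BB m + 1) ∧ p = q ++ [d]

/-- allowed pairs of consecutive letters -/
def Rl (m y z : ℕ) : Prop :=
  (y < BB m → z < BB m → (y % (m + 1) = m → z % (m + 1) = m) ∧ (y / (m + 1) = m → z / (m + 1) = m)) ∧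
  (z = BB m → ¬ (y < BB m ∧ y / (m + 1) = m)) ∧ (z = BB m + 1 → y < BB m ∧ y / (m + 1) = m)

/-- local conditions fail -/
def RB0 (m b : ℕ) (w : ℕ → List ℕ) (v : List ℕ) : Prop :=
  (v ≠ [] ∧ ¬ ∃ s, v = AA m w 0 ++ [BB m + 1] ++ s) ∨ ¬ EE (BB m + 1) v ∨
  (∃ y ∈ v, y < BB m ∧ (y % (m + 1) = b ∨ y / (m + 1) = b ∨ y = m + (m + 1) * m)) ∨
  (∃ (p s : List ℕ) (y z : ℕ), v = p ++ [y] ++ [z] ++ s ∧ ¬ Rl m y z)

/-- the first test fails: some complete blocks at the beginning, first coordinates -/
def RB1 (m b : ℕ) (w : ℕ → List ℕ) (v : List ℕ) : Prop :=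
  ∃ p s : List ℕ, v = p ++ s ∧ ED m p ∧ p.flatMap (hh m b) ∉ CC w b

/-- the second test fails: first coordinates of the blocks before a record, then the second
coordinates of a block after this record and not after the next record -/
def RB2 (m b : ℕ) (w : ℕ → List ℕ) (v : List ℕ) : Prop :=
  ∃ (p g t y : List ℕ) (d : ℕ) (s : List ℕ), v = p ++ g ++ [BB m + 1] ++ t ++ y ++ [d] ++ s ∧
    ED m p ∧ (∀ a ∈ g, a < BB m) ∧ (∀ a ∈ t, a < BB m + 1) ∧ EE (BB m) t ∧ (∀ a ∈ y, a < BB m) ∧
    (d = BB m ∨ d = BB m + 1) ∧ p.flatMap (hh m b) ++ y.flatMap (kk m) ++ [b] ∉ CC w b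

/-- `v` fails one of the conditions -/
def RB (m b : ℕ) (w : ℕ → List ℕ) (v : List ℕ) : Prop := RB0 m b w v ∨ RB1 m b w v ∨ RB2 m b w v

/-- the prefix of length `n` of the infinite word `x` -/
def pre (x : ℕ → ℕ) (n : ℕ) : List ℕ := (List.range n).map x

/-- the factor of `x` from position `i` to position `j - 1` -/
def fac (x : ℕ → ℕ) (i j : ℕ) : List ℕ := (List.range (j - i)).map (fun k => x (i + k))

/-- the positive numbers `n` such that the prefix of length `n` of `x` is in `R` -/
def PP (x : ℕ → ℕ) (R : Language ℕ) (n : ℕ) : Prop := 1 ≤ n ∧ pre x n ∈ R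

/-- `0` and then the numbers `n` with `PP x R n`, in increasing order -/
noncomputable def cut (x : ℕ → ℕ) (R : Language ℕ) : ℕ → ℕ
  | 0 => 0
  | k + 1 => Nat.nth (PP x R) k

/-- the blocks of `x` between consecutive cuts -/
noncomputable def bl (x : ℕ → ℕ) (R : Language ℕ) (i : ℕ) : List ℕ :=
  fac x (cut x R i) (cut x R (i + 1))

/-- erase the letter `m` -/
def er (m y : ℕ) : List ℕ := if y < m then [y] else []

/-- the prefixes of `x` which are in `R` -/
def CX (x : ℕ → ℕ) (R : Language ℕ) : Language ℕ := {v : List ℕ | v ∈ R ∧ ∃ n, v = pre x n}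

/-- the insertion of the letter `m` is wrong -/
def IB0 (m : ℕ) (R : Language ℕ) (v : List ℕ) : Prop :=
  ¬ EE m v ∨
  (∃ p s : List ℕ, v = p ++ [m] ++ s ∧ (EE m p ∨ p.flatMap (er m) ∉ R)) ∨
  (∃ (p s : List ℕ) (a : ℕ), v = p ++ [a] ++ s ∧ a < m ∧ ¬ EE m p ∧ p.flatMap (er m) ∈ R)

/-- the word without the inserted letters is not a prefix of `x` in `R` -/
def IB1 (m : ℕ) (x : ℕ → ℕ) (R : Language ℕ) (v : List ℕ) : Prop :=
  v ≠ [] ∧ v.flatMap (er m) ∉ CX x R

end Pool.Agent.Lib.GCH
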