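import Pool.Agent.Lib.GCH.Defs2

/-!
# Machines with several heads on an infinite word: definitions (MP_f1c4ef_lc)
-/

set_option autoImplicit false

namespace Pool.Agent.Lib.GCH

/-- the prefixes of `x` -/
def Pf (x : ℕ → ℕ) : Language ℕ := {v : List ℕ | ∃ n, v = pre x n}

/-- an infinite word with letters in `Fin m` as a word in natural numbers -/
def vx {m : ℕ} (X : ℕ → Fin m) : ℕ → ℕ := fun i => (X i : ℕ)

/-- `LocR A B u a`: the word `u ++ [a]` has a first letter in `A` and consecutive letters in `B` -/
inductive LocR {T : Type} (A : T → Prop) (B : T → T → Prop) : List T → T → Prop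
  | one {a : T} (h : A a) : LocR A B [] a
  | snoc {u : List T} {a b : T} (h : LocR A B u a) (hb : B a b) : LocR A B (u ++ [a]) b

/-- the nonempty words with first letter in `A`, consecutive letters in `B`, last letter in `C` -/
def Loc {T : Type} (A : T → Prop) (B : T → T → Prop) (C : T → Prop) : Language T :=
  {w : List T | ∃ u a, LocR A B u a ∧ C a ∧ w = u ++ [a]}

/-- machines with `k` heads on an infinite word over `Fin m`. In state `q` with letters `l` under the
heads, the next state is `nx (q, l)`, and head `j` goes to the position of head `sr (q, l) j`, and one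
step to the right of it if `mv (q, l) j` -/
structure MH (m k : ℕ) (Q : Type) where
  q0 : Q
  nx : Q × (Fin k → Fin m) → Q
  sr : Q × (Fin k → Fin m) → Fin k → Fin k
  mv : Q × (Fin k → Fin m) → Fin k → Bool

section
variable {m k : ℕ} {Q : Type}

/-- state and letters under the heads -/
def rd (X : ℕ → Fin m) (c : Q × (Fin k → ℕ)) : Q × (Fin k → Fin m) := (c.1, fun j => X (c.2 j))

/-- one step -/
def MH.stp (M : MH m k Q) (X : ℕ → Fin m) (c : Q × (Fin k → ℕ)) : Q × (Fin k → ℕ) :=
  (M.nx (rd X c), fun j => c.2 (M.sr (rd X c) j) + if M.mv (rd X c) j then 1 else 0)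

/-- the configuration (state and positions of the heads) at time `t` -/
def MH.cf (M : MH m k Q) (X : ℕ → Fin m) : ℕ → Q × (Fin k → ℕ)
  | 0 => (M.q0, fun _ => 0)
  | t + 1 => M.stp X (M.cf X t)

/-- state and letters under the heads at time `t` -/
def MH.tr (M : MH m k Q) (X : ℕ → Fin m) (t : ℕ) : Q × (Fin k → Fin m) := rd X (M.cf X t)

/-- possible consecutive letters of a trace, as far as it can be seen locally -/
def MH.loc (M : MH m k Q) (s s' : Q × (Fin k → Fin m)) : Prop :=
  s'.1 = M.nx s ∧ ∀ j, M.mv s j = false → s'.2 j = s.2 (M.sr s j)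

end

/-- marks: `lin i f`: we follow head `i`, `f`: it has just moved; `off`: after the test;
`wait`: before an error; `err`: an error -/
inductive Md (k : ℕ) : Type
  | lin (i : Fin k) (f : Bool) : Md k
  | off : Md k
  | wait : Md k
  | err : Md k
  deriving Fintype

section
variable {m k : ℕ} {Q : Type}

/-- first letters -/
def MA (M : MH m k Q) (X : ℕ → Fin m) (t : (Q × (Fin k → Fin m)) × Md k) : Prop :=
  match t.2 with
  | Md.lin _ f => f = true
  | Md.off => False
  | Md.wait => True
  | Md.err => t.1 ≠ (M.q0, fun _ => X 0)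

/-- consecutive letters -/
def MB (M : MH m k Q) (t t' : (Q × (Fin k → Fin m)) × Md k) : Prop :=
  match t.2, t'.2 with
  | Md.lin i _, Md.lin j g => i = M.sr t.1 j ∧ g = M.mv t.1 j
  | Md.lin _ _, Md.off => True
  | Md.off, Md.off => True
  | Md.wait, Md.wait => True
  | Md.wait, Md.err => ¬ M.loc t.1 t'.1
  | Md.err, Md.off => True
  | _, _ => False

/-- outputs -/
def Mf (a0 : List ℕ) (t : (Q × (Fin k → Fin m)) × Md k) : List ℕ :=
  match t.2 with
  | Md.lin i f => if f = true then [(t.1.2 i : ℕ)] else []
  | Md.off => []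
  | Md.wait => []
  | Md.err => a0

end

/-- the trace as a word over `Fin N` -/
noncomputable def MH.trc {m k : ℕ} {Q : Type} [Fintype Q] (M : MH m k Q) (X : ℕ → Fin m) :
    ℕ → Fin (Fintype.card (Q × (Fin k → Fin m))) :=
  fun t => Fintype.equivFin (Q × (Fin k → Fin m)) (M.tr X t)

/-! ### the machine which looks for long repetitions -/

/-- the first offset at which the words starting at the positions `i` and `j` differ -/
noncomputable def lc {m : ℕ} (X : ℕ → Fin m) (i j : ℕ) : ℕ := sInf {s : ℕ | X (i + s) ≠ X (j + s)}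

/-- not ultimately periodic -/
def NP {m : ℕ} (X : ℕ → Fin m) : Prop := ∀ i j, i < j → ∃ s, X (i + s) ≠ X (j + s)

/-- two pairs of positions: `(a, b)` is tested, `(c, d)` is the best pair so far -/
structure Qd : Type where
  a : ℕ
  b : ℕ
  c : ℕ
  d : ℕ

open Classical in
/-- one round -/
noncomputable def qs {m : ℕ} (X : ℕ → Fin m) (q : Qd) : Qd :=
  if lc X q.c q.d < lc X q.a q.b then ⟨0, q.b + 1, q.a, q.b⟩
  else if q.a + 1 = q.b then ⟨0, q.b + 1, q.c, q.d⟩
  else ⟨q.a + 1, q.b, q.c, q.d⟩

/-- the pairs in round `r` -/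
noncomputable def Qn {m : ℕ} (X : ℕ → Fin m) : ℕ → Qd
  | 0 => ⟨0, 1, 0, 1⟩
  | r + 1 => qs X (Qn X r)

/-- the record in round `r` -/
noncomputable def el {m : ℕ} (X : ℕ → Fin m) (r : ℕ) : ℕ := lc X (Qn X r).c (Qn X r).d

/-- the starting time of round `r` -/
noncomputable def Tm {m : ℕ} (X : ℕ → Fin m) : ℕ → ℕ
  | 0 => 1
  | r + 1 => Tm X r + el X r + 1

/-- the invariant -/
def Inv {m : ℕ} (X : ℕ → Fin m) (q : Qd) : Prop :=
  q.c < q.d ∧ q.a < q.b ∧ (∀ i j, i < j → j < q.b → lc X i j ≤ lc X q.c q.d) ∧
    ∀ i, i < q.a → lc X i q.b ≤ lc X q.c q.d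

/-- states of the machine: `none` at time `0`; `some (f, e, e')`: `f` first step of a round,
`e`, `e'`: equality so far in the first and in the second comparison -/
abbrev Qt : Type := Option (Bool × Bool × Bool)

/-- the machine; heads: `0` position zero, `1, 2, 3, 4, 5` the positions `a, b, b - 1, c, d`,
`6, 7, 8, 9, 10` move to the right from these positions -/
def MM (m : ℕ) : MH m 11 Qt where
  q0 := none
  nx s :=
    match s.1 with
    | none => some (true, true, true)
    | some (_, e, e') =>
      if s.2 9 = s.2 10 then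
        some (false, e && decide (s.2 6 = s.2 7), e' && decide (s.2 6 = s.2 8))
      else some (true, true, true)
  sr s :=
    match s.1 with
    | none => id
    | some (_, e, e') =>
      if s.2 9 = s.2 10 then id
      else if (e && decide (s.2 6 = s.2 7)) = true then ![0, 0, 2, 2, 1, 2, 0, 2, 2, 1, 2]
      else if (e' && decide (s.2 6 = s.2 8)) = true then ![0, 0, 2, 2, 4, 5, 0, 2, 2, 4, 5]
      else ![0, 1, 2, 3, 4, 5, 1, 2, 3, 4, 5]
  mv s :=
    match s.1 with
    | none => ![false, false, true, false, false, true, false, true, false, false, true]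
    | some (_, e, e') =>
      if s.2 9 = s.2 10 then
        ![false, false, false, false, false, false, true, true, true, true, true]
      else if (e && decide (s.2 6 = s.2 7)) = true then
        ![false, false, true, false, false, false, false, true, false, false, false]
      else if (e' && decide (s.2 6 = s.2 8)) = true then
        ![false, false, true, false, false, false, false, true, false, false, false]
      else ![false, true, false, false, false, false, true, false, false, false, false]

/-- the positions of the heads in a round with the pairs `q` at offset `s` -/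
def hd (q : Qd) (s : ℕ) : Fin 11 → ℕ :=
  ![0, q.a, q.b, q.b - 1, q.c, q.d, q.a + s, q.b + s, q.b - 1 + s, q.c + s, q.d + s]

/-! ### look-ahead -/

/-- the least `r > n` such that the prefix of length `r` is in `R` -/
noncomputable def nr (x : ℕ → ℕ) (R : Language ℕ) (n : ℕ) : ℕ := sInf {r : ℕ | n < r ∧ pre x r ∈ R}

/-- the word from position `n` to position `nr - 1` -/
noncomputable def zw {m : ℕ} (X : ℕ → Fin m) (R : Language ℕ) (n : ℕ) : List (Fin m) :=
  (List.range (nr (vx X) R n - n)).map (fun k => X (n + k))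

/-- words of length at most `g` -/
abbrev Wg (m g : ℕ) : Type := {V : List (Fin m) // V.length ≤ g}

noncomputable instance instWg (m g : ℕ) : Fintype (Wg m g) :=
  (List.finite_length_le (Fin m) g).fintype

/-- marks: `go`: the first letter is written; `test`: the complete word is written; `off`, `wait`,
`err` as before -/
inductive Mo : Type
  | go : Mo
  | test : Mo
  | off : Mo
  | wait : Mo
  | err : Mo
  deriving Fintype

section
variable {m g : ℕ} {σ : Type}

/-- the values of the letters -/
def vl (V : List (Fin m)) : List ℕ := V.map (fun a => (a : ℕ))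

/-- `V` is not empty, leads from `q` to an accepting state, no shorter nonempty prefix does -/
def good (D : DFA ℕ σ) (V : List (Fin m)) (q : σ) : Prop :=
  V ≠ [] ∧ D.evalFrom q (vl V) ∈ D.accept ∧
    ∀ U W : List (Fin m), V = U ++ W → U ≠ [] → W ≠ [] → D.evalFrom q (vl U) ∉ D.accept

/-- the state after the first letter of `V` -/
def fst1 (D : DFA ℕ σ) (V : List (Fin m)) (q : σ) : σ := D.evalFrom q (vl (V.take 1))

/-- first letters -/
def OA (D : DFA ℕ σ) (t : Wg m g × σ × Mo) : Prop :=
  t.2.1 = D.start ∧
    match t.2.2 with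
    | Mo.go => True
    | Mo.test => good D t.1.1 t.2.1
    | Mo.off => False
    | Mo.wait => True
    | Mo.err => ¬ good D t.1.1 t.2.1

/-- consecutive letters -/
def OB (D : DFA ℕ σ) (t t' : Wg m g × σ × Mo) : Prop :=
  match t.2.2, t'.2.2 with
  | Mo.go, Mo.go => t'.2.1 = fst1 D t.1.1 t.2.1
  | Mo.go, Mo.test => t'.2.1 = fst1 D t.1.1 t.2.1 ∧ good D t'.1.1 t'.2.1
  | Mo.wait, Mo.wait => t'.2.1 = fst1 D t.1.1 t.2.1
  | Mo.wait, Mo.err => t'.2.1 = fst1 D t.1.1 t.2.1 ∧ ¬ good D t'.1.1 t'.2.1
  | Mo.test, Mo.off => True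
  | Mo.err, Mo.off => True
  | Mo.off, Mo.off => True
  | _, _ => False

/-- last letters -/
def OC (t : Wg m g × σ × Mo) : Prop := t.2.2 = Mo.test ∨ t.2.2 = Mo.off ∨ t.2.2 = Mo.err

/-- outputs -/
def Of (a0 : List ℕ) (t : Wg m g × σ × Mo) : List ℕ :=
  match t.2.2 with
  | Mo.go => vl (t.1.1.take 1)
  | Mo.test => vl t.1.1
  | Mo.off => []
  | Mo.wait => []
  | Mo.err => a0

end

end Pool.Agent.Lib.GCH
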