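import Pool.Agent.Lib.GCH.Main

/-!
# Minimal rational cones contain no Goldstine type language: the general form (MP_f1c4ef_lc)
-/

set_option autoImplicit false

namespace Pool.Agent.Lib.GCH

open Pool.Agent.Lib.F1c4

/-- the words over `S` -/
def AS (S : Finset ℕ) : Language ℕ := {v : List ℕ | ∀ a ∈ v, a ∈ S}

theorem as_rat (S : Finset ℕ) : Rat (AS S) := ⟨star_reg S, S, fun _ hw => hw⟩

/-- the left quotient by `u`, restricted to words over `S` -/
def QT (L : Language ℕ) (u : List ℕ) (S : Finset ℕ) : Language ℕ :=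
  {v : List ℕ | (∀ a ∈ v, a ∈ S) ∧ u ++ v ∈ L}

/-- the language with the only word `[3]` -/
def T3 : Language ℕ := {t : List ℕ | t = [3]}

theorem map_flat (g : ℕ → List ℕ) (hg : ∀ a, g (4 * a + 0) = [a]) (v : List ℕ) :
    (v.map (fun a => 4 * a + 0)).flatMap g = v := by
  induction v with
  | nil => rfl
  | cons a v ih =>
    rw [List.map_cons, List.flatMap_cons, ih, hg]
    rfl

theorem quot_mem {F : Set (Language ℕ)} (hF : IsCone F) {L : Language ℕ} (hL : L ∈ F)
    (u : List ℕ) (S : Finset ℕ) : QT L u S ∈ F := by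
  have hK : Rat (T3 * Enc 0 (AS S)) := rat_mul (rat_sing 3) (enc_rat 0 (as_rat S))
  have h1 := nivat hF hL hK (fun y => if y % 4 = 3 then u else [y / 4])
    (fun y => if y % 4 = 3 then [] else [y / 4])
  have e1 := map_flat (fun y => if y % 4 = 3 then u else [y / 4]) (fun a => by
    have h1 : ¬ (4 * a + 0) % 4 = 3 := by omega
    have h2 : (4 * a + 0) / 4 = a := by omega
    simp only [h1, if_false, h2])
  have e2 := map_flat (fun y => if y % 4 = 3 then ([] : List ℕ) else [y / 4]) (fun a => by
    have h1 : ¬ (4 * a + 0) % 4 = 3 := by omega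
    have h2 : (4 * a + 0) / 4 = a := by omega
    simp only [h1, if_false, h2])
  have e3 : [3].flatMap (fun y => if y % 4 = 3 then u else [y / 4]) = u := by simp
  have h2 : QT L u S = ({w : List ℕ | ∃ t ∈ T3 * Enc 0 (AS S),
        t.flatMap (fun y => if y % 4 = 3 then u else [y / 4]) ∈ L ∧
        w = t.flatMap (fun y => if y % 4 = 3 then [] else [y / 4])} : Language ℕ) := by
    ext v
    constructor
    · rintro ⟨h3, h4⟩
      refine ⟨[3] ++ v.map (fun a => 4 * a + 0), ?_, ?_, ?_⟩
      · rw [Language.mem_mul]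
        exact ⟨[3], rfl, _, ⟨v, h3, rfl⟩, rfl⟩
      · rw [List.flatMap_append, e1, e3]
        exact h4
      · rw [List.flatMap_append, e2]
        rfl
    · rintro ⟨t, ht, h3, h4⟩
      rw [Language.mem_mul] at ht
      obtain ⟨t1, ht1, t2, ⟨v', hv', rfl⟩, rfl⟩ := ht
      have ht1' : t1 = [3] := ht1
      rw [ht1', List.flatMap_append, e1, e3] at h3
      rw [ht1', List.flatMap_append, e2] at h4
      have h5 : v = v' := h4
      rw [h5]
      exact ⟨hv', h3⟩
  rw [h2]
  exact h1

namespace FinalAux

/-- words over `S`, empty or ending with `b` -/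
def EB (S : Finset ℕ) (b : ℕ) : Language ℕ := {v : List ℕ | (∀ a ∈ v, a ∈ S) ∧ EE b v}

/-- nonempty words over `S` ending with `b` -/
def EN (S : Finset ℕ) (b : ℕ) : Language ℕ := {v : List ℕ | v ∈ EB S b ∧ v ≠ []}

/-- words in the letters `< m` which are not in `EB S b` -/
def RB (m : ℕ) (S : Finset ℕ) (b : ℕ) : Language ℕ := {v : List ℕ | (∀ a ∈ v, a < m) ∧ v ∉ EB S b}

theorem eb_rat (S : Finset ℕ) (b : ℕ) : Rat (EB S b) := by
  exact rat_sub (as_rat S) (last_reg b)

theorem en_rat (S : Finset ℕ) (b : ℕ) : Rat (EN S b) := rat_diff (eb_rat S b) (rat_word []).1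

theorem rb_rat (m : ℕ) (S : Finset ℕ) (b : ℕ) : Rat (RB m S b) := rat_diff (rat_all m) (eb_rat S b).1

/-- the output function -/
def ff (i : ℕ) : ℕ → List ℕ := if i = 2 then fun _ => [] else fun a => [a]

end FinalAux

open FinalAux in
theorem final {F : Set (Language ℕ)} (hF : IsMinimal F) (S : Finset ℕ) (b : ℕ) (hb : b ∈ S)
    (w : ℕ → List ℕ) (hw : ∀ i, ∀ a ∈ w i, a ∈ S ∧ a ≠ b)
    (hi : ∃ N, ∀ i j, N ≤ i → N ≤ j → w i = w j → i = j) (L : Language ℕ)
    (hL : ∀ v : List ℕ, (∀ a ∈ v, a ∈ S) →
      (v ++ [b] ∈ L ↔ ∀ n : ℕ, v ++ [b] ≠ (List.range n).flatMap (fun i => w i ++ [b]))) :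
    L ∉ F := by
  intro hLF
  obtain ⟨N, hN⟩ := hi
  simp only [← U_eq_flatMap] at hL
  -- the shifted sequence
  have hSm : ∀ a ∈ S, a < S.sup id + 1 := fun a ha => Nat.lt_succ_of_le (Finset.le_sup (f := id) ha)
  have hC : Ch (S.sup id + 1) b (fun i => w (N + i)) :=
    ⟨hSm b hb, fun i a ha => hSm a (hw _ a ha).1, fun i h => (hw _ b h).2 rfl,
      fun i j hij => by
        have := hN (N + i) (N + j) (Nat.le_add_right _ _) (Nat.le_add_right _ _) hij
        omega⟩
  -- letters of the words U are in S
  have hUS : ∀ (w' : ℕ → List ℕ), (∀ i, ∀ a ∈ w' i, a ∈ S ∧ a ≠ b) → ∀ n, ∀ a ∈ U w' b n, a ∈ S := by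
    intro w' hw' n
    induction n with
    | zero => intro a ha; exact absurd ha List.not_mem_nil
    | succ n ih =>
      intro a ha
      rcases List.mem_append.1 ha with h | h
      · exact ih a h
      · rcases List.mem_append.1 h with h | h
        · exact (hw' n a h).1
        · rw [List.mem_singleton.1 h]
          exact hb
  have hct : ∀ n, (U w b n).count b = n := by
    intro n
    induction n with
    | zero => rfl
    | succ n ih =>
      have h1 : (w n).count b = 0 := List.count_eq_zero.2 (fun h => (hw n b h).2 rfl)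
      show (U w b n ++ (w n ++ [b])).count b = n + 1
      rw [List.count_append, List.count_append, ih, h1]
      simp
  have hkey : ∀ v : List ℕ, (∃ n, U w b N ++ v = U w b n) ↔ v ∈ CC (fun i => w (N + i)) b := by
    intro v
    constructor
    · rintro ⟨n, hn⟩
      have h1 : N ≤ n := by
        have h2 := congrArg (List.count b) hn
        rw [List.count_append, hct, hct] at h2
        omega
      obtain ⟨k, rfl⟩ := Nat.exists_eq_add_of_le h1
      rw [U_add] at hn
      exact ⟨k, List.append_cancel_left hn⟩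
    · rintro ⟨k, rfl⟩
      exact ⟨N + k, (U_add w b N k).symm⟩
  -- quotient
  have hQ := quot_mem hF.1 hLF (U w b N) S
  have hbb : ([b, b] : List ℕ) ∈ QT L (U w b N) S := by
    refine ⟨fun a ha => ?_, ?_⟩
    · simp only [List.mem_cons, List.not_mem_nil, or_false, or_self] at ha
      rw [ha]
      exact hb
    · have h9 : U w b N ++ [b, b] = (U w b N ++ [b]) ++ [b] := by simp
      rw [h9]
      refine (hL _ ?_).2 ?_
      · intro a ha
        rcases List.mem_append.1 ha with h | h
        · exact hUS w hw N a h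
        · rw [List.mem_singleton.1 h]
          exact hb
      · intro n hn
        rw [← h9] at hn
        obtain ⟨k, hk⟩ := (hkey _).1 ⟨n, hn⟩
        have h10 := U_count hC k
        rw [← hk] at h10
        have h11 : k = 2 := by
          rw [← h10]
          simp
        have h12 := U_len hC k
        rw [← hk, h11] at h12
        simp at h12
  have h1 := tests_mem hF.1 hQ hbb ff rfl (rb_rat (S.sup id + 1) S b) [[(0, EN S b)]] (by
    intro P hP x hx
    rw [List.mem_singleton.1 hP] at hx
    rw [List.mem_singleton.1 hx]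
    exact ⟨by norm_num, en_rat S b⟩)
  have h2 : ({v : List ℕ | v ∈ RB (S.sup id + 1) S b ∨ ∃ P ∈ [[((0 : ℕ), EN S b)]], ∃ o : List ℕ,
        Fac ff P v o ∧ o ∈ QT L (U w b N) S} :
        Language ℕ) = co (S.sup id + 1) (CC (fun i => w (N + i)) b) := by
    ext v
    constructor
    · rintro (⟨h3, h4⟩ | ⟨P, hP, o, ho, h5⟩)
      · refine ⟨h3, ?_⟩
        rintro ⟨n, hn⟩
        apply h4
        refine ⟨?_, ?_⟩
        · rw [hn]
          exact hUS _ (fun i => hw _) n
        · rw [hn]
          exact U_EE _ b n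
      · rw [List.mem_singleton.1 hP, fac_cons] at ho
        obtain ⟨u, v', o', ⟨⟨hu1, hu2⟩, hu3⟩, hf, hv1, ho1⟩ := ho
        rw [fac_nil] at hf
        obtain ⟨rfl, rfl⟩ := hf
        rw [List.append_nil] at hv1 ho1
        have h6 : u.flatMap (ff 0) = u := MemAux.flat_id u
        rw [h6] at ho1
        subst hv1
        subst ho1
        refine ⟨fun a ha => hSm a (hu1 a ha), ?_⟩
        intro hm
        rcases hu2 with hu2 | ⟨v', hv'⟩
        · exact hu3 hu2
        · obtain ⟨n, hn⟩ := (hkey _).2 hm
          have h7 := h5.2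
          rw [hv', ← List.append_assoc] at h7 hn
          refine ((hL (U w b N ++ v') ?_).1 h7) n hn
          intro a ha
          rcases List.mem_append.1 ha with h | h
          · exact hUS w hw N a h
          · exact hu1 a (by rw [hv']; exact List.mem_append_left _ h)
    · rintro ⟨h3, h4⟩
      by_cases h5 : v ∈ EB S b
      · obtain ⟨h6, h7⟩ := h5
        rcases h7 with h7 | ⟨v', hv'⟩
        · exact absurd ⟨0, h7⟩ h4
        · right
          refine ⟨_, List.mem_singleton.2 rfl, v, ?_, ?_⟩
          · rw [fac_cons]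
            refine ⟨v, [], [], ⟨⟨h6, Or.inr ⟨v', hv'⟩⟩, ?_⟩, fac_nil.2 ⟨rfl, rfl⟩, by simp, ?_⟩
            · intro h8
              rw [h8] at hv'
              simp at hv'
            · rw [List.append_nil]
              exact (MemAux.flat_id v).symm
          · refine ⟨h6, ?_⟩
            have h9 : U w b N ++ v = (U w b N ++ v') ++ [b] := by
              rw [hv', List.append_assoc]
            rw [h9]
            refine (hL (U w b N ++ v') ?_).2 ?_
            · intro a ha
              rcases List.mem_append.1 ha with h | h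
              · exact hUS w hw N a h
              · exact h6 a (by rw [hv']; exact List.mem_append_left _ h)
            · intro n hn
              rw [← h9] at hn
              exact h4 ((hkey v).1 ⟨n, hn⟩)
      · exact Or.inl ⟨h3, h5⟩
  have h3 : co (S.sup id + 1) (CC (fun i => w (N + i)) b) ∈ F := by
    rw [← h2]
    exact h1
  exact main hF hC h3

end Pool.Agent.Lib.GCH
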