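import Pool.Agent.Lib.GCH.LaS

/-!
# Module GCH.LaC: look-ahead, wrong words fail a test (MP_f1c4ef_lc)

PROOF (like `GCH.MhC`). Let `s` be a list of words of length `≤ g` which is not `(List.range n).map (zw X R)` for any `n`. Then
`s.map (·.1) = (List.range t).map (zw X R) ++ [V.1] ++ r` with `V.1 ≠ zw X R t` (first difference). Put
`q = D.evalFrom D.start (pre (vx X) t)`.
(a) `go_tr` (for `t ≥ 1`): the first `t` letters with marks `go` (second components the states
`D.evalFrom D.start (pre (vx X) i)`) form a word `u ++ [b]` with `LocR (OA D) (OB D) u b`, output `pre (vx X) t`;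
(b) the same with marks `wait`, output `[]` (inductions on `t`; `fst1 D (zw X R i) (D.evalFrom D.start (pre _ i)) =
D.evalFrom D.start (pre _ (i + 1))` by `pre_zw` with `j = 1`, `nr_spec`).
(c) after a letter with mark `test`, `err` or `off` one can add any letters with mark `off` (second component arbitrary, e.g.
`D.start`), the output does not change.
If `¬ good D V.1 q`: `wait ... wait err off ... off`, output `a0` (for `t = 0`: `err` first). If `good D V.1 q`:
`go ... go test off ... off`, output `o = pre (vx X) t ++ vl V.1`. Suppose `o ∈ CX (vx X) R`: `o = pre (vx X) n`, `n = t +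
V.1.length`, `pre (vx X) n ∈ R`, `V.1 ≠ []`, so `nr (vx X) R t ≤ n`. If `nr < n`: `U = V.1.take (nr - t)` is a proper nonempty
prefix with `pre (vx X) t ++ vl U = pre (vx X) nr ∈ R`, contradiction to `good`. So `n = nr` and `V.1 = zw X R t` (same length,
`vl` injective: `pre (vx X) t ++ vl V.1 = pre (vx X) t ++ vl (zw X R t)`), contradiction.
-/

set_option autoImplicit false

namespace Pool.Agent.Lib.GCH

variable {m : ℕ} {σ : Type} {X : ℕ → Fin m} {R : Language ℕ} {g : ℕ}

namespace LaCAux

theorem first_diff {α β : Type} (f : α → β) (z : ℕ → β) (s : List α)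
    (hs : ∀ n : ℕ, s.map f ≠ (List.range n).map z) :
    ∃ (s1 : List α) (V : α) (r : List α), s = s1 ++ [V] ++ r ∧
      s1.map f = (List.range s1.length).map z ∧ f V ≠ z s1.length := by
  induction s using List.reverseRecOn with
  | nil => exact absurd rfl (hs 0)
  | append_singleton s' V ih =>
    by_cases h : ∀ n : ℕ, s'.map f ≠ (List.range n).map z
    · obtain ⟨s1, V', r, h1, h2, h3⟩ := ih h
      refine ⟨s1, V', r ++ [V], ?_, h2, h3⟩
      rw [h1]
      simp only [List.append_assoc]
    · obtain ⟨n, hn⟩ : ∃ n : ℕ, s'.map f = (List.range n).map z := by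
        by_contra hcon
        exact h fun n hn => hcon ⟨n, hn⟩
      have hlen : s'.length = n := by
        have := congrArg List.length hn
        simpa using this
      subst hlen
      refine ⟨s', V, [], by simp, hn, ?_⟩
      intro hV
      apply hs (s'.length + 1)
      rw [List.map_append, hn, List.range_succ, List.map_append]
      simp [hV]

theorem pre_len (x : ℕ → ℕ) (n : ℕ) : (pre x n).length = n := by
  simp [pre]

theorem pre_take (x : ℕ → ℕ) {k n : ℕ} (h : k ≤ n) : (pre x n).take k = pre x k := by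
  unfold pre
  rw [← List.map_take, List.take_range, min_eq_left h]

theorem vl_eq (V : List (Fin m)) : vl V = V.map Fin.val := by
  induction V with
  | nil => rfl
  | cons a V ih =>
    have h1 : vl (a :: V) = (a : ℕ) :: vl V := rfl
    rw [h1, ih, List.map_cons]

theorem vl_inj {V W : List (Fin m)} (h : vl V = vl W) : V = W := by
  rw [vl_eq, vl_eq] at h
  exact List.map_injective_iff.2 Fin.val_injective h

theorem vl_take (V : List (Fin m)) (k : ℕ) : vl (V.take k) = (vl V).take k := by
  rw [vl_eq, vl_eq, List.map_take]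

theorem fst1_zw (D : DFA ℕ σ)
    (hg : ∀ n : ℕ, ∃ r : ℕ, n < r ∧ r ≤ n + g ∧ pre (vx X) r ∈ R) (n : ℕ) :
    fst1 D (zw X R n) (D.evalFrom D.start (pre (vx X) n)) =
      D.evalFrom D.start (pre (vx X) (n + 1)) := by
  have h1 := nr_spec hg n
  have h2 := pre_zw (X := X) (R := R) n (j := 1) (by omega)
  unfold fst1
  rw [← h2, DFA.evalFrom_of_append]

theorem pre_zero (x : ℕ → ℕ) : pre x 0 = [] := rfl

/-- the trace with all marks `go` or all marks `wait` -/
theorem tr (D : DFA ℕ σ) (hg : ∀ n : ℕ, ∃ r : ℕ, n < r ∧ r ≤ n + g ∧ pre (vx X) r ∈ R)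
    (a0 : List ℕ) (μ : Mo) (hμ : μ = Mo.go ∨ μ = Mo.wait) (s : List (Wg m g)) (hne : s ≠ [])
    (hs : s.map (fun V => (V.1 : List (Fin m))) = (List.range s.length).map (zw X R)) :
    ∃ (u : List (Wg m g × σ × Mo)) (b : Wg m g × σ × Mo), LocR (OA D) (OB D) u b ∧
      (u ++ [b]).map (fun t => t.1) = s ∧ b.2.2 = μ ∧
      fst1 D b.1.1 b.2.1 = D.evalFrom D.start (pre (vx X) s.length) ∧
      (u ++ [b]).flatMap (Of a0) = (match μ with | Mo.go => pre (vx X) s.length | _ => []) := by
  induction s using List.reverseRecOn with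
  | nil => exact absurd rfl hne
  | append_singleton s' V ih =>
    rw [List.length_append, List.length_singleton, List.range_succ, List.map_append,
      List.map_append] at hs
    obtain ⟨h1, h2⟩ := List.append_inj hs (by simp)
    have hV : V.1 = zw X R s'.length := by simpa using h2
    have hpz : pre (vx X) s'.length ++ vl (V.1.take 1) = pre (vx X) (s'.length + 1) := by
      rw [hV]
      exact pre_zw (X := X) (R := R) s'.length (j := 1) (by have := nr_spec hg s'.length; omega)
    rcases List.eq_nil_or_concat s' with h0 | h0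
    · subst h0
      refine ⟨[], (V, D.start, μ), LocR.one ?_, by simp, rfl, ?_, ?_⟩
      · refine ⟨rfl, ?_⟩
        rcases hμ with h | h <;> rw [h] <;> trivial
      · have h3 := fst1_zw (X := X) D hg 0
        change fst1 D V.1 D.start = _
        rw [hV]
        exact h3
      · rcases hμ with h | h
        · subst h
          simpa [Of, pre_zero] using hpz
        · subst h
          simp [Of]
    · have hne' : s' ≠ [] := by
        obtain ⟨a, b, hab⟩ := h0
        rw [hab]
        simp
      obtain ⟨u, b, hu1, hu2, hu3, hu4, hu5⟩ := ih hne' h1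
      refine ⟨u ++ [b], (V, D.evalFrom D.start (pre (vx X) s'.length), μ),
        LocR.snoc hu1 ?_, ?_, rfl, ?_, ?_⟩
      · unfold OB
        rw [hu3]
        rcases hμ with h | h <;> subst h <;> exact hu4.symm
      · rw [List.map_append, hu2]
        simp
      · change fst1 D V.1 (D.evalFrom D.start (pre (vx X) s'.length)) = _
        rw [hV, fst1_zw D hg, List.length_append, List.length_singleton]
      · rw [List.flatMap_append, hu5]
        rcases hμ with h | h
        · subst h
          simpa [Of] using hpz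
        · subst h
          simp [Of]

theorem off_ext (D : DFA ℕ σ) (a0 : List ℕ) (r : List (Wg m g))
    {u : List (Wg m g × σ × Mo)} {a : Wg m g × σ × Mo} (h : LocR (OA D) (OB D) u a)
    (hC : OC a) :
    ∃ (u' : List (Wg m g × σ × Mo)) (a' : Wg m g × σ × Mo), LocR (OA D) (OB D) u' a' ∧ OC a' ∧
      (u' ++ [a']).map (fun t => t.1) = (u ++ [a]).map (fun t => t.1) ++ r ∧
      (u' ++ [a']).flatMap (Of a0) = (u ++ [a]).flatMap (Of a0) := by
  induction r generalizing u a with
  | nil => exact ⟨u, a, h, hC, by simp, rfl⟩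
  | cons V r ih =>
    have hB : OB D a (V, D.start, Mo.off) := by
      unfold OB
      rcases hC with h1 | h1 | h1 <;> rw [h1] <;> trivial
    obtain ⟨u', a', h1, h2, h3, h4⟩ := ih (LocR.snoc h hB) (Or.inr (Or.inl rfl))
    refine ⟨u', a', h1, h2, ?_, ?_⟩
    · rw [h3, List.map_append]
      simp
    · rw [h4, List.flatMap_append]
      simp [Of]

/-- the trace up to the test or the error -/
theorem fin (D : DFA ℕ σ) (hg : ∀ n : ℕ, ∃ r : ℕ, n < r ∧ r ≤ n + g ∧ pre (vx X) r ∈ R)
    (a0 : List ℕ) (s : List (Wg m g)) (V : Wg m g)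
    (hs : s.map (fun V => (V.1 : List (Fin m))) = (List.range s.length).map (zw X R)) :
    ∃ (u : List (Wg m g × σ × Mo)) (b : Wg m g × σ × Mo), LocR (OA D) (OB D) u b ∧ OC b ∧
      (u ++ [b]).map (fun t => t.1) = s ++ [V] ∧
      ((¬ good D V.1 (D.evalFrom D.start (pre (vx X) s.length)) ∧
          (u ++ [b]).flatMap (Of a0) = a0) ∨
        (good D V.1 (D.evalFrom D.start (pre (vx X) s.length)) ∧
          (u ++ [b]).flatMap (Of a0) = pre (vx X) s.length ++ vl V.1)) := by
  by_cases hgood : good D V.1 (D.evalFrom D.start (pre (vx X) s.length))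
  · rcases List.eq_nil_or_concat s with h0 | h0
    · subst h0
      refine ⟨[], (V, D.start, Mo.test), LocR.one ⟨rfl, hgood⟩, Or.inl rfl, by simp,
        Or.inr ⟨hgood, ?_⟩⟩
      simp [Of, pre_zero]
    · have hne' : s ≠ [] := by
        obtain ⟨a, b, hab⟩ := h0
        rw [hab]
        simp
      obtain ⟨u, b, hu1, hu2, hu3, hu4, hu5⟩ := tr D hg a0 Mo.go (Or.inl rfl) s hne' hs
      refine ⟨u ++ [b], (V, D.evalFrom D.start (pre (vx X) s.length), Mo.test),
        LocR.snoc hu1 ?_, Or.inl rfl, ?_, Or.inr ⟨hgood, ?_⟩⟩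
      · unfold OB
        rw [hu3]
        exact ⟨hu4.symm, hgood⟩
      · rw [List.map_append, hu2]
        simp
      · rw [List.flatMap_append, hu5]
        simp [Of]
  · rcases List.eq_nil_or_concat s with h0 | h0
    · subst h0
      refine ⟨[], (V, D.start, Mo.err), LocR.one ⟨rfl, hgood⟩, Or.inr (Or.inr rfl), by simp,
        Or.inl ⟨hgood, ?_⟩⟩
      simp [Of]
    · have hne' : s ≠ [] := by
        obtain ⟨a, b, hab⟩ := h0
        rw [hab]
        simp
      obtain ⟨u, b, hu1, hu2, hu3, hu4, hu5⟩ := tr D hg a0 Mo.wait (Or.inr rfl) s hne' hs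
      refine ⟨u ++ [b], (V, D.evalFrom D.start (pre (vx X) s.length), Mo.err),
        LocR.snoc hu1 ?_, Or.inr (Or.inr rfl), ?_, Or.inl ⟨hgood, ?_⟩⟩
      · unfold OB
        rw [hu3]
        exact ⟨hu4.symm, hgood⟩
      · rw [List.map_append, hu2]
        simp
      · rw [List.flatMap_append, hu5]
        simp [Of]

theorem wrong (D : DFA ℕ σ) (hD : D.accepts = R)
    (hg : ∀ n : ℕ, ∃ r : ℕ, n < r ∧ r ≤ n + g ∧ pre (vx X) r ∈ R) {t : ℕ}
    {V : List (Fin m)} (hV : V ≠ zw X R t)
    (hgood : good D V (D.evalFrom D.start (pre (vx X) t))) :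
    pre (vx X) t ++ vl V ∉ CX (vx X) R := by
  rintro ⟨hR, n, hn⟩
  have hR' : pre (vx X) n ∈ R := by
    rw [← hn]
    exact hR
  have hlen : t + V.length = n := by
    have h1 := congrArg List.length hn
    rw [List.length_append, pre_len, pre_len] at h1
    simpa [vl] using h1
  have hVpos : 0 < V.length := List.length_pos_iff.2 hgood.1
  obtain ⟨hn1, hn2, hn3⟩ := nr_spec hg t
  have hle : nr (vx X) R t ≤ n := by
    by_contra hcon
    exact nr_min (X := X) (R := R) (n := t) (r := n) (by omega) (by omega) hR'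
  rcases Nat.lt_or_eq_of_le hle with h1 | h1
  · have h2 := hgood.2.2 (V.take (nr (vx X) R t - t)) (V.drop (nr (vx X) R t - t))
      (List.take_append_drop _ _).symm
      (by
        intro h3
        have h4 := congrArg List.length h3
        rw [List.length_take] at h4
        simp only [List.length_nil] at h4
        omega)
      (by
        intro h3
        have h4 := congrArg List.length h3
        rw [List.length_drop] at h4
        simp only [List.length_nil] at h4
        omega)
    apply h2
    rw [← DFA.evalFrom_of_append]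
    have h5 : pre (vx X) t ++ vl (V.take (nr (vx X) R t - t)) = pre (vx X) (nr (vx X) R t) := by
      rw [← pre_take (vx X) hle, ← hn, List.take_append, pre_len, vl_take]
      congr 1
      exact (List.take_of_length_le (by rw [pre_len]; omega)).symm
    rw [h5]
    have h6 : pre (vx X) (nr (vx X) R t) ∈ D.accepts := by
      rw [hD]
      exact hn3
    exact h6
  · apply hV
    apply vl_inj
    have h2 := pre_zw (X := X) (R := R) t (j := nr (vx X) R t - t) le_rfl
    rw [List.take_of_length_le (by rw [zw_len])] at h2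
    have h3 : t + (nr (vx X) R t - t) = n := by omega
    rw [h3, ← hn] at h2
    exact (List.append_cancel_left h2).symm

end LaCAux

theorem la_compl (D : DFA ℕ σ) (hD : D.accepts = R)
    (hg : ∀ n : ℕ, ∃ r : ℕ, n < r ∧ r ≤ n + g ∧ pre (vx X) r ∈ R) (a0 : List ℕ)
    (s : List (Wg m g)) (hs : ∀ n : ℕ, s.map (fun V => (V.1 : List (Fin m))) ≠ (List.range n).map (zw X R)) :
    ∃ (u : List (Wg m g × σ × Mo)) (a : Wg m g × σ × Mo), LocR (OA D) (OB D) u a ∧ OC a ∧
      (u ++ [a]).map (fun t => t.1) = s ∧
      ((u ++ [a]).flatMap (Of a0) = a0 ∨ (u ++ [a]).flatMap (Of a0) ∉ CX (vx X) R) := by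
  obtain ⟨s1, V, r, h1, h2, h3⟩ := LaCAux.first_diff _ _ s hs
  obtain ⟨u, b, hu1, hu2, hu3, hu4⟩ := LaCAux.fin D hg a0 s1 V h2
  obtain ⟨u', a', h4, h5, h6, h7⟩ := LaCAux.off_ext D a0 r hu1 hu2
  refine ⟨u', a', h4, h5, ?_, ?_⟩
  · rw [h6, hu3, h1]
  · rw [h7]
    rcases hu4 with ⟨_, hu4⟩ | ⟨hgood, hu4⟩
    · exact Or.inl hu4
    · rw [hu4]
      exact Or.inr (LaCAux.wrong D hD hg h3 hgood)

end Pool.Agent.Lib.GCH
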