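import Pool.Agent.Lib.GCH.LocReg
import Pool.Agent.Lib.GCH.LaC

/-!
# Module GCH.LaM: the complement of the prefixes of the look-ahead word is in the cone (MP_f1c4ef_lc)

PROOF (like `GCH.MhM`). `A = co m (CX (vx X) R)`, `D` a DFA with `D.accepts = R` (from `hR`), `T = Wg m g × σ × Mo`,
`K = Loc (OA D) (OB D) OC` (`loc_reg`), `φ = Of a0`, `ψ t = [(Fintype.equivFin (Wg m g) t.1 : ℕ)]`; by `nivT` the language
`{w | ∃ t ∈ K, t.flatMap φ ∈ A ∧ w = t.flatMap ψ}` is in `F`; it is `co N (Pf (vx Z))`, `N = Fintype.card (Wg m g)`,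
`Z n = Fintype.equivFin (Wg m g) ⟨zw X R n, _⟩` (`Language.ext`; `la_sound`, `la_compl`; the outputs have letters `< m`).
-/

set_option autoImplicit false

namespace Pool.Agent.Lib.GCH

open Pool.Agent.Lib.F1c4

namespace LaMAux

theorem flat_single {S : Type} (f : S → ℕ) (l : List S) :
    l.flatMap (fun t => [f t]) = l.map f := by
  induction l with
  | nil => rfl
  | cons a l ih => rw [List.flatMap_cons, ih, List.map_cons]; rfl

theorem lift_list {S : Type} {N : ℕ} (e : S ≃ Fin N) (w : List ℕ) (hw : ∀ a ∈ w, a < N) :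
    ∃ s : List S, w = s.map (fun V => (e V : ℕ)) := by
  induction w with
  | nil => exact ⟨[], rfl⟩
  | cons a w ih =>
    obtain ⟨s, hs⟩ := ih fun b hb => hw b (List.mem_cons_of_mem a hb)
    refine ⟨e.symm ⟨a, hw a List.mem_cons_self⟩ :: s, ?_⟩
    rw [List.map_cons, ← hs, e.apply_symm_apply]

theorem inj_map {S S' : Type} (f : S → S') (hf : Function.Injective f) {l l' : List S}
    (h : l.map f = l'.map f) : l = l' := List.map_injective_iff.2 hf h

theorem out_lt {m g : ℕ} {σ : Type} {a0 : List ℕ} (ha0 : ∀ a ∈ a0, a < m)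
    (t : Wg m g × σ × Mo) : ∀ x ∈ Of a0 t, x < m := by
  obtain ⟨V, q, mo⟩ := t
  intro x hx
  have hv : ∀ W : List (Fin m), x ∈ vl W → x < m := by
    intro W hW
    simp [vl] at hW
    obtain ⟨b, -, hb⟩ := hW
    rw [hb]
    exact b.is_lt
  cases mo with
  | go => exact hv _ hx
  | test => exact hv _ hx
  | off => exact absurd hx List.not_mem_nil
  | wait => exact absurd hx List.not_mem_nil
  | err => exact ha0 x hx

end LaMAux

open LaMAux in
theorem la_mem {F : Set (Language ℕ)} (hF : IsCone F) {m g : ℕ} (X : ℕ → Fin m) {R : Language ℕ}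
    (hR : R.IsRegular) (hg : ∀ n : ℕ, ∃ r : ℕ, n < r ∧ r ≤ n + g ∧ pre (vx X) r ∈ R)
    (hl : ∀ n : ℕ, (zw X R n).length ≤ g)
    {a0 : List ℕ} (ha0 : a0 ∈ co m (CX (vx X) R)) (hA : co m (CX (vx X) R) ∈ F) :
    co (Fintype.card (Wg m g))
      (Pf (vx (fun n => Fintype.equivFin (Wg m g) ⟨zw X R n, hl n⟩))) ∈ F := by
  obtain ⟨σ, hσ, D, hD⟩ := hR
  have hK : (Loc (OA D) (OB D) (OC : Wg m g × σ × Mo → Prop)).IsRegular := loc_reg _ _ _
  have key := nivT hF hA hK (Of a0) (fun t => [((Fintype.equivFin (Wg m g) t.1 : ℕ))])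
  have hval : Function.Injective
      (fun V : Wg m g => ((Fintype.equivFin (Wg m g) V : Fin _) : ℕ)) :=
    Fin.val_injective.comp (Fintype.equivFin (Wg m g)).injective
  have heq : co (Fintype.card (Wg m g))
      (Pf (vx (fun n => Fintype.equivFin (Wg m g) ⟨zw X R n, hl n⟩))) =
      ({w : List ℕ | ∃ t ∈ (Loc (OA D) (OB D) (OC : Wg m g × σ × Mo → Prop)),
        t.flatMap (Of a0) ∈ co m (CX (vx X) R) ∧
          w = t.flatMap (fun t => [((Fintype.equivFin (Wg m g) t.1 : ℕ))])} : Language ℕ) := ?_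
  · rw [heq]
    exact key
  apply Set.ext
  intro w
  constructor
  · rintro ⟨hw, hn⟩
    obtain ⟨s, hs⟩ := lift_list (Fintype.equivFin (Wg m g)) w hw
    have hs' : ∀ n : ℕ, s.map (fun V => (V.1 : List (Fin m))) ≠ (List.range n).map (zw X R) := by
      intro n h
      apply hn
      refine ⟨n, ?_⟩
      have h1 : s = (List.range n).map (fun i => (⟨zw X R i, hl i⟩ : Wg m g)) := by
        apply inj_map (fun V : Wg m g => (V.1 : List (Fin m))) Subtype.val_injective
        rw [h, List.map_map]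
        rfl
      rw [hs, h1, List.map_map]
      rfl
    obtain ⟨u, a, h1, h2, h3, h4⟩ := la_compl D hD hg a0 s hs'
    refine ⟨u ++ [a], ⟨u, a, h1, h2, rfl⟩, ⟨?_, ?_⟩, ?_⟩
    · intro x hx
      rw [List.mem_flatMap] at hx
      obtain ⟨t, -, hx⟩ := hx
      exact out_lt ha0.1 t x hx
    · rcases h4 with h4 | h4
      · rw [h4]
        exact ha0.2
      · exact h4
    · rw [flat_single, hs, ← h3, List.map_map]
      rfl
  · rintro ⟨t, ⟨u, a, h1, h2, rfl⟩, hA', rfl⟩
    refine ⟨?_, ?_⟩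
    · intro x hx
      rw [flat_single, List.mem_map] at hx
      obtain ⟨b, -, rfl⟩ := hx
      exact Fin.is_lt _
    · rintro ⟨n, hn⟩
      apply hA'.2
      refine la_sound D hD hg h1 h2 a0 n ?_
      have h3 : (u ++ [a]).map (fun t => t.1) =
          (List.range n).map (fun i => (⟨zw X R i, hl i⟩ : Wg m g)) := by
        apply inj_map _ hval
        rw [flat_single] at hn
        rw [List.map_map, List.map_map]
        exact hn
      have h4 := congrArg (List.map (fun V : Wg m g => (V.1 : List (Fin m)))) h3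
      rw [List.map_map, List.map_map] at h4
      exact h4

end Pool.Agent.Lib.GCH
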