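import Pool.Agent.Lib.GCH.ApF
import Pool.Agent.Lib.GCH.LaM

/-!
# Minimal rational cones contain no nonrational language with a chain of prefixes as complement
(MP_f1c4ef_lc)
-/

set_option autoImplicit false

namespace Pool.Agent.Lib.GCH

open Pool.Agent.Lib.F1c4

theorem full {F : Set (Language ℕ)} (hF : IsMinimal F) (S : Finset ℕ) (x : ℕ → ℕ)
    (hx : ∀ i, x i ∈ S) (R : Language ℕ) (hR : R.IsRegular) (L : Language ℕ) (hL : L ∈ F)
    (hLR : ∀ v : List ℕ, (∀ a ∈ v, a ∈ S) → v ∈ R → (v ∈ L ↔ ∀ n : ℕ, v ≠ pre x n))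
    (hi : {n : ℕ | pre x n ∈ R}.Infinite) :
    ∃ N p : ℕ, 0 < p ∧ ∀ n, N ≤ n → x (n + p) = x n := by
  obtain ⟨g, hg⟩ := top hF S x hx R hR L hL hLR hi
  have hm : ∀ a ∈ S, a < S.sup id + 2 := fun a ha =>
    lt_of_le_of_lt (Finset.le_sup (f := id) ha) (by simp)
  have hxm : ∀ i, x i < S.sup id + 2 := fun i => hm _ (hx i)
  obtain ⟨X, hX⟩ : ∃ X : ℕ → Fin (S.sup id + 2), vx X = x :=
    ⟨fun i => ⟨x i, hxm i⟩, rfl⟩
  have hA := TopAux.cx_mem hF.1 hm hx hR hL hLR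
  have ha0 : [S.sup id + 1] ∈ co (S.sup id + 2) (CX x R) := by
    refine ⟨fun a ha => ?_, ?_⟩
    · rw [List.mem_singleton.1 ha]
      omega
    · rintro ⟨-, n, hn⟩
      have h1 : S.sup id + 1 ∈ pre x n := by
        rw [← hn]
        exact List.mem_singleton.2 rfl
      have h2 := TopAux.pre_mem (P := fun a => a ∈ S) hx n _ h1
      have h3 : id (S.sup id + 1) ≤ S.sup id := Finset.le_sup (f := id) h2
      exact absurd h3 (Nat.not_succ_le_self _)
  have hg' : ∀ n : ℕ, ∃ r : ℕ, n < r ∧ r ≤ n + g ∧ pre (vx X) r ∈ R := by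
    intro n
    obtain ⟨r, h1, h2, h3⟩ := hg (n + 1)
    rw [hX]
    exact ⟨r, by omega, by omega, h3⟩
  have hl : ∀ n : ℕ, (zw X R n).length ≤ g := by
    intro n
    rw [zw_len]
    have := (nr_spec hg' n).2.1
    omega
  rw [← hX] at hA ha0
  have h1 := la_mem hF.1 X hR hg' hl ha0 hA
  obtain ⟨N, p, hp, hN⟩ := ap hF _ h1
  refine ⟨N, p, hp, fun n hn => ?_⟩
  have h2 := hN n hn
  have h3 : zw X R (n + p) = zw X R n :=
    congrArg Subtype.val ((Fintype.equivFin (Wg (S.sup id + 2) g)).injective h2)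
  have h4 : ∀ k : ℕ, (zw X R k).head? = some (X k) := by
    intro k
    have h5 := (nr_spec hg' k).1
    obtain ⟨e, he⟩ : ∃ e, nr (vx X) R k - k = e + 1 := ⟨nr (vx X) R k - k - 1, by omega⟩
    unfold zw
    rw [he, List.range_succ_eq_map]
    simp
  have h6 : X (n + p) = X n := by
    have h7 := h4 (n + p)
    rw [h3, h4 n] at h7
    exact (Option.some.inj h7).symm
  rw [← hX]
  show ((X (n + p) : ℕ)) = (X n : ℕ)
  rw [h6]

end Pool.Agent.Lib.GCH
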