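import Pool.Agent.Lib.GCH.Defs
import Pool.Agent.Lib.F1c4.CountW

/-!
# Module GCH.Inp: the input of a path without bad loops is short (MP_f1c4ef_lc)

PROOF. Let `M` bound the lengths of the `T.inp e` (`T.E` is finite), `n = Nat.card T.σ`, `c = M * n + M`. Show, by
induction on `es.length` (strong) or on the length of the output, for all `p, q`: length of the input `≤ M * n * (l + 1) + M * l`,
`l` = length of the output. If all edges of `es` have empty output: all loops `y` inside `es` have
empty output, hence empty input, so `count_le` (weight `fun e => (T.inp e).length`) gives `≤ M * n`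
(`(es.map w).sum` is the length of `es.flatMap T.inp`: `List.length_flatMap`). Otherwise `es = es0 ++ e :: es1` where all
edges of `es0` have empty output and `T.out e ≠ []` (first such edge; e.g. `List.takeWhile`/induction), and the input has
length `≤ M * n + M +` (length of the input of `es1`), the output of `es1` has length `≤ l - 1`; loops inside `es1` or `es0`
are loops inside `es`.
-/

set_option autoImplicit false

namespace Pool.Agent.Lib.GCH

open Pool.Agent.Lib.F1c4

namespace InpAux

/-- the first edge with nonempty output -/
theorem first {E : Type} (f : E → List ℕ) (es : List E) :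
    (∀ e ∈ es, f e = []) ∨ ∃ (es0 : List E) (e : E) (es1 : List E), es = es0 ++ e :: es1 ∧
      (∀ e ∈ es0, f e = []) ∧ f e ≠ [] := by
  induction es with
  | nil =>
    left
    intro e he
    cases he
  | cons e es ih =>
    by_cases h : f e = []
    · rcases ih with h1 | ⟨es0, e', es1, h1, h2, h3⟩
      · left
        intro e' he'
        rcases List.mem_cons.1 he' with h4 | h4
        · rw [h4]
          exact h
        · exact h1 e' h4
      · right
        refine ⟨e :: es0, e', es1, by rw [h1, List.cons_append], ?_, h3⟩
        intro e'' he'
        rcases List.mem_cons.1 he' with h4 | h4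
        · rw [h4]
          exact h
        · exact h2 e'' h4
    · right
      refine ⟨[], e, es, rfl, ?_, h⟩
      intro e' he'
      cases he'

/-- paths without output -/
theorem silent (T : FT) (M : ℕ) (hM : ∀ e, (T.inp e).length ≤ M) (p q : T.σ) (es : List T.E)
    (h : IsPath T.src T.tgt p es q) (h0 : ∀ e ∈ es, T.out e = [])
    (hl : ∀ (x y z : List T.E) (s : T.σ), es = x ++ y ++ z → IsPath T.src T.tgt s y s →
      y.flatMap T.out = [] → y.flatMap T.inp = []) :
    (es.flatMap T.inp).length ≤ M * Nat.card T.σ := by
  have := T.fσ
  rw [List.length_flatMap]
  refine count_le T.src T.tgt (fun e => (T.inp e).length) M hM p q es h ?_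
  intro x y z s he hy
  have h1 : y.flatMap T.out = [] := by
    rw [List.flatMap_eq_nil_iff]
    intro e hey
    apply h0
    rw [he]
    exact List.mem_append_left _ (List.mem_append_right _ hey)
  have h2 := hl x y z s he hy h1
  have h3 := congrArg List.length h2
  rw [List.length_flatMap, List.length_nil] at h3
  exact h3

end InpAux

open InpAux in
theorem inp_len (T : FT) : ∃ c : ℕ, ∀ (p q : T.σ) (es : List T.E),
    IsPath T.src T.tgt p es q →
    (∀ (x y z : List T.E) (s : T.σ), es = x ++ y ++ z → IsPath T.src T.tgt s y s →
      y.flatMap T.out = [] → y.flatMap T.inp = []) →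
    (es.flatMap T.inp).length ≤ c * ((es.flatMap T.out).length + 1) := by
  have f1 := T.fσ
  have f2 := T.fE
  obtain ⟨M, hM⟩ : ∃ M, ∀ e, (T.inp e).length ≤ M := by
    have := Fintype.ofFinite T.E
    exact ⟨Finset.univ.sup fun e => (T.inp e).length, fun e =>
      Finset.le_sup (f := fun e => (T.inp e).length) (Finset.mem_univ e)⟩
  refine ⟨M * Nat.card T.σ + M, fun p q es => ?_⟩
  generalize hn : es.length = n
  induction n using Nat.strong_induction_on generalizing p q es with
  | _ n ih =>
    intro h hl
    rcases first T.out es with h0 | ⟨es0, e, es1, he, h0, hne⟩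
    · have h1 := silent T M hM p q es h h0 hl
      have h2 : M * Nat.card T.σ ≤ (M * Nat.card T.σ + M) * ((es.flatMap T.out).length + 1) :=
        (Nat.le_add_right _ _).trans (Nat.le_mul_of_pos_right _ (Nat.succ_pos _))
      exact h1.trans h2
    · rw [he] at h
      obtain ⟨s, h1, h2⟩ := isPath_append.1 h
      have a1 := silent T M hM p s es0 h1 h0 (by
        intro x y z t h3 h4 h5
        refine hl x y (z ++ e :: es1) t ?_ h4 h5
        rw [he, h3]
        simp only [List.append_assoc])
      have a2 := ih es1.length (by rw [← hn, he, List.length_append, List.length_cons]; omega)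
        (T.tgt e) q es1 rfl h2.2 (by
          intro x y z t h3 h4 h5
          refine hl (es0 ++ e :: x) y z t ?_ h4 h5
          rw [he, h3]
          simp only [List.append_assoc, List.cons_append])
      have a3 := hM e
      have a4 : 0 < (T.out e).length := List.length_pos_iff.2 hne
      rw [he, List.flatMap_append, List.flatMap_cons, List.flatMap_append, List.flatMap_cons,
        List.length_append, List.length_append, List.length_append, List.length_append]
      have a5 : (M * Nat.card T.σ + M) * ((es1.flatMap T.out).length + 1 + 1) ≤
          (M * Nat.card T.σ + M) * ((es0.flatMap T.out).length +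
            ((T.out e).length + (es1.flatMap T.out).length) + 1) :=
        Nat.mul_le_mul_left _ (by omega)
      have a6 : (M * Nat.card T.σ + M) * ((es1.flatMap T.out).length + 1 + 1) =
          (M * Nat.card T.σ + M) * ((es1.flatMap T.out).length + 1) +
            (M * Nat.card T.σ + M) := by ring
      omega

end Pool.Agent.Lib.GCH
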