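import Pool.Agent.Lib.GCH.Defs
import Pool.Agent.Lib.F1c4.Path

/-!
# Module GCH.Res: pumping outside the image of a finite transducer (MP_f1c4ef_lc)

PROOF. Let `Sfx` be the set of the words `s` which are `[]` or a suffix of some `T.out e`; it is finite (`T.fE`; cf.
`BCC.HomRegAux.suf_finite`). Let `X = T.σ × Sfx`, `c = Nat.card X` (a `Fintype` from `Finite`). For a word `α` let
`Cf α : Set (T.σ × Sfx × Fin r) = {(q, s, t) | ∃ p ∈ T.ini, ∃ es, IsPath T.src T.tgt p es q ∧ es.flatMap T.out = α ++ s ∧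
κ (es.flatMap T.inp) = t}`. There are `2 ^ (c * r)` such sets.
SPLIT (cf. `BCC.HomRegAux.split`). If `es.flatMap T.out = α ++ γ` then `es = es1 ++ es2`, `es1.flatMap T.out = α ++ s`,
`γ = s ++ es2.flatMap T.out` for some `s ∈ Sfx`. Induction on `es`: `es = []`: `α = []`, `s = []`. `es = e :: es'`:
`T.out e ++ _ = α ++ γ`, `List.append_eq_append_iff`: either `α = T.out e ++ α'` and the induction hypothesis for `es'`, or
`T.out e = α ++ s` and `es1 = [e]`.
CLAIM. If `Cf α = Cf α'` and `α ++ γ ∈ T.img B` then `α' ++ γ ∈ T.img B`: take the path `es`, split it; `(q, s, κ (inp es1)) ∈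
Cf α = Cf α'`, where `q` is the state after `es1` (`isPath_append`): there is a path `es1'` from an initial state to `q` with
output `α' ++ s` and `κ (inp es1') = κ (inp es1)`; then `es1' ++ es2` has the output `α' ++ γ` and its input
`inp es1' ++ inp es2` is in `B` by the hypothesis on `κ`.
END. `z ∉ T.img B`, `2 ^ (c * r) ≤ z.length`: the map `i ↦ Cf (z.take i)` on `Fin (z.length + 1)` is not injective
(`Fintype.exists_ne_map_eq_of_card_lt`, `Fintype.card_set`), so `i < j ≤ z.length` with `Cf (z.take i) = Cf (z.take j)`; let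
`x = z.take i`, `x ++ y = z.take j`, `t = z.drop j`. By the claim, for every `δ`: `x ++ δ ∈ T.img B ↔ x ++ y ++ δ ∈ T.img B`.
Induction on `k` (with `δ = y^k t`): `x ++ y^k ++ t ∉ T.img B`; `k = 0` from `z = x ++ y ++ t ∉ T.img B`.
-/

set_option autoImplicit false

namespace Pool.Agent.Lib.GCH

open Pool.Agent.Lib.F1c4

namespace ResAux

/-- the suffixes of the outputs of the edges -/
def Sfx (T : FT) : Set (List ℕ) := {l | l = [] ∨ ∃ e, l <:+ T.out e}

theorem sfx_finite (T : FT) : (Sfx T).Finite := by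
  have := T.fE
  have h1 : Sfx T ⊆ {[]} ∪ ⋃ e, {l | l ∈ (T.out e).tails} := by
    intro l hl
    rcases hl with hl | ⟨e, hl⟩
    · exact Or.inl hl
    · right
      simp only [Set.mem_iUnion]
      exact ⟨e, (List.mem_tails _ _).2 hl⟩
  refine Set.Finite.subset ?_ h1
  refine Set.Finite.union (Set.finite_singleton _) ?_
  exact Set.finite_iUnion fun e => List.finite_toSet _

theorem split (T : FT) (es : List T.E) : ∀ α γ : List ℕ, es.flatMap T.out = α ++ γ →
    ∃ (es1 es2 : List T.E) (s : List ℕ), es = es1 ++ es2 ∧ es1.flatMap T.out = α ++ s ∧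
      γ = s ++ es2.flatMap T.out ∧ s ∈ Sfx T := by
  induction es with
  | nil =>
    intro α γ h1
    rw [List.flatMap_nil] at h1
    have h2 := List.append_eq_nil_iff.1 h1.symm
    exact ⟨[], [], [], rfl, by simp [h2.1], by simp [h2.2], Or.inl rfl⟩
  | cons e es ih =>
    intro α γ h1
    rw [List.flatMap_cons, List.append_eq_append_iff] at h1
    rcases h1 with ⟨α', h2, h3⟩ | ⟨s, h2, h3⟩
    · obtain ⟨es1, es2, s, e1, e2, e3, e4⟩ := ih α' γ h3
      refine ⟨e :: es1, es2, s, by rw [e1, List.cons_append], ?_, e3, e4⟩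
      rw [List.flatMap_cons, e2, h2, List.append_assoc]
    · refine ⟨[e], es, s, rfl, by simp [h2], h3, Or.inr ⟨e, ?_⟩⟩
      exact ⟨α, h2.symm⟩

/-- the situations after the output `α` -/
def Cf (T : FT) {r : ℕ} (κ : List ℕ → Fin r) (α : List ℕ) : Set (T.σ × Sfx T × Fin r) :=
  {x | ∃ p ∈ T.ini, ∃ es : List T.E, IsPath T.src T.tgt p es x.1 ∧
    es.flatMap T.out = α ++ x.2.1.1 ∧ κ (es.flatMap T.inp) = x.2.2}

theorem claim (T : FT) (B : Language ℕ) {r : ℕ} (κ : List ℕ → Fin r)
    (hκ : ∀ v v' : List ℕ, κ v = κ v' → ∀ s : List ℕ, v ++ s ∈ B → v' ++ s ∈ B)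
    {α α' γ : List ℕ} (hC : Cf T κ α = Cf T κ α') (h : α ++ γ ∈ T.img B) :
    α' ++ γ ∈ T.img B := by
  obtain ⟨p, hp, q, hq, es, h1, h2, h3⟩ := h
  obtain ⟨es1, es2, s, e1, e2, e3, e4⟩ := split T es α γ h3
  rw [e1] at h1
  obtain ⟨t, h4, h5⟩ := isPath_append.1 h1
  have hm : ((t, ⟨s, e4⟩, κ (es1.flatMap T.inp)) : T.σ × Sfx T × Fin r) ∈ Cf T κ α :=
    ⟨p, hp, es1, h4, e2, rfl⟩
  rw [hC] at hm
  obtain ⟨p', hp', es', h6, h7, h8⟩ := hm
  refine ⟨p', hp', q, hq, es' ++ es2, isPath_append.2 ⟨t, h6, h5⟩, ?_, ?_⟩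
  · rw [List.flatMap_append]
    refine hκ (es1.flatMap T.inp) _ h8.symm _ ?_
    rw [← List.flatMap_append, ← e1]
    exact h2
  · rw [List.flatMap_append, h7, e3, List.append_assoc]

end ResAux

open ResAux in
theorem res (T : FT) : ∃ c : ℕ, ∀ (B : Language ℕ) (r : ℕ) (κ : List ℕ → Fin r),
    (∀ v v' : List ℕ, κ v = κ v' → ∀ s : List ℕ, v ++ s ∈ B → v' ++ s ∈ B) →
    ∀ z : List ℕ, z ∉ T.img B → 2 ^ (c * r) ≤ z.length →
    ∃ x y t : List ℕ, y ≠ [] ∧ z = x ++ y ++ t ∧
      ∀ k : ℕ, x ++ (List.replicate k y).flatten ++ t ∉ T.img B := by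
  classical
  have f1 := T.fσ
  have f2 : Finite (Sfx T) := (sfx_finite T).to_subtype
  have F1 : Fintype T.σ := Fintype.ofFinite _
  have F2 : Fintype (Sfx T) := Fintype.ofFinite _
  refine ⟨Fintype.card T.σ * Fintype.card (Sfx T), fun B r κ hκ z hz hlen => ?_⟩
  have hcard : Fintype.card (Set (T.σ × Sfx T × Fin r)) < Fintype.card (Fin (z.length + 1)) := by
    rw [Fintype.card_set, Fintype.card_prod, Fintype.card_prod, Fintype.card_fin, Fintype.card_fin,
      ← mul_assoc]
    exact Nat.lt_succ_of_le hlen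
  obtain ⟨i, j, hij, hC⟩ := Fintype.exists_ne_map_eq_of_card_lt
    (fun i : Fin (z.length + 1) => Cf T κ (z.take i)) hcard
  have key : ∀ i j : Fin (z.length + 1), i < j → Cf T κ (z.take i) = Cf T κ (z.take j) →
      ∃ x y t : List ℕ, y ≠ [] ∧ z = x ++ y ++ t ∧
        ∀ k : ℕ, x ++ (List.replicate k y).flatten ++ t ∉ T.img B := by
    intro i j hij hC
    have hij' : i.val < j.val := hij
    have hj : j.val ≤ z.length := Nat.lt_succ_iff.1 j.isLt
    have e1 : z.take j = z.take i ++ (z.take j).drop i := by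
      have h := (List.take_append_drop i.val (z.take j.val)).symm
      rw [List.take_take, min_eq_left hij'.le] at h
      exact h
    refine ⟨z.take i, (z.take j).drop i, z.drop j, ?_, ?_, ?_⟩
    · intro h
      have h2 := congrArg List.length h
      rw [List.length_drop, List.length_take, List.length_nil, min_eq_left hj] at h2
      omega
    · rw [← e1, List.take_append_drop]
    · intro k
      induction k with
      | zero =>
        rw [List.replicate_zero, List.flatten_nil, List.append_nil]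
        intro h
        have h2 := claim T B κ hκ hC h
        rw [List.take_append_drop] at h2
        exact hz h2
      | succ k ih =>
        intro h
        apply ih
        rw [List.replicate_succ, List.flatten_cons, ← List.append_assoc, ← e1,
          List.append_assoc] at h
        rw [List.append_assoc]
        exact claim T B κ hκ hC.symm h
  rcases lt_or_gt_of_ne hij with h | h
  · exact key i j h hC
  · exact key j i h hC.symm

end Pool.Agent.Lib.GCH
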