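import Pool.Agent.Lib.GCH.ChainB
import Pool.Agent.Lib.GCH.Res
import Pool.Agent.Lib.GCH.Inp

/-!
# Module GCH.Gap: transductions between two chains (MP_f1c4ef_lc)

PROOF. `c1` from `res T`, `c2` from `inp_len T`, `c = max c1 c2` (or `c1 + c2`). Let `J`, `i` be given with
`2 ^ (c * (l + 3)) ≤ (U w b i).length`, `l = (U g d J).length`, `z = U g d J`, `u = U w b i`.
`B = {v | (∀ a ∈ v, a < m') ∧ ∀ j ≤ J, v ≠ U g d j}`. `κ v : Fin (l + 3)` := `l + 2` if not all letters of `v` are `< m'`;
otherwise `v.length` if `v <+: z` (then `≤ l`), otherwise `l + 1`. If `κ v = κ v'`, `v ++ s ∈ B`, then `v' ++ s ∈ B`: not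
all letters of `v` `< m'`: impossible. `v, v'` prefixes of `z` of the same length: `v = v'`. Both in the letters `< m'` and
not prefixes of `z`: then `v' ++ s` is not a prefix of `z`, and all `U g d j`, `j ≤ J`, are (`U_add`), the letters of
`s` are `< m'`.
(1) `u ∈ T.img B`. Otherwise (`2 ^ (c1 * (l + 3)) ≤ 2 ^ (c * (l + 3))`) `res` gives `x, y ≠ [], t` with `u = x ++ y ++ t`,
`x ++ y^k ++ t ∉ T.img B` for all `k`. As `co m' (CC g d) ≤ B`, `T.img (co m' (CC g d)) ≤ T.img B`, so `x ++ y^k ++ t ∉ co m (CC w b)`;
its letters are letters of `u`, so `< m` (`U_lt h`); so it is in `CC w b` for all `k`: contradiction with `no_pump h`.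
(2) So there are `p ∈ T.ini`, `q ∈ T.fin`, a path `es` with output `u` and input `v ∈ B`. `v ∈ CC g d`: otherwise
`v ∈ co m' (CC g d)`, `u ∈ T.img .. = co m (CC w b)`, but `u ∈ CC w b`. So `v = U g d j`, `j > J`, length at least that of
`U g d (J + 1)` (`U_mono`).
(3) Loops: `es = x ++ y ++ z`, `y` a loop at `s` with empty output and input `y' ≠ []` (inputs `x', y', z'`): for all `k` the path
`x ++ y^k ++ z` (`IsPath.of_loop`, `y ≠ []`, `IsPath.loop_pow`, `IsPath.trans`) from `p` to `q` has output `u`, so as in (2) its input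
`x' ++ y'^k ++ z'` (letters `< m'`: they are letters of `v`) is in `CC g d`: contradiction with `no_pump hg`. So `inp_len`
applies: the length of `v` is at most `c2 * (u.length + 1)`.
-/

set_option autoImplicit false

namespace Pool.Agent.Lib.GCH

open Pool.Agent.Lib.F1c4

namespace GapAux

theorem rep_mem {y : List ℕ} {k a : ℕ} (h : a ∈ (List.replicate k y).flatten) : a ∈ y := by
  obtain ⟨l, hl, hal⟩ := List.mem_flatten.1 h
  rwa [List.eq_of_mem_replicate hl] at hal

theorem flat_rep {E : Type} (f : E → List ℕ) (y : List E) (k : ℕ) :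
    (List.replicate k y).flatten.flatMap f = (List.replicate k (y.flatMap f)).flatten := by
  induction k with
  | zero => rfl
  | succ k ih => rw [List.replicate_succ, List.flatten_cons, List.flatMap_append, ih,
      List.replicate_succ, List.flatten_cons]

theorem flat_nil (k : ℕ) : (List.replicate k ([] : List ℕ)).flatten = [] := by
  induction k with
  | zero => rfl
  | succ k ih => rw [List.replicate_succ, List.flatten_cons, ih]; rfl

/-- the words in the letters `< m'` different from the first words `U g d j` -/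
def B (m' d : ℕ) (g : ℕ → List ℕ) (J : ℕ) : Language ℕ :=
  {v : List ℕ | (∀ a ∈ v, a < m') ∧ ∀ j ≤ J, v ≠ U g d j}

open Classical in
noncomputable def kap (m' : ℕ) (z : List ℕ) (v : List ℕ) : Fin (z.length + 3) :=
  if ∀ a ∈ v, a < m' then
    (if h : v <+: z then ⟨v.length, by have := h.length_le; omega⟩ else ⟨z.length + 1, by omega⟩)
  else ⟨z.length + 2, by omega⟩

theorem kap1 {m' : ℕ} {z v : List ℕ} (h : ∀ a ∈ v, a < m') (hp : v <+: z) :
    (kap m' z v).val = v.length := by
  unfold kap; rw [if_pos h, dif_pos hp]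

theorem kap2 {m' : ℕ} {z v : List ℕ} (h : ∀ a ∈ v, a < m') (hp : ¬ v <+: z) :
    (kap m' z v).val = z.length + 1 := by
  unfold kap; rw [if_pos h, dif_neg hp]

theorem kap3 {m' : ℕ} {z v : List ℕ} (h : ¬ ∀ a ∈ v, a < m') :
    (kap m' z v).val = z.length + 2 := by
  unfold kap; rw [if_neg h]

theorem kap_ok {m' d : ℕ} {g : ℕ → List ℕ} {J : ℕ} (v v' : List ℕ)
    (h : kap m' (U g d J) v = kap m' (U g d J) v') (s : List ℕ) (hs : v ++ s ∈ B m' d g J) :
    v' ++ s ∈ B m' d g J := by
  obtain ⟨h1, h2⟩ := hs
  have hv : ∀ a ∈ v, a < m' := fun a ha => h1 a (List.mem_append_left _ ha)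
  have hs : ∀ a ∈ s, a < m' := fun a ha => h1 a (List.mem_append_right _ ha)
  have hval := congrArg Fin.val h
  by_cases hv' : ∀ a ∈ v', a < m'
  · by_cases hp : v <+: U g d J
    · have hl := hp.length_le
      rw [kap1 hv hp] at hval
      by_cases hp' : v' <+: U g d J
      · rw [kap1 hv' hp'] at hval
        have e2 : v = v' := by
          rw [List.prefix_iff_eq_take] at hp hp'
          rw [hp, hp', hval]
        rw [← e2]; exact ⟨h1, h2⟩
      · exfalso
        rw [kap2 hv' hp'] at hval
        omega
    · rw [kap2 hv hp] at hval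
      by_cases hp' : v' <+: U g d J
      · exfalso
        have hl := hp'.length_le
        rw [kap1 hv' hp'] at hval
        omega
      · refine ⟨?_, ?_⟩
        · intro a ha
          rcases List.mem_append.1 ha with ha | ha
          · exact hv' a ha
          · exact hs a ha
        · intro j hj he
          apply hp'
          have e : U g d J = U g d j ++ seg g d j (J - j) := by
            rw [← U_add]; congr 1; omega
          rw [e, ← he, List.append_assoc]
          exact List.prefix_append _ _
  · exfalso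
    rw [kap3 hv'] at hval
    by_cases hp : v <+: U g d J
    · have hl := hp.length_le
      rw [kap1 hv hp] at hval
      omega
    · rw [kap2 hv hp] at hval
      omega

end GapAux

theorem gap {m b : ℕ} {w : ℕ → List ℕ} (h : Ch m b w) {m' d : ℕ} {g : ℕ → List ℕ}
    (hg : Ch m' d g) (T : FT) (hT : co m (CC w b) = T.img (co m' (CC g d))) :
    ∃ c : ℕ, ∀ J i : ℕ, 2 ^ (c * ((U g d J).length + 3)) ≤ (U w b i).length →
      (U g d (J + 1)).length ≤ c * ((U w b i).length + 1) := by
  obtain ⟨c1, hc1⟩ := res T
  obtain ⟨c2, hc2⟩ := inp_len T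
  refine ⟨c1 + c2, ?_⟩
  intro J i hJ
  have hCB : ∀ v, v ∈ co m' (CC g d) → v ∈ GapAux.B m' d g J := by
    intro v hv
    exact ⟨hv.1, fun j _ he => hv.2 ⟨j, he⟩⟩
  -- step 1
  have h1 : U w b i ∈ T.img (GapAux.B m' d g J) := by
    by_contra hn
    have hlen : 2 ^ (c1 * ((U g d J).length + 3)) ≤ (U w b i).length := by
      refine le_trans ?_ hJ
      apply Nat.pow_le_pow_right (by norm_num)
      apply Nat.mul_le_mul_right
      omega
    obtain ⟨x, y, t, hy, hu, hk⟩ := hc1 (GapAux.B m' d g J) _ (GapAux.kap m' (U g d J))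
      (fun v v' he s hs => GapAux.kap_ok v v' he s hs) (U w b i) hn hlen
    apply no_pump h x y t hy
    intro k
    by_contra hnc
    apply hk k
    have hmem : x ++ (List.replicate k y).flatten ++ t ∈ co m (CC w b) := by
      refine ⟨?_, hnc⟩
      intro a ha
      apply U_lt h i
      rw [hu]
      rcases List.mem_append.1 ha with ha | ha
      · rcases List.mem_append.1 ha with ha | ha
        · exact List.mem_append_left _ (List.mem_append_left _ ha)
        · exact List.mem_append_left _ (List.mem_append_right _ (GapAux.rep_mem ha))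
      · exact List.mem_append_right _ ha
    rw [hT] at hmem
    obtain ⟨p, hp, q, hq, es, hes, hin, hout⟩ := hmem
    exact ⟨p, hp, q, hq, es, hes, hCB _ hin, hout⟩
  -- step 2
  have key : ∀ (p : T.σ) (_ : p ∈ T.ini) (q : T.σ) (_ : q ∈ T.fin) (es : List T.E),
      IsPath T.src T.tgt p es q → (∀ a ∈ es.flatMap T.inp, a < m') →
      es.flatMap T.out = U w b i → es.flatMap T.inp ∈ CC g d := by
    intro p hp q hq es hes hlt hout
    by_contra hn
    have : U w b i ∈ co m (CC w b) := by
      rw [hT]
      exact ⟨p, hp, q, hq, es, hes, ⟨hlt, hn⟩, hout⟩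
    exact this.2 ⟨i, rfl⟩
  obtain ⟨p, hp, q, hq, es, hes, hin, hout⟩ := h1
  obtain ⟨j, hj⟩ := key p hp q hq es hes hin.1 hout
  have hjJ : J + 1 ≤ j := by
    by_contra hlt
    exact hin.2 j (by omega) hj
  have hlen1 : (U g d (J + 1)).length ≤ (es.flatMap T.inp).length := by
    rw [hj]
    have := U_mono g d hjJ
    omega
  -- step 3
  have h3 := hc2 p q es hes (by
    intro x y z s he hy hyo
    by_contra hyi
    have hyne : y ≠ [] := by
      rintro rfl
      exact hyi rfl
    have hes' := hes
    rw [he] at hes'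
    obtain ⟨hx, hz⟩ := hes'.of_loop hy hyne
    apply no_pump hg (x.flatMap T.inp) (y.flatMap T.inp) (z.flatMap T.inp) hyi
    intro k
    have hpath : IsPath T.src T.tgt p (x ++ (List.replicate k y).flatten ++ z) q :=
      (hx.trans (hy.loop_pow k)).trans hz
    have hi : (x ++ (List.replicate k y).flatten ++ z).flatMap T.inp =
        x.flatMap T.inp ++ (List.replicate k (y.flatMap T.inp)).flatten ++ z.flatMap T.inp := by
      rw [List.flatMap_append, List.flatMap_append, GapAux.flat_rep]
    have hv : es.flatMap T.inp = x.flatMap T.inp ++ y.flatMap T.inp ++ z.flatMap T.inp := by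
      rw [he, List.flatMap_append, List.flatMap_append]
    rw [← hi]
    apply key p hp q hq _ hpath
    · intro a ha
      apply hin.1
      rw [hv]
      rw [hi] at ha
      rcases List.mem_append.1 ha with ha | ha
      · rcases List.mem_append.1 ha with ha | ha
        · exact List.mem_append_left _ (List.mem_append_left _ ha)
        · exact List.mem_append_left _ (List.mem_append_right _ (GapAux.rep_mem ha))
      · exact List.mem_append_right _ ha
    · rw [← hout, he]
      simp only [List.flatMap_append, GapAux.flat_rep, hyo, GapAux.flat_nil])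
  rw [hout] at h3
  refine hlen1.trans (h3.trans ?_)
  apply Nat.mul_le_mul_right
  omega

end Pool.Agent.Lib.GCH
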