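import Pool.Agent.Lib.GCH.StepF

/-!
# Module GCH.Grow: growth of the lengths (MP_f1c4ef_lc)

PROOFS. `G_two`: `G_len`, `cc_two`: `2 ^ k ≤ 2 ^ (k + 1) + 1`. `U_two`: `2 * k ≤ L k` where `L k` is the length of
`U (G w b m) (2 * m) k`: `G_len`, `cc_two` give blocks of length `≥ 3`; induction.
`exp1`: with `L k` as above, `hw : 2 ^ i ≤ (w i).length`: `L (k + 1) = L k + (G w b m k).length + 1`, and `G w b m k` contains
the word `w (NN w b (k + 1) - 1)` (`G_last`), so its length is at least `2 ^ (NN w b (k + 1) - 1)`; `NN_len`: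
`NN w b (k + 1) + k = L k + 2`, so `NN w b (k + 1) - 1 = L k + 1 - k ≥ L k / 2` as `k ≤ L k / 2`.
`grow`: `g = G w b m`, `d = 2 * m`, `hg = G_Ch h`, `g' = G g d (2 * m + 1)`, `d' = 2 * (2 * m + 1)`, `N k = NN g d k`,
`L k` = length of `U g d k`. The length of `U g' d' J` is `L (N J) + J` (`GU_len`). Let `J ≥ 1` be large,
`i = N J + 2`, `x = L (N J)`; `J ≤ N J ≤ x` (`NN_ge`, `U_len`/`U_two`). `exp1`: `2 ^ (x / 2) ≤ L (N J + 1)` and
`2 ^ (L (N J + 1) / 2) ≤ L (N J + 2)`. So `2 ^ (2 ^ (x / 2) / 2) ≤ L i`, and `c * (x + J + 3) ≤ c * (2 * x + 3) ≤ 2 ^ (x / 2) / 2` for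
large `x`. Second: `N J + 3 ≤ N (J + 1)` (`NN_gap` for `J = J' + 1`), so the length of `U g' d' (J + 1)` is at least
`L (N (J + 1)) ≥ L (i + 1) ≥ 2 ^ (y / 2)`, `y = L i ≥ J`, and `2 ^ (y / 2) > c * (y + 1)` for large `y`.
`large`: e.g. from `Nat.lt_pow_self` (`n < 2 ^ n`): `x / 2 = n`, or with `tendsto_pow_const_div_const_pow_of_one_lt`; an elementary
way: `n ^ 2 ≤ 2 ^ n` for `n ≥ 4`.
-/

set_option autoImplicit false

namespace Pool.Agent.Lib.GCH

theorem GrowAux.sq_le (n : ℕ) (hn : 4 ≤ n) : n ^ 2 ≤ 2 ^ n := by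
  induction n, hn using Nat.le_induction with
  | base => norm_num
  | succ k hk ih =>
    rw [pow_succ 2 k]
    nlinarith

theorem large (c : ℕ) : ∃ x0 : ℕ, ∀ x : ℕ, x0 ≤ x → c * (2 * x + 3) ≤ 2 ^ (x / 2) / 2 ∧
    c * (x + 1) < 2 ^ (x / 2) := by
  refine ⟨2 * (8 * c + 10), fun x hx => ?_⟩
  obtain ⟨n, hn⟩ : ∃ n, n = x / 2 := ⟨_, rfl⟩
  rw [← hn]
  have h1 : x ≤ 2 * n + 1 := by omega
  have h2 : 8 * c + 10 ≤ n := by omega
  have h3 : n ^ 2 ≤ 2 ^ n := GrowAux.sq_le n (by omega)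
  have h4 : (8 * c + 10) * n ≤ n ^ 2 := by
    rw [pow_two]
    exact Nat.mul_le_mul_right n h2
  constructor
  · rw [Nat.le_div_iff_mul_le (by norm_num)]
    have h5 : c * (2 * x + 3) * 2 ≤ c * (2 * (2 * n + 1) + 3) * 2 :=
      Nat.mul_le_mul_right 2 (Nat.mul_le_mul_left c (by omega))
    have h6 : c * (2 * (2 * n + 1) + 3) * 2 ≤ (8 * c + 10) * n := by nlinarith
    exact h5.trans (h6.trans (h4.trans h3))
  · have h5 : c * (x + 1) ≤ c * (2 * n + 1 + 1) := Nat.mul_le_mul_left c (by omega)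
    have h6 : c * (2 * n + 1 + 1) < (8 * c + 10) * n := by nlinarith
    exact lt_of_le_of_lt h5 (lt_of_lt_of_le h6 (h4.trans h3))

theorem G_two {m b : ℕ} {w : ℕ → List ℕ} (h : Ch m b w) (k : ℕ) :
    2 ^ k ≤ (G w b m k).length := by
  rw [G_len]
  have h1 := cc_two h (k + 1)
  have h2 : 2 ^ k ≤ 2 ^ (k + 1) := Nat.pow_le_pow_right (by norm_num) (by omega)
  omega

theorem GrowAux.U_succ_len (g : ℕ → List ℕ) (d k : ℕ) :
    (U g d (k + 1)).length = (U g d k).length + (g k).length + 1 := by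
  simp [U]
  omega

theorem U_two {m b : ℕ} {w : ℕ → List ℕ} (h : Ch m b w) (k : ℕ) :
    2 * k ≤ (U (G w b m) (2 * m) k).length := by
  induction k with
  | zero => simp
  | succ k ih =>
    rw [GrowAux.U_succ_len, G_len]
    have h1 := cc_two h (k + 1)
    have h2 : 1 ≤ 2 ^ (k + 1) := Nat.one_le_two_pow
    omega

theorem exp1 {m b : ℕ} {w : ℕ → List ℕ} (h : Ch m b w) (hw : ∀ i, 2 ^ i ≤ (w i).length) (k : ℕ) :
    2 ^ ((U (G w b m) (2 * m) k).length / 2) ≤ (U (G w b m) (2 * m) (k + 1)).length := by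
  rw [GrowAux.U_succ_len]
  obtain ⟨cs, a, h1, h2, h3, h4⟩ := G_last h k
  have h5 := congrArg List.length h4
  simp only [List.length_append] at h5
  have h6 := hw (NN w b (k + 1) - 1)
  have h7 := NN_len w b m k
  have h8 := U_two h k
  have h9 : 2 ^ ((U (G w b m) (2 * m) k).length / 2) ≤ 2 ^ (NN w b (k + 1) - 1) :=
    Nat.pow_le_pow_right (by norm_num) (by omega)
  omega

theorem grow {m b : ℕ} {w : ℕ → List ℕ} (h : Ch m b w) (hw : ∀ i, 2 ^ i ≤ (w i).length) (c : ℕ) :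
    ∃ J i : ℕ,
      2 ^ (c * ((U (G (G w b m) (2 * m) (2 * m + 1)) (2 * (2 * m + 1)) J).length + 3)) ≤
        (U (G w b m) (2 * m) i).length ∧
      c * ((U (G w b m) (2 * m) i).length + 1) <
        (U (G (G w b m) (2 * m) (2 * m + 1)) (2 * (2 * m + 1)) (J + 1)).length := by
  obtain ⟨x0, hx0⟩ := large c
  have hg := G_Ch h
  obtain ⟨J, hJ⟩ : ∃ J, J = x0 + 1 := ⟨_, rfl⟩
  refine ⟨J, NN (G w b m) (2 * m) J + 2, ?_, ?_⟩
  · rw [GU_len (G w b m) (2 * m) (2 * m + 1) J]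
    have h1 := NN_ge hg J
    have h2 := U_two h (NN (G w b m) (2 * m) J)
    have h3 := exp1 h hw (NN (G w b m) (2 * m) J)
    have h4 := exp1 h hw (NN (G w b m) (2 * m) J + 1)
    refine le_trans (Nat.pow_le_pow_right (by norm_num) ?_) h4
    have h5 := (hx0 (U (G w b m) (2 * m) (NN (G w b m) (2 * m) J)).length (by omega)).1
    have h6 : c * ((U (G w b m) (2 * m) (NN (G w b m) (2 * m) J)).length + J + 3) ≤
        c * (2 * (U (G w b m) (2 * m) (NN (G w b m) (2 * m) J)).length + 3) :=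
      Nat.mul_le_mul_left c (by omega)
    exact h6.trans (h5.trans (Nat.div_le_div_right h3))
  · rw [GU_len (G w b m) (2 * m) (2 * m + 1) (J + 1)]
    have h1 := NN_ge hg J
    have h2 := U_two h (NN (G w b m) (2 * m) J + 2)
    have h3 := exp1 h hw (NN (G w b m) (2 * m) J + 2)
    have h4 : NN (G w b m) (2 * m) J + 3 ≤ NN (G w b m) (2 * m) (J + 1) := by
      rw [hJ]
      exact NN_gap hg x0
    have h5 := U_mono (G w b m) (2 * m) h4
    have h6 := (hx0 (U (G w b m) (2 * m) (NN (G w b m) (2 * m) J + 2)).length (by omega)).2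
    have h7 : NN (G w b m) (2 * m) J + 2 + 1 = NN (G w b m) (2 * m) J + 3 := rfl
    rw [h7] at h3
    omega

end Pool.Agent.Lib.GCH
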