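import Pool.Agent.Lib.GCH.Zer

/-!
# Module GCH.InsA: cutting an infinite word at the prefixes in R (MP_f1c4ef_lc)

PROOFS. `pre_len`, `fac_len`: `List.length_map`, `List.length_range`. `pre_fac`: `List.range_add`-like: for `i ≤ j`
`List.range j = List.range i ++ (List.range (j - i)).map (i + ·)`. `pre_take`: `i ≤ j`. `pre_inj`: lengths.
`cut_lt`: `k = 0`: `Nat.nth_mem_of_infinite` gives `PP`, so `1 ≤ `; `k + 1`: `Nat.nth_strictMono hi`. `cut_mem`: `Nat.nth_mem_of_infinite`.
`cut_gap`: `k = 0`: `n < Nat.nth P 0` implies `¬ P n` (`Nat.lt_nth_iff_count_lt` or `Nat.nth_count`: if `P n` then `n = nth (count n)`);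
`k + 1`: between `nth k` and `nth (k + 1)` there is no `n` with `P n` (`Nat.lt_nth_iff_count_lt`, `Nat.count_nth`..., or: `P n` gives
`n = Nat.nth P (Nat.count P n)` and strict monotonicity). `PP` needs `Classical.decPred` for `Nat.count`.
`bl_ne`: `cut_lt`, `fac_len`. `bl_Ch0`: letters `x j < m`. `U_er`: induction on `k`: `er m` is the identity on letters
`< m` and erases `m`, `pre_fac`. `bl_unb`: given `n`, take `N` from the hypothesis for `g = n + 1`, so that no `j` with
`N ≤ j < N + n + 1` has `pre x j ∈ R`; let `k` be the least with `N ≤ cut (k + 1)` (`cut` is unbounded, strictly increasing); then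
`cut k < N` or `k = 0` (`cut 0 = 0 ≤ N`), and `cut (k + 1) ≥ N + n + 1` by `cut_mem`, so the block `k` has length `> n`.
-/

set_option autoImplicit false

namespace Pool.Agent.Lib.GCH

namespace InsAAux

theorem mem_fac {x : ℕ → ℕ} {i j a : ℕ} (h : a ∈ fac x i j) : ∃ k, x k = a := by
  unfold fac at h
  rw [List.mem_map] at h
  obtain ⟨k, -, hk⟩ := h
  exact ⟨i + k, hk⟩

theorem cut_zero (x : ℕ → ℕ) (R : Language ℕ) : cut x R 0 = 0 := rfl

theorem cut_succ (x : ℕ → ℕ) (R : Language ℕ) (k : ℕ) : cut x R (k + 1) = Nat.nth (PP x R) k := rfl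

end InsAAux

open InsAAux

theorem pre_len (x : ℕ → ℕ) (n : ℕ) : (pre x n).length = n := by
  unfold pre
  rw [List.length_map, List.length_range]

theorem fac_len (x : ℕ → ℕ) (i j : ℕ) : (fac x i j).length = j - i := by
  unfold fac
  rw [List.length_map, List.length_range]

theorem pre_fac (x : ℕ → ℕ) {i j : ℕ} (h : i ≤ j) : pre x j = pre x i ++ fac x i j := by
  obtain ⟨d, rfl⟩ := Nat.exists_eq_add_of_le h
  unfold pre fac
  rw [List.range_add, List.map_append, List.map_map, Nat.add_sub_cancel_left]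
  rfl

theorem pre_succ (x : ℕ → ℕ) (n : ℕ) : pre x (n + 1) = pre x n ++ [x n] := by
  unfold pre
  rw [List.range_succ, List.map_append]
  rfl

theorem pre_of_append {x : ℕ → ℕ} {n : ℕ} {u v : List ℕ} (h : pre x n = u ++ v) :
    u.length ≤ n ∧ u = pre x u.length ∧ v = fac x u.length n := by
  have h1 : n = u.length + v.length := by
    have := congrArg List.length h
    rw [pre_len, List.length_append] at this
    exact this
  have h2 : u.length ≤ n := by omega
  have h3 := pre_fac x h2
  rw [h] at h3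
  have h4 := List.append_inj h3 (by rw [pre_len])
  exact ⟨h2, h4.1, h4.2⟩

theorem cut_mem {x : ℕ → ℕ} {R : Language ℕ} (hi : {n | PP x R n}.Infinite) (k : ℕ) :
    PP x R (cut x R (k + 1)) := by
  rw [cut_succ]
  exact Nat.nth_mem_of_infinite hi k

theorem cut_lt {x : ℕ → ℕ} {R : Language ℕ} (hi : {n | PP x R n}.Infinite) (k : ℕ) :
    cut x R k < cut x R (k + 1) := by
  cases k with
  | zero =>
    rw [cut_zero]
    exact (cut_mem hi 0).1
  | succ k =>
    rw [cut_succ, cut_succ]
    exact Nat.nth_strictMono hi (Nat.lt_succ_self k)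

theorem cut_gap {x : ℕ → ℕ} {R : Language ℕ} (hi : {n | PP x R n}.Infinite) {k n : ℕ}
    (h1 : cut x R k < n) (h2 : n < cut x R (k + 1)) : ¬ PP x R n := by
  intro hn
  obtain ⟨j, -, rfl⟩ := Nat.exists_lt_card_nth_eq hn
  rw [cut_succ] at h2
  have h3 : j < k := (Nat.nth_strictMono hi).lt_iff_lt.mp h2
  cases k with
  | zero => exact absurd h3 (Nat.not_lt_zero _)
  | succ k =>
    rw [cut_succ] at h1
    have h4 : k < j := (Nat.nth_strictMono hi).lt_iff_lt.mp h1
    omega

theorem bl_len (x : ℕ → ℕ) (R : Language ℕ) (k : ℕ) :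
    (bl x R k).length = cut x R (k + 1) - cut x R k := by
  unfold bl
  rw [fac_len]

theorem bl_ne {x : ℕ → ℕ} {R : Language ℕ} (hi : {n | PP x R n}.Infinite) (k : ℕ) :
    bl x R k ≠ [] := by
  intro h
  have h1 := bl_len x R k
  rw [h, List.length_nil] at h1
  have := cut_lt hi k
  omega

theorem bl_Ch0 {x : ℕ → ℕ} {m : ℕ} (hx : ∀ i, x i < m) (R : Language ℕ) :
    Ch0 (m + 1) m (bl x R) where
  bm := Nat.lt_succ_self m
  lt := by
    intro i a ha
    obtain ⟨k, rfl⟩ := mem_fac ha
    exact Nat.lt_succ_of_lt (hx k)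
  nb := by
    intro i ha
    obtain ⟨k, hk⟩ := mem_fac ha
    have := hx k
    omega

theorem er_id {m : ℕ} {u : List ℕ} (hu : ∀ a ∈ u, a < m) : u.flatMap (er m) = u := by
  induction u with
  | nil => rfl
  | cons a u ih =>
    rw [List.flatMap_cons, ih (fun b hb => hu b (List.mem_cons_of_mem _ hb))]
    have : er m a = [a] := by
      unfold er
      rw [if_pos (hu a List.mem_cons_self)]
    rw [this]
    rfl

theorem U_er {x : ℕ → ℕ} {m : ℕ} (hx : ∀ i, x i < m) {R : Language ℕ}
    (hi : {n | PP x R n}.Infinite) (k : ℕ) :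
    (U (bl x R) m k).flatMap (er m) = pre x (cut x R k) := by
  induction k with
  | zero => rfl
  | succ k ih =>
    change (U (bl x R) m k ++ (bl x R k ++ [m])).flatMap (er m) = _
    rw [List.flatMap_append, List.flatMap_append, ih, er_id]
    · have : [m].flatMap (er m) = [] := by
        simp [er]
      rw [this, List.append_nil]
      exact (pre_fac x (cut_lt hi k).le).symm
    · intro a ha
      obtain ⟨k, rfl⟩ := mem_fac ha
      exact hx k

theorem bl_unb {x : ℕ → ℕ} {R : Language ℕ} (hi : {n | PP x R n}.Infinite)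
    (hg : ∀ g : ℕ, ∃ N : ℕ, ∀ n : ℕ, N ≤ n → n < N + g → pre x n ∉ R) :
    ∀ n : ℕ, ∃ i : ℕ, n < (bl x R i).length := by
  classical
  intro n
  obtain ⟨N, hN⟩ := hg (n + 1)
  have hmono : StrictMono (cut x R) := strictMono_nat_of_lt_succ (cut_lt hi)
  have hex : ∃ k, N ≤ cut x R (k + 1) := by
    refine ⟨N, ?_⟩
    have := hmono.le_apply (x := N + 1)
    omega
  have hk := Nat.find_spec hex
  have hmin := fun {j : ℕ} => Nat.find_min hex (m := j)
  generalize Nat.find hex = k at hk hmin
  refine ⟨k, ?_⟩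
  rw [bl_len]
  have h1 : cut x R k ≤ N := by
    cases k with
    | zero => exact Nat.zero_le _
    | succ k =>
      have := hmin (j := k) (Nat.lt_succ_self k)
      omega
  have h2 : N + (n + 1) ≤ cut x R (k + 1) := by
    by_contra hcon
    push Not at hcon
    exact hN _ hk hcon (cut_mem hi k).2
  omega

end Pool.Agent.Lib.GCH
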