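import Pool.Agent.Lib.GCH.InsA

/-!
# Module GCH.InsC: a correct insertion is some U (bl x R) m k (MP_f1c4ef_lc)

`w = bl x R`. `insStep`: `v = U w m k ++ Y ++ [m] ++ s`, letters of `v` `< m + 1`, `m ∉ Y`, `v` not bad. CLAIM `Y = w k`. Let
`p = U w m k ++ Y`. Second clause of IB0: not `EE m p` and `p.flatMap (er m) ∈ R`. So `Y ≠ []` (`U_EE`). `v ≠ []`, not IB1:
`v.flatMap (er m) = pre x n`, and it begins with `p.flatMap (er m) = pre x (cut k) ++ Y` (`U_er`, `er_id`, letters of `Y` are `< m`), so
(`pre_of_append`) `p.flatMap (er m) = pre x l`, `l = cut k + Y.length`, `PP x R l` (`l ≥ 1` as `Y ≠ []`). For `0 < i < Y.length` let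
`Y = Y1 ++ [a] ++ Y2`, `Y1.length = i`; `p1 = U w m k ++ Y1` is not `EE m` (nonempty, last letter in `Y1`, not `m`), `a < m`, so by the
third clause `p1.flatMap (er m) = pre x (cut k + i) ∉ R`. So `l` is the least number `> cut k` with `PP x R l`, so
`l = cut (k + 1)`: `l < cut (k + 1)` is excluded by `cut_gap`; if `cut (k + 1) < l` then `i = cut (k + 1) - cut k` contradicts
`cut_mem`. So `Y = fac x (cut k) (cut (k + 1)) = w k` (`pre_fac`, cancel).
`insC`: by strong induction on the length of `p`: if `v = p ++ s`, `EE m p`, then `p = U w m k` for some `k` (`split_last`). `EE m v` by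
the first clause.
-/

set_option autoImplicit false

namespace Pool.Agent.Lib.GCH

theorem insStep {x : ℕ → ℕ} {m : ℕ} (hx : ∀ i, x i < m) {R : Language ℕ}
    (hi : {n | PP x R n}.Infinite) {v : List ℕ} (hv : ∀ a ∈ v, a < m + 1)
    (h0 : ¬ IB0 m R v) (h1 : ¬ IB1 m x R v) {k : ℕ} {Y s : List ℕ}
    (hvY : v = U (bl x R) m k ++ Y ++ [m] ++ s) (hY : m ∉ Y) : Y = bl x R k := by
  unfold IB0 at h0
  push Not at h0
  obtain ⟨-, h02, h03⟩ := h0
  obtain ⟨hp1, hp2⟩ := h02 _ _ hvY
  have hYne : Y ≠ [] := by
    rintro rfl
    rw [List.append_nil] at hp1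
    exact hp1 (U_EE _ _ _)
  have hYlt : ∀ a ∈ Y, a < m := by
    intro a ha
    have h2 : a ∈ v := by
      rw [hvY]
      simp [ha]
    have h3 := hv a h2
    have h4 : a ≠ m := by
      rintro rfl
      exact hY ha
    omega
  have hvne : v ≠ [] := by
    rw [hvY]
    simp
  have hCX : v.flatMap (er m) ∈ CX x R := by
    by_contra h2
    exact h1 ⟨hvne, h2⟩
  obtain ⟨-, n, hn⟩ := hCX
  have hpf : (U (bl x R) m k ++ Y).flatMap (er m) = pre x (cut x R k) ++ Y := by
    rw [List.flatMap_append, U_er hx hi, er_id hYlt]
  have hn2 : pre x n = (pre x (cut x R k) ++ Y) ++ ([m] ++ s).flatMap (er m) := by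
    rw [← hn, hvY, ← hpf, ← List.flatMap_append, List.append_assoc]
  obtain ⟨-, hl, -⟩ := pre_of_append hn2
  rw [List.length_append, pre_len] at hl
  have hYpos : 0 < Y.length := List.length_pos_iff.2 hYne
  have hPP : PP x R (cut x R k + Y.length) := by
    refine ⟨by omega, ?_⟩
    rw [← hl, ← hpf]
    exact hp2
  have hle : cut x R k ≤ cut x R k + Y.length := Nat.le_add_right _ _
  have hYfac : Y = fac x (cut x R k) (cut x R k + Y.length) := by
    have h2 := pre_fac x hle
    rw [← hl] at h2
    exact List.append_cancel_left h2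
  have hcut := cut_lt hi k
  have hmain : cut x R k + Y.length = cut x R (k + 1) := by
    rcases lt_trichotomy (cut x R k + Y.length) (cut x R (k + 1)) with h2 | h2 | h2
    · exact absurd hPP (cut_gap hi (by omega) h2)
    · exact h2
    · exfalso
      obtain ⟨i, hi1⟩ : ∃ i, cut x R (k + 1) = cut x R k + i :=
        ⟨cut x R (k + 1) - cut x R k, by omega⟩
      have hi2 : 0 < i := by omega
      have hi3 : i < Y.length := by omega
      have e1 : Y = Y.take i ++ [Y[i]] ++ Y.drop (i + 1) := by
        rw [List.append_assoc, List.singleton_append, ← List.drop_eq_getElem_cons hi3,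
          List.take_append_drop]
      have e2 : v = (U (bl x R) m k ++ Y.take i) ++ [Y[i]] ++ (Y.drop (i + 1) ++ [m] ++ s) := by
        rw [hvY]
        conv_lhs => rw [e1]
        simp only [List.append_assoc]
      have hlen : (Y.take i).length = i := by
        rw [List.length_take]
        omega
      have hE : ¬ EE m (U (bl x R) m k ++ Y.take i) := by
        rintro (h3 | ⟨q, h3⟩)
        · have h4 := congrArg List.length h3
          rw [List.length_append, hlen] at h4
          simp at h4
          omega
        · rcases List.eq_nil_or_concat (Y.take i) with h4 | ⟨t, a, h4⟩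
          · rw [h4] at hlen
            simp at hlen
            omega
          · rw [h4, List.concat_eq_append, ← List.append_assoc] at h3
            have h5 := congrArg List.getLast? h3
            rw [List.getLast?_concat, List.getLast?_concat, Option.some.injEq] at h5
            have h6 : a ∈ Y.take i := by
              rw [h4]
              simp
            rw [h5] at h6
            exact hY (List.mem_of_mem_take h6)
      refine h03 _ _ _ e2 (hYlt _ (List.getElem_mem hi3)) hE ?_
      have e3 : (U (bl x R) m k ++ Y.take i).flatMap (er m) = pre x (cut x R k) ++ Y.take i := by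
        rw [List.flatMap_append, U_er hx hi, er_id (fun a ha => hYlt a (List.mem_of_mem_take ha))]
      have e4 : pre x (cut x R k + Y.length) = (pre x (cut x R k) ++ Y.take i) ++ Y.drop i := by
        rw [List.append_assoc, List.take_append_drop, hl]
      obtain ⟨-, e5, -⟩ := pre_of_append e4
      rw [List.length_append, pre_len, hlen, ← hi1] at e5
      rw [e3, e5]
      exact (cut_mem hi k).2
  rw [hmain] at hYfac
  exact hYfac

theorem insC {x : ℕ → ℕ} {m : ℕ} (hx : ∀ i, x i < m) {R : Language ℕ}
    (hi : {n | PP x R n}.Infinite) {v : List ℕ} (hv : ∀ a ∈ v, a < m + 1)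
    (h0 : ¬ IB0 m R v) (h1 : ¬ IB1 m x R v) : v ∈ CC (bl x R) m := by
  have hEE : EE m v := by
    by_contra h2
    exact h0 (Or.inl h2)
  have key : ∀ n : ℕ, ∀ p s : List ℕ, p.length = n → v = p ++ s → EE m p →
      ∃ k, p = U (bl x R) m k := by
    intro n
    induction n using Nat.strong_induction_on with
    | _ n ih =>
      intro p s hn hps hp
      rcases hp with rfl | ⟨q, rfl⟩
      · exact ⟨0, rfl⟩
      · obtain ⟨p', y, hq, hp', hy⟩ := split_last m q
        obtain ⟨k, hk⟩ := ih p'.length (by rw [← hn, hq]; simp) p' (y ++ [m] ++ s) rfl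
          (by rw [hps, hq]; simp only [List.append_assoc]) hp'
        have h2 : y = bl x R k := by
          refine insStep hx hi hv h0 h1 (k := k) (s := s) ?_ hy
          rw [hps, hq, hk]
        refine ⟨k + 1, ?_⟩
        rw [hq, hk, h2]
        change _ = U (bl x R) m k ++ (bl x R k ++ [m])
        rw [List.append_assoc]
  obtain ⟨k, hk⟩ := key v.length v [] rfl (List.append_nil v).symm hEE
  exact ⟨k, hk⟩

end Pool.Agent.Lib.GCH
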