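import Pool.Agent.Lib.GCH.Defs2
import Pool.Agent.Lib.GCH.Tests
import Pool.Agent.Lib.GCH.RatB

/-!
# Module GCH.InsM: the wrong insertions form a language of the cone (MP_f1c4ef_lc)

`reg_inv`: let `M` be a DFA for `R`; the DFA with the same states, start and accepting states and the step
`s, a ↦ M.evalFrom s (h a)` accepts `{p | p.flatMap h ∈ R}` (`DFA.evalFrom_of_append`).
`ib0_rat`: `All = {v | ∀ a ∈ v, a < m + 1}`, `E = {v | EE m v}` regular (`last_reg`), `Q = {p | p.flatMap (er m) ∈ R}` regular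
(`reg_inv`). The language is the sum of `{v ∈ All | ¬ EE m v}`, `{p ∈ All | EE m p ∨ p ∉ Q} * {[m]} * All`,
`{p ∈ All | ¬ EE m p ∧ p ∈ Q} * {[a] | a < m} * All` (`rat_sub`, `rat_diff`, `rat_mul`, `rat_add`, `rat_fin`, `rat_sing`, `rat_all`).
`ins_mem`: `tests_mem` with `A = co m (CX x R)`, `f 0 = er m`, `f 1 = fun _ => []`, `f 2 = fun _ => []`, the rational language of
`ib0_rat`, and the one list `[(0, {v ∈ All | v ≠ []})]`. An output has letters `< m`, so it is in `A` iff it is not in `CX x R`.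
-/

set_option autoImplicit false

namespace Pool.Agent.Lib.GCH

open Pool.Agent.Lib.F1c4

namespace InsMAux

open RatBAux

/-- the DFA which reads `h a` instead of `a` -/
def D {σ : Type} (M : DFA ℕ σ) (h : ℕ → List ℕ) : DFA ℕ σ :=
  ⟨fun s a => M.evalFrom s (h a), M.start, M.accept⟩

theorem D_eval {σ : Type} (M : DFA ℕ σ) (h : ℕ → List ℕ) (p : List ℕ) :
    ∀ s : σ, (D M h).evalFrom s p = M.evalFrom s (p.flatMap h) := by
  induction p with
  | nil => intro s; rfl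
  | cons a p ih =>
    intro s
    rw [List.flatMap_cons, DFA.evalFrom_of_append, ← ih]
    rfl

/-- the preimage of `R` -/
def Pr (R : Language ℕ) (h : ℕ → List ℕ) : Language ℕ := {p : List ℕ | p.flatMap h ∈ R}

/-- first part -/
def P1 (m : ℕ) : Language ℕ := {v : List ℕ | v ∈ A0 (m + 1) ∧ v ∉ Lst m}

/-- words not allowed before `m` -/
def P2 (m : ℕ) (R : Language ℕ) : Language ℕ :=
  {p : List ℕ | p ∈ A0 (m + 1) ∧ (p ∈ Lst m ∨ p ∉ Pr R (er m))}

/-- words not allowed before a letter `< m` -/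
def P3 (m : ℕ) (R : Language ℕ) : Language ℕ :=
  {p : List ℕ | (p ∈ A0 (m + 1) ∧ p ∉ Lst m) ∧ p ∈ Pr R (er m)}

theorem er_lt (m : ℕ) (v : List ℕ) : ∀ a ∈ v.flatMap (er m), a < m := by
  intro a ha
  obtain ⟨y, -, hy⟩ := List.mem_flatMap.1 ha
  unfold er at hy
  split_ifs at hy with h
  · rw [List.mem_singleton.1 hy]
    exact h
  · exact absurd hy List.not_mem_nil

end InsMAux

open InsMAux RatBAux

theorem reg_inv {R : Language ℕ} (hR : R.IsRegular) (h : ℕ → List ℕ) :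
    Language.IsRegular ({p : List ℕ | p.flatMap h ∈ R} : Language ℕ) := by
  obtain ⟨σ, hσ, M, rfl⟩ := hR
  refine ⟨σ, hσ, D M h, ?_⟩
  refine Language.ext fun p => ?_
  show (D M h).evalFrom M.start p ∈ M.accept ↔ M.evalFrom M.start (p.flatMap h) ∈ M.accept
  rw [D_eval]

theorem ib0_rat (m : ℕ) {R : Language ℕ} (hR : R.IsRegular) :
    Rat ({v : List ℕ | (∀ a ∈ v, a < m + 1) ∧ IB0 m R v} : Language ℕ) := by
  have hQ : (Pr R (er m)).IsRegular := reg_inv hR (er m)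
  have h1 : Rat (P1 m) := rat_diff (r_A0 _) (last_reg m)
  have h2 : Rat (P2 m R) := by
    have h := rat_add (rat_sub (r_A0 (m + 1)) (last_reg m)) (rat_diff (r_A0 (m + 1)) hQ)
    refine Eq.mp (congrArg Rat ?_) h
    apply Set.ext
    intro p
    show (p ∈ A0 (m + 1) ∧ p ∈ Lst m) ∨ (p ∈ A0 (m + 1) ∧ p ∉ Pr R (er m)) ↔
      p ∈ A0 (m + 1) ∧ (p ∈ Lst m ∨ p ∉ Pr R (er m))
    tauto
  have h3 : Rat (P3 m R) := rat_sub (rat_diff (r_A0 _) (last_reg m)) hQ
  have h := rat_add h1 (rat_add (rat_mul h2 (rat_mul (r_S1 m) (r_A0 (m + 1))))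
    (rat_mul h3 (rat_mul (r_Fi (Finset.range m)) (r_A0 (m + 1)))))
  refine Eq.mp (congrArg Rat ?_) h
  apply Set.ext
  intro v
  show v ∈ (_ + _ : Language ℕ) ↔ _
  rw [mem_add', mem_add']
  constructor
  · rintro (⟨hv, hn⟩ | hv | hv)
    · exact ⟨hv, Or.inl hn⟩
    · obtain ⟨p, ⟨hp, hp2⟩, v1, hv1, rfl⟩ := mem_mul'.1 hv
      obtain ⟨v2, h0, s, hs, rfl⟩ := mem_mul'.1 hv1
      have h0' : v2 = [m] := h0
      subst h0'
      refine ⟨?_, Or.inr (Or.inl ⟨p, s, ?_, hp2⟩)⟩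
      · intro a ha
        rcases List.mem_append.1 ha with ha | ha
        · exact hp a ha
        · rcases List.mem_append.1 ha with ha | ha
          · rw [List.mem_singleton.1 ha]
            omega
          · exact hs a ha
      · simp only [List.append_assoc]
    · obtain ⟨p, ⟨⟨hp, hp2⟩, hp3⟩, v1, hv1, rfl⟩ := mem_mul'.1 hv
      obtain ⟨v2, ⟨c, hc, rfl⟩, s, hs, rfl⟩ := mem_mul'.1 hv1
      rw [Finset.mem_range] at hc
      refine ⟨?_, Or.inr (Or.inr ⟨p, s, c, ?_, hc, hp2, hp3⟩)⟩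
      · intro a ha
        rcases List.mem_append.1 ha with ha | ha
        · exact hp a ha
        · rcases List.mem_append.1 ha with ha | ha
          · rw [List.mem_singleton.1 ha]
            omega
          · exact hs a ha
      · simp only [List.append_assoc]
  · rintro ⟨hv, hn | ⟨p, s, rfl, hp⟩ | ⟨p, s, c, rfl, hc, hp2, hp3⟩⟩
    · exact Or.inl ⟨hv, hn⟩
    · refine Or.inr (Or.inl (mem_mul'.2 ⟨p, ⟨?_, hp⟩, [m] ++ s,
        mem_mul'.2 ⟨[m], rfl, s, ?_, rfl⟩, ?_⟩))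
      · intro a ha
        exact hv a (by simp [ha])
      · intro a ha
        exact hv a (by simp [ha])
      · simp only [List.append_assoc]
    · refine Or.inr (Or.inr (mem_mul'.2 ⟨p, ⟨⟨?_, hp2⟩, hp3⟩, [c] ++ s,
        mem_mul'.2 ⟨[c], ⟨c, Finset.mem_range.2 hc, rfl⟩, s, ?_, rfl⟩, ?_⟩))
      · intro a ha
        exact hv a (by simp [ha])
      · intro a ha
        exact hv a (by simp [ha])
      · simp only [List.append_assoc]

theorem ins_mem {F : Set (Language ℕ)} (hF : IsCone F) {m : ℕ} {x : ℕ → ℕ} {R : Language ℕ}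
    (hR : R.IsRegular) (hA : co m (CX x R) ∈ F) {a0 : List ℕ} (ha0 : a0 ∈ co m (CX x R)) :
    ({v : List ℕ | (∀ a ∈ v, a < m + 1) ∧ (IB0 m R v ∨ IB1 m x R v)} : Language ℕ) ∈ F := by
  have hN : Rat ({v : List ℕ | v ∈ A0 (m + 1) ∧ v ∉ W1 []} : Language ℕ) :=
    rat_diff (r_A0 _) (r_W1 []).1
  have h := tests_mem hF hA ha0 (fun i => if i = 0 then er m else fun _ => []) rfl (ib0_rat m hR)
    [[(0, ({v : List ℕ | v ∈ A0 (m + 1) ∧ v ∉ W1 []} : Language ℕ))]] (by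
      intro P hP y hy
      rw [List.mem_singleton.1 hP] at hy
      rw [List.mem_singleton.1 hy]
      exact ⟨by norm_num, hN⟩)
  refine Eq.mp (congrArg (fun L : Language ℕ => L ∈ F) ?_) h
  apply Set.ext
  intro v
  constructor
  · rintro (⟨hv, h0⟩ | ⟨P, hP, o, hfo, ho⟩)
    · exact ⟨hv, Or.inl h0⟩
    · rw [List.mem_singleton.1 hP] at hfo
      obtain ⟨u, v', o', hu, hv', rfl, rfl⟩ := fac_cons.1 hfo
      obtain ⟨rfl, rfl⟩ := fac_nil.1 hv'
      have hu1 : ∀ a ∈ u, a < m + 1 := hu.1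
      have hu2 : u ≠ [] := hu.2
      rw [List.append_nil]
      rw [List.append_nil] at ho
      exact ⟨hu1, Or.inr ⟨hu2, ho.2⟩⟩
  · rintro ⟨hv, h0 | ⟨h1, h2⟩⟩
    · exact Or.inl ⟨hv, h0⟩
    · refine Or.inr ⟨_, List.mem_singleton.2 rfl, v.flatMap (er m) ++ [],
        fac_cons.2 ⟨v, [], [], ⟨hv, h1⟩, fac_nil.2 ⟨rfl, rfl⟩, (List.append_nil v).symm, rfl⟩, ?_⟩
      rw [List.append_nil]
      exact ⟨er_lt m v, h2⟩

end Pool.Agent.Lib.GCH
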