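import Pool.Agent.Lib.GCH.InsA

/-!
# Module GCH.InsS: the words U (bl x R) m k are correct insertions (MP_f1c4ef_lc)

`w = bl x R`, `h0 := bl_Ch0 hx R : Ch0 (m + 1) m w`, `V = U w m k`. IB0: `EE m V`: `U_EE`. Second clause: `V = p ++ [m] ++ s`:
`split_last m p`: `p = q ++ y`, `EE m q`, `m ∉ y`; `U_blk0 h0`: `q = U w m j`, `y = w j`. Then `p ≠ []` and `p` does not end with `m`, as
`w j ≠ []` (`bl_ne`) and `m ∉ w j`; so not `EE m p`. `p.flatMap (er m) = pre x (cut j) ++ bl j = pre x (cut (j + 1)) ∈ R` (`U_er`, `er_id`,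
`pre_fac`, `cut_mem`). Third clause: `V = p ++ [a] ++ s`, `a < m`, not `EE m p`, `p.flatMap (er m) ∈ R`: `split_last m p`: `p = q ++ y`, and
`y ≠ []` (not `EE m p`); `q = U w m j` (`U_pre0`), and `U w m k = U w m j ++ y ++ [a] ++ s`, where `k > j` (lengths or count), so
(`U_add`, `seg_succ`) `U w m k = U w m j ++ (w j ++ [m]) ++ ..`, so `y ++ [a]` (no letter `m`) is a prefix of `w j`:
`y.length < (w j).length`. Hence `p.flatMap (er m)` is `pre x (cut j + y.length)` (a prefix of
`pre x (cut (j + 1))`: `pre_of_append`), with `cut j < cut j + y.length < cut (j + 1)`: not in `R` by `cut_gap`.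
IB1: `V ≠ []`, so `k = j + 1`, `V.flatMap (er m) = pre x (cut (j + 1)) ∈ CX x R` (`U_er`, `cut_mem`).
-/

set_option autoImplicit false

namespace Pool.Agent.Lib.GCH

namespace InsSAux

theorem er_m (m : ℕ) : er m m = [] := by simp [er]

/-- the block after a complete prefix -/
theorem blk {x : ℕ → ℕ} {m : ℕ} (hx : ∀ i, x i < m) {R : Language ℕ} {k : ℕ} {q y s : List ℕ} {a : ℕ}
    (hq : EE m q) (hy : m ∉ y) (ha : a < m) (hU : U (bl x R) m k = q ++ y ++ [a] ++ s) :
    ∃ (j : ℕ) (c : List ℕ), q = U (bl x R) m j ∧ bl x R j = y ++ [a] ++ c := by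
  have h0 := bl_Ch0 hx R
  obtain ⟨j, hjk, hj⟩ := U_pre0 h0 (n := k) (p := q) (s := y ++ [a] ++ s) hq
    (by rw [hU]; simp [List.append_assoc])
  have hjk' : j ≠ k := by
    rintro rfl
    rw [← hj] at hU
    have := congrArg List.length hU
    simp at this
  obtain ⟨i, rfl⟩ : ∃ i, k = j + (i + 1) := ⟨k - j - 1, by omega⟩
  rw [U_add, seg_succ, ← hj] at hU
  have h1 : bl x R j ++ m :: seg (bl x R) m (j + 1) i = (y ++ [a]) ++ s := by
    apply List.append_cancel_left (as := q)
    rw [hU]
    simp [List.append_assoc]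
  have hm : m ∉ y ++ [a] := by
    rw [List.mem_append, List.mem_singleton]
    rintro (h | h)
    · exact hy h
    · omega
  refine ⟨j, ?_⟩
  rcases List.append_eq_append_iff.1 h1 with ⟨t, h2, h3⟩ | ⟨t, h2, h3⟩
  · cases t with
    | nil => exact ⟨[], hj, by rw [h2]; simp⟩
    | cons b t =>
      exfalso
      rw [List.cons_append, List.cons.injEq] at h3
      apply hm
      rw [h2, h3.1]
      simp
  · exact ⟨t, hj, h2⟩

end InsSAux

open InsSAux in
theorem insS {x : ℕ → ℕ} {m : ℕ} (hx : ∀ i, x i < m) {R : Language ℕ}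
    (hi : {n | PP x R n}.Infinite) {v : List ℕ} (hv : v ∈ CC (bl x R) m) :
    ¬ IB0 m R v ∧ ¬ IB1 m x R v := by
  obtain ⟨k, rfl⟩ := hv
  have h0 := bl_Ch0 hx R
  constructor
  · rintro (h | ⟨p, s, hU, h⟩ | ⟨p, s, a, hU, ha, hp, hR⟩)
    · exact h (U_EE _ _ _)
    · obtain ⟨q, y, rfl, hq, hy⟩ := split_last m p
      obtain ⟨j, rfl, rfl⟩ := U_blk0 h0 hq hy hU
      rcases h with h | h
      · exact hy (ChainBAux.mem_of_EE h (bl_ne hi j))
      · apply h
        have h1 : (U (bl x R) m j ++ bl x R j).flatMap (er m) =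
            (U (bl x R) m (j + 1)).flatMap (er m) := by
          show _ = (U (bl x R) m j ++ (bl x R j ++ [m])).flatMap (er m)
          rw [← List.append_assoc, List.flatMap_append (xs := U (bl x R) m j ++ bl x R j)]
          simp [er_m]
        rw [h1, U_er hx hi]
        exact (cut_mem hi j).2
    · obtain ⟨q, y, rfl, hq, hy⟩ := split_last m p
      obtain ⟨j, c, rfl, hc⟩ := blk hx hq hy ha hU
      have hy0 : y ≠ [] := by
        rintro rfl
        apply hp
        rw [List.append_nil]
        exact hq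
      have hylt : ∀ b ∈ y, b < m := by
        intro b hb
        have h1 : b ∈ bl x R j := by rw [hc]; simp [hb]
        have h2 := h0.lt j b h1
        have h3 : b ≠ m := fun h => hy (h ▸ hb)
        omega
      rw [List.flatMap_append, U_er hx hi, er_id hylt] at hR
      have h1 : pre x (cut x R (j + 1)) = (pre x (cut x R j) ++ y) ++ ([a] ++ c) := by
        rw [pre_fac x (cut_lt hi j).le]
        show pre x (cut x R j) ++ bl x R j = _
        rw [hc]
        simp [List.append_assoc]
      obtain ⟨-, h2, -⟩ := pre_of_append h1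
      have h3 := congrArg List.length h1
      rw [List.length_append, List.length_append, pre_len, pre_len] at h3
      rw [List.length_append, pre_len] at h2
      have h4 : 0 < y.length := List.length_pos_iff.2 hy0
      have h5 : ([a] ++ c).length = c.length + 1 := by simp
      refine cut_gap hi (k := j) (n := cut x R j + y.length) (by omega) (by omega) ⟨by omega, ?_⟩
      rw [← h2]
      exact hR
  · rintro ⟨hne, hR⟩
    cases k with
    | zero => exact hne rfl
    | succ j =>
      apply hR
      rw [U_er hx hi]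
      exact ⟨(cut_mem hi j).2, _, rfl⟩

end Pool.Agent.Lib.GCH
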