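import Pool.Agent.Lib.GCH.MhS

/-!
# Module GCH.LaS: look-ahead, tests of true prefixes (MP_f1c4ef_lc)

Here `D` is a DFA with `D.accepts = R` and for every `n` some prefix of length in `(n, n + g]` is in `R` (`hg`).
PROOFS. `nr_spec`: `Nat.sInf_mem`, `Nat.sInf_le`; `nr_min`: `Nat.notMem_of_lt_sInf`. `zw_len`: the length of `zw X R n` is
`nr (vx X) R n - n`. `pre_zw`: for `j ≤ nr - n`: `pre (vx X) n ++ vl ((zw X R n).take j) = pre (vx X) (n + j)` (`List.map_take`,
`List.range_add`). `zw_good`: with `q = D.evalFrom D.start (pre (vx X) n)`: `D.evalFrom q w = D.evalFrom D.start (pre _ n ++ w)`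
(`DFA.evalFrom_of_append`), `w ∈ D.accepts` by `DFA.mem_accepts`; a proper nonempty prefix `U` of `zw X R n` is a `take j` with
`0 < j < nr - n`, and `pre _ (n + j) ∉ R` by `nr_min`.
`la_sound`: induction on `h : LocR (OA D) (OB D) u a`: if `(u ++ [a]).map (fun t => t.1.1) = (List.range n).map (zw X R)` then,
with `t = u.length`, `n = t + 1`, `a.1.1 = zw X R t`, `o = (u ++ [a]).flatMap (Of a0)`: if the mark of `a` is `go`, `test` or
`wait` then `a.2.1 = D.evalFrom D.start (pre (vx X) t)`; `go → o = pre (vx X) (t + 1)`; `test → o ∈ CX (vx X) R`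
(`o = pre (vx X) t ++ vl (zw X R t) = pre (vx X) (nr (vx X) R t)`); `off → o ∈ CX (vx X) R`; `wait → o = []`; the mark is not
`err` (`zw_good`). (`fst1 D (zw X R t) q = D.evalFrom D.start (pre (vx X) (t + 1))` by `pre_zw` with `j = 1`.)
-/

set_option autoImplicit false

namespace Pool.Agent.Lib.GCH

variable {m : ℕ} {σ : Type} {X : ℕ → Fin m} {R : Language ℕ} {g : ℕ}

theorem nr_spec (hg : ∀ n : ℕ, ∃ r : ℕ, n < r ∧ r ≤ n + g ∧ pre (vx X) r ∈ R) (n : ℕ) :
    n < nr (vx X) R n ∧ nr (vx X) R n ≤ n + g ∧ pre (vx X) (nr (vx X) R n) ∈ R := by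
  obtain ⟨r, h1, h2, h3⟩ := hg n
  have hne : ({r : ℕ | n < r ∧ pre (vx X) r ∈ R}).Nonempty := ⟨r, h1, h3⟩
  have hm := Nat.sInf_mem hne
  have hle : sInf {r : ℕ | n < r ∧ pre (vx X) r ∈ R} ≤ r := Nat.sInf_le ⟨h1, h3⟩
  exact ⟨hm.1, hle.trans h2, hm.2⟩

theorem nr_min {n r : ℕ} (h1 : n < r) (h2 : r < nr (vx X) R n) : pre (vx X) r ∉ R := by
  intro h
  exact Nat.notMem_of_lt_sInf h2 ⟨h1, h⟩

theorem zw_len (n : ℕ) : (zw X R n).length = nr (vx X) R n - n := by
  simp [zw]

theorem LaSAux.vl_eq (V : List (Fin m)) : vl V = V.map Fin.val := by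
  unfold vl
  rw [List.map_id']
  induction V with
  | nil => rfl
  | cons a V ih =>
    rw [List.map_cons, ← ih]
    rfl

theorem pre_zw (n : ℕ) {j : ℕ} (hj : j ≤ nr (vx X) R n - n) :
    pre (vx X) n ++ vl ((zw X R n).take j) = pre (vx X) (n + j) := by
  rw [LaSAux.vl_eq]
  unfold pre zw
  rw [← List.map_take, List.take_range, min_eq_left hj, List.map_map, List.range_add,
    List.map_append, List.map_map]
  rfl

namespace LaSAux

private theorem pre_zw_all (n : ℕ)
    (hg : ∀ n : ℕ, ∃ r : ℕ, n < r ∧ r ≤ n + g ∧ pre (vx X) r ∈ R) :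
    pre (vx X) n ++ vl (zw X R n) = pre (vx X) (nr (vx X) R n) := by
  have h := pre_zw (X := X) (R := R) n (j := nr (vx X) R n - n) le_rfl
  rw [← zw_len (X := X) (R := R) n, List.take_length, zw_len] at h
  rw [h]
  congr 1
  have := (nr_spec hg n).1
  omega

private theorem one_le (n : ℕ)
    (hg : ∀ n : ℕ, ∃ r : ℕ, n < r ∧ r ≤ n + g ∧ pre (vx X) r ∈ R) :
    1 ≤ nr (vx X) R n - n := by
  have := (nr_spec hg n).1
  omega

end LaSAux

open LaSAux in
theorem zw_good (D : DFA ℕ σ) (hD : D.accepts = R)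
    (hg : ∀ n : ℕ, ∃ r : ℕ, n < r ∧ r ≤ n + g ∧ pre (vx X) r ∈ R) (n : ℕ) :
    good D (zw X R n) (D.evalFrom D.start (pre (vx X) n)) := by
  obtain ⟨h1, h2, h3⟩ := nr_spec hg n
  refine ⟨?_, ?_, ?_⟩
  · intro h
    have hl := zw_len (X := X) (R := R) n
    rw [h, List.length_nil] at hl
    omega
  · rw [← DFA.evalFrom_of_append, pre_zw_all n hg]
    have h4 : pre (vx X) (nr (vx X) R n) ∈ D.accepts := hD.symm ▸ h3
    exact h4
  · intro U W hV hU hW hacc
    have hUl : 0 < U.length := List.length_pos_iff.2 hU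
    have hWl : 0 < W.length := List.length_pos_iff.2 hW
    have hlen : U.length + W.length = nr (vx X) R n - n := by
      rw [← List.length_append, ← hV, zw_len]
    have hUt : U = (zw X R n).take U.length := by
      rw [hV, List.take_left']
      rfl
    rw [hUt, ← DFA.evalFrom_of_append, pre_zw n (by omega)] at hacc
    refine nr_min (X := X) (R := R) (n := n) (r := n + U.length) (by omega) (by omega) ?_
    rw [← hD]
    exact hacc

namespace LaSAux

private theorem split_map {T : Type} {f : T → List (Fin m)} {u : List T} {a : T} {n : ℕ}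
    (hn : (u ++ [a]).map f = (List.range n).map (zw X R)) :
    n = u.length + 1 ∧ u.map f = (List.range u.length).map (zw X R) ∧ f a = zw X R u.length := by
  have hl := congrArg List.length hn
  simp only [List.length_map, List.length_append, List.length_range, List.length_singleton] at hl
  subst hl
  rw [List.map_append, List.range_succ, List.map_append] at hn
  have h := List.append_inj' hn (by simp)
  refine ⟨rfl, h.1, ?_⟩
  simpa using h.2

private theorem evalFrom_step (D : DFA ℕ σ)
    (hg : ∀ n : ℕ, ∃ r : ℕ, n < r ∧ r ≤ n + g ∧ pre (vx X) r ∈ R) (t : ℕ) :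
    fst1 D (zw X R t) (D.evalFrom D.start (pre (vx X) t)) =
      D.evalFrom D.start (pre (vx X) (t + 1)) := by
  unfold fst1
  rw [← DFA.evalFrom_of_append, pre_zw t (one_le t hg)]

private theorem mem_CX (t : ℕ)
    (hg : ∀ n : ℕ, ∃ r : ℕ, n < r ∧ r ≤ n + g ∧ pre (vx X) r ∈ R) :
    pre (vx X) t ++ vl (zw X R t) ∈ CX (vx X) R := by
  rw [pre_zw_all t hg]
  exact ⟨(nr_spec hg t).2.2, _, rfl⟩

private theorem inv (D : DFA ℕ σ) (hD : D.accepts = R)
    (hg : ∀ n : ℕ, ∃ r : ℕ, n < r ∧ r ≤ n + g ∧ pre (vx X) r ∈ R)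
    {u : List (Wg m g × σ × Mo)} {a : Wg m g × σ × Mo} (h : LocR (OA D) (OB D) u a)
    (a0 : List ℕ) :
    ∀ n, (u ++ [a]).map (fun t => (t.1.1 : List (Fin m))) = (List.range n).map (zw X R) →
      (a.2.2 = Mo.go ∨ a.2.2 = Mo.test ∨ a.2.2 = Mo.wait →
          a.2.1 = D.evalFrom D.start (pre (vx X) u.length)) ∧
        (a.2.2 = Mo.go → (u ++ [a]).flatMap (Of a0) = pre (vx X) (u.length + 1)) ∧
        (a.2.2 = Mo.test ∨ a.2.2 = Mo.off → (u ++ [a]).flatMap (Of a0) ∈ CX (vx X) R) ∧
        (a.2.2 = Mo.wait → (u ++ [a]).flatMap (Of a0) = []) ∧ a.2.2 ≠ Mo.err := by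
  induction h with
  | @one a h =>
    intro n hn
    obtain ⟨-, -, hz⟩ := split_map hn
    obtain ⟨⟨V, hV⟩, q, k⟩ := a
    simp only [List.length_nil] at hz
    obtain ⟨hq, hk⟩ := h
    simp only at hq hz
    subst hq
    have hp0 : pre (vx X) 0 = [] := rfl
    have hs : D.start = D.evalFrom D.start (pre (vx X) 0) := by rw [hp0]; rfl
    have hgood := zw_good D hD hg 0
    rw [← hs, ← hz] at hgood
    have h1 := pre_zw (X := X) (R := R) 0 (one_le 0 hg)
    rw [hp0, List.nil_append, ← hz] at h1
    have h2 := mem_CX 0 hg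
    rw [hp0, List.nil_append, ← hz] at h2
    cases k
    · refine ⟨fun _ => hs, fun _ => ?_, fun h => ?_, fun h => ?_, fun h => ?_⟩
      · simpa [Of] using h1
      · rcases h with h | h <;> simp at h
      · simp at h
      · simp at h
    · refine ⟨fun _ => hs, fun h => ?_, fun _ => ?_, fun h => ?_, fun h => ?_⟩
      · simp at h
      · simpa [Of] using h2
      · simp at h
      · simp at h
    · exact absurd hk (by simp)
    · refine ⟨fun _ => hs, fun h => ?_, fun h => ?_, fun _ => ?_, fun h => ?_⟩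
      · simp at h
      · rcases h with h | h <;> simp at h
      · simp [Of]
      · simp at h
    · exact absurd hgood hk
  | @snoc u a b h hb ih =>
    intro n hn
    obtain ⟨-, hu, hz⟩ := split_map hn
    have hu' : (u ++ [a]).map (fun t => (t.1.1 : List (Fin m))) =
        (List.range (u.length + 1)).map (zw X R) := by
      rw [hu]; simp
    obtain ⟨i1, i2, i3, i4, i5⟩ := ih _ hu'
    obtain ⟨-, -, hza⟩ := split_map hu'
    obtain ⟨⟨V, hV⟩, q, k⟩ := a
    obtain ⟨⟨V', hV'⟩, q', k'⟩ := b
    simp only [List.length_append, List.length_singleton] at hz ⊢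
    simp only at hza hz
    subst hza hz
    have hst := evalFrom_step D hg u.length
    have hgood := zw_good D hD hg (u.length + 1)
    have h1 := pre_zw (X := X) (R := R) (u.length + 1) (one_le (u.length + 1) hg)
    have h2 := mem_CX (u.length + 1) hg
    cases k <;> cases k'
    all_goals first
      | exact (show False from hb).elim
      | skip
    all_goals simp only [OB] at hb
    all_goals simp only [List.flatMap_append, List.flatMap_singleton] at i2 i3 i4 ⊢
    · -- go, go
      have hq := i1 (Or.inl rfl)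
      subst hq
      refine ⟨fun _ => hb.trans hst, fun _ => ?_, fun h => ?_, fun h => ?_, fun h => ?_⟩
      · rw [i2 trivial]; exact h1
      · rcases h with h | h <;> simp at h
      · simp at h
      · simp at h
    · -- go, test
      have hq := i1 (Or.inl rfl)
      subst hq
      refine ⟨fun _ => hb.1.trans hst, fun h => ?_, fun _ => ?_, fun h => ?_, fun h => ?_⟩
      · simp at h
      · rw [i2 trivial]; exact h2
      · simp at h
      · simp at h
    · -- test, off
      refine ⟨fun h => ?_, fun h => ?_, fun _ => ?_, fun h => ?_, fun h => ?_⟩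
      · rcases h with h | h | h <;> simp at h
      · simp at h
      · have := i3 (Or.inl trivial)
        simpa [Of] using this
      · simp at h
      · simp at h
    · -- off, off
      refine ⟨fun h => ?_, fun h => ?_, fun _ => ?_, fun h => ?_, fun h => ?_⟩
      · rcases h with h | h | h <;> simp at h
      · simp at h
      · have := i3 (Or.inr trivial)
        simpa [Of] using this
      · simp at h
      · simp at h
    · -- wait, wait
      have hq := i1 (Or.inr (Or.inr rfl))
      subst hq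
      refine ⟨fun _ => hb.trans hst, fun h => ?_, fun h => ?_, fun _ => ?_, fun h => ?_⟩
      · simp at h
      · rcases h with h | h <;> simp at h
      · have := i4 trivial
        simpa [Of] using this
      · simp at h
    · -- wait, err
      have hq := i1 (Or.inr (Or.inr rfl))
      subst hq
      refine absurd hgood ?_
      have := hb.2
      rw [hb.1, hst] at this
      exact this
    · -- err, off
      exact absurd rfl i5

end LaSAux

open LaSAux in
theorem la_sound (D : DFA ℕ σ) (hD : D.accepts = R)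
    (hg : ∀ n : ℕ, ∃ r : ℕ, n < r ∧ r ≤ n + g ∧ pre (vx X) r ∈ R)
    {u : List (Wg m g × σ × Mo)} {a : Wg m g × σ × Mo} (h : LocR (OA D) (OB D) u a) (hC : OC a)
    (a0 : List ℕ) (n : ℕ)
    (hn : (u ++ [a]).map (fun t => (t.1.1 : List (Fin m))) = (List.range n).map (zw X R)) :
    (u ++ [a]).flatMap (Of a0) ∈ CX (vx X) R := by
  obtain ⟨-, -, i3, -, i5⟩ := inv D hD hg h a0 n hn
  rcases hC with hC | hC | hC
  · exact i3 (Or.inl hC)
  · exact i3 (Or.inr hC)
  · exact absurd hC i5

end Pool.Agent.Lib.GCH
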