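import Pool.Agent.Lib.GCH.Defs3
import Pool.Agent.Lib.F1c4.Mem

/-!
# Module GCH.LocReg: local languages, and inverse morphisms over finite types (MP_f1c4ef_lc)

PROOFS.
`loc_reg`: DFA with the states `Option (Option T)`: `none` dead, `some none` start, `some (some b)`: the last letter read
is `b`. `step (some none) a = if A a then some (some a) else none`, `step (some (some b)) a = if B b a then some (some a)
else none`, `step none a = none`; accepting: `some (some a)` with `C a`. By `List.reverseRecOn` (for a word `u ++ [a]`):
`eval (u ++ [a]) = some (some a) ↔ LocR A B u a` and `eval w = some (some a)` only if `w = u ++ [a]`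
(for `LocR`: `cases`/inversion: `LocR A B [] a ↔ A a`, `LocR A B (u ++ [b]) a ↔ LocR A B u b ∧ B b a`). `Fintype` of
the states from `Finite T` (`Fintype.ofFinite`).
`nivT`: code `T` by numbers: `e : T ≃ Fin N` (`Finite.exists_equiv_fin`), `c a = (e a : ℕ)`, `d : ℕ → T` a decoding (total;
if `T` is empty then `K ⊆ {[]}`: treat this case apart, or use `Option T`-valued decoding). `K' = {t.map c | t ∈ K}` is `Rat`:
alphabet `Finset.range N`, regular: DFA with states `Option σ`: `step (some s) n = if h : n < N then some (D.step s
(e.symm ⟨n, h⟩)) else none`. Then `F1c4.nivat hF hA hK' (fun n => φ (d n)) (fun n => ψ (d n))` and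
`(t.map c).flatMap (fun n => φ (d n)) = t.flatMap φ`; `Language.ext`.
-/

set_option autoImplicit false

namespace Pool.Agent.Lib.GCH

open Pool.Agent.Lib.F1c4


namespace LocRegAux

open Classical in
/-- the automaton of a local language -/
noncomputable def dfa {T : Type} (A : T → Prop) (B : T → T → Prop) (C : T → Prop) :
    DFA T (Option (Option T)) where
  step s a := match s with
    | none => none
    | some none => if A a then some (some a) else none
    | some (some b) => if B b a then some (some a) else none
  start := some none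
  accept := {s | ∃ a, C a ∧ s = some (some a)}

theorem locR_nil {T : Type} {A : T → Prop} {B : T → T → Prop} {u : List T} {a : T}
    (h : LocR A B u a) : u = [] → A a := by
  intro hu
  cases h with
  | one h => exact h
  | snoc h hb => simp at hu

theorem locR_snoc {T : Type} {A : T → Prop} {B : T → T → Prop} {w : List T} {c : T}
    (h : LocR A B w c) : ∀ u a, w = u ++ [a] → LocR A B u a ∧ B a c := by
  intro u a hw
  cases h with
  | one h => simp at hw
  | snoc h hb =>
    obtain ⟨h1, h2⟩ := List.append_inj' hw rfl
    have h3 := List.singleton_inj.1 h2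
    subst h1
    subst h3
    exact ⟨h, hb⟩

theorem eval_none {T : Type} (A : T → Prop) (B : T → T → Prop) (C : T → Prop) (w : List T) :
    (dfa A B C).eval w = some none → w = [] := by
  induction w using List.reverseRecOn with
  | nil => intro _; rfl
  | append_singleton u a ih =>
    intro h
    exfalso
    rw [DFA.eval_append_singleton] at h
    revert h
    generalize (dfa A B C).eval u = s
    intro h
    rcases s with _ | (_ | b)
    · simp [dfa] at h
    · simp only [dfa] at h
      split_ifs at h
      simp at h
    · simp only [dfa] at h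
      split_ifs at h
      simp at h

theorem eval_some {T : Type} (A : T → Prop) (B : T → T → Prop) (C : T → Prop) (w : List T) :
    ∀ a, (dfa A B C).eval w = some (some a) ↔ ∃ u, LocR A B u a ∧ w = u ++ [a] := by
  induction w using List.reverseRecOn with
  | nil =>
    intro a
    constructor
    · intro h
      exfalso
      have h1 : (dfa A B C).eval [] = some none := rfl
      rw [h1] at h
      simp at h
    · rintro ⟨u, _, h⟩
      simp at h
  | append_singleton w c ih =>
    intro a
    rw [DFA.eval_append_singleton]
    constructor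
    · intro h
      rcases hs : (dfa A B C).eval w with _ | (_ | b)
      · rw [hs] at h
        simp [dfa] at h
      · rw [hs] at h
        have hw := eval_none A B C w hs
        simp only [dfa] at h
        split_ifs at h with hA
        have hca : c = a := by simpa using h
        subst hca
        exact ⟨[], LocR.one hA, by rw [hw]⟩
      · obtain ⟨u, hu, hw⟩ := (ih b).1 hs
        rw [hs] at h
        simp only [dfa] at h
        split_ifs at h with hB
        have hca : c = a := by simpa using h
        subst hca
        exact ⟨u ++ [b], LocR.snoc hu hB, by rw [hw]⟩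
    · rintro ⟨u, hu, hw⟩
      obtain ⟨h1, h2⟩ := List.append_inj' hw rfl
      have h3 := List.singleton_inj.1 h2
      subst h1
      subst h3
      rcases List.eq_nil_or_concat w with h0 | ⟨v, b, h0⟩
      · have h4 := locR_nil hu h0
        rw [h0]
        have h1 : (dfa A B C).eval [] = some none := rfl
        rw [h1]
        simp only [dfa]
        rw [if_pos h4]
      · rw [List.concat_eq_append] at h0
        obtain ⟨h4, h5⟩ := locR_snoc hu v b h0
        have h6 := (ih b).2 ⟨v, h4, h0⟩
        rw [h6]
        simp only [dfa]
        rw [if_pos h5]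

/-- decoding -/
def dec {T : Type} {N : ℕ} (e : T ≃ Fin N) (n : ℕ) : Option T :=
  if h : n < N then some (e.symm ⟨n, h⟩) else none

theorem dec_code {T : Type} {N : ℕ} (e : T ≃ Fin N) (t : T) : dec e (e t : ℕ) = some t := by
  unfold dec
  rw [dif_pos (e t).2]
  simp

theorem dec_some {T : Type} {N : ℕ} (e : T ≃ Fin N) {n : ℕ} {t : T} (h : dec e n = some t) :
    n = (e t : ℕ) := by
  unfold dec at h
  split_ifs at h with h1
  have h2 := Option.some.inj h
  rw [← h2]
  simp

/-- the automaton reading codes -/
def cdfa {T σ : Type} {N : ℕ} (e : T ≃ Fin N) (D : DFA T σ) : DFA ℕ (Option σ) where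
  step s n := match s, dec e n with
    | some s, some t => some (D.step s t)
    | _, _ => none
  start := some D.start
  accept := {s | ∃ q, q ∈ D.accept ∧ s = some q}

theorem cdfa_eval {T σ : Type} {N : ℕ} (e : T ≃ Fin N) (D : DFA T σ) (w : List ℕ) :
    ∀ q, (cdfa e D).eval w = some q ↔ ∃ t : List T, w = t.map (fun a => (e a : ℕ)) ∧ D.eval t = q := by
  induction w using List.reverseRecOn with
  | nil =>
    intro q
    have h1 : (cdfa e D).eval [] = some D.start := rfl
    rw [h1]
    constructor
    · intro h
      exact ⟨[], rfl, Option.some.inj h⟩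
    · rintro ⟨t, ht, hq⟩
      have h2 : t = [] := by simpa using ht.symm
      rw [h2] at hq
      rw [← hq]
      rfl
  | append_singleton w n ih =>
    intro q
    rw [DFA.eval_append_singleton]
    constructor
    · intro h
      rcases hs : (cdfa e D).eval w with _ | s
      · rw [hs] at h
        simp [cdfa] at h
      · rw [hs] at h
        obtain ⟨t, ht, hq⟩ := (ih s).1 hs
        rcases hd : dec e n with _ | a
        · simp [cdfa, hd] at h
        · simp only [cdfa, hd] at h
          refine ⟨t ++ [a], ?_, ?_⟩
          · rw [List.map_append, ← ht, dec_some e hd]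
            rfl
          · rw [DFA.eval_append_singleton, hq]
            exact Option.some.inj h
    · rintro ⟨t, ht, hq⟩
      rcases List.eq_nil_or_concat t with h0 | ⟨v, b, h0⟩
      · rw [h0] at ht
        simp at ht
      · rw [List.concat_eq_append] at h0
        rw [h0, List.map_append] at ht
        obtain ⟨h1, h2⟩ := List.append_inj' ht rfl
        have h3 : n = (e b : ℕ) := by simpa using h2
        have h4 := (ih (D.eval v)).2 ⟨v, h1, rfl⟩
        rw [h4, h3]
        simp only [cdfa, dec_code]
        rw [h0, DFA.eval_append_singleton] at hq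
        rw [hq]

end LocRegAux

open LocRegAux

theorem loc_reg {T : Type} [Finite T] (A : T → Prop) (B : T → T → Prop) (C : T → Prop) :
    (Loc A B C).IsRegular := by
  classical
  haveI : Fintype T := Fintype.ofFinite T
  refine ⟨Option (Option T), inferInstance, dfa A B C, ?_⟩
  refine Language.ext fun w => ?_
  show (dfa A B C).eval w ∈ (dfa A B C).accept ↔ ∃ u a, LocR A B u a ∧ C a ∧ w = u ++ [a]
  constructor
  · rintro ⟨a, hC, ha⟩
    obtain ⟨u, hu, hw⟩ := (eval_some A B C w a).1 ha
    exact ⟨u, a, hu, hC, hw⟩
  · rintro ⟨u, a, hu, hC, hw⟩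
    exact ⟨a, hC, (eval_some A B C w a).2 ⟨u, hu, hw⟩⟩

theorem nivT {F : Set (Language ℕ)} (hF : IsCone F) {A : Language ℕ} (hA : A ∈ F) {T : Type}
    [Finite T] {K : Language T} (hK : K.IsRegular) (φ ψ : T → List ℕ) :
    ({w : List ℕ | ∃ t ∈ K, t.flatMap φ ∈ A ∧ w = t.flatMap ψ} : Language ℕ) ∈ F := by
  classical
  obtain ⟨N, ⟨e⟩⟩ := Finite.exists_equiv_fin T
  obtain ⟨σ, hσ, D, hD⟩ := hK
  have hR : Rat ({w : List ℕ | ∃ t ∈ K, w = t.map (fun a => (e a : ℕ))} : Language ℕ) := by
    refine ⟨⟨Option σ, inferInstance, cdfa e D, ?_⟩, Finset.range N, ?_⟩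
    · refine Language.ext fun w => ?_
      show (cdfa e D).eval w ∈ (cdfa e D).accept ↔ ∃ t ∈ K, w = t.map (fun a => (e a : ℕ))
      constructor
      · rintro ⟨q, hq, h⟩
        obtain ⟨t, ht, h1⟩ := (cdfa_eval e D w q).1 h
        refine ⟨t, ?_, ht⟩
        rw [← hD]
        show D.eval t ∈ D.accept
        rw [h1]
        exact hq
      · rintro ⟨t, ht, hw⟩
        rw [← hD] at ht
        exact ⟨D.eval t, ht, (cdfa_eval e D w _).2 ⟨t, hw, rfl⟩⟩
    · rintro w ⟨t, _, rfl⟩ a ha
      obtain ⟨b, _, hb⟩ := List.mem_map.1 ha
      rw [← hb]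
      exact Finset.mem_range.2 (e b).2
  have h1 := nivat hF hA hR (fun n => (dec e n).elim [] φ) (fun n => (dec e n).elim [] ψ)
  have hf : ∀ (f : T → List ℕ) (t : List T),
      (t.map (fun a => (e a : ℕ))).flatMap (fun n => (dec e n).elim [] f) = t.flatMap f := by
    intro f t
    induction t with
    | nil => rfl
    | cons a t ih =>
      rw [List.map_cons, List.flatMap_cons, List.flatMap_cons, ih, dec_code]
      rfl
  refine Eq.mp (congrArg (· ∈ F) ?_) h1
  refine Language.ext fun w => ?_
  constructor
  · rintro ⟨t', ⟨t, ht, rfl⟩, h2, h3⟩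
    rw [hf] at h2 h3
    exact ⟨t, ht, h2, h3⟩
  · rintro ⟨t, ht, h2, h3⟩
    refine ⟨t.map (fun a => (e a : ℕ)), ⟨t, ht, rfl⟩, ?_, ?_⟩
    · rw [hf]; exact h2
    · rw [hf]; exact h3

end Pool.Agent.Lib.GCH
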