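import Pool.Agent.Lib.GCH.Pref

/-!
# Module GCH.SoundB: the words U (G w b m) (2 * m) K are not Bad3 (MP_f1c4ef_lc)

Write `g = G w b m`, `d = 2 * m`, `V k = U g d k`.
`V K = p ++ x ++ [h'] ++ [d] ++ Ya ++ Yb ++ [m + b] ++ [d] ++ s`. By `G_pre` `p ++ x ++ [h'] ++ [d] = V k`, `k = j + 1`, and by
`G_grp` with `q = V (j + 1)`, `Z = Ya ++ Yb ++ [m + b]` (`d ∉ Z`): `Z = g (j + 1)` (`U_inj (G_Ch h)` for the index). Apply
`mn m b` to `p ++ x ++ [h'] ++ [d] = V (j + 1)`: `x` has letters `< m` and `b ∉ x` (`G_letters`), `mn m b h' = [b]`,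
`mn m b d = []`, so `p.flatMap (mn m b) ++ x ++ [b] = U w b (NN w b (j + 1))` (`GU_mn`), and `EE b (p.flatMap (mn m b))`:
`p = []`, or `p = q ++ [a]` with `a ≥ m`; if `a < 2 * m` it ends with `[b]`; otherwise `a = d` (`G_letters`), `p = V i` by
`G_pre`, `GU_mn`, `U_EE`. By `mem_last h`: `p.flatMap (mn m b) = U w b n`, `x = w n`; so
`U w b (n + 1) = U w b (NN w b (j + 1))`. Apply `cr m` to `Z = g (j + 1)`:
`Ya.flatMap (cr m) ++ Yb.flatMap (cr m) ++ [b] = cc w b (j + 1)` (`G_cr`), hence with `U_NN`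
`(U w b (NN w b j) ++ Ya.flatMap (cr m)) ++ Yb.flatMap (cr m) ++ [b] = U w b (NN w b (j + 1)) = U w b n ++ w n ++ [b]`;
`b ∉ Yb.flatMap (cr m)` (`m + b ∉ Yb`, letters of `Yb` are `< 2 * m`), and the first word is `EE b` (`Ya = []`, `U_EE`; or
`Ya = q ++ [m + b]`, then `Ya.flatMap (cr m)` ends with `[b]`). By `last_eq`: `Yb.flatMap (cr m) = w n`. So the output of
the test is `U w b n ++ w n ++ [b] = U w b (n + 1)`, in `CC w b`.
-/

set_option autoImplicit false

namespace Pool.Agent.Lib.GCH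

namespace SoundBAux

/-- a word in the letters `< m` is not changed -/
theorem mn_id {m b : ℕ} : ∀ x : List ℕ, (∀ a ∈ x, a < m) → x.flatMap (mn m b) = x := by
  intro x
  induction x with
  | nil => intro _; rfl
  | cons a x ih =>
    intro hx
    have h1 : mn m b a = [a] := if_pos (hx a List.mem_cons_self)
    rw [List.flatMap_cons, h1, ih fun c hc => hx c (List.mem_cons_of_mem _ hc)]
    rfl

theorem mn_mid {m b a : ℕ} (h1 : m ≤ a) (h2 : a < 2 * m) : mn m b a = [b] := by
  unfold mn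
  rw [if_neg (by omega), if_pos h2]

theorem mn_top {m b : ℕ} : mn m b (2 * m) = [] := by
  unfold mn
  rw [if_neg (by omega), if_neg (by omega)]

theorem cr_mid {m b : ℕ} (hb : b < m) : cr m (m + b) = [b] := by
  unfold cr
  rw [if_neg (by omega), if_pos (by omega), Nat.add_sub_cancel_left]

theorem mem_cr {m b a : ℕ} (h : b ∈ cr m a) : a = m + b := by
  unfold cr at h
  split_ifs at h with h1 h2
  · simp at h
  · rw [List.mem_singleton] at h
    omega
  · simp at h

theorem flatMap_concat {α β : Type} (f : α → List β) (q : List α) (a : α) :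
    (q ++ [a]).flatMap f = q.flatMap f ++ f a := by
  rw [List.flatMap_append, List.flatMap_cons, List.flatMap_nil, List.append_nil]

end SoundBAux

theorem sound3 {m b : ℕ} {w : ℕ → List ℕ} (h : Ch m b w) (K : ℕ) :
    ¬ Bad3 m b w (U (G w b m) (2 * m) K) := by
  rintro ⟨p, x, h', Ya, Yb, s, h1, hp, hx, hm1, hm2, hYa, hE, hYb, hYb', hbad⟩
  have hb := h.bm
  -- the prefix up to the end of the group
  obtain ⟨k, -, hk⟩ := G_pre h (K := K) (p := p ++ x ++ [h'] ++ [2 * m])
    (s := Ya ++ Yb ++ [m + b] ++ [2 * m] ++ s) (Or.inr ⟨p ++ x ++ [h'], rfl⟩)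
    (by rw [h1]; simp only [List.append_assoc])
  obtain ⟨j, rfl⟩ : ∃ j, k = j + 1 := by
    cases k with
    | zero =>
      have h3 := congrArg List.length hk
      simp [U] at h3
    | succ j => exact ⟨j, rfl⟩
  have hZ : 2 * m ∉ Ya ++ Yb ++ [m + b] := by
    rw [List.mem_append, List.mem_append, List.mem_singleton]
    rintro ((h2 | h2) | h2)
    · exact hYa h2
    · exact hYb h2
    · omega
  obtain ⟨i, hi1, hi2, -⟩ := G_grp h (K := K) (q := p ++ x ++ [h'] ++ [2 * m])
    (Z := Ya ++ Yb ++ [m + b]) (s := s) (Or.inr ⟨p ++ x ++ [h'], rfl⟩) hZ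
    (by rw [h1]; simp only [List.append_assoc])
  have hij : i = j + 1 := U_inj (G_Ch h) (hi1.symm.trans hk)
  subst hij
  -- the letters of the word
  have hlet : ∀ a ∈ p ++ x, a < 2 * m + 1 ∧ a ≠ b := by
    intro a ha
    refine G_letters h K a ?_
    rw [h1]
    simp only [List.append_assoc, List.mem_append] at ha ⊢
    rcases ha with ha | ha
    · exact Or.inl ha
    · exact Or.inr (Or.inl ha)
  have hbx : b ∉ x := fun h2 => (hlet b (List.mem_append_right _ h2)).2 rfl
  -- the underlying word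
  have h4 : p.flatMap (mn m b) ++ x ++ [b] = U w b (NN w b (j + 1)) := by
    rw [← GU_mn h, ← hk, SoundBAux.flatMap_concat, SoundBAux.flatMap_concat, List.flatMap_append,
      SoundBAux.mn_id x hx, SoundBAux.mn_mid hm1 hm2, SoundBAux.mn_top, List.append_nil]
  have hEp : EE b (p.flatMap (mn m b)) := by
    rcases hp with hp | ⟨q, a, ha, hp⟩
    · exact Or.inl (by rw [hp]; rfl)
    · by_cases ha2 : a < 2 * m
      · refine Or.inr ⟨q.flatMap (mn m b), ?_⟩
        rw [hp, SoundBAux.flatMap_concat, SoundBAux.mn_mid ha ha2]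
      · have ha3 : a = 2 * m := by
          have h5 := (hlet a (by rw [hp]; simp)).1
          omega
        obtain ⟨r, -, hr⟩ := G_pre h (K := K) (p := p)
          (s := x ++ [h'] ++ [2 * m] ++ Ya ++ Yb ++ [m + b] ++ [2 * m] ++ s)
          (Or.inr ⟨q, by rw [hp, ha3]⟩) (by rw [h1]; simp only [List.append_assoc])
        rw [hr, GU_mn h]
        exact U_EE _ _ _
  obtain ⟨n, hn1, hn2⟩ := mem_last h hEp hbx ⟨_, h4⟩
  -- the marks of the next group
  have h6 : Ya.flatMap (cr m) ++ Yb.flatMap (cr m) ++ [b] = cc w b (j + 1) := by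
    rw [← G_cr h, ← hi2, SoundBAux.flatMap_concat, List.flatMap_append, SoundBAux.cr_mid hb]
  have h7 : (U w b (NN w b j) ++ Ya.flatMap (cr m)) ++ Yb.flatMap (cr m) ++ [b] =
      U w b n ++ w n ++ [b] := by
    rw [← hn1, ← hn2, h4, U_NN, ← h6]
    simp only [List.append_assoc]
  have hbY : b ∉ Yb.flatMap (cr m) := by
    intro h8
    obtain ⟨a, ha, hab⟩ := List.mem_flatMap.1 h8
    rw [SoundBAux.mem_cr hab] at ha
    exact hYb' ha
  have hEY : EE b (U w b (NN w b j) ++ Ya.flatMap (cr m)) := by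
    rcases hE with hE | ⟨q, hE⟩
    · rw [hE, List.flatMap_nil, List.append_nil]
      exact U_EE _ _ _
    · refine Or.inr ⟨U w b (NN w b j) ++ q.flatMap (cr m), ?_⟩
      rw [hE, SoundBAux.flatMap_concat, SoundBAux.cr_mid hb, List.append_assoc]
  obtain ⟨-, h9⟩ := last_eq hEY (U_EE w b n) hbY (h.nb n) h7
  refine hbad ⟨n + 1, ?_⟩
  rw [hn1, h9]
  change U w b n ++ w n ++ [b] = U w b n ++ (w n ++ [b])
  rw [List.append_assoc]

end Pool.Agent.Lib.GCH
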