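import Pool.Agent.Lib.GCH.SoundA
import Pool.Agent.Lib.GCH.SoundB
import Pool.Agent.Lib.GCH.Compl
import Pool.Agent.Lib.GCH.BadMem
import Pool.Agent.Lib.GCH.Gap
import Pool.Agent.Lib.GCH.Grow
import Pool.Agent.Lib.F1c4.Final

/-!
# Minimal rational cones contain no Goldstine type language (MP_f1c4ef_lc)
-/

set_option autoImplicit false

namespace Pool.Agent.Lib.GCH

open Pool.Agent.Lib.F1c4

theorem sound {m b : ℕ} {w : ℕ → List ℕ} (h : Ch m b w) (K : ℕ) :
    ¬ Bad m b w (U (G w b m) (2 * m) K) := by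
  rintro (h0 | h1 | h2 | h3)
  · exact sound0 h K h0
  · exact sound1 h K h1
  · exact sound2 h K h2
  · exact sound3 h K h3

/-- one step stays in the cone -/
theorem step_mem {F : Set (Language ℕ)} (hF : IsCone F) {m b : ℕ} {w : ℕ → List ℕ}
    (h : Ch m b w) (hA : co m (CC w b) ∈ F) : co (2 * m + 1) (CC (G w b m) (2 * m)) ∈ F := by
  have h1 := bad_mem hF h hA
  have h2 : ({v : List ℕ | (∀ a ∈ v, a < 2 * m + 1) ∧ Bad m b w v} : Language ℕ)
      = co (2 * m + 1) (CC (G w b m) (2 * m)) := by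
    ext v
    constructor
    · rintro ⟨h3, h4⟩
      refine ⟨h3, ?_⟩
      rintro ⟨K, rfl⟩
      exact sound h K h4
    · rintro ⟨h3, h4⟩
      refine ⟨h3, ?_⟩
      by_contra h5
      exact h4 (compl h h3 h5)
  rw [← h2]
  exact h1

theorem main {F : Set (Language ℕ)} (hF : IsMinimal F) {m b : ℕ} {w : ℕ → List ℕ}
    (h : Ch m b w) : co m (CC w b) ∉ F := by
  intro hA
  -- three steps
  have h1 := G_Ch h
  have hA1 := step_mem hF.1 h hA
  have h2 := G_Ch h1
  have hA2 := step_mem hF.1 h1 hA1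
  have h3 := G_Ch h2
  have hA3 := step_mem hF.1 h2 hA2
  -- the third language generates the cone
  have hne : ∃ v, v ∈ co (2 * (2 * (2 * m + 1) + 1) + 1)
      (CC (G (G (G w b m) (2 * m) (2 * m + 1)) (2 * (2 * m + 1)) (2 * (2 * m + 1) + 1))
        (2 * (2 * (2 * m + 1) + 1))) := by
    by_contra hcon
    apply nonreg h3
    have h4 : co (2 * (2 * (2 * m + 1) + 1) + 1)
      (CC (G (G (G w b m) (2 * m) (2 * m + 1)) (2 * (2 * m + 1)) (2 * (2 * m + 1) + 1))
        (2 * (2 * (2 * m + 1) + 1))) = (0 : Language ℕ) := by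
      ext v
      constructor
      · intro hv
        exact absurd ⟨v, hv⟩ hcon
      · intro hv
        exact absurd hv (Language.notMem_zero v)
    rw [h4]
    exact rat_zero.1
  have hal := hF.1.alph _ hA3
  have hc := FinalAux.lc_cone hF.1 hA3 hne
  have hr : {L | Rat L} ⊂ FinalAux.LC (co (2 * (2 * (2 * m + 1) + 1) + 1)
      (CC (G (G (G w b m) (2 * m) (2 * m + 1)) (2 * (2 * m + 1)) (2 * (2 * m + 1) + 1))
        (2 * (2 * (2 * m + 1) + 1)))) := by
    refine ⟨fun K hK => rat_mem hc hK, fun hsub => ?_⟩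
    exact nonreg h3 (hsub (fun _ _ h => h)).1
  have hMF : FinalAux.LC (co (2 * (2 * (2 * m + 1) + 1) + 1)
      (CC (G (G (G w b m) (2 * m) (2 * m + 1)) (2 * (2 * m + 1)) (2 * (2 * m + 1) + 1))
        (2 * (2 * (2 * m + 1) + 1)))) ⊆ F := fun A hA => hA F hF.1 hA3
  have hFM : F ⊆ FinalAux.LC (co (2 * (2 * (2 * m + 1) + 1) + 1)
      (CC (G (G (G w b m) (2 * m) (2 * m + 1)) (2 * (2 * m + 1)) (2 * (2 * m + 1) + 1))
        (2 * (2 * (2 * m + 1) + 1)))) := by
    by_contra hn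
    exact hF.2.2 _ hc hr ⟨hMF, hn⟩
  obtain ⟨T, hT⟩ := hFM hA2 _ (FinalAux.tc_cone hal hne) (tc_self hal)
  obtain ⟨c, hgap⟩ := gap h2 h3 T hT
  obtain ⟨J, i, h5, h6⟩ := grow h1 (G_two h) c
  have h7 := hgap J i h5
  omega

end Pool.Agent.Lib.GCH
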