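import Pool.Agent.Lib.GCH.Defs3

/-!
# Module GCH.MhS: a test of a true prefix of the trace gives a prefix of `X` (MP_f1c4ef_lc)

PROOF. By induction on `h : LocR (MA M X) (MB M) u a` show: if `(u ++ [a]).map Prod.fst = (List.range n).map (M.tr X)` then
`n = u.length + 1`, `a.1 = M.tr X u.length`, and, with `o = (u ++ [a]).flatMap (Mf a0)`:
* `a.2 = Md.lin i f → o = pre (vx X) ((M.cf X u.length).2 i + 1)`,
* `a.2 = Md.off → o ∈ Pf (vx X)`, `a.2 = Md.wait → o = []`, `a.2 ≠ Md.err`.
Case `one`: `n = 1`, `a.1 = M.tr X 0 = (M.q0, fun _ => X 0)` (all heads at `0`); `lin i f`: `f = true`, output `[X 0] = pre _ 1`.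
Case `snoc`: `a.1 = M.tr X t`, `b.1 = M.tr X (t + 1)`, `t = u.length`. `lin`, `lin`: `i = M.sr (M.tr X t) j`, `g = M.mv (M.tr X t) j`,
`(M.cf X (t + 1)).2 j = (M.cf X t).2 i + if g then 1 else 0`; if `g = true` the new output letter is
`(M.tr X (t + 1)).2 j = X ((M.cf X (t + 1)).2 j)` (`pre x (n + 1) = pre x n ++ [x n]`: `List.range_succ`), otherwise no output.
`wait`, `err`: impossible, `M.loc (M.tr X t) (M.tr X (t + 1))` holds: `mh_loc` below. The others: no output; `[] = pre _ 0`.
-/

set_option autoImplicit false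

namespace Pool.Agent.Lib.GCH

variable {m k : ℕ} {Q : Type}

theorem pre_snoc (x : ℕ → ℕ) (n : ℕ) : pre x (n + 1) = pre x n ++ [x n] := by
  simp [pre, List.range_succ]

theorem mh_loc (M : MH m k Q) (X : ℕ → Fin m) (t : ℕ) : M.loc (M.tr X t) (M.tr X (t + 1)) := by
  refine ⟨rfl, fun j hj => ?_⟩
  have h1 : (M.tr X (t + 1)).2 j = X ((M.cf X (t + 1)).2 j) := rfl
  have h2 : (M.cf X (t + 1)).2 j =
      (M.cf X t).2 (M.sr (M.tr X t) j) + if M.mv (M.tr X t) j then 1 else 0 := rfl
  rw [h1, h2, hj]
  rfl

namespace MhSAux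

theorem split (M : MH m k Q) (X : ℕ → Fin m) (u : List ((Q × (Fin k → Fin m)) × Md k))
    (a : (Q × (Fin k → Fin m)) × Md k) (n : ℕ)
    (hn : (u ++ [a]).map Prod.fst = (List.range n).map (M.tr X)) :
    n = u.length + 1 ∧ a.1 = M.tr X u.length ∧
      u.map Prod.fst = (List.range u.length).map (M.tr X) := by
  have hl : n = u.length + 1 := by
    have := congrArg List.length hn
    simpa using this.symm
  subst hl
  rw [List.range_succ, List.map_append, List.map_append] at hn
  have h := List.append_inj' hn (by simp)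
  refine ⟨rfl, ?_, h.1⟩
  simpa using h.2

theorem cf_succ (M : MH m k Q) (X : ℕ → Fin m) (t : ℕ) (j : Fin k) :
    (M.cf X (t + 1)).2 j =
      (M.cf X t).2 (M.sr (M.tr X t) j) + if M.mv (M.tr X t) j then 1 else 0 := rfl

theorem tr_snd (M : MH m k Q) (X : ℕ → Fin m) (t : ℕ) (j : Fin k) :
    (M.tr X t).2 j = X ((M.cf X t).2 j) := rfl

theorem inv (M : MH m k Q) (X : ℕ → Fin m) {u : List ((Q × (Fin k → Fin m)) × Md k)}
    {a : (Q × (Fin k → Fin m)) × Md k} (h : LocR (MA M X) (MB M) u a) (a0 : List ℕ) :
    ∀ n : ℕ, (u ++ [a]).map Prod.fst = (List.range n).map (M.tr X) →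
      (∀ i f, a.2 = Md.lin i f →
        (u ++ [a]).flatMap (Mf a0) = pre (vx X) ((M.cf X u.length).2 i + 1)) ∧
      (a.2 = Md.off → (u ++ [a]).flatMap (Mf a0) ∈ Pf (vx X)) ∧
      (a.2 = Md.wait → (u ++ [a]).flatMap (Mf a0) = []) ∧ a.2 ≠ Md.err := by
  induction h with
  | @one a hA =>
    intro n hn
    obtain ⟨-, ha, -⟩ := split M X [] a n hn
    obtain ⟨s, d⟩ := a
    have hs : s = (M.q0, fun _ => X 0) := ha
    subst hs
    cases d with
    | lin i f =>
      have hf : f = true := hA
      subst hf
      refine ⟨?_, fun h => (by cases h), fun h => (by cases h),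
        fun h => (by cases h)⟩
      intro j g hj
      have h0 : ((M.cf X ([] : List ((Q × (Fin k → Fin m)) × Md k)).length).2 j) = 0 := rfl
      rw [h0]
      simp [Mf, pre, vx]
    | off => exact absurd hA id
    | wait =>
      refine ⟨fun _ _ h => (by cases h), fun h => (by cases h), fun _ => ?_,
        fun h => (by cases h)⟩
      simp [Mf]
    | err => exact absurd rfl hA
  | @snoc u a b h hb ih =>
    intro n hn
    obtain ⟨-, hb1, hu⟩ := split M X (u ++ [a]) b n hn
    have ih' := ih (u ++ [a]).length hu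
    obtain ⟨-, ha1, -⟩ := split M X u a _ hu
    have hlen : (u ++ [a]).length = u.length + 1 := by simp
    rw [hlen] at hb1
    rw [List.flatMap_append]
    generalize hO : (u ++ [a]).flatMap (Mf a0) = O at ih' ⊢
    obtain ⟨s, d⟩ := a
    obtain ⟨s', d'⟩ := b
    simp only at ha1 hb1
    subst ha1
    subst hb1
    rw [hlen]
    obtain ⟨i1, i2, i3, i4⟩ := ih'
    cases d with
    | lin i f =>
      have hi := i1 i f rfl
      cases d' with
      | lin j g =>
        obtain ⟨e1, e2⟩ : i = M.sr (M.tr X u.length) j ∧ g = M.mv (M.tr X u.length) j := hb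
        refine ⟨?_, fun h => (by cases h), fun h => (by cases h),
          fun h => (by cases h)⟩
        intro j' g' hj
        have hj1 : j = j' := by injection hj
        subst hj1
        rw [cf_succ, ← e1, ← e2, hi]
        cases g with
        | true =>
          have hl : [(M.tr X (u.length + 1), Md.lin j true)].flatMap (Mf a0) =
              [vx X ((M.cf X u.length).2 i + 1)] := by
            have : (M.tr X (u.length + 1)).2 j = X ((M.cf X u.length).2 i + 1) := by
              rw [tr_snd, cf_succ, ← e1, ← e2]; rfl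
            simp [Mf, this, vx]
          rw [hl, ← pre_snoc]
          rfl
        | false => simp [Mf]
      | off =>
        refine ⟨fun _ _ h => (by cases h), fun _ => ?_, fun h => (by cases h),
          fun h => (by cases h)⟩
        exact ⟨(M.cf X u.length).2 i + 1, by rw [hi]; simp [Mf]⟩
      | wait => exact absurd hb id
      | err => exact absurd hb id
    | off =>
      cases d' with
      | lin j g => exact absurd hb id
      | off =>
        refine ⟨fun _ _ h => (by cases h), fun _ => ?_, fun h => (by cases h),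
          fun h => (by cases h)⟩
        have := i2 rfl
        simpa [Mf] using this
      | wait => exact absurd hb id
      | err => exact absurd hb id
    | wait =>
      cases d' with
      | lin j g => exact absurd hb id
      | off => exact absurd hb id
      | wait =>
        refine ⟨fun _ _ h => (by cases h), fun h => (by cases h), fun _ => ?_,
          fun h => (by cases h)⟩
        rw [i3 rfl]
        simp [Mf]
      | err => exact absurd (mh_loc M X u.length) hb
    | err => exact absurd rfl i4

end MhSAux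

theorem mh_sound (M : MH m k Q) (X : ℕ → Fin m) {u : List ((Q × (Fin k → Fin m)) × Md k)}
    {a : (Q × (Fin k → Fin m)) × Md k} (h : LocR (MA M X) (MB M) u a) (a0 : List ℕ) (n : ℕ)
    (hn : (u ++ [a]).map Prod.fst = (List.range n).map (M.tr X)) :
    (u ++ [a]).flatMap (Mf a0) ∈ Pf (vx X) := by
  obtain ⟨i1, i2, i3, i4⟩ := MhSAux.inv M X h a0 n hn
  cases hd : a.2 with
  | lin i f => exact ⟨_, i1 i f hd⟩
  | off => exact i2 hd
  | wait => exact ⟨0, by rw [i3 hd]; rfl⟩
  | err => exact absurd hd i4

end Pool.Agent.Lib.GCH
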