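import Pool.Agent.Lib.GCH.ChainB
import Pool.Agent.Lib.GCH.StepF

/-!
# Module GCH.Pref: prefixes of the words U (G w b m) (2 * m) K (MP_f1c4ef_lc)

PROOFS. `hg := G_Ch h`. `G_pre`: `U_pre hg`. `G_grp`: `q ++ Z ++ [2 * m]` is `EE (2 * m)` and a prefix of `U g d K`, so by
`U_pre hg` it is `U g d k`, in `CC g d`; `mem_last hg` gives `q = U g d j`, `Z = g j`. The last claim is the definition of `U`.
`G_letters`: induction on `K`: the letters of `U g d K` are `2 * m` or letters of some `g k` (`G_let`); `b < m` (`h.bm`).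
`G_front`: `U_add` with `K = 1 + (K - 1)`, `U g d 1 = [] ++ (g 0 ++ [d])`.
-/

set_option autoImplicit false

namespace Pool.Agent.Lib.GCH

theorem G_pre {m b : ℕ} {w : ℕ → List ℕ} (h : Ch m b w) {K : ℕ} {p s : List ℕ}
    (hp : EE (2 * m) p) (hK : U (G w b m) (2 * m) K = p ++ s) :
    ∃ k, k ≤ K ∧ p = U (G w b m) (2 * m) k :=
  U_pre (G_Ch h) hp hK

theorem G_grp {m b : ℕ} {w : ℕ → List ℕ} (h : Ch m b w) {K : ℕ} {q Z s : List ℕ}
    (hq : EE (2 * m) q) (hZ : 2 * m ∉ Z) (hK : U (G w b m) (2 * m) K = q ++ Z ++ [2 * m] ++ s) :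
    ∃ j, q = U (G w b m) (2 * m) j ∧ Z = G w b m j ∧
      q ++ Z ++ [2 * m] = U (G w b m) (2 * m) (j + 1) := by
  obtain ⟨k, _, hk⟩ := U_pre (G_Ch h) (Or.inr ⟨q ++ Z, rfl⟩) hK
  obtain ⟨n, h1, h2⟩ := mem_last (G_Ch h) hq hZ ⟨k, hk⟩
  refine ⟨n, h1, h2, ?_⟩
  have e : U (G w b m) (2 * m) (n + 1) = U (G w b m) (2 * m) n ++ (G w b m n ++ [2 * m]) := rfl
  rw [e, ← h1, ← h2, List.append_assoc]

theorem G_letters {m b : ℕ} {w : ℕ → List ℕ} (h : Ch m b w) (K : ℕ) :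
    ∀ a ∈ U (G w b m) (2 * m) K, a < 2 * m + 1 ∧ a ≠ b := by
  induction K with
  | zero => intro a ha; simp [U] at ha
  | succ K ih =>
    intro a ha
    have hb := h.bm
    rcases List.mem_append.1 ha with ha | ha
    · exact ih a ha
    · rcases List.mem_append.1 ha with ha | ha
      · obtain ⟨h1, h2⟩ := G_let h K a ha
        exact ⟨by omega, h2⟩
      · rw [List.mem_singleton] at ha
        subst ha
        exact ⟨by omega, by omega⟩

theorem G_front {m b : ℕ} {w : ℕ → List ℕ} (K : ℕ) (hK : U (G w b m) (2 * m) K ≠ []) :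
    ∃ s, U (G w b m) (2 * m) K = G w b m 0 ++ [2 * m] ++ s := by
  cases K with
  | zero => exact absurd rfl hK
  | succ k =>
    refine ⟨seg (G w b m) (2 * m) 1 k, ?_⟩
    rw [Nat.add_comm k 1, U_add]
    rfl

end Pool.Agent.Lib.GCH
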