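import Pool.Agent.Lib.GCH.Defs2

/-!
# Module GCH.Pz: two words in parallel (MP_f1c4ef_lc)

FACTS. For `a, c ≤ m`, `y = a + (m + 1) * c`: `y < BB m`, `y % (m + 1) = a`, `y / (m + 1) = c` (`Nat.add_mul_mod_self_left`,
`Nat.add_mul_div_left`, `Nat.div_eq_of_lt`); the letter `m` is the blank. All by induction on `u`, `k` in the four
cases of the definition of `pz`.
`pz_chain`: the letters are first pairs `(a, c)`, then either only `(a, blank)` or only `(blank, c)`; no
letter of `pz m u k` is a delimiter.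
`pz_snd`: if `u.length ≤ k.length` then all letters `(a, c)`, `(blank, c)` have second coordinate `c < m`.
`pz_last`: if `k.length < u.length` the last letter is `(a, blank)` (induction; `List.getLast` or an explicit word).
`pz_uniq`: induction on `Y`. Let `Y = y :: Y'`, `a = y % (m + 1)`, `c = y / (m + 1)`, `y = a + (m + 1) * c` (`Nat.mod_add_div`).
`a < m`, `c < m`: `hh` gives `[a]`, `kk` gives `[c]`, induction hypothesis. `c = m` (then `a ≠ m`): by `hc` all letters of
`Y'` have second coordinate `m` (induction along the chain, lemma), so `Y.flatMap (kk m) = []`, and `pz m (a :: u) [] =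
y :: pz m u []`. `a = m`: symmetric. (`hc` for `Y'`: put `y` in front of `p`.)
-/

set_option autoImplicit false

namespace Pool.Agent.Lib.GCH

namespace PzAux

private theorem enc_lt {m a c : ℕ} (ha : a ≤ m) (hc : c ≤ m) : a + (m + 1) * c < BB m := by
  unfold BB
  calc a + (m + 1) * c < (m + 1) + (m + 1) * c := by omega
    _ ≤ (m + 1) + (m + 1) * m := by
        have := Nat.mul_le_mul_left (m + 1) hc
        omega
    _ = (m + 1) * (m + 1) := by ring

private theorem enc_mod {m a : ℕ} (c : ℕ) (ha : a ≤ m) : (a + (m + 1) * c) % (m + 1) = a := by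
  rw [Nat.add_mul_mod_self_left]
  exact Nat.mod_eq_of_lt (by omega)

private theorem enc_div {m a : ℕ} (c : ℕ) (ha : a ≤ m) : (a + (m + 1) * c) / (m + 1) = c := by
  rw [Nat.add_mul_div_left _ _ (Nat.succ_pos m), Nat.div_eq_of_lt (by omega), Nat.zero_add]

private theorem pz_mem {m : ℕ} : ∀ (u k : List ℕ) (y : ℕ), y ∈ pz m u k →
    ∃ a c, y = a + (m + 1) * c ∧ ((a ∈ u ∧ c ∈ k) ∨ (a ∈ u ∧ c = m) ∨ (a = m ∧ c ∈ k))
  | [], [], y, hy => by simp [pz] at hy
  | a :: u, [], y, hy => by
    rw [pz, List.mem_cons] at hy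
    rcases hy with rfl | hy
    · exact ⟨a, m, rfl, Or.inr (Or.inl ⟨List.mem_cons_self, rfl⟩)⟩
    · obtain ⟨a', c', h1, h2⟩ := pz_mem u [] y hy
      refine ⟨a', c', h1, ?_⟩
      rcases h2 with h2 | h2 | h2
      · exact Or.inl ⟨List.mem_cons_of_mem _ h2.1, h2.2⟩
      · exact Or.inr (Or.inl ⟨List.mem_cons_of_mem _ h2.1, h2.2⟩)
      · exact Or.inr (Or.inr h2)
  | [], c :: k, y, hy => by
    rw [pz, List.mem_cons] at hy
    rcases hy with rfl | hy
    · exact ⟨m, c, rfl, Or.inr (Or.inr ⟨rfl, List.mem_cons_self⟩)⟩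
    · obtain ⟨a', c', h1, h2⟩ := pz_mem [] k y hy
      refine ⟨a', c', h1, ?_⟩
      rcases h2 with h2 | h2 | h2
      · exact Or.inl ⟨h2.1, List.mem_cons_of_mem _ h2.2⟩
      · exact Or.inr (Or.inl h2)
      · exact Or.inr (Or.inr ⟨h2.1, List.mem_cons_of_mem _ h2.2⟩)
  | a :: u, c :: k, y, hy => by
    rw [pz, List.mem_cons] at hy
    rcases hy with rfl | hy
    · exact ⟨a, c, rfl, Or.inl ⟨List.mem_cons_self, List.mem_cons_self⟩⟩
    · obtain ⟨a', c', h1, h2⟩ := pz_mem u k y hy
      refine ⟨a', c', h1, ?_⟩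
      rcases h2 with h2 | h2 | h2
      · exact Or.inl ⟨List.mem_cons_of_mem _ h2.1, List.mem_cons_of_mem _ h2.2⟩
      · exact Or.inr (Or.inl ⟨List.mem_cons_of_mem _ h2.1, h2.2⟩)
      · exact Or.inr (Or.inr ⟨h2.1, List.mem_cons_of_mem _ h2.2⟩)

private theorem hh_lt {m a c : ℕ} (b : ℕ) (ha : a < m) (hc : c ≤ m) :
    hh m b (a + (m + 1) * c) = [a] := by
  unfold hh
  rw [if_pos (enc_lt ha.le hc), enc_mod c ha.le, if_pos ha]

private theorem hh_eq {m c : ℕ} (b : ℕ) (hc : c ≤ m) : hh m b (m + (m + 1) * c) = [] := by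
  unfold hh
  rw [if_pos (enc_lt le_rfl hc), enc_mod c le_rfl, if_neg (lt_irrefl m)]

private theorem kk_lt {m a c : ℕ} (ha : a ≤ m) (hc : c < m) :
    kk m (a + (m + 1) * c) = [c] := by
  unfold kk
  rw [if_pos (enc_lt ha hc.le), enc_div c ha, if_pos hc]

private theorem kk_eq {m a : ℕ} (ha : a ≤ m) : kk m (a + (m + 1) * m) = [] := by
  unfold kk
  rw [if_pos (enc_lt ha le_rfl), enc_div m ha, if_neg (lt_irrefl m)]

private theorem rl_enc {m a c a' c' : ℕ} (ha : a ≤ m) (ha' : a' ≤ m) (hc' : c' ≤ m)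
    (h1 : a = m → a' = m) (h2 : c = m → c' = m) :
    Rl m (a + (m + 1) * c) (a' + (m + 1) * c') := by
  have hlt := enc_lt ha' hc'
  refine ⟨?_, ?_, ?_⟩
  · intro _ _
    rw [enc_mod c ha, enc_mod c' ha', enc_div c ha, enc_div c' ha']
    exact ⟨h1, h2⟩
  · intro h
    omega
  · intro h
    omega

private theorem hh_all {m b : ℕ} : ∀ (u k : List ℕ), (∀ a ∈ u, a < m) → (∀ a ∈ k, a < m) →
    (pz m u k).flatMap (hh m b) = u
  | [], [], _, _ => by simp [pz]
  | a :: u, [], hu, hk => by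
    rw [pz, List.flatMap_cons, hh_lt b (hu a List.mem_cons_self) le_rfl,
      hh_all u [] (fun x hx => hu x (List.mem_cons_of_mem _ hx)) hk]
    rfl
  | [], c :: k, hu, hk => by
    rw [pz, List.flatMap_cons, hh_eq b (hk c List.mem_cons_self).le,
      hh_all [] k hu (fun x hx => hk x (List.mem_cons_of_mem _ hx))]
    rfl
  | a :: u, c :: k, hu, hk => by
    rw [pz, List.flatMap_cons, hh_lt b (hu a List.mem_cons_self) (hk c List.mem_cons_self).le,
      hh_all u k (fun x hx => hu x (List.mem_cons_of_mem _ hx))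
        (fun x hx => hk x (List.mem_cons_of_mem _ hx))]
    rfl

private theorem kk_all {m : ℕ} : ∀ (u k : List ℕ), (∀ a ∈ u, a < m) → (∀ a ∈ k, a < m) →
    (pz m u k).flatMap (kk m) = k
  | [], [], _, _ => by simp [pz]
  | a :: u, [], hu, hk => by
    rw [pz, List.flatMap_cons, kk_eq (hu a List.mem_cons_self).le,
      kk_all u [] (fun x hx => hu x (List.mem_cons_of_mem _ hx)) hk]
    rfl
  | [], c :: k, hu, hk => by
    rw [pz, List.flatMap_cons, kk_lt le_rfl (hk c List.mem_cons_self),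
      kk_all [] k hu (fun x hx => hk x (List.mem_cons_of_mem _ hx))]
    rfl
  | a :: u, c :: k, hu, hk => by
    rw [pz, List.flatMap_cons, kk_lt (hu a List.mem_cons_self).le (hk c List.mem_cons_self),
      kk_all u k (fun x hx => hu x (List.mem_cons_of_mem _ hx))
        (fun x hx => hk x (List.mem_cons_of_mem _ hx))]
    rfl

private theorem chain_all {m : ℕ} : ∀ (u k : List ℕ), (∀ a ∈ u, a < m) → (∀ a ∈ k, a < m) →
    List.IsChain (Rl m) (pz m u k)
  | [], [], _, _ => by simp [pz]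
  | a :: u, [], hu, hk => by
    have ih := chain_all u [] (fun x hx => hu x (List.mem_cons_of_mem _ hx)) hk
    have ha := hu a List.mem_cons_self
    rw [pz, List.isChain_cons]
    refine ⟨?_, ih⟩
    intro y hy
    obtain ⟨a', c', rfl, h2⟩ := pz_mem u [] y (List.mem_of_mem_head? hy)
    rcases h2 with h2 | h2 | h2
    · exact absurd h2.2 (List.not_mem_nil)
    · have ha' := hu a' (List.mem_cons_of_mem _ h2.1)
      exact rl_enc ha.le ha'.le h2.2.le (fun h => by omega) (fun _ => h2.2)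
    · exact absurd h2.2 (List.not_mem_nil)
  | [], c :: k, hu, hk => by
    have ih := chain_all [] k hu (fun x hx => hk x (List.mem_cons_of_mem _ hx))
    have hc := hk c List.mem_cons_self
    rw [pz, List.isChain_cons]
    refine ⟨?_, ih⟩
    intro y hy
    obtain ⟨a', c', rfl, h2⟩ := pz_mem [] k y (List.mem_of_mem_head? hy)
    rcases h2 with h2 | h2 | h2
    · exact absurd h2.1 (List.not_mem_nil)
    · exact absurd h2.1 (List.not_mem_nil)
    · have hc' := hk c' (List.mem_cons_of_mem _ h2.2)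
      exact rl_enc le_rfl h2.1.le hc'.le (fun _ => h2.1) (fun h => by omega)
  | a :: u, c :: k, hu, hk => by
    have ih := chain_all u k (fun x hx => hu x (List.mem_cons_of_mem _ hx))
      (fun x hx => hk x (List.mem_cons_of_mem _ hx))
    have ha := hu a List.mem_cons_self
    have hc := hk c List.mem_cons_self
    rw [pz, List.isChain_cons]
    refine ⟨?_, ih⟩
    intro y hy
    obtain ⟨a', c', rfl, h2⟩ := pz_mem u k y (List.mem_of_mem_head? hy)
    have ha' : a' ≤ m := by
      rcases h2 with h2 | h2 | h2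
      · exact (hu a' (List.mem_cons_of_mem _ h2.1)).le
      · exact (hu a' (List.mem_cons_of_mem _ h2.1)).le
      · exact h2.1.le
    have hc' : c' ≤ m := by
      rcases h2 with h2 | h2 | h2
      · exact (hk c' (List.mem_cons_of_mem _ h2.2)).le
      · exact h2.2.le
      · exact (hk c' (List.mem_cons_of_mem _ h2.2)).le
    exact rl_enc ha.le ha' hc' (fun h => by omega) (fun h => by omega)

private theorem snd_all {m : ℕ} : ∀ (u k : List ℕ), (∀ a ∈ u, a < m) → (∀ a ∈ k, a < m) →
    u.length ≤ k.length → ∀ y ∈ pz m u k, y / (m + 1) ≠ m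
  | [], [], _, _, _, y, hy => by simp [pz] at hy
  | a :: u, [], _, _, h, _, _ => by simp at h
  | [], c :: k, hu, hk, _, y, hy => by
    rw [pz, List.mem_cons] at hy
    rcases hy with rfl | hy
    · rw [enc_div c le_rfl]
      exact (hk c List.mem_cons_self).ne
    · exact snd_all [] k hu (fun x hx => hk x (List.mem_cons_of_mem _ hx)) (Nat.zero_le _) y hy
  | a :: u, c :: k, hu, hk, h, y, hy => by
    rw [pz, List.mem_cons] at hy
    rcases hy with rfl | hy
    · rw [enc_div c (hu a List.mem_cons_self).le]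
      exact (hk c List.mem_cons_self).ne
    · exact snd_all u k (fun x hx => hu x (List.mem_cons_of_mem _ hx))
        (fun x hx => hk x (List.mem_cons_of_mem _ hx)) (by simpa using h) y hy

private theorem last_all {m : ℕ} : ∀ (u k : List ℕ), (∀ a ∈ u, a < m) → (∀ a ∈ k, a < m) →
    k.length < u.length → ∃ (q : List ℕ) (y : ℕ), pz m u k = q ++ [y] ∧ y < BB m ∧
      y / (m + 1) = m
  | [], [], _, _, h => by simp at h
  | [a], [], hu, _, _ => by
    have ha := hu a List.mem_cons_self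
    exact ⟨[], a + (m + 1) * m, by simp [pz], enc_lt ha.le le_rfl, enc_div m ha.le⟩
  | a :: a' :: u, [], hu, hk, _ => by
    obtain ⟨q, y, h1, h2, h3⟩ := last_all (a' :: u) []
      (fun x hx => hu x (List.mem_cons_of_mem _ hx)) hk (by simp)
    refine ⟨(a + (m + 1) * m) :: q, y, ?_, h2, h3⟩
    rw [pz, h1]
    rfl
  | [], c :: k, _, _, h => by simp at h
  | a :: u, c :: k, hu, hk, h => by
    obtain ⟨q, y, h1, h2, h3⟩ := last_all u k (fun x hx => hu x (List.mem_cons_of_mem _ hx))
      (fun x hx => hk x (List.mem_cons_of_mem _ hx)) (by simpa using h)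
    refine ⟨(a + (m + 1) * c) :: q, y, ?_, h2, h3⟩
    rw [pz, h1]
    rfl

private theorem hc_tail {R : ℕ → ℕ → Prop} {x : ℕ} {Y : List ℕ}
    (hc : ∀ (p s : List ℕ) (y z : ℕ), x :: Y = p ++ [y] ++ [z] ++ s → R y z) :
    ∀ (p s : List ℕ) (y z : ℕ), Y = p ++ [y] ++ [z] ++ s → R y z := by
  intro p s y z h
  exact hc (x :: p) s y z (by rw [h]; rfl)

private theorem hc_head {R : ℕ → ℕ → Prop} {x x' : ℕ} {Y : List ℕ}
    (hc : ∀ (p s : List ℕ) (y z : ℕ), x :: x' :: Y = p ++ [y] ++ [z] ++ s → R y z) : R x x' :=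
  hc [] Y x x' rfl

private theorem div_all {m : ℕ} : ∀ (Y : List ℕ) (x : ℕ), (∀ y ∈ x :: Y, y < BB m) →
    (∀ (p s : List ℕ) (y z : ℕ), x :: Y = p ++ [y] ++ [z] ++ s → Rl m y z) →
    x / (m + 1) = m → Y.flatMap (kk m) = []
  | [], _, _, _, _ => rfl
  | x' :: Y, x, hY, hc, hx => by
    have h1 := hc_head hc
    have hx' : x' < BB m := hY x' (by simp)
    have h2 := (h1.1 (hY x (by simp)) hx').2 hx
    have ih := div_all Y x' (fun y hy => hY y (List.mem_cons_of_mem _ hy)) (hc_tail hc) h2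
    rw [List.flatMap_cons, ih]
    have h3 : kk m x' = [] := by
      unfold kk
      rw [if_pos hx', h2, if_neg (lt_irrefl m)]
    rw [h3]
    rfl

private theorem mod_all {m b : ℕ} : ∀ (Y : List ℕ) (x : ℕ), (∀ y ∈ x :: Y, y < BB m) →
    (∀ (p s : List ℕ) (y z : ℕ), x :: Y = p ++ [y] ++ [z] ++ s → Rl m y z) →
    x % (m + 1) = m → Y.flatMap (hh m b) = []
  | [], _, _, _, _ => rfl
  | x' :: Y, x, hY, hc, hx => by
    have h1 := hc_head hc
    have hx' : x' < BB m := hY x' (by simp)
    have h2 := (h1.1 (hY x (by simp)) hx').1 hx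
    have ih := mod_all (b := b) Y x' (fun y hy => hY y (List.mem_cons_of_mem _ hy))
      (hc_tail hc) h2
    rw [List.flatMap_cons, ih]
    have h3 : hh m b x' = [] := by
      unfold hh
      rw [if_pos hx', h2, if_neg (lt_irrefl m)]
    rw [h3]
    rfl

end PzAux

open PzAux

theorem pz_let {m b : ℕ} (hb : b < m) {u k : List ℕ} (hu : ∀ a ∈ u, a < m ∧ a ≠ b)
    (hk : ∀ a ∈ k, a < m ∧ a ≠ b) : ∀ y ∈ pz m u k, y < BB m ∧
      ¬ (y % (m + 1) = b ∨ y / (m + 1) = b ∨ y = m + (m + 1) * m) := by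
  intro y hy
  obtain ⟨a, c, rfl, h2⟩ := pz_mem u k y hy
  have key : a ≤ m ∧ c ≤ m ∧ a ≠ b ∧ c ≠ b ∧ ¬ (a = m ∧ c = m) := by
    rcases h2 with ⟨h1, h2⟩ | ⟨h1, h2⟩ | ⟨h1, h2⟩
    · have := hu a h1
      have := hk c h2
      exact ⟨by omega, by omega, by omega, by omega, by omega⟩
    · have := hu a h1
      exact ⟨by omega, by omega, by omega, by omega, by omega⟩
    · have := hk c h2
      exact ⟨by omega, by omega, by omega, by omega, by omega⟩
  obtain ⟨ha, hc, hab, hcb, hne⟩ := key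
  refine ⟨enc_lt ha hc, ?_⟩
  rw [enc_mod c ha, enc_div c ha]
  rintro (h | h | h)
  · exact hab h
  · exact hcb h
  · apply hne
    constructor
    · have := congrArg (fun t => t % (m + 1)) h
      simp only [enc_mod c ha, enc_mod m (le_refl m)] at this
      exact this
    · have := congrArg (fun t => t / (m + 1)) h
      simp only [enc_div c ha, enc_div m (le_refl m)] at this
      exact this

theorem pz_hh {m b : ℕ} {u k : List ℕ} (hu : ∀ a ∈ u, a < m) (hk : ∀ a ∈ k, a < m) :
    (pz m u k).flatMap (hh m b) = u := hh_all u k hu hk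

theorem pz_kk {m : ℕ} {u k : List ℕ} (hu : ∀ a ∈ u, a < m) (hk : ∀ a ∈ k, a < m) :
    (pz m u k).flatMap (kk m) = k := kk_all u k hu hk

theorem pz_chain {m : ℕ} {u k : List ℕ} (hu : ∀ a ∈ u, a < m) (hk : ∀ a ∈ k, a < m) :
    List.IsChain (Rl m) (pz m u k) := chain_all u k hu hk

theorem pz_snd {m : ℕ} {u k : List ℕ} (hu : ∀ a ∈ u, a < m) (hk : ∀ a ∈ k, a < m)
    (h : u.length ≤ k.length) : ∀ y ∈ pz m u k, y / (m + 1) ≠ m := snd_all u k hu hk h

theorem pz_last {m : ℕ} {u k : List ℕ} (hu : ∀ a ∈ u, a < m) (hk : ∀ a ∈ k, a < m)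
    (h : k.length < u.length) : ∃ (q : List ℕ) (y : ℕ), pz m u k = q ++ [y] ∧ y < BB m ∧
      y / (m + 1) = m := last_all u k hu hk h

theorem pz_uniq {m b : ℕ} {Y : List ℕ} (hY : ∀ y ∈ Y, y < BB m ∧ y ≠ m + (m + 1) * m)
    (hc : ∀ (p s : List ℕ) (y z : ℕ), Y = p ++ [y] ++ [z] ++ s → Rl m y z) :
    Y = pz m (Y.flatMap (hh m b)) (Y.flatMap (kk m)) := by
  induction Y with
  | nil => simp [pz]
  | cons x Y ih =>
    have ih' := ih (fun y hy => hY y (List.mem_cons_of_mem _ hy)) (hc_tail hc)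
    have hx := hY x List.mem_cons_self
    have hlt : ∀ y ∈ x :: Y, y < BB m := fun y hy => (hY y hy).1
    obtain ⟨a, ha⟩ : ∃ a, a = x % (m + 1) := ⟨_, rfl⟩
    obtain ⟨c, hc'⟩ : ∃ c, c = x / (m + 1) := ⟨_, rfl⟩
    have hxe : x = a + (m + 1) * c := by
      rw [ha, hc', Nat.mod_add_div]
    have ham : a ≤ m := by
      have h1 : x % (m + 1) < m + 1 := Nat.mod_lt x (Nat.succ_pos m)
      rw [← ha] at h1
      exact Nat.lt_succ_iff.1 h1
    have hcm : c ≤ m := by
      have h1 : x / (m + 1) < m + 1 := by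
        rw [Nat.div_lt_iff_lt_mul (Nat.succ_pos m)]
        exact hx.1
      rw [← hc'] at h1
      exact Nat.lt_succ_iff.1 h1
    have hne : ¬ (a = m ∧ c = m) := by
      rintro ⟨h1, h2⟩
      apply hx.2
      rw [hxe, h1, h2]
    rcases Nat.lt_or_ge a m with h1 | h1
    · rcases Nat.lt_or_ge c m with h2 | h2
      · have e1 : hh m b x = [a] := by rw [hxe]; exact hh_lt b h1 hcm
        have e2 : kk m x = [c] := by rw [hxe]; exact kk_lt ham h2
        rw [List.flatMap_cons, List.flatMap_cons, e1, e2]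
        change x :: Y = pz m (a :: Y.flatMap (hh m b)) (c :: Y.flatMap (kk m))
        rw [pz, ← ih', ← hxe]
      · have h3 : c = m := le_antisymm hcm h2
        have e1 : hh m b x = [a] := by rw [hxe]; exact hh_lt b h1 hcm
        have e2 : kk m x = [] := by rw [hxe, h3]; exact kk_eq ham
        have e3 : Y.flatMap (kk m) = [] := div_all Y x hlt hc (by rw [← hc', h3])
        rw [e3] at ih'
        rw [List.flatMap_cons, List.flatMap_cons, e1, e2, e3]
        change x :: Y = pz m (a :: Y.flatMap (hh m b)) []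
        rw [pz, ← ih', hxe, h3]
    · have h3 : a = m := le_antisymm ham h1
      have h2 : c < m := by
        rcases Nat.lt_or_ge c m with h2 | h2
        · exact h2
        · exact absurd ⟨h3, le_antisymm hcm h2⟩ hne
      have e1 : hh m b x = [] := by rw [hxe, h3]; exact hh_eq b hcm
      have e2 : kk m x = [c] := by rw [hxe]; exact kk_lt ham h2
      have e3 : Y.flatMap (hh m b) = [] := mod_all Y x hlt hc (by rw [← ha, h3])
      rw [e3] at ih'
      rw [List.flatMap_cons, List.flatMap_cons, e1, e2, e3]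
      change x :: Y = pz m [] (c :: Y.flatMap (kk m))
      rw [pz, ← ih', hxe, h3]

end Pool.Agent.Lib.GCH
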