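import Pool.Agent.Lib.GCH.Defs
import Pool.Agent.Lib.F1c4.Mem
import Pool.Agent.Lib.BCC.CatReg
import Pool.Agent.Lib.BCC.HomReg

/-!
# Module GCH.RatA: rational languages (MP_f1c4ef_lc)

PROOFS.
`rat_mul`, `rat_add`: `BCC.CatRegAux.mul_reg`, `Language.IsRegular.add`, union of the alphabets (`Language.mem_mul`,
`Language.mem_add`). `rat_one`, `rat_zero`: e.g. `Rat` of `{[]}`: `F1c4.star_reg ∅`, and `Language.ext`; `0`: `.inf` with a
complement, or a DFA. `rat_sing`: `BCC.CatRegAux.single_reg`. `rat_sub`: `Language.IsRegular.inf`, alphabet of `L`.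
`rat_diff`: `.compl`. `enc_rat`: `Enc i L` is the image of `L` under the morphism `fun a => [4 * a + i]` (`List.map` is
`flatMap` of singletons): `BCC.hom_reg`; the alphabet is `S.image (fun a => 4 * a + i)`.
`rat_all`: `star_reg (Finset.range k)`. `rat_word`: induction on `u`: `{a :: u} = {[a]} * {u}`. `rat_fin`: induction on `s`
(`Finset.induction_on`), `rat_add`.
-/

set_option autoImplicit false

namespace Pool.Agent.Lib.GCH

open Pool.Agent.Lib.F1c4

theorem rat_mul {L M : Language ℕ} (hL : Rat L) (hM : Rat M) : Rat (L * M) := by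
  obtain ⟨hL1, S, hS⟩ := hL
  obtain ⟨hM1, T, hT⟩ := hM
  refine ⟨BCC.CatRegAux.mul_reg hL1 hM1, S ∪ T, ?_⟩
  intro w hw a ha
  obtain ⟨u, hu, v, hv, rfl⟩ := Language.mem_mul.1 hw
  rcases List.mem_append.1 ha with h | h
  · exact Finset.mem_union_left _ (hS u hu a h)
  · exact Finset.mem_union_right _ (hT v hv a h)

theorem rat_add {L M : Language ℕ} (hL : Rat L) (hM : Rat M) : Rat (L + M) := by
  obtain ⟨hL1, S, hS⟩ := hL
  obtain ⟨hM1, T, hT⟩ := hM
  refine ⟨hL1.add hM1, S ∪ T, ?_⟩
  intro w hw a ha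
  rcases (Language.mem_add _ _ _).1 hw with h | h
  · exact Finset.mem_union_left _ (hS w h a ha)
  · exact Finset.mem_union_right _ (hT w h a ha)

theorem rat_one : Rat (1 : Language ℕ) := by
  have h : (1 : Language ℕ) = ({w : List ℕ | Ov ∅ w} : Language ℕ) := by
    refine Language.ext fun y => ?_
    constructor
    · intro hy
      have h1 : y = [] := (Language.mem_one _).1 hy
      intro a ha
      rw [h1] at ha
      simp at ha
    · intro hy
      exact (Language.mem_one _).2 (F1c4.MemAux.ov_empty hy)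
  refine ⟨?_, ∅, ?_⟩
  · rw [h]
    exact star_reg ∅
  · intro w hw a ha
    have h1 : w = [] := (Language.mem_one _).1 hw
    rw [h1] at ha
    simp at ha

theorem rat_zero : Rat (0 : Language ℕ) := by
  refine ⟨?_, ∅, fun w hw => absurd hw (Language.notMem_zero w)⟩
  exact BCC.CatRegAux.fin_reg {0} (Set.toFinite _) fun t =>
    BCC.CatRegAux.eq_zero_of fun y hy => Language.notMem_zero _ hy

theorem rat_sing (c : ℕ) : Rat ({t : List ℕ | t = [c]} : Language ℕ) := by
  refine ⟨BCC.CatRegAux.single_reg c, {c}, ?_⟩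
  intro w hw a ha
  have h : w = [c] := hw
  rw [h, List.mem_singleton] at ha
  rw [ha]
  exact Finset.mem_singleton_self c

theorem rat_sub {L M : Language ℕ} (hL : Rat L) (hM : M.IsRegular) :
    Rat ({v : List ℕ | v ∈ L ∧ v ∈ M} : Language ℕ) := by
  obtain ⟨hL1, S, hS⟩ := hL
  exact ⟨hL1.inf hM, S, fun w hw => hS w hw.1⟩

theorem rat_diff {L M : Language ℕ} (hL : Rat L) (hM : M.IsRegular) :
    Rat ({v : List ℕ | v ∈ L ∧ v ∉ M} : Language ℕ) := by
  obtain ⟨hL1, S, hS⟩ := hL
  exact ⟨hL1.inf hM.compl, S, fun w hw => hS w hw.1⟩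

/-- the language `L` coded by `a ↦ 4 * a + i` -/
def Enc (i : ℕ) (L : Language ℕ) : Language ℕ := {t : List ℕ | ∃ v ∈ L, t = v.map (fun a => 4 * a + i)}

theorem enc_rat (i : ℕ) {L : Language ℕ} (hL : Rat L) : Rat (Enc i L) := by
  have h := BCC.hom_reg hL (fun a => [4 * a + i])
  have h2 : Enc i L = ({w : List ℕ | ∃ v ∈ L, w = v.flatMap (fun a => [4 * a + i])} : Language ℕ) := by
    refine Language.ext fun y => ?_
    have h3 : ∀ v : List ℕ, v.flatMap (fun a => [4 * a + i]) = v.map (fun a => 4 * a + i) := by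
      intro v
      induction v with
      | nil => rfl
      | cons a v ih => rw [List.flatMap_cons, ih]; rfl
    constructor
    · rintro ⟨v, hv, rfl⟩
      exact ⟨v, hv, (h3 v).symm⟩
    · rintro ⟨v, hv, rfl⟩
      exact ⟨v, hv, h3 v⟩
  obtain ⟨-, S, hS⟩ := hL
  refine ⟨by rw [h2]; exact h, S.image (fun a => 4 * a + i), ?_⟩
  rintro w ⟨v, hv, rfl⟩ a ha
  obtain ⟨c, hc, rfl⟩ := List.mem_map.1 ha
  exact Finset.mem_image_of_mem _ (hS v hv c hc)

theorem rat_all (k : ℕ) : Rat ({v : List ℕ | ∀ a ∈ v, a < k} : Language ℕ) := by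
  have h : ({v : List ℕ | ∀ a ∈ v, a < k} : Language ℕ) = ({w : List ℕ | Ov (Finset.range k) w} : Language ℕ) := by
    refine Language.ext fun y => ?_
    constructor
    · intro hy a ha
      exact Finset.mem_range.2 (hy a ha)
    · intro hy a ha
      exact Finset.mem_range.1 (hy a ha)
  rw [h]
  exact ⟨star_reg _, Finset.range k, fun w hw => hw⟩

namespace RatAAux

/-- the language with the only word `u` -/
def Wd (u : List ℕ) : Language ℕ := {v : List ℕ | v = u}

/-- the letters in `s` -/
def Fn (s : Finset ℕ) : Language ℕ := {v : List ℕ | ∃ c ∈ s, v = [c]}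

theorem wd_rat (u : List ℕ) : Rat (Wd u) := by
  induction u with
  | nil =>
    have h : Wd [] = 1 := by
      refine Language.ext fun y => ?_
      exact (Language.mem_one y).symm
    rw [h]
    exact rat_one
  | cons a u ih =>
    have h : Wd (a :: u) = Wd [a] * Wd u := by
      refine Language.ext fun y => ?_
      constructor
      · intro hy
        exact Language.mem_mul.2 ⟨[a], rfl, u, rfl, (show y = a :: u from hy).symm⟩
      · intro hy
        obtain ⟨s, hs, t, ht, rfl⟩ := Language.mem_mul.1 hy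
        have h1 : s = [a] := hs
        have h2 : t = u := ht
        rw [h1, h2]
        rfl
    rw [h]
    exact rat_mul (rat_sing a) ih

theorem fn_rat (s : Finset ℕ) : Rat (Fn s) := by
  classical
  induction s using Finset.induction_on with
  | empty =>
    have h : Fn (∅ : Finset ℕ) = 0 := by
      refine BCC.CatRegAux.eq_zero_of fun y hy => ?_
      obtain ⟨c, hc, -⟩ := hy
      simp at hc
    rw [h]
    exact rat_zero
  | insert a s _ ih =>
    have h : Fn (insert a s) = Wd [a] + Fn s := by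
      refine Language.ext fun y => ?_
      constructor
      · rintro ⟨c, hc, rfl⟩
        rcases Finset.mem_insert.1 hc with rfl | hc
        · exact (Language.mem_add _ _ _).2 (Or.inl rfl)
        · exact (Language.mem_add _ _ _).2 (Or.inr ⟨c, hc, rfl⟩)
      · intro hy
        rcases (Language.mem_add _ _ _).1 hy with h | h
        · exact ⟨a, Finset.mem_insert_self _ _, h⟩
        · obtain ⟨c, hc, hy⟩ := h
          exact ⟨c, Finset.mem_insert_of_mem hc, hy⟩
    rw [h]
    exact rat_add (rat_sing a) ih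

end RatAAux

theorem rat_word (u : List ℕ) : Rat ({v : List ℕ | v = u} : Language ℕ) := RatAAux.wd_rat u

theorem rat_fin (s : Finset ℕ) : Rat ({v : List ℕ | ∃ c ∈ s, v = [c]} : Language ℕ) :=
  RatAAux.fn_rat s

end Pool.Agent.Lib.GCH
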