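import Pool.Agent.Lib.GCH.Defs2
import Pool.Agent.Lib.GCH.RatB

/-!
# Module GCH.RatC: rational languages for the record step (MP_f1c4ef_lc)

PROOFS. `rat_ED`: the language is `{[]} + All * {[c] | c = BB m or c = BB m + 1}` (`rat_word []`, `rat_all`, `rat_fin`, `rat_mul`,
`rat_add`). `rat_let`: `{v | all letters < k, some letter in P}` is `All * {[c] | c < k, P c} * All`. `rat_pair`: the
language is the sum over the pairs `(y, z)` with `y, z < k` and `Q y z` of `All * {[y]} * {[z]} * All`: induction on a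
finset of pairs (`Finset.induction_on`), or: for each `y < k` the language `All * {[y]} * {[c] | c < k, Q y c} * All` and
induction on `Finset.range k`. `rb0_rat`: the language is the sum of: `{v ∈ All | v ∉ {[]} + {AA m w 0 ++ [BB m + 1]} * All}`
(`rat_word`, `rat_diff`), `{v ∈ All | ¬ EE (BB m + 1) v}` (`rat_diff`, `last_reg`), `rat_let`, `rat_pair` with
`k = BB m + 2`.
-/

set_option autoImplicit false

namespace Pool.Agent.Lib.GCH

open Pool.Agent.Lib.F1c4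

open RatBAux

open Classical in
theorem rat_ED (k m : ℕ) : Rat ({v : List ℕ | (∀ a ∈ v, a < k) ∧ ED m v} : Language ℕ) := by
  have e : ({v : List ℕ | (∀ a ∈ v, a < k) ∧ ED m v} : Language ℕ) =
      W1 [] + A0 k * Fi ((Finset.range k).filter (fun c => c = BB m ∨ c = BB m + 1)) := by
    apply Set.ext
    intro v
    show _ ↔ v ∈ (_ + _ : Language ℕ)
    rw [mem_add', mem_mul']
    constructor
    · rintro ⟨hv, h | ⟨q, a, ha, rfl⟩⟩
      · exact Or.inl h
      · refine Or.inr ⟨q, fun x hx => hv x (List.mem_append_left _ hx), [a], ⟨a, ?_, rfl⟩, rfl⟩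
        rw [Finset.mem_filter, Finset.mem_range]
        exact ⟨hv a (List.mem_append_right _ List.mem_cons_self), ha⟩
    · rintro (h | ⟨q, hq, r, ⟨a, ha, rfl⟩, rfl⟩)
      · rw [h]
        exact ⟨fun a ha => absurd ha List.not_mem_nil, Or.inl rfl⟩
      · rw [Finset.mem_filter, Finset.mem_range] at ha
        refine ⟨fun x hx => ?_, Or.inr ⟨q, a, ha.2, rfl⟩⟩
        rcases List.mem_append.1 hx with h | h
        · exact hq x h
        · rw [List.mem_singleton.1 h]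
          exact ha.1
  rw [e]
  exact rat_add (r_W1 []) (rat_mul (r_A0 k) (r_Fi _))

open Classical in
theorem rat_let (k : ℕ) (P : ℕ → Prop) :
    Rat ({v : List ℕ | (∀ a ∈ v, a < k) ∧ ∃ y ∈ v, P y} : Language ℕ) := by
  have h : Rat (A0 k * (Fi ((Finset.range k).filter P) * A0 k)) :=
    rat_mul (r_A0 k) (rat_mul (r_Fi _) (r_A0 k))
  refine Eq.mp (congrArg Rat ?_) h
  apply Set.ext
  intro v
  show v ∈ (_ * _ : Language ℕ) ↔ _
  rw [mem_mul']
  constructor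
  · rintro ⟨p, hp, t, ht, rfl⟩
    obtain ⟨x, ⟨y, hy, rfl⟩, s, hs, rfl⟩ := mem_mul'.1 ht
    rw [Finset.mem_filter, Finset.mem_range] at hy
    refine ⟨?_, y, by simp, hy.2⟩
    intro a ha
    rcases List.mem_append.1 ha with ha | ha
    · exact hp a ha
    · rcases List.mem_append.1 ha with ha | ha
      · rw [List.mem_singleton.1 ha]
        exact hy.1
      · exact hs a ha
  · rintro ⟨hv, y, hy, hP⟩
    obtain ⟨p, s, rfl⟩ := List.append_of_mem hy
    refine ⟨p, fun a ha => hv a (List.mem_append_left _ ha), [y] ++ s,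
      mem_mul'.2 ⟨[y], ⟨y, ?_, rfl⟩, s, ?_, rfl⟩, rfl⟩
    · rw [Finset.mem_filter, Finset.mem_range]
      exact ⟨hv y hy, hP⟩
    · exact fun a ha => hv a (List.mem_append_right _ (List.mem_cons_of_mem _ ha))

namespace RatCAux

/-- the pairs with first letter in `t` -/
def LP (k : ℕ) (Q : ℕ → ℕ → Prop) (t : Finset ℕ) : Language ℕ :=
  {v : List ℕ | (∀ a ∈ v, a < k) ∧
    ∃ (p s : List ℕ) (y z : ℕ), v = p ++ [y] ++ [z] ++ s ∧ y ∈ t ∧ Q y z}

open Classical in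
theorem lp_rat (k : ℕ) (Q : ℕ → ℕ → Prop) (t : Finset ℕ) : Rat (LP k Q t) := by
  induction t using Finset.induction_on with
  | empty =>
    have h : LP k Q (∅ : Finset ℕ) = 0 := by
      refine BCC.CatRegAux.eq_zero_of fun v hv => ?_
      obtain ⟨-, p, s, y, z, -, hy, -⟩ := hv
      simp at hy
    rw [h]
    exact rat_zero
  | insert y t _ ih =>
    have h1 : Rat ({v : List ℕ | v ∈ A0 k ∧
        v ∈ (Uni * (S1 y * (Fi ((Finset.range k).filter (Q y)) * Uni)))} : Language ℕ) :=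
      rat_sub (r_A0 k) (BCC.CatRegAux.mul_reg univ_reg (BCC.CatRegAux.mul_reg (r_S1 y).1
        (BCC.CatRegAux.mul_reg (r_Fi _).1 univ_reg)))
    have h := rat_add h1 ih
    refine Eq.mp (congrArg Rat ?_) h
    apply Set.ext
    intro v
    refine Iff.trans mem_add' ?_
    constructor
    · rintro (⟨hv, hm⟩ | ⟨hv, p, s, y', z, hv2, hy', hQ⟩)
      · obtain ⟨p, -, v1, hv1, rfl⟩ := mem_mul'.1 hm
        obtain ⟨x, hx, v2, hv2, rfl⟩ := mem_mul'.1 hv1
        obtain ⟨x2, ⟨z, hz, rfl⟩, s, -, rfl⟩ := mem_mul'.1 hv2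
        have hx' : x = [y] := hx
        subst hx'
        rw [Finset.mem_filter] at hz
        exact ⟨hv, p, s, y, z, by simp only [List.append_assoc], Finset.mem_insert_self _ _, hz.2⟩
      · exact ⟨hv, p, s, y', z, hv2, Finset.mem_insert_of_mem hy', hQ⟩
    · rintro ⟨hv, p, s, y', z, rfl, hy', hQ⟩
      rcases Finset.mem_insert.1 hy' with rfl | hy'
      · refine Or.inl ⟨hv, mem_mul'.2 ⟨p, trivial, [y'] ++ ([z] ++ s), mem_mul'.2 ⟨[y'], rfl,
          [z] ++ s, mem_mul'.2 ⟨[z], ⟨z, ?_, rfl⟩, s, trivial, rfl⟩, rfl⟩, ?_⟩⟩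
        · rw [Finset.mem_filter, Finset.mem_range]
          exact ⟨hv z (by simp), hQ⟩
        · simp only [List.append_assoc]
      · exact Or.inr ⟨hv, p, s, y', z, rfl, hy', hQ⟩

end RatCAux

open RatCAux

theorem rat_pair (k : ℕ) (Q : ℕ → ℕ → Prop) :
    Rat ({v : List ℕ | (∀ a ∈ v, a < k) ∧
      ∃ (p s : List ℕ) (y z : ℕ), v = p ++ [y] ++ [z] ++ s ∧ Q y z} : Language ℕ) := by
  refine Eq.mp (congrArg Rat ?_) (lp_rat k Q (Finset.range k))
  apply Set.ext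
  intro v
  constructor
  · rintro ⟨hv, p, s, y, z, hv2, -, hQ⟩
    exact ⟨hv, p, s, y, z, hv2, hQ⟩
  · rintro ⟨hv, p, s, y, z, hv2, hQ⟩
    refine ⟨hv, p, s, y, z, hv2, Finset.mem_range.2 (hv y ?_), hQ⟩
    rw [hv2]
    simp

theorem rb0_rat (m b : ℕ) (w : ℕ → List ℕ) :
    Rat ({v : List ℕ | (∀ a ∈ v, a < BB m + 2) ∧ RB0 m b w v} : Language ℕ) := by
  have h1 : Rat ({v : List ℕ | v ∈ A0 (BB m + 2) ∧
      v ∉ (W1 [] + W1 (AA m w 0 ++ [BB m + 1]) * Uni)} : Language ℕ) :=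
    rat_diff (r_A0 _) (Language.IsRegular.add (r_W1 []).1
      (Pool.Agent.Lib.BCC.CatRegAux.mul_reg (r_W1 _).1 univ_reg))
  have h2 : Rat ({v : List ℕ | v ∈ A0 (BB m + 2) ∧ v ∉ Lst (BB m + 1)} : Language ℕ) :=
    rat_diff (r_A0 _) (last_reg (BB m + 1))
  have h3 := rat_let (BB m + 2)
    (fun y => y < BB m ∧ (y % (m + 1) = b ∨ y / (m + 1) = b ∨ y = m + (m + 1) * m))
  have h4 := rat_pair (BB m + 2) (fun y z => ¬ Rl m y z)
  have h := rat_add h1 (rat_add h2 (rat_add h3 h4))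
  refine Eq.mp (congrArg Rat ?_) h
  apply Set.ext
  intro v
  refine Iff.trans (mem_add'.trans (or_congr Iff.rfl (mem_add'.trans (or_congr Iff.rfl mem_add')))) ?_
  constructor
  · rintro (⟨hv, hn⟩ | ⟨hv, hn⟩ | ⟨hv, hn⟩ | ⟨hv, hn⟩)
    · refine ⟨hv, Or.inl ⟨fun h0 => hn (mem_add'.2 (Or.inl h0)), ?_⟩⟩
      rintro ⟨s, hs⟩
      exact hn (mem_add'.2 (Or.inr (mem_mul'.2 ⟨_, rfl, s, trivial, hs.symm⟩)))
    · exact ⟨hv, Or.inr (Or.inl hn)⟩
    · exact ⟨hv, Or.inr (Or.inr (Or.inl hn))⟩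
    · exact ⟨hv, Or.inr (Or.inr (Or.inr hn))⟩
  · rintro ⟨hv, ⟨h0, hn⟩ | hn | hn | hn⟩
    · refine Or.inl ⟨hv, fun h1 => ?_⟩
      rcases mem_add'.1 h1 with h1 | h1
      · exact h0 h1
      · obtain ⟨x, hx, s, -, hs⟩ := mem_mul'.1 h1
        have hx' : x = AA m w 0 ++ [BB m + 1] := hx
        exact hn ⟨s, by rw [← hs, hx']⟩
    · exact Or.inr (Or.inl ⟨hv, hn⟩)
    · exact Or.inr (Or.inr (Or.inl ⟨hv, hn⟩))
    · exact Or.inr (Or.inr (Or.inr ⟨hv, hn⟩))

end Pool.Agent.Lib.GCH
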