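import Pool.Agent.Lib.GCH.Zer
import Pool.Agent.Lib.GCH.Pz

/-!
# Module GCH.RecA: facts on the words QQ m w z (MP_f1c4ef_lc)

PROOFS. `h.lt`, `h.nb` give the hypotheses of the lemmas on `pz`. `AA_let`, `AA_hh`, `AA_kk`: cases `z = 0`;
`pz_let`, `pz_hh`, `pz_kk`. `QQ_hh`: induction; `hh m b (BB m) = [b]`, `hh m b (BB m + 1) = [b]`. `QQ_lt`: induction.
`QQ_ED`: cases, `DD_rec`, `DD_non`. `QQ_len`: induction on `j`. `QQ_inj`: `QQ_len`. `ed_uniq`: as `last_eq` in GCH.ChainB: by
`List.append_eq_append_iff` say `q = p ++ t`, `x = t ++ y`; if `t ≠ []` then `q ≠ []` ends with a delimiter, a letter of `t`, so of `x`,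
which is `≥ BB m`, contradiction.
-/

set_option autoImplicit false

namespace Pool.Agent.Lib.GCH

namespace RecAAux

theorem BB_pos (m : ℕ) : 0 < BB m := Nat.mul_pos (Nat.succ_pos m) (Nat.succ_pos m)

theorem hh_delim {m b y : ℕ} (h : BB m ≤ y) : hh m b y = [b] := by
  unfold hh
  rw [if_neg (Nat.not_lt.2 h)]

theorem DD_cases (m : ℕ) (w : ℕ → List ℕ) (z : ℕ) : DD m w z = BB m ∨ DD m w z = BB m + 1 := by
  unfold DD
  split
  · exact Or.inr rfl
  · exact Or.inl rfl

theorem last_mem {m : ℕ} {p t : List ℕ} (h : ED m (p ++ t)) (ht : t ≠ []) : ∃ d ∈ t, BB m ≤ d := by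
  rcases h with h | ⟨q, d, hd, h⟩
  · exact absurd (List.append_eq_nil_iff.1 h).2 ht
  · rcases List.eq_nil_or_concat t with h' | ⟨t', a, h'⟩
    · exact absurd h' ht
    · rw [List.concat_eq_append] at h'
      subst h'
      rw [← List.append_assoc] at h
      have h2 := List.append_inj_right' h rfl
      have h3 : a = d := by simpa using h2
      subst h3
      refine ⟨a, by simp, ?_⟩
      rcases hd with hd | hd <;> omega

end RecAAux

theorem DD_rec {m : ℕ} {w : ℕ → List ℕ} {z : ℕ} (h : isrec w z) : DD m w z = BB m + 1 := by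
  unfold DD
  rw [if_pos h]

theorem DD_non {m : ℕ} {w : ℕ → List ℕ} {z : ℕ} (h : ¬ isrec w z) : DD m w z = BB m := by
  unfold DD
  rw [if_neg h]

theorem AA_let {m b : ℕ} {w : ℕ → List ℕ} (h : Ch0 m b w) (z : ℕ) : ∀ y ∈ AA m w z, y < BB m ∧
    ¬ (y % (m + 1) = b ∨ y / (m + 1) = b ∨ y = m + (m + 1) * m) := by
  have hw : ∀ i, ∀ a ∈ w i, a < m ∧ a ≠ b := fun i a ha =>
    ⟨h.lt i a ha, fun hab => h.nb i (hab ▸ ha)⟩
  intro y hy
  unfold AA at hy
  split at hy
  · exact pz_let h.bm (hw 0) (fun a ha => absurd ha List.not_mem_nil) y hy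
  · exact pz_let h.bm (hw z) (hw (rh w z)) y hy

theorem AA_hh {m b : ℕ} {w : ℕ → List ℕ} (h : Ch0 m b w) (z : ℕ) :
    (AA m w z).flatMap (hh m b) = w z := by
  unfold AA
  split
  · rename_i hz
    subst hz
    exact pz_hh (h.lt 0) (fun a ha => absurd ha List.not_mem_nil)
  · exact pz_hh (h.lt z) (h.lt (rh w z))

theorem AA_kk {m b : ℕ} {w : ℕ → List ℕ} (h : Ch0 m b w) {z : ℕ} (hz : z ≠ 0) :
    (AA m w z).flatMap (kk m) = w (rh w z) := by
  unfold AA
  rw [if_neg hz]
  exact pz_kk (h.lt z) (h.lt (rh w z))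

theorem QQ_hh {m b : ℕ} {w : ℕ → List ℕ} (h : Ch0 m b w) (z : ℕ) :
    (QQ m w z).flatMap (hh m b) = U w b z := by
  induction z with
  | zero => rfl
  | succ z ih =>
    have hd : hh m b (DD m w z) = [b] := by
      rcases RecAAux.DD_cases m w z with h1 | h1
      · rw [h1]; exact RecAAux.hh_delim le_rfl
      · rw [h1]; exact RecAAux.hh_delim (Nat.le_succ _)
    show (QQ m w z ++ (AA m w z ++ [DD m w z])).flatMap (hh m b) = U w b z ++ (w z ++ [b])
    rw [List.flatMap_append, List.flatMap_append, ih, AA_hh h z]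
    simp [hd]

theorem QQ_lt {m b : ℕ} {w : ℕ → List ℕ} (h : Ch0 m b w) (z : ℕ) :
    ∀ y ∈ QQ m w z, y < BB m + 2 ∧
      (y < BB m → ¬ (y % (m + 1) = b ∨ y / (m + 1) = b ∨ y = m + (m + 1) * m)) := by
  induction z with
  | zero => intro y hy; exact absurd hy List.not_mem_nil
  | succ z ih =>
    intro y hy
    rcases List.mem_append.1 hy with h1 | h1
    · exact ih y h1
    · rcases List.mem_append.1 h1 with h1 | h1
      · have h2 := AA_let h z y h1
        exact ⟨by omega, fun _ => h2.2⟩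
      · rw [List.mem_singleton] at h1
        rcases RecAAux.DD_cases m w z with h2 | h2
        · rw [h1, h2]
          exact ⟨by omega, fun h3 => absurd h3 (lt_irrefl _)⟩
        · rw [h1, h2]
          exact ⟨by omega, fun h3 => by omega⟩

theorem QQ_ED (m : ℕ) (w : ℕ → List ℕ) (z : ℕ) : ED m (QQ m w z) := by
  cases z with
  | zero => exact Or.inl rfl
  | succ z =>
    refine Or.inr ⟨QQ m w z ++ AA m w z, DD m w z, RecAAux.DD_cases m w z, ?_⟩
    show QQ m w z ++ (AA m w z ++ [DD m w z]) = QQ m w z ++ AA m w z ++ [DD m w z]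
    rw [List.append_assoc]

theorem QQ_len (m : ℕ) (w : ℕ → List ℕ) {z j : ℕ} (h : z ≤ j) :
    (QQ m w z).length + (j - z) ≤ (QQ m w j).length := by
  induction j, h using Nat.le_induction with
  | base => simp
  | succ j hj ih =>
    have h1 : (QQ m w (j + 1)).length = (QQ m w j).length + ((AA m w j).length + 1) := by
      show (QQ m w j ++ (AA m w j ++ [DD m w j])).length = _
      simp only [List.length_append, List.length_cons, List.length_nil]
    omega

theorem QQ_inj {m : ℕ} {w : ℕ → List ℕ} {j k : ℕ} (h : QQ m w j = QQ m w k) : j = k := by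
  rcases le_total j k with hjk | hjk
  · have h1 := QQ_len m w hjk
    rw [h] at h1
    omega
  · have h1 := QQ_len m w hjk
    rw [h] at h1
    omega

theorem ed_uniq {m : ℕ} {p q x y : List ℕ} (hp : ED m p) (hq : ED m q) (hx : ∀ a ∈ x, a < BB m)
    (hy : ∀ a ∈ y, a < BB m) (h : p ++ x = q ++ y) : p = q ∧ x = y := by
  rcases List.append_eq_append_iff.1 h with ⟨t, h2, h3⟩ | ⟨t, h2, h3⟩
  · by_cases ht : t = []
    · subst ht
      exact ⟨by simpa using h2.symm, by simpa using h3⟩
    · exfalso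
      rw [h2] at hq
      obtain ⟨d, hd, hd2⟩ := RecAAux.last_mem hq ht
      have := hx d (by rw [h3]; exact List.mem_append_left _ hd)
      omega
  · by_cases ht : t = []
    · subst ht
      exact ⟨by simpa using h2, by simpa using h3.symm⟩
    · exfalso
      rw [h2] at hp
      obtain ⟨d, hd, hd2⟩ := RecAAux.last_mem hp ht
      have := hy d (by rw [h3]; exact List.mem_append_left _ hd)
      omega

end Pool.Agent.Lib.GCH
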