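import Pool.Agent.Lib.GCH.RecA

/-!
# Module GCH.RecB: decompositions of the words QQ m w z (MP_f1c4ef_lc)

PROOFS. `QQ_pre`: like `U_pre0` (induction on `K`: a prefix
`p` of `QQ m w K ++ (AA .. ++ [DD ..])` ending with a delimiter is a prefix of `QQ m w K`, or everything, as the letters of
`AA m w K` are `< BB m`). `QQ_blk`: by `QQ_pre` `q ++ y ++ [d] = QQ m w k`, `k = j + 1`, `= QQ m w j ++ AA m w j ++ [DD m w j]`:
cancel the last letter; `q ++ y = QQ m w j ++ AA m w j`, `ed_uniq` with `QQ_ED`, `AA_let`.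
`rh_lt`, `rh_rec`, `rh_succ_rec`, `rh_succ_non`: induction on `z`, unfolding `rh`, `isrec`. `QQ_rh`: induction on `z ≥ 1`: if `z` is a
record then `rh w (z + 1) = z`, take `t = []` (`DD_rec`); otherwise `rh w (z + 1) = rh w z`, `z ≠ 0`, take
`t ++ AA m w z ++ [BB m]` (`DD_non`). `rh_of`: `j + 1 ≤ l` (lengths, `QQ_len`); induction on `l` (for all `t`): `l = j + 1`:
`rh_succ_rec`; `l = l' + 1 > j + 1`: `t = t' ++ AA m w l' ++ [DD m w l']` with `QQ m w l' = QQ m w (j + 1) ++ t'`
(`QQ m w (j + 1)` is a prefix of `QQ m w l'`); the letter `DD m w l'` of `t` is `< BB m + 1`, so `l'` is not a record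
(`DD_rec`), `rh w l = rh w l' = j`.
-/

set_option autoImplicit false

namespace Pool.Agent.Lib.GCH

theorem QQ_pre {m b : ℕ} {w : ℕ → List ℕ} (h : Ch0 m b w) {K : ℕ} {p s : List ℕ}
    (hK : QQ m w K = p ++ s) (hp : ED m p) : ∃ k, k ≤ K ∧ p = QQ m w k := by
  induction K generalizing s with
  | zero =>
    have h1 : p ++ s = [] := hK.symm
    exact ⟨0, le_rfl, (List.append_eq_nil_iff.1 h1).1⟩
  | succ K ih =>
    change QQ m w K ++ (AA m w K ++ [DD m w K]) = p ++ s at hK
    rcases List.append_eq_append_iff.1 hK with ⟨t, ht1, ht2⟩ | ⟨t, ht1, ht2⟩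
    · rcases List.eq_nil_or_concat t with rfl | ⟨t', e, rfl⟩
      · exact ⟨K, Nat.le_succ K, by rw [ht1, List.append_nil]⟩
      · rcases hp with hp | ⟨q, d, hd, hq⟩
        · exact ⟨0, Nat.zero_le _, hp⟩
        · have h2 : e = d := by
            have h3 := congrArg List.getLast? (ht1.symm.trans hq)
            rw [List.concat_eq_append, ← List.append_assoc, List.getLast?_concat,
              List.getLast?_concat, Option.some.injEq] at h3
            exact h3
          rcases List.eq_nil_or_concat s with rfl | ⟨s', g, rfl⟩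
          · refine ⟨K + 1, le_rfl, ?_⟩
            rw [ht1]
            change _ = QQ m w K ++ (AA m w K ++ [DD m w K])
            rw [ht2, List.append_nil]
          · exfalso
            rw [List.concat_eq_append, List.concat_eq_append, ← List.append_assoc] at ht2
            have h4 := (List.append_inj' ht2 rfl).1
            have h5 : e ∈ AA m w K := by
              rw [h4]
              simp
            have h6 := (AA_let h K e h5).1
            rcases hd with hd | hd <;> omega
    · obtain ⟨k, hk1, hk2⟩ := ih ht1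
      exact ⟨k, hk1.trans (Nat.le_succ K), hk2⟩

theorem QQ_blk {m b : ℕ} {w : ℕ → List ℕ} (h : Ch0 m b w) {K : ℕ} {q y s : List ℕ} {d : ℕ}
    (hK : QQ m w K = q ++ y ++ [d] ++ s) (hq : ED m q) (hy : ∀ a ∈ y, a < BB m)
    (hd : d = BB m ∨ d = BB m + 1) : ∃ j, j < K ∧ q = QQ m w j ∧ y = AA m w j ∧ d = DD m w j ∧
      q ++ y ++ [d] = QQ m w (j + 1) := by
  obtain ⟨k, hk1, hk2⟩ := QQ_pre h hK (Or.inr ⟨q ++ y, d, hd, rfl⟩)
  cases k with
  | zero =>
    exfalso
    have h1 := congrArg List.length hk2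
    simp [QQ] at h1
  | succ j =>
    have h1 : q ++ y ++ [d] = QQ m w j ++ AA m w j ++ [DD m w j] := by
      rw [hk2, List.append_assoc]
      rfl
    obtain ⟨h2, h3⟩ := List.append_inj' h1 rfl
    obtain ⟨h4, h5⟩ := ed_uniq hq (QQ_ED m w j) hy (fun a ha => (AA_let h j a ha).1) h2
    refine ⟨j, hk1, h4, h5, ?_, hk2⟩
    exact List.head_eq_of_cons_eq h3

theorem rh_lt {w : ℕ → List ℕ} {z : ℕ} (hz : z ≠ 0) : rh w z < z := by
  induction z with
  | zero => exact absurd rfl hz
  | succ z ih =>
    rw [rh]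
    split_ifs with h1
    · exact Nat.lt_succ_self z
    · rcases Nat.eq_zero_or_pos z with rfl | h2
      · exact Nat.zero_lt_one
      · exact (ih h2.ne').trans (Nat.lt_succ_self z)

theorem rh_rec (w : ℕ → List ℕ) (z : ℕ) : isrec w (rh w z) := by
  induction z with
  | zero => exact Or.inl rfl
  | succ z ih =>
    rw [rh]
    split_ifs with h1
    · exact Or.inr h1
    · exact ih

theorem rh_succ_rec {w : ℕ → List ℕ} {z : ℕ} (h : isrec w z) : rh w (z + 1) = z := by
  rw [rh]
  split_ifs with h1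
  · rfl
  · rcases h with rfl | h
    · rfl
    · exact absurd h h1

theorem rh_succ_non {w : ℕ → List ℕ} {z : ℕ} (h : ¬ isrec w z) : rh w (z + 1) = rh w z := by
  rw [rh]
  split_ifs with h1
  · exact absurd (Or.inr h1) h
  · rfl

theorem QQ_rh {m b : ℕ} {w : ℕ → List ℕ} (h : Ch0 m b w) {z : ℕ} (hz : z ≠ 0) :
    ∃ t, QQ m w z = QQ m w (rh w z) ++ AA m w (rh w z) ++ [BB m + 1] ++ t ∧
      (∀ a ∈ t, a < BB m + 1) ∧ EE (BB m) t := by
  induction z with
  | zero => exact absurd rfl hz
  | succ z ih =>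
    by_cases hr : isrec w z
    · refine ⟨[], ?_, ?_, Or.inl rfl⟩
      · rw [rh_succ_rec hr, List.append_nil]
        change QQ m w z ++ (AA m w z ++ [DD m w z]) = _
        rw [DD_rec hr, List.append_assoc]
      · intro a ha
        simp at ha
    · have hz' : z ≠ 0 := fun h0 => hr (Or.inl h0)
      obtain ⟨t, ht1, ht2, ht3⟩ := ih hz'
      refine ⟨t ++ AA m w z ++ [BB m], ?_, ?_, Or.inr ⟨t ++ AA m w z, rfl⟩⟩
      · rw [rh_succ_non hr]
        change QQ m w z ++ (AA m w z ++ [DD m w z]) = _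
        rw [DD_non hr]
        conv_lhs => rw [ht1]
        simp only [List.append_assoc]
      · intro a ha
        rw [List.mem_append, List.mem_append, List.mem_singleton] at ha
        rcases ha with (ha | ha) | ha
        · exact ht2 a ha
        · exact ((AA_let h z a ha).1).trans (Nat.lt_succ_self _)
        · omega

namespace RecBAux

theorem QQ_prefix (m : ℕ) (w : ℕ → List ℕ) (j n : ℕ) : ∃ t, QQ m w (j + n) = QQ m w j ++ t := by
  induction n with
  | zero => exact ⟨[], by simp⟩
  | succ n ih =>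
    obtain ⟨t, ht⟩ := ih
    refine ⟨t ++ (AA m w (j + n) ++ [DD m w (j + n)]), ?_⟩
    change QQ m w (j + n) ++ (AA m w (j + n) ++ [DD m w (j + n)]) = _
    rw [ht, List.append_assoc]

end RecBAux

theorem rh_of {m b : ℕ} {w : ℕ → List ℕ} (h : Ch0 m b w) {j l : ℕ} {t : List ℕ}
    (hl : QQ m w l = QQ m w (j + 1) ++ t) (hj : isrec w j) (ht : ∀ a ∈ t, a < BB m + 1) :
    l ≠ 0 ∧ rh w l = j := by
  have h1 : j + 1 ≤ l := by
    by_contra h2
    have h3 : l ≤ j + 1 := by omega
    have h4 := QQ_len m w h3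
    have h5 := congrArg List.length hl
    rw [List.length_append] at h5
    omega
  obtain ⟨n, rfl⟩ := Nat.exists_eq_add_of_le h1
  refine ⟨by omega, ?_⟩
  clear h1
  induction n generalizing t with
  | zero => exact rh_succ_rec hj
  | succ n ih =>
    obtain ⟨t', ht'⟩ := RecBAux.QQ_prefix m w (j + 1) n
    have h2 : QQ m w (j + 1) ++ (t' ++ (AA m w (j + 1 + n) ++ [DD m w (j + 1 + n)])) =
        QQ m w (j + 1) ++ t := by
      rw [← hl, ← List.append_assoc, ← ht']
      rfl
    have h3 := List.append_cancel_left h2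
    have h4 : ¬ isrec w (j + 1 + n) := by
      intro h5
      have h6 : DD m w (j + 1 + n) ∈ t := by
        rw [← h3]
        simp
      have h7 := ht _ h6
      rw [DD_rec h5] at h7
      omega
    change rh w (j + 1 + n + 1) = j
    rw [rh_succ_non h4]
    refine ih ?_ ht'
    intro a ha
    refine ht a ?_
    rw [← h3]
    exact List.mem_append_left _ ha

end Pool.Agent.Lib.GCH
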