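import Pool.Agent.Lib.GCH.RecB

/-!
# Module GCH.RecC: a word which fails no condition is in CR m w (MP_f1c4ef_lc)

`ed_split`: every word splits as `q ++ y` with `ED m q` and `y` without delimiters (induction from the right); here words
in the letters `< BB m + 2`.
`recStep`: ONE STEP. `v = QQ m w z ++ Y ++ [d] ++ s`, letters of `v` `< BB m + 2`, letters of `Y` `< BB m`, `d` a delimiter, `v` not
bad. CLAIM `Y = AA m w z`, `d = DD m w z`. `z = 0`: `v ≠ []`, so `v = AA m w 0 ++ [BB m + 1] ++ s'` (RB0); as `Y` and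
`AA m w 0` (`AA_let`) have letters `< BB m`: `Y = AA m w 0`, `d = BB m + 1` (compare the words up to the first letter `≥ BB m`:
`List.append_eq_append_iff`), `DD_rec` (`isrec w 0`). `z ≠ 0`: not RB1 with `p = QQ m w z ++ Y ++ [d]`:
`U w b z ++ Y.flatMap (hh m b) ++ [b] ∈ CC w b` (`QQ_hh`), where `b ∉ Y.flatMap (hh m b)` (third clause of RB0: no letter
`y < BB m` of `v` has `y % (m + 1) = b`), so `mem_last0` with `U_EE`, `U_inj0`: `Y.flatMap (hh m b) = w z`. Not RB2 with
`p = QQ m w r`, `g = AA m w r`, `t` from `QQ_rh` (`r = rh w z`), `y = Y`: `U w b r ++ Y.flatMap (kk m) ++ [b] ∈ CC w b`, so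
`Y.flatMap (kk m) = w r`. `pz_uniq` (third and fourth clauses of RB0): `Y = pz m (w z) (w r) = AA m w z`. The delimiter:
if `z` is a record (`z ≠ 0`, so `w z` is longer than `w r`) then `pz_last`: `Y = q ++ [y]`, `y / (m + 1) = m`, and the fourth
clause (`Rl m y (BB m)` is false) excludes `d = BB m`. If `z` is not a record and `d = BB m + 1`: the letter before `d` is a
letter `y` of `Y` with `y / (m + 1) ≠ m` (`pz_snd`), or (`Y = []`) the last letter of `QQ m w z` (`z ≠ 0`), a delimiter;
`Rl m y (BB m + 1)` is false, contradiction. `DD_rec`, `DD_non`.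
`recC`: by strong induction on the length of `p`: if `v = p ++ s`, `ED m p`, then `p = QQ m w z` for some `z`. Then `v` itself
(`EE (BB m + 1) v` by RB0): `v = []`, or `v = QQ m w (z + 1)` with last letter `BB m + 1 = DD m w z`, so `isrec w z`.
-/

set_option autoImplicit false

namespace Pool.Agent.Lib.GCH

theorem ed_split {m : ℕ} {u : List ℕ} (hu : ∀ a ∈ u, a < BB m + 2) :
    ∃ q y : List ℕ, u = q ++ y ∧ ED m q ∧ ∀ a ∈ y, a < BB m := by
  induction u using List.reverseRecOn with
  | nil => exact ⟨[], [], rfl, Or.inl rfl, by simp⟩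
  | append_singleton u a ih =>
    by_cases ha : a < BB m
    · obtain ⟨q, y, h1, h2, h3⟩ := ih (fun c hc => hu c (List.mem_append_left _ hc))
      refine ⟨q, y ++ [a], by rw [h1, List.append_assoc], h2, fun c hc => ?_⟩
      rcases List.mem_append.1 hc with hc | hc
      · exact h3 c hc
      · rw [List.mem_singleton.1 hc]; exact ha
    · have h1 := hu a (List.mem_append_right _ (List.mem_singleton_self a))
      exact ⟨u ++ [a], [], by simp, Or.inr ⟨u, a, by omega, rfl⟩, by simp⟩

namespace RecCAux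

theorem first_uniq {B : ℕ} : ∀ {Y A s s' : List ℕ} {d d' : ℕ}, (∀ a ∈ Y, a < B) →
    (∀ a ∈ A, a < B) → B ≤ d → B ≤ d' → Y ++ d :: s = A ++ d' :: s' → Y = A ∧ d = d'
  | [], [], _, _, _, _, _, _, _, _, h => by
    simp only [List.nil_append, List.cons.injEq] at h
    exact ⟨rfl, h.1⟩
  | [], a :: A, _, _, d, _, _, hA, hd, _, h => by
    simp only [List.nil_append, List.cons_append, List.cons.injEq] at h
    have := hA a (List.mem_cons_self)
    omega
  | y :: Y, [], _, _, _, d', hY, _, _, hd', h => by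
    simp only [List.nil_append, List.cons_append, List.cons.injEq] at h
    have := hY y (List.mem_cons_self)
    omega
  | y :: Y, a :: A, _, _, _, _, hY, hA, hd, hd', h => by
    simp only [List.cons_append, List.cons.injEq] at h
    obtain ⟨h1, h2⟩ := first_uniq (fun c hc => hY c (List.mem_cons_of_mem _ hc))
      (fun c hc => hA c (List.mem_cons_of_mem _ hc)) hd hd' h.2
    exact ⟨by rw [h.1, h1], h2⟩

theorem hh_del {m b d : ℕ} (hd : d = BB m ∨ d = BB m + 1) : hh m b d = [b] := by
  unfold hh
  rw [if_neg (by omega)]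

end RecCAux

theorem recStep {m b : ℕ} {w : ℕ → List ℕ} (h : Ch0 m b w) {v : List ℕ}
    (hv : ∀ a ∈ v, a < BB m + 2) (hB : ¬ RB m b w v) {z : ℕ} {Y s : List ℕ} {d : ℕ}
    (hvY : v = QQ m w z ++ Y ++ [d] ++ s) (hY : ∀ a ∈ Y, a < BB m) (hd : d = BB m ∨ d = BB m + 1) :
    Y = AA m w z ∧ d = DD m w z := by
  have hB0 : ¬ RB0 m b w v := fun h' => hB (Or.inl h')
  have hB1 : ¬ RB1 m b w v := fun h' => hB (Or.inr (Or.inl h'))
  have hB2 : ¬ RB2 m b w v := fun h' => hB (Or.inr (Or.inr h'))
  have c1 : v ≠ [] → ∃ s, v = AA m w 0 ++ [BB m + 1] ++ s := by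
    intro hne
    by_contra hc
    exact hB0 (Or.inl ⟨hne, hc⟩)
  have c3 : ∀ y ∈ v, y < BB m → ¬ (y % (m + 1) = b ∨ y / (m + 1) = b ∨ y = m + (m + 1) * m) :=
    fun y hy hyB hc => hB0 (Or.inr (Or.inr (Or.inl ⟨y, hy, hyB, hc⟩)))
  have c4 : ∀ (p s : List ℕ) (y z : ℕ), v = p ++ [y] ++ [z] ++ s → Rl m y z := by
    intro p s y z hp
    by_contra hc
    exact hB0 (Or.inr (Or.inr (Or.inr ⟨p, s, y, z, hp, hc⟩)))
  have hYv : ∀ y ∈ Y, y ∈ v := by
    intro y hy
    rw [hvY]
    simp [hy]
  by_cases hz : z = 0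
  · subst hz
    obtain ⟨s', hs'⟩ := c1 (by rw [hvY]; simp)
    have e : Y ++ d :: s = AA m w 0 ++ (BB m + 1) :: s' := by
      have e1 : v = Y ++ d :: s := by rw [hvY]; simp [QQ]
      rw [← e1, hs']
      simp
    obtain ⟨h1, h2⟩ := RecCAux.first_uniq hY (fun a ha => (AA_let h 0 a ha).1)
      (by omega) (by omega) e
    exact ⟨h1, by rw [h2, DD_rec (Or.inl rfl)]⟩
  · -- first coordinates
    have H1 : Y.flatMap (hh m b) = w z := by
      have m1 : (QQ m w z ++ Y ++ [d]).flatMap (hh m b) ∈ CC w b := by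
        by_contra hc
        exact hB1 ⟨QQ m w z ++ Y ++ [d], s, hvY, Or.inr ⟨_, d, hd, rfl⟩, hc⟩
      rw [List.flatMap_append, List.flatMap_append, QQ_hh h, List.flatMap_singleton,
        RecCAux.hh_del hd] at m1
      have nb : b ∉ Y.flatMap (hh m b) := by
        intro hb
        obtain ⟨y, hy, hby⟩ := List.mem_flatMap.1 hb
        unfold hh at hby
        rw [if_pos (hY y hy)] at hby
        by_cases hlt : y % (m + 1) < m
        · rw [if_pos hlt, List.mem_singleton] at hby
          exact c3 y (hYv y hy) (hY y hy) (Or.inl hby.symm)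
        · rw [if_neg hlt] at hby
          exact absurd hby List.not_mem_nil
      obtain ⟨n, h1, h2⟩ := mem_last0 h (U_EE w b z) nb m1
      rw [U_inj0 h h1, h2]
    -- second coordinates
    have H2 : Y.flatMap (kk m) = w (rh w z) := by
      obtain ⟨t, ht1, ht2, ht3⟩ := QQ_rh h hz
      have m2 : (QQ m w (rh w z)).flatMap (hh m b) ++ Y.flatMap (kk m) ++ [b] ∈ CC w b := by
        by_contra hc
        exact hB2 ⟨QQ m w (rh w z), AA m w (rh w z), t, Y, d, s, by rw [hvY, ht1],
          QQ_ED m w _, fun a ha => (AA_let h _ a ha).1, ht2, ht3, hY, hd, hc⟩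
      rw [QQ_hh h] at m2
      have nb : b ∉ Y.flatMap (kk m) := by
        intro hb
        obtain ⟨y, hy, hby⟩ := List.mem_flatMap.1 hb
        unfold kk at hby
        rw [if_pos (hY y hy)] at hby
        by_cases hlt : y / (m + 1) < m
        · rw [if_pos hlt, List.mem_singleton] at hby
          exact c3 y (hYv y hy) (hY y hy) (Or.inr (Or.inl hby.symm))
        · rw [if_neg hlt] at hby
          exact absurd hby List.not_mem_nil
      obtain ⟨n, h1, h2⟩ := mem_last0 h (U_EE w b _) nb m2
      rw [h2, ← U_inj0 h h1]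
    have H3 : Y = pz m (w z) (w (rh w z)) := by
      have := pz_uniq (m := m) (b := b) (Y := Y)
        (fun y hy => ⟨hY y hy, fun hc => c3 y (hYv y hy) (hY y hy) (Or.inr (Or.inr hc))⟩)
        (fun p s' y z' hp => c4 (QQ m w z ++ p) (s' ++ [d] ++ s) y z' (by
          rw [hvY, hp]; simp))
      rwa [H1, H2] at this
    have H4 : AA m w z = pz m (w z) (w (rh w z)) := by
      unfold AA
      rw [if_neg hz]
    refine ⟨H3.trans H4.symm, ?_⟩
    by_cases hr : isrec w z
    · have hlen : (w (rh w z)).length < (w z).length := by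
        rcases hr with h' | h'
        · exact absurd h' hz
        · exact h'
      obtain ⟨q, y, h1, h2, h3⟩ := pz_last (m := m) (h.lt z) (h.lt (rh w z)) hlen
      rw [DD_rec hr]
      rcases hd with hd | hd
      · exfalso
        have := c4 (QQ m w z ++ q) s y d (by rw [hvY, H3, h1]; simp)
        exact this.2.1 hd ⟨h2, h3⟩
      · exact hd
    · rw [DD_non hr]
      rcases hd with hd | hd
      · exact hd
      · exfalso
        rcases List.eq_nil_or_concat Y with hY0 | ⟨q, y, hq⟩
        · obtain ⟨z', rfl⟩ := Nat.exists_eq_succ_of_ne_zero hz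
          have := c4 (QQ m w z' ++ AA m w z') s (DD m w z') d (by
            rw [hvY, hY0]; simp [QQ])
          have h2 := (this.2.2 hd).1
          by_cases hr' : isrec w z'
          · rw [DD_rec hr'] at h2; omega
          · rw [DD_non hr'] at h2; omega
        · rw [List.concat_eq_append] at hq
          have h1 := c4 (QQ m w z ++ q) s y d (by rw [hvY, hq]; simp)
          have h2 := (h1.2.2 hd).2
          have hle : (w z).length ≤ (w (rh w z)).length := by
            by_contra hc
            exact hr (Or.inr (by omega))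
          exact pz_snd (m := m) (h.lt z) (h.lt (rh w z)) hle y (by
            rw [← H3, hq]; simp) h2

theorem recC {m b : ℕ} {w : ℕ → List ℕ} (h : Ch0 m b w) {v : List ℕ}
    (hv : ∀ a ∈ v, a < BB m + 2) (hB : ¬ RB m b w v) : v ∈ CR m w := by
  have key : ∀ (n : ℕ) (p s : List ℕ), p.length = n → v = p ++ s → ED m p → ∃ z, p = QQ m w z := by
    intro n
    induction n using Nat.strong_induction_on with
    | _ n ih =>
      intro p s hn hvp hE
      rcases hE with hE | ⟨q', d, hd, hE⟩
      · exact ⟨0, hE⟩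
      · obtain ⟨q, y, h1, h2, h3⟩ := ed_split (m := m) (u := q') (fun a ha => hv a (by
          rw [hvp, hE]; simp [ha]))
        have hlt : q.length < n := by
          rw [← hn, hE, h1]
          simp only [List.length_append, List.length_singleton]
          omega
        obtain ⟨z, hz⟩ := ih q.length hlt q (y ++ [d] ++ s) rfl (by
          rw [hvp, hE, h1]; simp) h2
        obtain ⟨e1, e2⟩ := recStep h hv hB (z := z) (Y := y) (s := s) (d := d) (by
          rw [hvp, hE, h1, hz]) h3 hd
        refine ⟨z + 1, ?_⟩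
        rw [hE, h1, hz, e1, e2, QQ, List.append_assoc]
  have hEE : EE (BB m + 1) v := by
    by_contra hc
    exact hB (Or.inl (Or.inr (Or.inl hc)))
  have hED : ED m v := by
    rcases hEE with h' | ⟨q, h'⟩
    · exact Or.inl h'
    · exact Or.inr ⟨q, _, Or.inr rfl, h'⟩
  obtain ⟨z, hz⟩ := key v.length v [] rfl (by simp) hED
  refine ⟨z, hz, ?_⟩
  cases z with
  | zero => exact Or.inl rfl
  | succ z =>
    right
    by_contra hr
    simp only [Nat.add_sub_cancel] at hr
    rcases hEE with h' | ⟨q, h'⟩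
    · rw [hz] at h'
      simp [QQ] at h'
    · rw [hz, QQ, ← List.append_assoc, DD_non hr] at h'
      have := List.append_inj_right' h' rfl
      simp at this

end Pool.Agent.Lib.GCH
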