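import Pool.Agent.Lib.GCH.RecB

/-!
# Module GCH.RecI: the record blocks form a chain of pairwise distinct blocks (MP_f1c4ef_lc)

`inf_rec`: for every `N` there is a record `z ≥ N`: otherwise `rh w z` is constant `= r` for `z > N` (`rh_succ_non`), and all
blocks `z ≥ N`, `z ≥ 1` have length `≤ (w r).length`, and the finitely many blocks before are bounded, contradiction with `hu`.
`rec_mono`: for records `i < j` `(w i).length < (w j).length`: (claim: for `i ≤ k`, `i` a record, `(w i).length ≤ (w (rh w (k + 1))).length`, by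
induction on `k`; then for the record `j = k + 1`: `(w (rh w j)).length < (w j).length`).
`rec_chain`: `nr z` = the least record `≥ z` (`Nat.find (inf_rec .. z)`), `I 0 = 0`, `I (k + 1) = nr (I k) + 1` (`Nat.rec`);
`w' k = (QQ m w (nr (I k))).drop (QQ m w (I k)).length ++ AA m w (nr (I k))`. As `I k ≤ nr (I k)`, `QQ m w (nr (I k)) =
QQ m w (I k) ++ (the dropped word)` (for `i ≤ j` `QQ m w i` is a prefix of `QQ m w j`). So
`QQ m w (I (k + 1)) = QQ m w (I k) ++ (w' k ++ [BB m + 1])` (`DD_rec`), and `U w' (BB m + 1) k = QQ m w (I k)`. The dropped word `t` has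
letters `< BB m + 1` and is `EE (BB m)`: by induction on `j`: for `i ≤ j` with no record in `[i, j)`, `QQ m w j = QQ m w i ++ t` with
such `t` (`DD_non`, `AA_let`). `Ch`: `BB m + 1 < BB m + 2`; letters: `QQ_lt`/`AA_let`; `BB m + 1 ∉ w' k`. Injective: `w' k = t ++ A` with
`EE (BB m) t`, `BB m ∉ A = AA m w (nr (I k))`; `w' i = w' j` gives (`last_eq` after appending `[BB m]`) `AA m w (nr (I i)) = AA m w (nr (I j))`,
so by `AA_hh` `w (nr (I i)) = w (nr (I j))`, so by `rec_mono` `nr (I i) = nr (I j)`, and `i = j`, as `k ↦ nr (I k)` is strictly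
increasing (`nr (I k) < I (k + 1) ≤ nr (I (k + 1))`).
`CC w' (BB m + 1) = CR m w`: `U w' _ k = QQ m w (I k)`, and `I k = 0` or `I k - 1` is a record. Conversely let `z ≠ 0`, `z - 1` a record:
there is `k` with `nr (I k) = z - 1`: the least `k` with `z - 1 < I (k + 1)` (`I` is strictly increasing); then `I k ≤ z - 1`, so
`nr (I k) ≤ z - 1`, and `z - 1 < I (k + 1) = nr (I k) + 1`.
-/

set_option autoImplicit false

namespace Pool.Agent.Lib.GCH

theorem inf_rec {w : ℕ → List ℕ} (hu : ∀ n, ∃ i, n < (w i).length) (N : ℕ) :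
    ∃ z, N ≤ z ∧ isrec w z := by
  by_contra hcon
  have hno : ∀ z, N ≤ z → ¬ isrec w z := fun z hz hr => hcon ⟨z, hz, hr⟩
  have hconst : ∀ z, N ≤ z → rh w z = rh w N := by
    intro z hz
    induction z, hz using Nat.le_induction with
    | base => rfl
    | succ z hz ih => rw [rh_succ_non (hno z hz), ih]
  obtain ⟨i, hi⟩ := hu (max ((Finset.range N).sup (fun i => (w i).length)) (w (rh w N)).length)
  by_cases hiN : i < N
  · have h1 : (w i).length ≤ (Finset.range N).sup (fun i => (w i).length) :=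
      Finset.le_sup (f := fun i => (w i).length) (Finset.mem_range.2 hiN)
    have h2 := le_max_left ((Finset.range N).sup (fun i => (w i).length)) (w (rh w N)).length
    omega
  · have h0 : N ≤ i := Nat.le_of_not_lt hiN
    have h1 := hno i h0
    have h2 : ¬ (w (rh w i)).length < (w i).length := fun h => h1 (Or.inr h)
    rw [hconst i h0] at h2
    have h3 := le_max_right ((Finset.range N).sup (fun i => (w i).length)) (w (rh w N)).length
    omega

theorem rec_mono {w : ℕ → List ℕ} {i j : ℕ} (hi : isrec w i) (hj : isrec w j) (hij : i < j) :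
    (w i).length < (w j).length := by
  have claim : ∀ k, i ≤ k → (w i).length ≤ (w (rh w (k + 1))).length := by
    intro k hk
    induction k, hk using Nat.le_induction with
    | base => rw [rh_succ_rec hi]
    | succ k hk ih =>
      by_cases h1 : (w (rh w (k + 1))).length < (w (k + 1)).length
      · have h2 : rh w (k + 1 + 1) = k + 1 := rh_succ_rec (Or.inr h1)
        rw [h2]
        omega
      · have h2 : rh w (k + 1 + 1) = rh w (k + 1) := by
          conv_lhs => rw [rh]
          rw [if_neg h1]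
        rw [h2]
        exact ih
  obtain ⟨k, rfl⟩ : ∃ k, j = k + 1 := ⟨j - 1, by omega⟩
  have h1 := claim k (by omega)
  rcases hj with hj | hj
  · omega
  · omega

namespace RecIAux

theorem last_mem {d : ℕ} {p t : List ℕ} (h : EE d (p ++ t)) (ht : t ≠ []) : d ∈ t := by
  rcases h with h | ⟨q, h⟩
  · exact absurd (List.append_eq_nil_iff.1 h).2 ht
  · rcases List.eq_nil_or_concat t with h' | ⟨t', a, h'⟩
    · exact absurd h' ht
    · rw [List.concat_eq_append] at h'
      subst h'
      rw [← List.append_assoc] at h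
      have h2 := List.append_inj_right' h rfl
      have h3 : a = d := by simpa using h2
      subst h3
      simp

theorem dec_uniq {d : ℕ} {p q x y : List ℕ} (hp : EE d p) (hq : EE d q) (hx : d ∉ x)
    (hy : d ∉ y) (h : p ++ x = q ++ y) : p = q ∧ x = y := by
  rcases List.append_eq_append_iff.1 h with ⟨t, h2, h3⟩ | ⟨t, h2, h3⟩
  · by_cases ht : t = []
    · subst ht
      exact ⟨by simpa using h2.symm, by simpa using h3⟩
    · exfalso
      rw [h2] at hq
      have hd := last_mem hq ht
      exact hx (by rw [h3]; exact List.mem_append_left _ hd)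
  · by_cases ht : t = []
    · subst ht
      exact ⟨by simpa using h2, by simpa using h3.symm⟩
    · exfalso
      rw [h2] at hp
      have hd := last_mem hp ht
      exact hy (by rw [h3]; exact List.mem_append_left _ hd)

theorem QQ_non {m b : ℕ} {w : ℕ → List ℕ} (h : Ch0 m b w) {i j : ℕ} (hij : i ≤ j)
    (hn : ∀ y, i ≤ y → y < j → ¬ isrec w y) :
    ∃ t, QQ m w j = QQ m w i ++ t ∧ (∀ a ∈ t, a < BB m + 1) ∧ EE (BB m) t := by
  induction j, hij using Nat.le_induction with
  | base => exact ⟨[], by simp, by simp, Or.inl rfl⟩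
  | succ j hj ih =>
    obtain ⟨t, ht1, ht2, ht3⟩ := ih (fun y hy1 hy2 => hn y hy1 (by omega))
    have hr := hn j hj (Nat.lt_succ_self j)
    refine ⟨t ++ AA m w j ++ [BB m], ?_, ?_, Or.inr ⟨t ++ AA m w j, rfl⟩⟩
    · change QQ m w j ++ (AA m w j ++ [DD m w j]) = _
      rw [DD_non hr, ht1]
      simp only [List.append_assoc]
    · intro a ha
      rw [List.mem_append, List.mem_append, List.mem_singleton] at ha
      rcases ha with (ha | ha) | ha
      · exact ht2 a ha
      · exact ((AA_let h j a ha).1).trans (Nat.lt_succ_self _)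
      · omega

open Classical in
/-- the least record `≥ z` -/
noncomputable def nr {w : ℕ → List ℕ} (hu : ∀ n, ∃ i, n < (w i).length) (z : ℕ) : ℕ :=
  Nat.find (inf_rec hu z)

theorem nr_le {w : ℕ → List ℕ} (hu : ∀ n, ∃ i, n < (w i).length) (z : ℕ) : z ≤ nr hu z := by
  classical
  exact (Nat.find_spec (inf_rec hu z)).1

theorem nr_rec {w : ℕ → List ℕ} (hu : ∀ n, ∃ i, n < (w i).length) (z : ℕ) :
    isrec w (nr hu z) := by
  classical
  exact (Nat.find_spec (inf_rec hu z)).2

theorem nr_non {w : ℕ → List ℕ} (hu : ∀ n, ∃ i, n < (w i).length) {z y : ℕ} (h1 : z ≤ y)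
    (h2 : y < nr hu z) : ¬ isrec w y := by
  classical
  exact fun hr => Nat.find_min (inf_rec hu z) h2 ⟨h1, hr⟩

theorem nr_min {w : ℕ → List ℕ} (hu : ∀ n, ∃ i, n < (w i).length) {z y : ℕ} (h1 : z ≤ y)
    (h2 : isrec w y) : nr hu z ≤ y := by
  classical
  exact Nat.find_min' (inf_rec hu z) ⟨h1, h2⟩

/-- the number of the first block of the group `k` -/
noncomputable def II {w : ℕ → List ℕ} (hu : ∀ n, ∃ i, n < (w i).length) : ℕ → ℕ
  | 0 => 0
  | k + 1 => nr hu (II hu k) + 1

theorem II_lt {w : ℕ → List ℕ} (hu : ∀ n, ∃ i, n < (w i).length) (k : ℕ) :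
    nr hu (II hu k) < II hu (k + 1) := Nat.lt_succ_self _

theorem II_strict {w : ℕ → List ℕ} (hu : ∀ n, ∃ i, n < (w i).length) : StrictMono (II hu) :=
  strictMono_nat_of_lt_succ fun k => (nr_le hu (II hu k)).trans_lt (II_lt hu k)

theorem nrI_strict {w : ℕ → List ℕ} (hu : ∀ n, ∃ i, n < (w i).length) :
    StrictMono (fun k => nr hu (II hu k)) :=
  strictMono_nat_of_lt_succ fun k => (II_lt hu k).trans_le (nr_le hu _)

theorem exists_nrI {w : ℕ → List ℕ} (hu : ∀ n, ∃ i, n < (w i).length) {r : ℕ}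
    (hr : isrec w r) : ∃ k, nr hu (II hu k) = r := by
  classical
  have hex : ∃ k, r < II hu (k + 1) := ⟨r, (II_strict hu).le_apply (x := r + 1)⟩
  have h1 := Nat.find_spec hex
  have h2 : II hu (Nat.find hex) ≤ r := by
    rcases Nat.eq_zero_or_pos (Nat.find hex) with h0 | h0
    · rw [h0]
      exact Nat.zero_le _
    · obtain ⟨k, hk⟩ : ∃ k, Nat.find hex = k + 1 := ⟨Nat.find hex - 1, by omega⟩
      have h3 := Nat.find_min hex (m := k) (by omega)
      rw [hk]
      omega
  refine ⟨Nat.find hex, le_antisymm (nr_min hu h2 hr) ?_⟩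
  change r < nr hu (II hu (Nat.find hex)) + 1 at h1
  omega

/-- the blocks of the chain -/
noncomputable def ww {w : ℕ → List ℕ} (m : ℕ) (hu : ∀ n, ∃ i, n < (w i).length) (k : ℕ) :
    List ℕ :=
  (QQ m w (nr hu (II hu k))).drop (QQ m w (II hu k)).length ++ AA m w (nr hu (II hu k))

theorem ww_dec {m b : ℕ} {w : ℕ → List ℕ} (h : Ch0 m b w) (hu : ∀ n, ∃ i, n < (w i).length)
    (k : ℕ) : ∃ t, ww m hu k = t ++ AA m w (nr hu (II hu k)) ∧
      QQ m w (nr hu (II hu k)) = QQ m w (II hu k) ++ t ∧ (∀ a ∈ t, a < BB m + 1) ∧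
      EE (BB m) t := by
  obtain ⟨t, ht1, ht2, ht3⟩ := QQ_non h (nr_le hu (II hu k))
    (fun y hy1 hy2 => nr_non hu hy1 hy2)
  refine ⟨t, ?_, ht1, ht2, ht3⟩
  unfold ww
  congr 1
  rw [ht1, List.drop_left]

theorem ww_U {m b : ℕ} {w : ℕ → List ℕ} (h : Ch0 m b w) (hu : ∀ n, ∃ i, n < (w i).length)
    (k : ℕ) : U (ww m hu) (BB m + 1) k = QQ m w (II hu k) := by
  induction k with
  | zero => rfl
  | succ k ih =>
    obtain ⟨t, ht1, ht2, _, _⟩ := ww_dec h hu k
    change U (ww m hu) (BB m + 1) k ++ (ww m hu k ++ [BB m + 1]) =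
      QQ m w (nr hu (II hu k)) ++ (AA m w (nr hu (II hu k)) ++ [DD m w (nr hu (II hu k))])
    rw [ih, ht1, ht2, DD_rec (nr_rec hu (II hu k))]
    simp only [List.append_assoc]

end RecIAux

theorem rec_chain {m b : ℕ} {w : ℕ → List ℕ} (h : Ch0 m b w)
    (hu : ∀ n, ∃ i, n < (w i).length) :
    ∃ w' : ℕ → List ℕ, Ch (BB m + 2) (BB m + 1) w' ∧ CC w' (BB m + 1) = CR m w := by
  refine ⟨RecIAux.ww m hu, ⟨Nat.lt_succ_self _, ?_, ?_, ?_⟩, ?_⟩
  · intro k a ha
    obtain ⟨t, ht1, _, ht3, _⟩ := RecIAux.ww_dec h hu k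
    rw [ht1, List.mem_append] at ha
    rcases ha with ha | ha
    · exact (ht3 a ha).trans (Nat.lt_succ_self _)
    · exact ((AA_let h _ a ha).1).trans (by omega)
  · intro k ha
    obtain ⟨t, ht1, _, ht3, _⟩ := RecIAux.ww_dec h hu k
    rw [ht1, List.mem_append] at ha
    rcases ha with ha | ha
    · exact absurd (ht3 _ ha) (lt_irrefl _)
    · have := (AA_let h _ _ ha).1
      omega
  · intro i j hij
    obtain ⟨t, ht1, _, _, ht4⟩ := RecIAux.ww_dec h hu i
    obtain ⟨s, hs1, _, _, hs4⟩ := RecIAux.ww_dec h hu j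
    have hA : ∀ z, BB m ∉ AA m w z := fun z hz => lt_irrefl _ (AA_let h z _ hz).1
    rw [ht1, hs1] at hij
    have h1 := (RecIAux.dec_uniq ht4 hs4 (hA _) (hA _) hij).2
    have h2 : w (RecIAux.nr hu (RecIAux.II hu i)) = w (RecIAux.nr hu (RecIAux.II hu j)) := by
      rw [← AA_hh h, ← AA_hh h (RecIAux.nr hu (RecIAux.II hu j)), h1]
    have h3 : RecIAux.nr hu (RecIAux.II hu i) = RecIAux.nr hu (RecIAux.II hu j) := by
      rcases lt_trichotomy (RecIAux.nr hu (RecIAux.II hu i))
        (RecIAux.nr hu (RecIAux.II hu j)) with h4 | h4 | h4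
      · have h5 := rec_mono (RecIAux.nr_rec hu _) (RecIAux.nr_rec hu _) h4
        rw [h2] at h5
        exact absurd h5 (lt_irrefl _)
      · exact h4
      · have h5 := rec_mono (RecIAux.nr_rec hu _) (RecIAux.nr_rec hu _) h4
        rw [h2] at h5
        exact absurd h5 (lt_irrefl _)
    exact (RecIAux.nrI_strict hu).injective h3
  · ext v
    constructor
    · rintro ⟨k, rfl⟩
      refine ⟨RecIAux.II hu k, RecIAux.ww_U h hu k, ?_⟩
      cases k with
      | zero => exact Or.inl rfl
      | succ k => exact Or.inr (RecIAux.nr_rec hu (RecIAux.II hu k))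
    · rintro ⟨z, rfl, hz⟩
      rcases Nat.eq_zero_or_pos z with h0 | h0
      · subst h0
        exact ⟨0, rfl⟩
      · rcases hz with hz | hz
        · omega
        · obtain ⟨k, hk⟩ := RecIAux.exists_nrI hu hz
          refine ⟨k + 1, ?_⟩
          rw [RecIAux.ww_U h hu]
          have h1 : RecIAux.II hu (k + 1) = z := by
            change RecIAux.nr hu (RecIAux.II hu k) + 1 = z
            omega
          rw [h1]

end Pool.Agent.Lib.GCH
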