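import Pool.Agent.Lib.GCH.Zer
import Pool.Agent.Lib.GCH.Tests
import Pool.Agent.Lib.GCH.RatC

/-!
# Module GCH.RecM: the bad words for the record step form a language of the cone (MP_f1c4ef_lc)

The bad words are the words which pass one of two tests (lists of rational languages with roles, the
output is compared with the language `CC w b`) or lie in a rational language.
-/

set_option autoImplicit false

namespace Pool.Agent.Lib.GCH

open Pool.Agent.Lib.F1c4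

theorem hh_lt {m b : ℕ} (hb : b < m) (Y : List ℕ) : ∀ a ∈ Y.flatMap (hh m b), a < m := by
  intro a ha
  obtain ⟨y, -, hy⟩ := List.mem_flatMap.1 ha
  unfold hh at hy
  split_ifs at hy with h1 h2
  · rw [List.mem_singleton] at hy
    omega
  · exact absurd hy List.not_mem_nil
  · rw [List.mem_singleton] at hy
    omega

theorem kk_lt (m : ℕ) (Y : List ℕ) : ∀ a ∈ Y.flatMap (kk m), a < m := by
  intro a ha
  obtain ⟨y, -, hy⟩ := List.mem_flatMap.1 ha
  unfold kk at hy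
  split_ifs at hy with h1 h2
  · rw [List.mem_singleton] at hy
    omega
  · exact absurd hy List.not_mem_nil
  · exact absurd hy List.not_mem_nil

namespace RecMAux

theorem fl_nil (v : List ℕ) : v.flatMap (fun _ => ([] : List ℕ)) = [] := by
  induction v with
  | nil => rfl
  | cons a v ih =>
    rw [List.flatMap_cons, ih]
    rfl

/-- words in the letters below `k` -/
def All (k : ℕ) : Language ℕ := {v : List ℕ | ∀ a ∈ v, a < k}

/-- words in the letters below `k`, empty or ending with `d` -/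
def AE (k d : ℕ) : Language ℕ := {v : List ℕ | (∀ a ∈ v, a < k) ∧ EE d v}

/-- words in the letters below `k`, empty or ending with a delimiter -/
def AD (k m : ℕ) : Language ℕ := {v : List ℕ | (∀ a ∈ v, a < k) ∧ ED m v}

/-- the one letter words with letter in `s` -/
def Le (s : Finset ℕ) : Language ℕ := {v : List ℕ | ∃ c ∈ s, v = [c]}

/-- the word `[c]` -/
def One (c : ℕ) : Language ℕ := {t : List ℕ | t = [c]}

theorem mem_le {s : Finset ℕ} {v : List ℕ} : v ∈ Le s ↔ ∃ c ∈ s, v = [c] := Iff.rfl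
theorem mem_one {c : ℕ} {v : List ℕ} : v ∈ One c ↔ v = [c] := Iff.rfl

/-- the outputs of the three roles -/
def ff (m b : ℕ) : ℕ → ℕ → List ℕ
  | 0 => hh m b
  | 1 => kk m
  | _ => fun _ => []

/-- first test -/
def P1 (m : ℕ) : List (ℕ × Language ℕ) := [(0, AD (BB m + 2) m), (2, All (BB m + 2))]

/-- second test -/
def P2 (m : ℕ) : List (ℕ × Language ℕ) :=
  [(0, AD (BB m + 2) m), (2, All (BB m)), (2, One (BB m + 1)), (2, AE (BB m + 1) (BB m)),
    (1, All (BB m)), (0, Le {BB m, BB m + 1}), (2, All (BB m + 2))]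

theorem hh_d {m b c : ℕ} (hc : c = BB m ∨ c = BB m + 1) : hh m b c = [b] := by
  unfold hh
  rw [if_neg (by omega)]

theorem fac1 {m b : ℕ} {v o : List ℕ} (h : Fac (ff m b) (P1 m) v o) :
    ∃ p s : List ℕ, p ∈ AD (BB m + 2) m ∧ s ∈ All (BB m + 2) ∧ v = p ++ s ∧
      o = p.flatMap (hh m b) := by
  obtain ⟨p, v1, o1, hp, h1, rfl, rfl⟩ := fac_cons.1 h
  obtain ⟨s, v2, o2, hs, h2, rfl, rfl⟩ := fac_cons.1 h1
  obtain ⟨rfl, rfl⟩ := fac_nil.1 h2
  refine ⟨p, s, hp, hs, by simp, ?_⟩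
  simp [ff, fl_nil]

theorem fac1' {m b : ℕ} {p s : List ℕ} (hp : p ∈ AD (BB m + 2) m)
    (hs : s ∈ All (BB m + 2)) : Fac (ff m b) (P1 m) (p ++ s) (p.flatMap (hh m b)) := by
  have h1 := Fac.cons (f := ff m b) (i := 0) hp (Fac.cons (i := 2) hs (Fac.nil))
  simpa [ff, P1, fl_nil] using h1

theorem fac2 {m b : ℕ} {v o : List ℕ} (h : Fac (ff m b) (P2 m) v o) :
    ∃ (p g t y : List ℕ) (d : ℕ) (s : List ℕ), p ∈ AD (BB m + 2) m ∧ g ∈ All (BB m) ∧
      t ∈ AE (BB m + 1) (BB m) ∧ y ∈ All (BB m) ∧ (d = BB m ∨ d = BB m + 1) ∧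
      s ∈ All (BB m + 2) ∧ v = p ++ g ++ [BB m + 1] ++ t ++ y ++ [d] ++ s ∧
      o = p.flatMap (hh m b) ++ y.flatMap (kk m) ++ [b] := by
  obtain ⟨p, v1, o1, hp, h1, rfl, rfl⟩ := fac_cons.1 h
  obtain ⟨g, v2, o2, hg, h2, rfl, rfl⟩ := fac_cons.1 h1
  obtain ⟨c1, v3, o3, hc1, h3, rfl, rfl⟩ := fac_cons.1 h2
  obtain ⟨t, v4, o4, ht, h4, rfl, rfl⟩ := fac_cons.1 h3
  obtain ⟨y, v5, o5, hy, h5, rfl, rfl⟩ := fac_cons.1 h4
  obtain ⟨c2, v6, o6, hc2, h6, rfl, rfl⟩ := fac_cons.1 h5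
  obtain ⟨s, v7, o7, hs, h7, rfl, rfl⟩ := fac_cons.1 h6
  obtain ⟨rfl, rfl⟩ := fac_nil.1 h7
  rw [mem_one] at hc1
  subst hc1
  obtain ⟨d, hd, rfl⟩ := mem_le.1 hc2
  have hd' : d = BB m ∨ d = BB m + 1 := by simpa using hd
  refine ⟨p, g, t, y, d, s, hp, hg, ht, hy, hd', hs, by simp, ?_⟩
  simp [ff, hh_d hd', fl_nil]

theorem fac2' {m b : ℕ} {p g t y : List ℕ} {d : ℕ} {s : List ℕ} (hp : p ∈ AD (BB m + 2) m)
    (hg : g ∈ All (BB m)) (ht : t ∈ AE (BB m + 1) (BB m)) (hy : y ∈ All (BB m))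
    (hd : d = BB m ∨ d = BB m + 1) (hs : s ∈ All (BB m + 2)) :
    Fac (ff m b) (P2 m) (p ++ g ++ [BB m + 1] ++ t ++ y ++ [d] ++ s)
      (p.flatMap (hh m b) ++ y.flatMap (kk m) ++ [b]) := by
  have hd1 : ([d] : List ℕ) ∈ Le {BB m, BB m + 1} := mem_le.2 ⟨d, by simpa using hd, rfl⟩
  have h1 := Fac.cons (f := ff m b) (i := 0) hp (Fac.cons (i := 2) hg (Fac.cons (i := 2)
    (mem_one.2 (rfl : ([BB m + 1] : List ℕ) = [BB m + 1])) (Fac.cons (i := 2) ht (Fac.cons (i := 1) hy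
    (Fac.cons (i := 0) hd1 (Fac.cons (i := 2) hs (Fac.nil)))))))
  simpa [ff, P2, hh_d hd, fl_nil] using h1

theorem co_app {m : ℕ} {C : Language ℕ} {o : List ℕ} (ho : ∀ a ∈ o, a < m) :
    o ∈ co m C ↔ o ∉ C := ⟨fun h => h.2, fun h => ⟨ho, h⟩⟩

theorem lt_app {k : ℕ} {u v : List ℕ} (hu : ∀ a ∈ u, a < k) (hv : ∀ a ∈ v, a < k) :
    ∀ a ∈ u ++ v, a < k := by
  intro a ha
  rcases List.mem_append.1 ha with h | h
  · exact hu a h
  · exact hv a h

theorem one_lt {k c : ℕ} (h : c < k) : ∀ a ∈ ([c] : List ℕ), a < k := by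
  intro a ha
  rw [List.mem_singleton] at ha
  omega

theorem lt_le {k l : ℕ} (hkl : k ≤ l) {u : List ℕ} (hu : ∀ a ∈ u, a < k) : ∀ a ∈ u, a < l :=
  fun a ha => lt_of_lt_of_le (hu a ha) hkl

theorem rb_eq {m b : ℕ} {w : ℕ → List ℕ} (hb : b < m) (v : List ℕ) :
    (v ∈ ({v : List ℕ | (∀ a ∈ v, a < BB m + 2) ∧ RB0 m b w v} : Language ℕ) ∨
      ∃ P ∈ [P1 m, P2 m], ∃ o : List ℕ, Fac (ff m b) P v o ∧ o ∈ co m (CC w b)) ↔
    (∀ a ∈ v, a < BB m + 2) ∧ RB m b w v := by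
  constructor
  · rintro (⟨h1, h2⟩ | ⟨P, hP, o, ho, ho1⟩)
    · exact ⟨h1, Or.inl h2⟩
    · simp only [List.mem_cons, List.not_mem_nil, or_false] at hP
      rcases hP with rfl | rfl
      · obtain ⟨p, s, hp, hs, rfl, rfl⟩ := fac1 ho
        exact ⟨lt_app hp.1 hs, Or.inr (Or.inl ⟨p, s, rfl, hp.2, ho1.2⟩)⟩
      · obtain ⟨p, g, t, y, d, s, hp, hg, ht, hy, hd, hs, rfl, rfl⟩ := fac2 ho
        refine ⟨?_, Or.inr (Or.inr ⟨p, g, t, y, d, s, rfl, hp.2, hg, ht.1, ht.2, hy, hd, ho1.2⟩)⟩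
        have h5 : d < BB m + 2 := by omega
        exact lt_app (lt_app (lt_app (lt_app (lt_app (lt_app hp.1 (lt_le (by omega) hg))
          (one_lt (by omega))) (lt_le (by omega) ht.1)) (lt_le (by omega) hy)) (one_lt h5)) hs
  · rintro ⟨hv, h0 | h1 | h2⟩
    · exact Or.inl ⟨hv, h0⟩
    · obtain ⟨p, s, rfl, hp, hC⟩ := h1
      refine Or.inr ⟨P1 m, by simp, _, fac1' (b := b) ⟨fun a ha => hv a (by simp [ha]), hp⟩
        (fun a ha => hv a (by simp [ha])), (co_app (hh_lt hb p)).2 hC⟩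
    · obtain ⟨p, g, t, y, d, s, rfl, hp, hg, ht, ht', hy, hd, hC⟩ := h2
      refine Or.inr ⟨P2 m, by simp, _, fac2' (b := b) ⟨fun a ha => hv a (by simp [ha]), hp⟩ hg
        ⟨ht, ht'⟩ hy hd (fun a ha => hv a (by simp [ha])),
        (co_app (lt_app (lt_app (hh_lt hb p) (kk_lt m y)) (one_lt hb))).2 hC⟩

end RecMAux

open RecMAux

theorem rb_mem {F : Set (Language ℕ)} (hF : IsCone F) {m b : ℕ} {w : ℕ → List ℕ}
    (h : Ch0 m b w) (hw : ∃ i, w i ≠ []) (hA : co m (CC w b) ∈ F) :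
    ({v : List ℕ | (∀ a ∈ v, a < BB m + 2) ∧ RB m b w v} : Language ℕ) ∈ F := by
  obtain ⟨a0, ha0, hn⟩ := notin0 h hw
  have h1 := tests_mem hF hA (a0 := a0) ⟨ha0, hn⟩ (ff m b) rfl (rb0_rat m b w) [P1 m, P2 m] ?_
  · have h2 : ({v : List ℕ | (∀ a ∈ v, a < BB m + 2) ∧ RB m b w v} : Language ℕ) = _ :=
      Set.ext fun v => (rb_eq (w := w) h.bm v).symm
    rw [h2]
    exact h1
  · intro P hP x hx
    have hall : ∀ k, Rat (All k) := rat_all
    have hae : ∀ k d, Rat (AE k d) := rat_EE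
    have had : ∀ k m, Rat (AD k m) := rat_ED
    have hle : ∀ s, Rat (Le s) := rat_fin
    have hone : ∀ c, Rat (One c) := rat_sing
    simp only [List.mem_cons, List.not_mem_nil, or_false] at hP
    rcases hP with rfl | rfl
    · simp only [P1, List.mem_cons, List.not_mem_nil, or_false] at hx
      rcases hx with rfl | rfl
      · exact ⟨by norm_num, had _ _⟩
      · exact ⟨by norm_num, hall _⟩
    · simp only [P2, List.mem_cons, List.not_mem_nil, or_false] at hx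
      rcases hx with rfl | rfl | rfl | rfl | rfl | rfl | rfl
      · exact ⟨by norm_num, had _ _⟩
      · exact ⟨by norm_num, hall _⟩
      · exact ⟨by norm_num, hone _⟩
      · exact ⟨by norm_num, hae _ _⟩
      · exact ⟨by norm_num, hall _⟩
      · exact ⟨by norm_num, hle _⟩
      · exact ⟨by norm_num, hall _⟩

end Pool.Agent.Lib.GCH
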