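import Pool.Agent.Lib.GCH.RecB

/-!
# Module GCH.RecS: the words of CR m w fail no condition (MP_f1c4ef_lc)

`QQ_chain`: show `List.IsChain (Rl m) (QQ m w K)` by induction (`List.isChain_append`, `pz_chain`), then use
`List.isChain_append_cons_cons` (or similar) for `v = p ++ [y] ++ [z] ++ s`. At the boundaries: a delimiter `y ≥ BB m` followed by
`z ≠ BB m + 1`: `Rl` holds. A delimiter followed by `DD m w k`: then `AA m w k = []`; `k` is not a record for `k ≠ 0` (a record
`k ≠ 0` has `w k ≠ []`, `pz_last` gives a letter), so `z = BB m`. The last letter `y` of `AA m w k` before `DD m w k`: `k` a record: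
`y / (m + 1) = m` by `pz_last` (for `k = 0`: `pz m (w 0) []`, `0 < (w 0).length`); not a record: `pz_snd`.
`recS`: `v = QQ m w K`, `K = 0` or `isrec w (K - 1)`. RB0: `K = 0`: `v = []`; `K = k + 1`: `v` begins with
`QQ m w 1 = [] ++ (AA m w 0 ++ [BB m + 1])` (`DD_rec`, induction on `k`: `QQ m w (k + 1) = QQ m w 1 ++ _`). `EE (BB m + 1) v`: `DD_rec`. Third
clause: `QQ_lt`. Fourth: `QQ_chain`. RB1: `QQ_pre`, `QQ_hh`. RB2: `p = QQ m w j`, `g = AA m w j`, `BB m + 1 = DD m w j`,
`p ++ g ++ [BB m + 1] = QQ m w (j + 1)` (`QQ_blk`), so `isrec w j` (otherwise `DD_non`). `p ++ g ++ [BB m + 1] ++ t` is `ED`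
(`t = []`, or `t` ends with `BB m`), so `= QQ m w l` (`QQ_pre`), `rh w l = j`, `l ≠ 0` (`rh_of`). `QQ_blk` for
`q = QQ m w l`: `y = AA m w i`, `QQ m w l = QQ m w i`, `i = l` (`QQ_inj`). By `AA_kk` `y.flatMap (kk m) = w (rh w l) = w j`, and
`p.flatMap (hh m b) = U w b j`; so the output is `U w b (j + 1)`, in `CC w b`.
-/

set_option autoImplicit false

namespace Pool.Agent.Lib.GCH

namespace RecSAux

theorem rec_last {m b : ℕ} {w : ℕ → List ℕ} (h : Ch0 m b w) {z : ℕ} (hr : isrec w z)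
    (hne : AA m w z ≠ []) : ∃ q y, AA m w z = q ++ [y] ∧ y < BB m ∧ y / (m + 1) = m := by
  by_cases hz : z = 0
  · subst hz
    have e : AA m w 0 = pz m (w 0) [] := by simp [AA]
    rw [e] at hne ⊢
    apply pz_last (h.lt 0) (by simp)
    rcases hw : w 0 with _ | ⟨a, l⟩
    · rw [hw] at hne
      exact absurd (by simp [pz]) hne
    · simp
  · have e : AA m w z = pz m (w z) (w (rh w z)) := by simp [AA, hz]
    rw [e]
    exact pz_last (h.lt _) (h.lt _) (hr.resolve_left hz)

theorem rec_ne {m b : ℕ} {w : ℕ → List ℕ} (h : Ch0 m b w) {z : ℕ} (hr : isrec w z)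
    (hz : z ≠ 0) : AA m w z ≠ [] := by
  have e : AA m w z = pz m (w z) (w (rh w z)) := by simp [AA, hz]
  obtain ⟨q, y, h1, -⟩ := pz_last (m := m) (h.lt z) (h.lt (rh w z)) (hr.resolve_left hz)
  rw [e, h1]
  simp

theorem last_ok {m b : ℕ} {w : ℕ → List ℕ} (h : Ch0 m b w) {z : ℕ} {q : List ℕ} {y : ℕ}
    (hq : AA m w z = q ++ [y]) : Rl m y (DD m w z) := by
  by_cases hr : isrec w z
  · rw [DD_rec hr]
    obtain ⟨q', y', h1, h2, h3⟩ := rec_last h hr (by rw [hq]; simp)
    rw [hq] at h1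
    have : y = y' := by
      have := congrArg List.getLast? h1
      simpa using this
    subst this
    refine ⟨fun _ h5 => absurd h5 (by omega), fun h5 => absurd h5 (by omega), fun _ => ⟨h2, h3⟩⟩
  · rw [DD_non hr]
    have hz : z ≠ 0 := fun h0 => hr (Or.inl h0)
    have e : AA m w z = pz m (w z) (w (rh w z)) := by simp [AA, hz]
    have hle : (w z).length ≤ (w (rh w z)).length := by
      by_contra hc
      exact hr (Or.inr (by omega))
    have hy := pz_snd (m := m) (h.lt z) (h.lt (rh w z)) hle y (by rw [← e, hq]; simp)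
    refine ⟨fun _ h5 => absurd h5 (by omega), fun _ h5 => hy h5.2, fun h5 => absurd h5 (by omega)⟩

theorem blk_chain {m b : ℕ} {w : ℕ → List ℕ} (h : Ch0 m b w) (z : ℕ) :
    List.IsChain (Rl m) (AA m w z ++ [DD m w z]) := by
  rw [List.isChain_append]
  refine ⟨?_, List.isChain_singleton _, ?_⟩
  · by_cases hz : z = 0
    · subst hz
      have e : AA m w 0 = pz m (w 0) [] := by simp [AA]
      rw [e]
      exact pz_chain (h.lt 0) (by simp)
    · have e : AA m w z = pz m (w z) (w (rh w z)) := by simp [AA, hz]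
      rw [e]
      exact pz_chain (h.lt _) (h.lt _)
  · intro x hx y hy
    simp only [List.head?_cons, Option.mem_def, Option.some.injEq] at hy
    subst hy
    obtain ⟨q, hq⟩ := List.getLast?_eq_some_iff.mp (by simpa using hx)
    exact last_ok h hq

theorem DD_ge (m : ℕ) (w : ℕ → List ℕ) (z : ℕ) : BB m ≤ DD m w z := by
  by_cases hr : isrec w z
  · rw [DD_rec hr]; omega
  · rw [DD_non hr]

theorem QQ_ch {m b : ℕ} {w : ℕ → List ℕ} (h : Ch0 m b w) (K : ℕ) :
    List.IsChain (Rl m) (QQ m w K) := by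
  induction K with
  | zero => simp [QQ]
  | succ K ih =>
    rw [QQ, List.isChain_append]
    refine ⟨ih, blk_chain h K, ?_⟩
    intro x hx y hy
    rcases K with _ | K
    · simp [QQ] at hx
    · have hx' : x = DD m w K := by
        rw [QQ, ← List.append_assoc] at hx
        simpa using hx.symm
      subst hx'
      have hy' : y ≠ BB m + 1 := by
        rcases hA : AA m w (K + 1) with _ | ⟨a, l⟩
        · rw [hA] at hy
          have hnr : ¬ isrec w (K + 1) := fun hr => rec_ne h hr (by omega) hA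
          simp only [List.nil_append, List.head?_cons, Option.mem_def, Option.some.injEq] at hy
          rw [← hy, DD_non hnr]
          omega
        · have hl := (AA_let h (K + 1) a (by rw [hA]; simp)).1
          rw [hA] at hy
          simp only [List.cons_append, List.head?_cons, Option.mem_def, Option.some.injEq] at hy
          omega
      have := DD_ge m w K
      exact ⟨fun h5 => absurd h5 (by omega), fun _ h5 => absurd h5.1 (by omega),
        fun h5 => absurd h5 hy'⟩

theorem QQ_first (m : ℕ) (w : ℕ → List ℕ) (k : ℕ) :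
    ∃ s, QQ m w (k + 1) = AA m w 0 ++ [BB m + 1] ++ s := by
  induction k with
  | zero =>
    refine ⟨[], ?_⟩
    simp [QQ, DD_rec (Or.inl rfl : isrec w 0)]
  | succ k ih =>
    obtain ⟨s, hs⟩ := ih
    refine ⟨s ++ (AA m w (k + 1) ++ [DD m w (k + 1)]), ?_⟩
    rw [QQ, hs]
    simp [List.append_assoc]

end RecSAux

open RecSAux

theorem QQ_chain {m b : ℕ} {w : ℕ → List ℕ} (h : Ch0 m b w) (K : ℕ) (p s : List ℕ) (y z : ℕ)
    (hv : QQ m w K = p ++ [y] ++ [z] ++ s) : Rl m y z := by
  have := List.isChain_iff_forall_rel_of_append_cons_cons.mp (QQ_ch h K)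
  exact this (l₁ := p) (l₂ := s) (by rw [hv]; simp)

theorem recS {m b : ℕ} {w : ℕ → List ℕ} (h : Ch0 m b w) {v : List ℕ} (hv : v ∈ CR m w) :
    ¬ RB m b w v := by
  obtain ⟨K, rfl, hK⟩ := hv
  rintro ((⟨h1, h2⟩ | h1 | ⟨y, h1, h2, h3⟩ | ⟨p, s, y, z, h1, h2⟩) | ⟨p, s, h1, h2, h3⟩ |
    ⟨p, g, t, y, d, s, h1, h2, h3, h4, h5, h6, h7, h8⟩)
  · rcases K with _ | K
    · exact h1 rfl
    · exact h2 (QQ_first m w K)
  · rcases K with _ | K
    · exact h1 (Or.inl rfl)
    · apply h1
      right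
      refine ⟨QQ m w K ++ AA m w K, ?_⟩
      have hr : isrec w K := by simpa using hK
      rw [QQ, DD_rec hr, List.append_assoc]
  · exact (QQ_lt h K y h1).2 h2 h3
  · exact h2 (QQ_chain h K p s y z h1)
  · obtain ⟨k, -, rfl⟩ := QQ_pre h h1 h2
    exact h3 ⟨k, QQ_hh h k⟩
  · obtain ⟨j, hj, hp, hg, hd, hq⟩ := QQ_blk h (K := K) (q := p) (y := g) (s := t ++ y ++ [d] ++ s)
      (d := BB m + 1) (by rw [h1]; simp [List.append_assoc]) h2 h3 (Or.inr rfl)
    have hr : isrec w j := by
      by_contra hc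
      rw [DD_non hc] at hd
      omega
    have hED : ED m (p ++ g ++ [BB m + 1] ++ t) := by
      rcases h5 with rfl | ⟨t', rfl⟩
      · exact Or.inr ⟨p ++ g, BB m + 1, Or.inr rfl, by simp⟩
      · exact Or.inr ⟨p ++ g ++ [BB m + 1] ++ t', BB m, Or.inl rfl, by simp [List.append_assoc]⟩
    obtain ⟨l, hl, hp', hg', -, -⟩ := QQ_blk h (K := K) (q := p ++ g ++ [BB m + 1] ++ t) (y := y)
      (s := s) (d := d) h1 hED h6 h7
    rw [hq] at hp'
    obtain ⟨hl0, hrl⟩ := rh_of h hp'.symm hr h4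
    apply h8
    refine ⟨j + 1, ?_⟩
    rw [hg', AA_kk h hl0, hrl, hp, QQ_hh h j, U, List.append_assoc]

end Pool.Agent.Lib.GCH
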