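import Pool.Agent.Lib.GCH.Pref

/-!
# Module GCH.SoundA: the words U (G w b m) (2 * m) K are not Bad0, Bad1, Bad2 (MP_f1c4ef_lc)

Write `g = G w b m`, `d = 2 * m`, `V k = U g d k`.
Bad0 (`sound0`): first clause: `G_front`. Second clause: `U_EE`. Third: `G_letters`. Fourth: `V K = p ++ [x] ++ [d] ++ s`: by
`G_pre` `p ++ [x] ++ [d] = V k`, `k ≠ 0`, `k = j + 1`, so `p ++ [x] = V j ++ g j` (cancel `[d]`), and `g j` ends with `m + a`,
`a < m` (`G_last`), so `x = m + a`, neither `< m` nor `2 * m`.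
Bad1 (`sound1`): `G_pre` and `GU_mn`. Bad2 (`sound2`): by `G_grp` `p = V j`, `Z = g j`, `p ++ Z ++ [d] = V (j + 1)`, and again by
`G_grp` with `q = p ++ Z ++ [d]`: `Y = g i`, `V i = V (j + 1)`, `i = j + 1` (`U_inj (G_Ch h)`). The word is
`U w b (NN w b j) ++ cc w b (j + 1) = U w b (NN w b (j + 1))` by `GU_mn`, `G_cr`, `U_NN`.
-/

set_option autoImplicit false

namespace Pool.Agent.Lib.GCH

theorem sound0 {m b : ℕ} {w : ℕ → List ℕ} (h : Ch m b w) (K : ℕ) :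
    ¬ Bad0 m b w (U (G w b m) (2 * m) K) := by
  rintro (⟨h1, h2⟩ | h1 | h1 | ⟨p, s, x, h1, h2⟩)
  · exact h2 (G_front K h1)
  · exact h1 (U_EE _ _ _)
  · exact (G_letters h K b h1).2 rfl
  · obtain ⟨k, -, hk⟩ := G_pre h (p := p ++ [x] ++ [2 * m]) (s := s) (Or.inr ⟨p ++ [x], rfl⟩) h1
    cases k with
    | zero =>
      have h3 := congrArg List.length hk
      simp [U] at h3
    | succ j =>
      have h3 : p ++ [x] ++ [2 * m] = U (G w b m) (2 * m) j ++ G w b m j ++ [2 * m] := by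
        rw [hk]
        change U (G w b m) (2 * m) j ++ (G w b m j ++ [2 * m]) = _
        rw [List.append_assoc]
      have h4 : p ++ [x] = U (G w b m) (2 * m) j ++ G w b m j := List.append_cancel_right h3
      obtain ⟨cs, a, -, ha, -, hg⟩ := G_last h j
      rw [hg, ← List.append_assoc] at h4
      have h5 := congrArg List.getLast? h4
      rw [List.getLast?_concat, List.getLast?_concat, Option.some.injEq] at h5
      omega

theorem sound1 {m b : ℕ} {w : ℕ → List ℕ} (h : Ch m b w) (K : ℕ) :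
    ¬ Bad1 m b w (U (G w b m) (2 * m) K) := by
  rintro ⟨p, s, h1, h2, h3⟩
  obtain ⟨k, -, rfl⟩ := G_pre h h2 h1
  rw [GU_mn h] at h3
  exact h3 ⟨_, rfl⟩

theorem sound2 {m b : ℕ} {w : ℕ → List ℕ} (h : Ch m b w) (K : ℕ) :
    ¬ Bad2 m b w (U (G w b m) (2 * m) K) := by
  rintro ⟨p, Z, Y, s, h1, h2, h3, h4, h5⟩
  obtain ⟨j, hj1, -, hj3⟩ := G_grp h h2 h3 (K := K) (s := Y ++ [2 * m] ++ s)
    (by rw [h1]; simp only [List.append_assoc])
  obtain ⟨i, hi1, hi2, -⟩ := G_grp h (K := K) (q := p ++ Z ++ [2 * m]) (s := s)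
    (Or.inr ⟨p ++ Z, rfl⟩) h4 h1
  have h6 : i = j + 1 := U_inj (G_Ch h) (hi1.symm.trans hj3)
  subst h6
  rw [hi2, hj1, GU_mn h, G_cr h, ← U_NN] at h5
  exact h5 ⟨_, rfl⟩

end Pool.Agent.Lib.GCH
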