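import Pool.Agent.Lib.GCH.Final
import Pool.Agent.Lib.GCH.RecS
import Pool.Agent.Lib.GCH.RecC
import Pool.Agent.Lib.GCH.RecM
import Pool.Agent.Lib.GCH.RecI
import Pool.Agent.Lib.GCH.InsS
import Pool.Agent.Lib.GCH.InsC
import Pool.Agent.Lib.GCH.InsM

/-!
# Minimal rational cones and the prefixes of an infinite word (MP_f1c4ef_lc)
-/

set_option autoImplicit false

namespace Pool.Agent.Lib.GCH

open Pool.Agent.Lib.F1c4

namespace TopAux

/-- words over `S` in `R` -/
def SR (S : Finset ℕ) (R : Language ℕ) : Language ℕ := {v : List ℕ | v ∈ AS S ∧ v ∈ R}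

/-- the other words in the letters `< m` -/
def NR (m : ℕ) (S : Finset ℕ) (R : Language ℕ) : Language ℕ :=
  {v : List ℕ | (∀ a ∈ v, a < m) ∧ v ∉ SR S R}

theorem sr_rat (S : Finset ℕ) {R : Language ℕ} (hR : R.IsRegular) : Rat (SR S R) :=
  rat_sub (as_rat S) hR

theorem nr_rat (m : ℕ) (S : Finset ℕ) {R : Language ℕ} (hR : R.IsRegular) : Rat (NR m S R) :=
  rat_diff (rat_all m) (sr_rat S hR).1

theorem pre_mem {x : ℕ → ℕ} {P : ℕ → Prop} (hx : ∀ i, P (x i)) (n : ℕ) : ∀ a ∈ pre x n, P a := by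
  intro a ha
  obtain ⟨i, -, rfl⟩ := List.mem_map.1 ha
  exact hx i

/-- the complement of `CX x R` is in the cone -/
theorem cx_mem {F : Set (Language ℕ)} (hF : IsCone F) {m : ℕ} {S : Finset ℕ}
    (hm : ∀ a ∈ S, a < m) {x : ℕ → ℕ} (hx : ∀ i, x i ∈ S) {R : Language ℕ} (hR : R.IsRegular)
    {L : Language ℕ} (hL : L ∈ F)
    (hLR : ∀ v : List ℕ, (∀ a ∈ v, a ∈ S) → v ∈ R → (v ∈ L ↔ ∀ n : ℕ, v ≠ pre x n)) :
    co m (CX x R) ∈ F := by
  by_cases hne : ∃ a0, a0 ∈ L
  · obtain ⟨a0, ha0⟩ := hne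
    have h1 := tests_mem hF hL ha0 FinalAux.ff rfl (nr_rat m S hR) [[(0, SR S R)]] (by
      intro P hP y hy
      rw [List.mem_singleton.1 hP] at hy
      rw [List.mem_singleton.1 hy]
      exact ⟨by norm_num, sr_rat S hR⟩)
    have h2 : ({v : List ℕ | v ∈ NR m S R ∨ ∃ P ∈ [[((0 : ℕ), SR S R)]], ∃ o : List ℕ,
        Fac FinalAux.ff P v o ∧ o ∈ L} : Language ℕ) = co m (CX x R) := by
      ext v
      constructor
      · rintro (⟨h3, h4⟩ | ⟨P, hP, o, ho, h5⟩)
        · refine ⟨h3, ?_⟩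
          rintro ⟨h6, n, rfl⟩
          exact h4 ⟨pre_mem hx n, h6⟩
        · rw [List.mem_singleton.1 hP, fac_cons] at ho
          obtain ⟨u, v', o', ⟨hu1, hu2⟩, hf, hv1, ho1⟩ := ho
          rw [fac_nil] at hf
          obtain ⟨rfl, rfl⟩ := hf
          rw [List.append_nil] at hv1 ho1
          have h6 : u.flatMap (FinalAux.ff 0) = u := MemAux.flat_id u
          rw [h6] at ho1
          subst hv1
          subst ho1
          refine ⟨fun a ha => hm a (hu1 a ha), ?_⟩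
          rintro ⟨-, n, hn⟩
          exact (hLR _ hu1 hu2).1 h5 n hn
      · rintro ⟨h3, h4⟩
        by_cases h5 : v ∈ SR S R
        · right
          refine ⟨_, List.mem_singleton.2 rfl, v, ?_, ?_⟩
          · rw [fac_cons]
            refine ⟨v, [], [], h5, fac_nil.2 ⟨rfl, rfl⟩, by simp, ?_⟩
            rw [List.append_nil]
            exact (MemAux.flat_id v).symm
          · exact (hLR v h5.1 h5.2).2 (fun n hn => h4 ⟨h5.2, n, hn⟩)
        · exact Or.inl ⟨h3, h5⟩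
    rw [← h2]
    exact h1
  · have h2 : co m (CX x R) = NR m S R := by
      ext v
      constructor
      · rintro ⟨h3, h4⟩
        refine ⟨h3, ?_⟩
        rintro ⟨h5, h6⟩
        have h7 := (hLR v h5 h6).not.1 (fun h => hne ⟨v, h⟩)
        push Not at h7
        exact h4 ⟨h6, h7⟩
      · rintro ⟨h3, h4⟩
        refine ⟨h3, ?_⟩
        rintro ⟨h6, n, rfl⟩
        exact h4 ⟨pre_mem hx n, h6⟩
    rw [h2]
    exact rat_mem hF (nr_rat m S hR)

end TopAux

open TopAux in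
theorem top {F : Set (Language ℕ)} (hF : IsMinimal F) (S : Finset ℕ) (x : ℕ → ℕ)
    (hx : ∀ i, x i ∈ S) (R : Language ℕ) (hR : R.IsRegular) (L : Language ℕ) (hL : L ∈ F)
    (hLR : ∀ v : List ℕ, (∀ a ∈ v, a ∈ S) → v ∈ R → (v ∈ L ↔ ∀ n : ℕ, v ≠ pre x n))
    (hi : {n : ℕ | pre x n ∈ R}.Infinite) :
    ∃ g : ℕ, ∀ N : ℕ, ∃ n : ℕ, N ≤ n ∧ n < N + g ∧ pre x n ∈ R := by
  by_contra hcon
  push Not at hcon
  have hm : ∀ a ∈ S, a < S.sup id + 2 := fun a ha =>
    lt_of_le_of_lt (Finset.le_sup (f := id) ha) (by simp)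
  have hxm : ∀ i, x i < S.sup id + 2 := fun i => hm _ (hx i)
  have hP : {n | PP x R n}.Infinite := by
    have h1 : {n : ℕ | pre x n ∈ R} ⊆ {0} ∪ {n | PP x R n} := by
      intro n hn
      rcases Nat.eq_zero_or_pos n with h | h
      · exact Or.inl h
      · exact Or.inr ⟨h, hn⟩
    intro hfin
    exact hi (((Set.finite_singleton 0).union hfin).subset h1)
  have hA := cx_mem hF.1 hm hx hR hL hLR
  have ha0 : [S.sup id + 1] ∈ co (S.sup id + 2) (CX x R) := by
    refine ⟨fun a ha => ?_, ?_⟩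
    · rw [List.mem_singleton.1 ha]
      omega
    · rintro ⟨-, n, hn⟩
      have h1 : S.sup id + 1 ∈ pre x n := by
        rw [← hn]
        exact List.mem_singleton.2 rfl
      have h2 := pre_mem (P := fun a => a ∈ S) hx n _ h1
      have h3 : id (S.sup id + 1) ≤ S.sup id := Finset.le_sup (f := id) h2
      exact absurd h3 (Nat.not_succ_le_self _)
  -- insertion of delimiters
  have hB := ins_mem hF.1 hR hA ha0
  have hw := bl_Ch0 hxm R
  have hu : ∀ n : ℕ, ∃ i : ℕ, n < (bl x R i).length := bl_unb hP hcon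
  have hC : co (S.sup id + 2 + 1) (CC (bl x R) (S.sup id + 2)) ∈ F := by
    have h2 : ({v : List ℕ | (∀ a ∈ v, a < S.sup id + 2 + 1) ∧
        (IB0 (S.sup id + 2) R v ∨ IB1 (S.sup id + 2) x R v)} : Language ℕ)
        = co (S.sup id + 2 + 1) (CC (bl x R) (S.sup id + 2)) := by
      ext v
      constructor
      · rintro ⟨h3, h4⟩
        refine ⟨h3, fun h5 => ?_⟩
        obtain ⟨h6, h7⟩ := insS hxm hP h5
        exact h4.elim h6 h7
      · rintro ⟨h3, h4⟩
        refine ⟨h3, ?_⟩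
        by_contra h5
        push Not at h5
        exact h4 (insC hxm hP h3 h5.1 h5.2)
    rw [← h2]
    exact hB
  -- records
  have hne : ∃ i, bl x R i ≠ [] := by
    obtain ⟨i, hi'⟩ := hu 0
    exact ⟨i, fun h => by rw [h] at hi'; exact absurd hi' (by simp)⟩
  have hD := rb_mem hF.1 hw hne hC
  have hE : co (BB (S.sup id + 2 + 1) + 2) (CR (S.sup id + 2 + 1) (bl x R)) ∈ F := by
    have h2 : ({v : List ℕ | (∀ a ∈ v, a < BB (S.sup id + 2 + 1) + 2) ∧
        RB (S.sup id + 2 + 1) (S.sup id + 2) (bl x R) v} : Language ℕ)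
        = co (BB (S.sup id + 2 + 1) + 2) (CR (S.sup id + 2 + 1) (bl x R)) := by
      ext v
      constructor
      · rintro ⟨h3, h4⟩
        exact ⟨h3, fun h5 => recS hw h5 h4⟩
      · rintro ⟨h3, h4⟩
        refine ⟨h3, ?_⟩
        by_contra h5
        exact h4 (recC hw h3 h5)
    rw [← h2]
    exact hD
  obtain ⟨w', hw', hCR⟩ := rec_chain hw hu
  rw [← hCR] at hE
  exact main hF hw' hE

end Pool.Agent.Lib.GCH
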