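import Pool.Agent.Lib.GCH.Defs2
import Pool.Agent.Lib.GCH.ChainB

/-!
# Facts on the words U w b n for arbitrary blocks (MP_f1c4ef_lc)
-/

set_option autoImplicit false

namespace Pool.Agent.Lib.GCH

theorem Ch.ch0 {m b : ℕ} {w : ℕ → List ℕ} (h : Ch m b w) : Ch0 m b w := ⟨h.bm, h.lt, h.nb⟩

theorem U_count0 {m b : ℕ} {w : ℕ → List ℕ} (h : Ch0 m b w) (n : ℕ) : (U w b n).count b = n := by
  induction n with
  | zero => rfl
  | succ n ih =>
    have h1 : (w n).count b = 0 := List.count_eq_zero.2 (h.nb n)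
    show (U w b n ++ (w n ++ [b])).count b = n + 1
    rw [List.count_append, List.count_append, ih, h1]
    simp

theorem U_lt0 {m b : ℕ} {w : ℕ → List ℕ} (h : Ch0 m b w) (n : ℕ) : ∀ a ∈ U w b n, a < m := by
  induction n with
  | zero => intro a ha; exact absurd ha List.not_mem_nil
  | succ n ih =>
    intro a ha
    rcases List.mem_append.1 ha with h1 | h1
    · exact ih a h1
    · rcases List.mem_append.1 h1 with h1 | h1
      · exact h.lt n a h1
      · rw [List.mem_singleton.1 h1]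
        exact h.bm

theorem U_inj0 {m b : ℕ} {w : ℕ → List ℕ} (h : Ch0 m b w) {n k : ℕ} (hnk : U w b n = U w b k) :
    n = k := by
  rw [← U_count0 h n, hnk, U_count0 h k]

theorem mem_last0 {m b : ℕ} {w : ℕ → List ℕ} (h : Ch0 m b w) {p x : List ℕ} (hp : EE b p)
    (hx : b ∉ x) (hm : p ++ x ++ [b] ∈ CC w b) : ∃ n, p = U w b n ∧ x = w n := by
  obtain ⟨n, hn⟩ := hm
  cases n with
  | zero => simp [U] at hn
  | succ n =>
    rw [U, ← List.append_assoc] at hn
    exact ⟨n, last_eq hp (U_EE w b n) hx (h.nb n) hn⟩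

theorem U_pre0 {m b : ℕ} {w : ℕ → List ℕ} (h : Ch0 m b w) {n : ℕ} {p s : List ℕ} (hp : EE b p)
    (hU : U w b n = p ++ s) : ∃ k, k ≤ n ∧ p = U w b k := by
  induction n generalizing s with
  | zero =>
    have := (List.append_eq_nil_iff.1 hU.symm).1
    exact ⟨0, le_rfl, this⟩
  | succ n ih =>
    rw [U] at hU
    rcases List.append_eq_append_iff.1 hU with ⟨t, h2, h3⟩ | ⟨t, h2, h3⟩
    · by_cases ht : t = []
      · subst ht
        exact ⟨n, Nat.le_succ n, by simpa using h2⟩
      · have hb : b ∈ t := by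
          rw [h2] at hp
          exact ChainBAux.mem_of_EE hp ht
        rcases List.eq_nil_or_concat s with h' | ⟨s', a, h'⟩
        · subst h'
          refine ⟨n + 1, le_rfl, ?_⟩
          rw [U, h2, h3, List.append_nil]
        · exfalso
          rw [List.concat_eq_append] at h'
          subst h'
          rw [← List.append_assoc] at h3
          have h4 := List.append_inj_left' h3 rfl
          exact h.nb n (by rw [h4]; exact List.mem_append_left _ hb)
    · obtain ⟨k, hk, hk2⟩ := ih h2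
      exact ⟨k, hk.trans (Nat.le_succ n), hk2⟩

theorem U_blk0 {m b : ℕ} {w : ℕ → List ℕ} (h : Ch0 m b w) {n : ℕ} {q x s : List ℕ} (hq : EE b q)
    (hx : b ∉ x) (hU : U w b n = q ++ x ++ [b] ++ s) : ∃ j, q = U w b j ∧ x = w j := by
  obtain ⟨k, -, hk⟩ := U_pre0 h (p := q ++ x ++ [b]) (s := s) (Or.inr ⟨_, rfl⟩) hU
  exact mem_last0 h hq hx ⟨k, hk⟩

theorem notin0 {m b : ℕ} {w : ℕ → List ℕ} (h : Ch0 m b w) (hw : ∃ i, w i ≠ []) :
    ∃ a0 : List ℕ, (∀ a ∈ a0, a < m) ∧ a0 ∉ CC w b := by
  obtain ⟨i, hi⟩ := hw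
  refine ⟨List.replicate (i + 1) b, fun a ha => ?_, ?_⟩
  · rw [List.eq_of_mem_replicate ha]
    exact h.bm
  · rintro ⟨n, hn⟩
    have h1 := U_count0 h n
    rw [← hn, List.count_replicate_self] at h1
    subst h1
    rcases hw' : w i with _ | ⟨a, u⟩
    · exact hi hw'
    · have h2 : a ∈ List.replicate (i + 1) b := by
        rw [hn]
        show a ∈ U w b i ++ (w i ++ [b])
        rw [hw']
        simp
      have h3 := List.eq_of_mem_replicate h2
      apply h.nb i
      rw [hw', h3]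
      exact List.mem_cons_self

end Pool.Agent.Lib.GCH
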